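import Pool.Agent.PHW5.Fin5
import Pool.Agent.PHW.FoldF

/-!
PHW5: the output of section S5 in the form needed by the fold lemma.
-/

set_option autoImplicit false

namespace HexObs

open Complex Finset ENNReal

namespace Out5

/-- covering of a set of pairs by finitely many product type sets -/
theorem W_cover {ι : Type*} (I : Finset ι) (S : Set (List Bool × List Bool)) (F : List Bool → List Bool → ℝ≥0∞)
    (A : ι → Set (List Bool)) (B : ι → List Bool → Set (List Bool)) (G : ι → List Bool → List Bool → ℝ≥0∞)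
    (h : ∀ s t, (s, t) ∈ S → ∃ i ∈ I, s ∈ A i ∧ t ∈ B i s ∧ F s t ≤ G i s t) :
    ∑' p : {p : List Bool × List Bool // p ∈ S}, wE p.1.1 * wE p.1.2 * F p.1.1 p.1.2 ≤
      ∑ i ∈ I, gfF (A i) (fun s => gfF (B i s) (fun t => G i s t)) := by
  classical
  have h1 : ∀ i, gfF (A i) (fun s => gfF (B i s) (fun t => G i s t)) =
      ∑' p : List Bool × List Bool, (A i).indicator (fun s => wE s * (B i s).indicator (fun t => wE t * G i s t) p.2) p.1 := by
    intro i
    rw [ENNReal.tsum_prod']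
    unfold gfF
    rw [tsum_subtype (A i) (fun s => wE s * ∑' t : {t : List Bool // t ∈ B i s}, wE t.1 * G i s t.1)]
    refine tsum_congr (fun s => ?_)
    by_cases hs : s ∈ A i
    · simp only [Set.indicator_of_mem hs]
      rw [ENNReal.tsum_mul_left]
      congr 1
      exact tsum_subtype (B i s) (fun t => wE t * G i s t)
    · simp only [Set.indicator_of_notMem hs, tsum_zero]
  simp_rw [h1]
  rw [← Summable.tsum_finsetSum (fun i _ => ENNReal.summable)]
  rw [tsum_subtype S (fun p => wE p.1 * wE p.2 * F p.1 p.2)]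
  refine ENNReal.tsum_le_tsum (fun p => ?_)
  by_cases hp : p ∈ S
  · rw [Set.indicator_of_mem hp]
    obtain ⟨i, hi, ha, hb, hG⟩ := h p.1 p.2 hp
    refine le_trans ?_ (Finset.single_le_sum (fun _ _ => bot_le) hi)
    simp only [Set.indicator_of_mem ha, Set.indicator_of_mem hb]
    rw [mul_assoc]
    gcongr
  · rw [Set.indicator_of_notMem hp]
    exact bot_le

theorem pairs_union (S S1 S2 : Set (List Bool × List Bool)) (f : List Bool × List Bool → ℝ≥0∞)
    (h : ∀ p ∈ S, p ∈ S1 ∨ p ∈ S2) :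
    ∑' p : {p : List Bool × List Bool // p ∈ S}, f p.1 ≤ ∑' p : {p : List Bool × List Bool // p ∈ S1}, f p.1 +
      ∑' p : {p : List Bool × List Bool // p ∈ S2}, f p.1 := by
  classical
  rw [tsum_subtype S f, tsum_subtype S1 f, tsum_subtype S2 f, ← ENNReal.tsum_add]
  refine ENNReal.tsum_le_tsum (fun p => ?_)
  by_cases hp : p ∈ S
  · rw [Set.indicator_of_mem hp]
    rcases h p hp with h1 | h1
    · rw [Set.indicator_of_mem h1]
      exact le_self_add
    · rw [Set.indicator_of_mem h1]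
      exact le_add_self
  · rw [Set.indicator_of_notMem hp]
    exact bot_le

theorem gfF_mul_left (A : Set (List Bool)) (c : ℝ≥0∞) (F : List Bool → ℝ≥0∞) :
    gfF A (fun s => c * F s) = c * gfF A F := by
  unfold gfF
  rw [← ENNReal.tsum_mul_left]
  exact tsum_congr (fun t => by ring)

theorem gfF2_mul_left (A : Set (List Bool)) (B : List Bool → Set (List Bool)) (c : ℝ≥0∞) (F : List Bool → List Bool → ℝ≥0∞) :
    gfF A (fun s => gfF (B s) (fun t => c * F s t)) = c * gfF A (fun s => gfF (B s) (fun t => F s t)) := by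
  have : (fun s => gfF (B s) (fun t => c * F s t)) = fun s => c * gfF (B s) (fun t => F s t) := by
    funext s
    exact gfF_mul_left _ _ _
  rw [this, gfF_mul_left]

theorem ow_eq (δ : ℝ) (n : ℕ) (s t : List Bool) :
    ENNReal.ofReal ((1 + ((|latE s - latE t - 2| : ℤ) : ℝ) / 2 ^ n) ^ δ) = fw δ n (offs s t) := by
  unfold fw offs
  have : (|latE s - latE t - 2| : ℤ) = ((latE t + 2 - latE s).natAbs : ℤ) := by
    rw [Int.natCast_natAbs, ← abs_neg]
    congr 1
    ring
  rw [this, Int.cast_natCast]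

theorem fw_le {δ e : ℝ} (h0 : 0 ≤ δ) (h1 : δ ≤ e) (he : e ≤ 1) {n m : ℕ} (hm : m ≤ n + 1) (x : ℕ) :
    fw δ n x ≤ ENNReal.ofReal 2 * fw e m x := by
  unfold fw
  rw [← ENNReal.ofReal_mul (by norm_num)]
  apply ENNReal.ofReal_le_ofReal
  have hx : (0 : ℝ) ≤ x := Nat.cast_nonneg x
  have a1 : (1 : ℝ) ≤ 1 + (x : ℝ) / 2 ^ n := by
    have : 0 ≤ (x : ℝ) / 2 ^ n := by positivity
    linarith
  have a2 : (1 : ℝ) + (x : ℝ) / 2 ^ n ≤ 2 * (1 + (x : ℝ) / 2 ^ m) := by
    have e1 : (2 : ℝ) ^ m ≤ 2 ^ (n + 1) := pow_le_pow_right₀ (by norm_num) hm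
    have e2 : (x : ℝ) / 2 ^ (n + 1) ≤ (x : ℝ) / 2 ^ m := div_le_div_of_nonneg_left hx (by positivity) e1
    have e3 : (x : ℝ) / 2 ^ n = 2 * ((x : ℝ) / 2 ^ (n + 1)) := by
      rw [pow_succ]
      field_simp
    rw [e3]
    linarith
  have a3 : (0 : ℝ) ≤ 1 + (x : ℝ) / 2 ^ m := by positivity
  calc (1 + (x : ℝ) / 2 ^ n) ^ δ ≤ (1 + (x : ℝ) / 2 ^ n) ^ e := Real.rpow_le_rpow_of_exponent_le a1 h1
    _ ≤ (2 * (1 + (x : ℝ) / 2 ^ m)) ^ e := Real.rpow_le_rpow (by positivity) a2 (by linarith)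
    _ = 2 ^ e * (1 + (x : ℝ) / 2 ^ m) ^ e := Real.mul_rpow (by norm_num) a3
    _ ≤ 2 * (1 + (x : ℝ) / 2 ^ m) ^ e := by
        apply mul_le_mul_of_nonneg_right _ (Real.rpow_nonneg a3 e)
        calc (2 : ℝ) ^ e ≤ 2 ^ (1 : ℝ) := Real.rpow_le_rpow_of_exponent_le (by norm_num) he
          _ = 2 := by norm_num

theorem mem_blk_of_Bl {k h : ℕ} (hb : Fld.Bl k h) : h ∈ blk (k + 1) ∨ (h = 0 ∧ k = 0) := by
  obtain ⟨h1, h2⟩ := hb
  unfold blk
  rw [Finset.mem_Ico]
  have e : 2 ^ (k + 1) / 2 = 2 ^ k := by rw [pow_succ]; omega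
  rw [e]
  rcases h2 with h2 | h2
  · exact Or.inl ⟨h2, h1⟩
  · subst h2
    rcases Nat.eq_zero_or_pos h with h3 | h3
    · exact Or.inr ⟨h3, rfl⟩
    · exact Or.inl ⟨by rw [pow_zero]; omega, h1⟩

theorem Bl_inj {k n h : ℕ} (h1 : Fld.Bl k h) (h2 : Fld.Bl n h) : k = n := by
  obtain ⟨a1, a2⟩ := h1
  obtain ⟨b1, b2⟩ := h2
  by_contra hne
  rcases Nat.lt_or_gt_of_ne hne with hlt | hlt
  · rcases b2 with b2 | b2
    · have : 2 ^ (k + 1) ≤ 2 ^ n := Nat.pow_le_pow_right (by norm_num) (by omega)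
      omega
    · omega
  · rcases a2 with a2 | a2
    · have : 2 ^ (n + 1) ≤ 2 ^ k := Nat.pow_le_pow_right (by norm_num) (by omega)
      omega
    · omega

theorem zero_mem_blk : (0 : ℕ) ∈ blk 0 := by
  unfold blk
  simp

theorem FC_self {y : ℕ} {t : List Bool} (h : t ∈ FC y y) : t ∈ Brd y := h.1

theorem FC_succ {y c : ℕ} {t : List Bool} (h : t ∈ FC y c) (hyc : y < c) : t ∈ FC (y + 1) c :=
  ⟨h.1, hyc, fun d hd hd' => h.2.2 d (by omega) hd'⟩

end Out5

open Out5 in
theorem S5_out : Fld.S5 := by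
  classical
  refine ⟨?_, ?_⟩
  · obtain ⟨δ, C, γ, hδ, hδ', hC, hγ, hS⟩ := S5H
    obtain ⟨C', hC', hE⟩ := off_eq
    refine ⟨8 * C + 8 * C' + 1, (2 : ℝ) ^ (-γ), δ, by positivity, by positivity,
      Real.rpow_lt_one_of_one_lt_of_neg (by norm_num) (by linarith), hδ, ?_⟩
    intro k n hkn
    -- the two types of states
    obtain ⟨S1, hS1⟩ : ∃ S1 : Set (List Bool × List Bool), S1 = {p | ∃ y c, Fld.Bl k y ∧ Fld.Bl n c ∧ p.1 ∈ Brd y ∧
      p.2 ∈ FC (y + 1) c ∧ V2 p.1 p.2} := ⟨_, rfl⟩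
    obtain ⟨S2, hS2⟩ : ∃ S2 : Set (List Bool × List Bool), S2 = {p | ∃ y, Fld.Bl k y ∧ Fld.Bl n y ∧ p.1 ∈ Brd y ∧
      p.2 ∈ Brd y ∧ V2 p.1 p.2} := ⟨_, rfl⟩
    have hcov : Fld.Vw δ k n ≤
        ∑' p : {p : List Bool × List Bool // p ∈ S1}, wE p.1.1 * wE p.1.2 * fw δ n (offs p.1.1 p.1.2) +
        ∑' p : {p : List Bool × List Bool // p ∈ S2}, wE p.1.1 * wE p.1.2 * fw δ n (offs p.1.1 p.1.2) := by
      unfold Fld.Vw
      simp_rw [ow_eq]
      refine pairs_union _ S1 S2 (fun p => wE p.1 * wE p.2 * fw δ n (offs p.1 p.2)) ?_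
      rintro ⟨s, t⟩ ⟨y, c, hy, hc, hs, ht, hv⟩
      have hyc : y ≤ c := ht.2.1
      rcases Nat.lt_or_ge y c with hlt | hge
      · left
        rw [hS1]
        exact ⟨y, c, hy, hc, hs, FC_succ ht hlt, hv⟩
      · right
        have : c = y := by omega
        subst this
        rw [hS2]
        exact ⟨c, hy, hc, hs, ht.1, hv⟩
    have hρ : ∀ m : ℕ, n - k ≤ m → (2 : ℝ) ^ (-(γ * (m : ℝ))) ≤ ((2 : ℝ) ^ (-γ)) ^ (n - k) := by
      intro m hm
      rw [← Real.rpow_natCast, ← Real.rpow_mul (by norm_num)]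
      apply Real.rpow_le_rpow_of_exponent_le (by norm_num)
      have : ((n - k : ℕ) : ℝ) ≤ m := by exact_mod_cast hm
      nlinarith
    -- first type
    have hT1 : ∑' p : {p : List Bool × List Bool // p ∈ S1}, wE p.1.1 * wE p.1.2 * fw δ n (offs p.1.1 p.1.2) ≤
        ENNReal.ofReal (4 * C * ((2 : ℝ) ^ (-γ)) ^ (n - k)) := by
      refine (W_cover ((({0, k + 1} : Finset ℕ).sigma (fun j => (blk j) ×ˢ (blk (n + 1))))) S1
        (fun s t => fw δ n (offs s t)) (fun i => Brd i.2.1)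
        (fun i s => {t | t ∈ FC (i.2.1 + 1) i.2.2 ∧ V2 s t})
        (fun i s t => ENNReal.ofReal 2 * fw δ (n + 1) (offs s t)) ?_).trans ?_
      · intro s t hp
        rw [hS1] at hp
        obtain ⟨y, c, hy, hc, hs, ht, hv⟩ := hp
        have hyc : y + 1 ≤ c := ht.2.1
        have hc' : c ∈ blk (n + 1) := by
          rcases mem_blk_of_Bl hc with h | h
          · exact h
          · omega
        rcases mem_blk_of_Bl hy with h | h
        · refine ⟨⟨k + 1, (y, c)⟩, ?_, hs, ⟨ht, hv⟩, fw_le hδ.le le_rfl (by linarith) le_rfl _⟩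
          rw [Finset.mem_sigma]
          exact ⟨by simp, Finset.mem_product.2 ⟨h, hc'⟩⟩
        · refine ⟨⟨0, (y, c)⟩, ?_, hs, ⟨ht, hv⟩, fw_le hδ.le le_rfl (by linarith) le_rfl _⟩
          rw [Finset.mem_sigma]
          refine ⟨by simp, Finset.mem_product.2 ⟨?_, hc'⟩⟩
          rw [h.1]
          exact zero_mem_blk
      · rw [Finset.sum_sigma]
        have hb : ∀ j ∈ ({0, k + 1} : Finset ℕ), ∑ i ∈ (blk j) ×ˢ (blk (n + 1)), gfF (Brd i.1) (fun s =>
            gfF {t | t ∈ FC (i.1 + 1) i.2 ∧ V2 s t} (fun t => ENNReal.ofReal 2 * fw δ (n + 1) (offs s t))) ≤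
            ENNReal.ofReal (2 * C * ((2 : ℝ) ^ (-γ)) ^ (n - k)) := by
          intro j hj
          have hjn : j ≤ n + 1 := by
            simp only [Finset.mem_insert, Finset.mem_singleton] at hj
            omega
          have hjk : n - k ≤ n + 1 - j := by
            simp only [Finset.mem_insert, Finset.mem_singleton] at hj
            omega
          rw [Finset.sum_product]
          simp_rw [gfF2_mul_left, ← Finset.mul_sum]
          refine (mul_le_mul_right (hS j (n + 1) hjn) _).trans ?_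
          rw [← ENNReal.ofReal_mul (by norm_num)]
          apply ENNReal.ofReal_le_ofReal
          have h3 := hρ (n + 1 - j) hjk
          have h4 : ((n + 1 - j : ℕ) : ℝ) = ((n + 1 : ℕ) : ℝ) - j := by
            rw [Nat.cast_sub hjn]
          rw [h4] at h3
          calc 2 * (C * (2 : ℝ) ^ (-(γ * (((n + 1 : ℕ) : ℝ) - j)))) ≤ 2 * (C * ((2 : ℝ) ^ (-γ)) ^ (n - k)) := by
                gcongr
            _ = _ := by ring
        refine (Finset.sum_le_card_nsmul _ _ _ hb).trans ?_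
        have hcard : ({0, k + 1} : Finset ℕ).card = 2 := by
          rw [Finset.card_pair]
          omega
        rw [hcard, nsmul_eq_mul, show ((2 : ℕ) : ℝ≥0∞) = ENNReal.ofReal 2 by simp, ← ENNReal.ofReal_mul (by norm_num)]
        apply ENNReal.ofReal_le_ofReal
        apply le_of_eq
        ring
    -- second type
    have hT2 : ∑' p : {p : List Bool × List Bool // p ∈ S2}, wE p.1.1 * wE p.1.2 * fw δ n (offs p.1.1 p.1.2) ≤
        ENNReal.ofReal (4 * C' * ((2 : ℝ) ^ (-γ)) ^ (n - k)) := by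
      by_cases hkn' : k = n
      · subst hkn'
        refine (W_cover ((({0, k + 1} : Finset ℕ).sigma (fun j => blk j))) S2
          (fun s t => fw δ k (offs s t)) (fun i => Brd i.2)
          (fun i s => {t | t ∈ Brd i.2 ∧ V2 s t})
          (fun i s t => ENNReal.ofReal 2 * fw 1 i.1 (offs s t)) ?_).trans ?_
        · intro s t hp
          rw [hS2] at hp
          obtain ⟨y, hy, hc, hs, ht, hv⟩ := hp
          rcases mem_blk_of_Bl hy with h | h
          · refine ⟨⟨k + 1, y⟩, ?_, hs, ⟨ht, hv⟩, fw_le hδ.le (by linarith) le_rfl le_rfl _⟩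
            rw [Finset.mem_sigma]
            exact ⟨by simp, h⟩
          · refine ⟨⟨0, y⟩, ?_, hs, ⟨ht, hv⟩, fw_le hδ.le (by linarith) le_rfl (Nat.zero_le _) _⟩
            rw [Finset.mem_sigma]
            refine ⟨by simp, ?_⟩
            rw [h.1]
            exact zero_mem_blk
        · rw [Finset.sum_sigma]
          have hb : ∀ j ∈ ({0, k + 1} : Finset ℕ), ∑ i ∈ blk j, gfF (Brd i) (fun s =>
              gfF {t | t ∈ Brd i ∧ V2 s t} (fun t => ENNReal.ofReal 2 * fw 1 j (offs s t))) ≤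
              ENNReal.ofReal (2 * C') := by
            intro j hj
            simp_rw [gfF2_mul_left, ← Finset.mul_sum]
            refine (mul_le_mul_right (hE j) _).trans ?_
            rw [← ENNReal.ofReal_mul (by norm_num)]
          refine (Finset.sum_le_card_nsmul _ _ _ hb).trans ?_
          have hcard : ({0, k + 1} : Finset ℕ).card = 2 := by
            rw [Finset.card_pair]
            omega
          rw [hcard, nsmul_eq_mul, show ((2 : ℕ) : ℝ≥0∞) = ENNReal.ofReal 2 by simp, ← ENNReal.ofReal_mul (by norm_num)]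
          apply ENNReal.ofReal_le_ofReal
          simp only [Nat.sub_self, pow_zero]
          apply le_of_eq
          ring
      · have : IsEmpty {p : List Bool × List Bool // p ∈ S2} := by
          constructor
          rintro ⟨p, hp⟩
          rw [hS2] at hp
          obtain ⟨y, hy, hc, _⟩ := hp
          exact hkn' (Bl_inj hy hc)
        rw [tsum_empty]
        exact bot_le
    refine (hcov.trans (add_le_add hT1 hT2)).trans ?_
    have hp : (0 : ℝ) ≤ ((2 : ℝ) ^ (-γ)) ^ (n - k) := by positivity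
    rw [← ENNReal.ofReal_add (by positivity) (by positivity)]
    apply ENNReal.ofReal_le_ofReal
    nlinarith
  · obtain ⟨C, hC, h⟩ := th_bound
    exact ⟨C, hC, fun k => h (2 ^ k) Nat.one_le_two_pow⟩

end HexObs
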