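import Pool.Agent.PHW5.SWOne
import Pool.Agent.PHW.AvgV0

/-!
PHW5, S5f: (B'), Lam is bounded by the states below (compare PHW/JumpV.lean and PHW/AvgV0.lean).
-/

set_option autoImplicit false

namespace HexObs

open Complex Finset ENNReal

open Base5

namespace AvgB

/-- the last cut of y below v is not above the last cut of x below v -/
def Rl (v : ℕ) (x y : List Bool) : Prop := ∀ c, c ≤ v → Cut y c → ∃ c', c ≤ c' ∧ c' ≤ v ∧ Cut x c'

lemma Rl_total (v : ℕ) (x y : List Bool) : Rl v x y ∨ Rl v y x := by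
  by_cases h : Rl v x y
  · exact Or.inl h
  · right
    unfold Rl at h ⊢
    push Not at h
    obtain ⟨c, hc, hy, hx⟩ := h
    intro e he hex
    refine ⟨c, ?_, hc, hy⟩
    by_contra hlt
    exact hx e (by omega) he hex

lemma Rl_not {v : ℕ} {x y : List Bool} (h : Rl v (x.map not) (y.map not)) : Rl v x y := by
  intro c hc hy
  obtain ⟨c', h1, h2, h3⟩ := h c hc (Cut_not hy)
  exact ⟨c', h1, h2, Cut_not_iff.1 h3⟩

/-- irreducible words of height at least m -/
def JP (m : ℕ) : Set (List Bool) := {p | ∃ r, m ≤ r ∧ p ∈ Irr r}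

lemma gf_JP {m : ℕ} (hm : 1 ≤ m) : gf (JP m) ≤ ENNReal.ofReal (KK' m) := by
  classical
  have h1 : JP m ⊆ ⋃ r : ℕ, {p | m ≤ r ∧ p ∈ Irr r} := by
    rintro p ⟨r, hr, hp⟩
    exact Set.mem_iUnion.2 ⟨r, hr, hp⟩
  refine (gf_mono h1).trans ((ENNReal.tsum_iUnion_le_tsum wE (fun r => {p | m ≤ r ∧ p ∈ Irr r})).trans ?_)
  refine ENNReal.tsum_le_of_sum_range_le fun n => ?_
  have h2 : ∀ r, (∑' x : {p | m ≤ r ∧ p ∈ Irr r}, wE x.1) ≤ if m ≤ r then kap' r else 0 := by
    intro r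
    split_ifs with h
    · exact gf_mono fun p hp => hp.2
    · have e : {p : List Bool | m ≤ r ∧ p ∈ Irr r} = ∅ := by
        ext p
        rw [Set.mem_empty_iff_false, iff_false]
        exact fun hp => h hp.1
      rw [e]
      simp
  refine (Finset.sum_le_sum fun r _ => h2 r).trans ?_
  rw [← Finset.sum_filter]
  obtain ⟨R, rfl⟩ : ∃ R, m = R + 1 := ⟨m - 1, by omega⟩
  refine le_trans (Finset.sum_le_sum_of_subset ?_) (sum_kap_gt R n)
  intro r hr
  rw [Finset.mem_filter, Finset.mem_range] at hr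
  rw [Finset.mem_Ico]
  omega

/-- the tail of a leg behind its last cut i below v -/
def TT (v s i : ℕ) : Set (List Bool) :=
  {w | ∃ p u : List Bool, p ∈ JP (v + 1 - i) ∧ u ∈ {u | ∃ r, p ∈ Irr r ∧ u ∈ LG (s - (i + r))} ∧ w = p ++ u}

lemma gf_TT {v s i : ℕ} (hi : i ≤ v) : gf (TT v s i) ≤ ENNReal.ofReal (KK' (v + 1 - i)) := by
  rw [← gfF_one]
  refine (gfF_dec (A := JP (v + 1 - i)) (B := fun p => {u | ∃ r, p ∈ Irr r ∧ u ∈ LG (s - (i + r))}) (fun _ => 1) ?_).trans ?_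
  · rintro w ⟨p, u, hp, hu, hw⟩
    exact ⟨p, u, hp, hu, hw⟩
  · refine le_trans ?_ (gf_JP (m := v + 1 - i) (by omega))
    rw [← one_mul (gf (JP (v + 1 - i)))]
    refine gfF_le _ ?_
    rintro p ⟨r, _, hp⟩
    rw [gfF_one]
    refine (gf_mono ?_).trans (gf_LG_le (s - (i + r)))
    rintro u ⟨r', hp', hu⟩
    rw [Brd_height hp.1 hp'.1]
    exact hu

/-- no cut inside the piece -/
lemma no_cut {i r c : ℕ} {x p u : List Bool} {b : ℕ} (hx : x ∈ Brd i) (hp : p ∈ Irr r) (hu : u ∈ Brd b) (h1 : i < c)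
    (h2 : c < i + r) : ¬ Cut (x ++ (p ++ u)) c := by
  rintro ⟨y, w, b', hy, hw, he⟩
  rw [← List.append_assoc] at he
  obtain ⟨z, hz, e1, e2⟩ := cut_nested hy (Brd_append hx hp.1) hw hu h2.le he.symm
  have h3 : x ++ p ∈ FC (i + 1) (i + r) := LG_of_piece (a := i) (by omega) (by omega) hx hp
  exact h3.2.2 c (by omega) h2 ⟨y, z, _, hy, hz, e1⟩

/-- right walks stopped above i, with height more than v -/
def YY (v i : ℕ) : Set (List Bool) := {y | y ∈ LG (i + 1) ∧ ∃ d, v < d ∧ y ∈ Brd d}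

/-- one half -/
lemma half {v s : ℕ} (hv : v < s) :
    g2 (LG s) (LG s) (fun x y => V2 x y ∧ Rl v x y) ≤
      ∑ i ∈ Finset.range (v + 1), g2 (Brd i) (YY v i) V2 * ENNReal.ofReal (KK' (v + 1 - i)) := by
  classical
  rw [g2_gfF]
  refine (gfF_dec_sum (Finset.range (v + 1)) (A := fun i => Brd i) (B := fun i _ => TT v s i) _ ?_).trans ?_
  · rintro x ⟨j, hj⟩
    obtain ⟨i, r, a, p, u, hi, hir, hirj, ha, hp, hu, rfl⟩ := jump_dec (s := v) (n := j) (by have := hj.2.1; omega) hj.1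
    refine ⟨i, Finset.mem_range.2 (by omega), a, p ++ u, ha, ⟨p, u, ⟨r, by omega, hp⟩, ⟨r, hp, ?_⟩, rfl⟩,
      by rw [List.append_assoc]⟩
    refine ⟨j - i - r, hu, by have := hj.2.1; omega, ?_⟩
    rintro c hc1 hc2 ⟨y, w, b, hy, hw, hyw⟩
    apply hj.2.2 (i + r + c) (by omega) (by omega)
    refine ⟨a ++ p ++ y, w, b, Brd_append (Brd_append ha hp.1) hy, hw, ?_⟩
    rw [hyw]
    simp only [List.append_assoc]
  · refine Finset.sum_le_sum fun i hi => ?_
    rw [Finset.mem_range] at hi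
    rw [g2_gfF (Brd i), mul_comm, ← gfF_mul]
    refine gfF_mono le_rfl fun x1 hx1 => ?_
    refine (gfF_le _ (c := gf {y | y ∈ YY v i ∧ V2 x1 y}) ?_).trans ?_
    · rintro w ⟨p, u, ⟨r0, hr0, hp0⟩, ⟨r, hp, m, hm⟩, rfl⟩
      have hr : r0 = r := Brd_height hp0.1 hp.1
      rw [← gfF_one]
      refine (gfF_dec (A := {y | y ∈ YY v i ∧ V2 x1 y}) (B := fun t1 => {y | ∃ c, t1 ∈ FC (i + 1) c ∧ y ∈ LG (s - c)})
        (fun _ => 1) ?_).trans ?_
      · rintro y ⟨hy, hv2, hR⟩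
        obtain ⟨d, y1, y2, h1, h2, rfl⟩ := LG_dec (s' := i + 1) (by omega) hy
        obtain ⟨m', hm'⟩ := h2
        have hvd : v < d := by
          by_contra hle
          obtain ⟨c', hc1, hc2, hc3⟩ := hR d (by omega) ⟨y1, y2, _, h1.1, hm'.1, rfl⟩
          have := h1.2.1
          exact no_cut hx1 hp hm.1 (by omega) (by omega) hc3
        exact ⟨y1, y2, ⟨⟨⟨d, h1⟩, d, hvd, h1.1⟩, V2_prefix hx1 (Brd_append hp.1 hm.1) h1.1 hm'.1 hv2⟩,
          ⟨d, h1, ⟨m', hm'⟩⟩, rfl⟩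
      · rw [← one_mul (gf {y | y ∈ YY v i ∧ V2 x1 y})]
        refine gfF_le _ fun y1 _ => ?_
        rw [gfF_one]
        exact gf_rest_le (i + 1) s y1
    · rw [mul_comm]
      exact mul_le_mul_left (gf_TT (by omega)) _

end AvgB

open AvgB

/-- v < s. i, i' = last cuts ≤ v of the two legs, i ≥ i' by mirror symmetry (factor 2): left leg x ++ p ++ u, x in Brd i, p in Irr r,
v < i + r, u the rest; right leg y ++ u', y in FC (i + 1) d, d > v because the right leg has no cut in (i, v]. Total weight of p, u, u'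
at most KK' (v + 1 - i). -/
theorem th_jump {v s : ℕ} (hv : v < s) :
    th s ≤ 2 * ∑ i ∈ Finset.range (v + 1), g2 (Brd i) {y | y ∈ LG (i + 1) ∧ ∃ d, v < d ∧ y ∈ Brd d} V2 *
      ENNReal.ofReal (KK' (v + 1 - i)) := by
  have h1 : th s ≤ g2 (LG s) (LG s) (fun x y => V2 x y ∧ Rl v x y) + g2 (LG s) (LG s) (fun x y => V2 x y ∧ Rl v y x) := by
    unfold th g2
    refine le_trans (ENNReal.tsum_mono_subtype (fun p : List Bool × List Bool => wE p.1 * wE p.2) ?_)
      (ENNReal.tsum_union_le (fun p : List Bool × List Bool => wE p.1 * wE p.2) _ _)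
    rintro p ⟨hp1, hp2, hp3⟩
    rcases Rl_total v p.1 p.2 with h | h
    · exact Or.inl ⟨hp1, hp2, hp3, h⟩
    · exact Or.inr ⟨hp1, hp2, hp3, h⟩
  have h2 : g2 (LG s) (LG s) (fun x y => V2 x y ∧ Rl v y x) ≤ g2 (LG s) (LG s) (fun x y => V2 x y ∧ Rl v x y) := by
    rw [g2_mirror, LG_not]
    refine g2_mono le_rfl le_rfl fun x y _ _ h => ?_
    refine ⟨?_, Rl_not h.2⟩
    have := V2_not h.1
    rwa [map_not_not, map_not_not] at this
  refine h1.trans ((add_le_add le_rfl h2).trans ?_)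
  rw [← two_mul]
  exact mul_le_mul_right (half hv) _

namespace AvgB

/-- the states by their short walk, level N -/
noncomputable def HH (k i : ℕ) : ℝ≥0∞ :=
  if Nat.size i + 2 ≤ k then g2 (Brd i) (YY (2 ^ (k - 1)) i) V2 else g2 (Brd i) (LG (i + 1)) V2

lemma le_HH {k v i : ℕ} (hv : 2 ^ (k - 1) ≤ v) : g2 (Brd i) (YY v i) V2 ≤ HH k i := by
  unfold HH
  split_ifs
  · exact g2_mono le_rfl (fun y hy => ⟨hy.1, by obtain ⟨d, hd, h⟩ := hy.2; exact ⟨d, by omega, h⟩⟩) fun _ _ _ _ h => h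
  · exact g2_mono le_rfl (fun y hy => hy.1) fun _ _ _ _ h => h

/-- the states with a long right walk, block j -/
lemma far_le {k j : ℕ} (hk : 1 ≤ k) : ∑ i ∈ blk j, g2 (Brd i) (YY (2 ^ (k - 1)) i) V2 ≤ ∑' n : ℕ, VN j (k + n) := by
  classical
  unfold VN
  rw [Summable.tsum_finsetSum (fun _ _ => ENNReal.summable)]
  refine Finset.sum_le_sum fun a _ => ?_
  simp_rw [g2_gfF (Brd a), sum_gfF]
  have e1 : ∑' n : ℕ, gfF (Brd a) (fun s => ∑ d ∈ blk (k + n), gf {t | t ∈ FC (a + 1) d ∧ V2 s t}) =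
      gfF (Brd a) (fun s => ∑' n : ℕ, ∑ d ∈ blk (k + n), gf {t | t ∈ FC (a + 1) d ∧ V2 s t}) := by
    unfold gfF
    rw [ENNReal.tsum_comm]
    refine tsum_congr fun s => ?_
    rw [ENNReal.tsum_mul_left]
  rw [e1]
  refine gfF_mono le_rfl fun s _ => ?_
  have h1 : {t | t ∈ YY (2 ^ (k - 1)) a ∧ V2 s t} ⊆ ⋃ n : ℕ, ⋃ d ∈ blk (k + n), {t | t ∈ FC (a + 1) d ∧ V2 s t} := by
    rintro t ⟨⟨⟨d, hd⟩, d', hd', ht⟩, hv⟩
    have hdd : d = d' := Brd_height hd.1 ht
    have hsz : k ≤ Nat.size d := by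
      have : k - 1 < Nat.size d := Nat.lt_size.2 (by omega)
      omega
    refine Set.mem_iUnion.2 ⟨Nat.size d - k, Set.mem_biUnion (?_ : d ∈ blk (k + (Nat.size d - k))) ⟨hd, hv⟩⟩
    rw [mem_blk]
    omega
  refine (gf_mono h1).trans ?_
  refine (ENNReal.tsum_iUnion_le_tsum wE (fun n => ⋃ d ∈ blk (k + n), {t | t ∈ FC (a + 1) d ∧ V2 s t})).trans ?_
  exact ENNReal.tsum_le_tsum fun n => SWOne.gf_biUnion_le' _ _

lemma sum_HH {k : ℕ} (hk : 1 ≤ k) : ∑ i ∈ Finset.range (2 ^ k), HH k i ≤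
    VS (k - 1) + VS k + ∑ j ∈ Finset.range (k - 1), ∑' n : ℕ, VN j (k + n) := by
  classical
  have h1 : ∑ i ∈ Finset.range (2 ^ k), HH k i = ∑ j ∈ Finset.range (k + 1), ∑ i ∈ blk j, HH k i := by
    rw [← Finset.sum_fiberwise_of_maps_to (s := Finset.range (2 ^ k)) (t := Finset.range (k + 1)) (g := Nat.size)]
    · refine Finset.sum_congr rfl fun j hj => ?_
      rw [Finset.mem_range] at hj
      refine Finset.sum_congr ?_ fun _ _ => rfl
      ext i
      rw [Finset.mem_filter, mem_blk, Finset.mem_range]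
      constructor
      · exact fun h => h.2
      · intro h
        refine ⟨?_, h⟩
        rw [← Nat.size_le]
        omega
    · intro i hi
      rw [Finset.mem_range] at hi ⊢
      have := Nat.size_le.2 hi
      omega
  have h2 : ∀ j, k ≤ j + 1 → ∑ i ∈ blk j, HH k i ≤ VS j := by
    intro j hj
    unfold VS
    refine Finset.sum_le_sum fun i hi => ?_
    unfold HH
    rw [mem_blk] at hi
    rw [if_neg (by omega)]
  have h3 : ∀ j, j + 2 ≤ k → ∑ i ∈ blk j, HH k i ≤ ∑' n : ℕ, VN j (k + n) := by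
    intro j hj
    refine le_trans (Finset.sum_le_sum fun i hi => ?_) (far_le hk)
    unfold HH
    rw [mem_blk] at hi
    rw [if_pos (by omega)]
  rw [h1]
  obtain ⟨m, rfl⟩ : ∃ m, k = m + 1 := ⟨k - 1, by omega⟩
  rw [Finset.sum_range_succ, Finset.sum_range_succ, Nat.add_sub_cancel]
  have h4 : ∑ j ∈ Finset.range m, ∑ i ∈ blk j, HH (m + 1) i ≤ ∑ j ∈ Finset.range m, ∑' n : ℕ, VN j (m + 1 + n) := by
    refine Finset.sum_le_sum fun j hj => h3 j ?_
    rw [Finset.mem_range] at hj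
    omega
  calc ∑ j ∈ Finset.range m, ∑ i ∈ blk j, HH (m + 1) i + ∑ i ∈ blk m, HH (m + 1) i + ∑ i ∈ blk (m + 1), HH (m + 1) i
      ≤ ∑ j ∈ Finset.range m, ∑' n : ℕ, VN j (m + 1 + n) + VS m + VS (m + 1) :=
        add_le_add (add_le_add h4 (h2 m (by omega))) (h2 (m + 1) (by omega))
    _ = _ := by
        rw [add_assoc, add_comm]

end AvgB

/-- sum of th_jump (s = 2 ^ k) over v in blk k; sum_KK; i in blk (k - 1) and blk k: VS; i in blk j, j ≤ k - 2: d > v ≥ 2 ^ (k - 1), so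
y ends in a block n ≥ k: VN j n -/
theorem avgB : ∃ C : ℝ, 0 < C ∧ ∀ k : ℕ, 1 ≤ k →
    Lam k ≤ ENNReal.ofReal C * (VS (k - 1) + VS k + ∑ j ∈ Finset.range (k - 1), ∑' n : ℕ, VN j (k + n)) := by
  classical
  obtain ⟨C, hC0, hC⟩ := sum_KK
  refine ⟨4 * C, by positivity, ?_⟩
  intro k hk
  obtain ⟨N, hN⟩ : ∃ N : ℕ, N = 2 ^ (k - 1) := ⟨_, rfl⟩
  have hN1 : 1 ≤ N := by
    rw [hN]
    exact Nat.one_le_two_pow
  have hNk : 2 ^ k = 2 * N := by
    rw [hN]
    exact two_pow_block hk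
  have hU := Num2Aux.UU_pos (2 * N)
  -- average over v
  have h1 : (N : ℝ≥0∞) * th (2 ^ k) ≤ ∑ v ∈ Finset.Ico N (2 * N),
      2 * ∑ i ∈ Finset.range (v + 1), HH k i * ENNReal.ofReal (KK' (v + 1 - i)) := by
    have h := Finset.card_nsmul_le_sum (Finset.Ico N (2 * N))
      (fun v => 2 * ∑ i ∈ Finset.range (v + 1), HH k i * ENNReal.ofReal (KK' (v + 1 - i))) (th (2 ^ k)) ?_
    · rwa [Nat.card_Ico, nsmul_eq_mul, show 2 * N - N = N by omega] at h
    · intro v hv
      rw [Finset.mem_Ico] at hv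
      refine (th_jump (v := v) (s := 2 ^ k) (by omega)).trans (mul_le_mul_right (Finset.sum_le_sum fun i _ => ?_) _)
      exact mul_le_mul_left (le_HH (by omega)) _
  have h2 : ∑ v ∈ Finset.Ico N (2 * N), 2 * ∑ i ∈ Finset.range (v + 1), HH k i * ENNReal.ofReal (KK' (v + 1 - i)) ≤
      2 * ∑ i ∈ Finset.range (2 * N), HH k i * ENNReal.ofReal (C * ((2 * N : ℕ) / UU (2 * N))) := by
    rw [← Finset.mul_sum]
    apply mul_le_mul_right
    calc ∑ v ∈ Finset.Ico N (2 * N), ∑ i ∈ Finset.range (v + 1), HH k i * ENNReal.ofReal (KK' (v + 1 - i))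
        = ∑ v ∈ Finset.Ico N (2 * N), ∑ i ∈ Finset.range (2 * N),
            if i ≤ v then HH k i * ENNReal.ofReal (KK' (v + 1 - i)) else 0 := by
          refine Finset.sum_congr rfl fun v hv => ?_
          rw [Finset.mem_Ico] at hv
          rw [← Finset.sum_filter]
          refine Finset.sum_congr ?_ fun _ _ => rfl
          ext i
          simp only [Finset.mem_range, Finset.mem_filter]
          omega
      _ = ∑ i ∈ Finset.range (2 * N), ∑ v ∈ Finset.Ico N (2 * N),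
            if i ≤ v then HH k i * ENNReal.ofReal (KK' (v + 1 - i)) else 0 := Finset.sum_comm
      _ ≤ ∑ i ∈ Finset.range (2 * N), HH k i * ENNReal.ofReal (C * ((2 * N : ℕ) / UU (2 * N))) := by
          refine Finset.sum_le_sum fun i hi => ?_
          rw [Finset.mem_range] at hi
          have e1 : ∀ v, (if i ≤ v then HH k i * ENNReal.ofReal (KK' (v + 1 - i)) else 0) =
              HH k i * (if i ≤ v then ENNReal.ofReal (KK' (v + 1 - i)) else 0) := by
            intro v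
            split_ifs
            · rfl
            · rw [mul_zero]
          simp_rw [e1]
          rw [← Finset.mul_sum]
          apply mul_le_mul_right
          rw [← Finset.sum_filter, ← ENNReal.ofReal_sum_of_nonneg (fun v _ => KK_nonneg _)]
          apply ENNReal.ofReal_le_ofReal
          refine le_trans ?_ (hC (2 * N) (by omega))
          have e2 : ∑ v ∈ (Finset.Ico N (2 * N)).filter (fun v => i ≤ v), KK' (v + 1 - i) =
              ∑ n ∈ ((Finset.Ico N (2 * N)).filter (fun v => i ≤ v)).image (fun v => v - i), KK' (n + 1) := by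
            rw [Finset.sum_image]
            · refine Finset.sum_congr rfl fun v hv => ?_
              rw [Finset.mem_filter] at hv
              rw [show v + 1 - i = v - i + 1 by omega]
            · intro x hx y hy hxy
              rw [Finset.mem_coe, Finset.mem_filter] at hx hy
              have : x - i = y - i := hxy
              omega
          rw [e2]
          apply Finset.sum_le_sum_of_subset_of_nonneg
          · intro n hn
            rw [Finset.mem_image] at hn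
            obtain ⟨v, hv, rfl⟩ := hn
            rw [Finset.mem_filter, Finset.mem_Ico] at hv
            rw [Finset.mem_range]
            omega
          · exact fun n _ _ => KK_nonneg _
  have h3 := h1.trans h2
  rw [← Finset.sum_mul] at h3
  -- divide by N
  have h4 : (N : ℝ≥0∞) * th (2 ^ k) ≤ (N : ℝ≥0∞) * (ENNReal.ofReal (4 * C / UU (2 * N)) * ∑ i ∈ Finset.range (2 * N), HH k i) := by
    refine h3.trans (le_of_eq ?_)
    have e1 : (2 : ℝ≥0∞) = ENNReal.ofReal 2 := by simp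
    rw [e1, ← ENNReal.ofReal_natCast N]
    have e2 : ENNReal.ofReal 2 * ((∑ i ∈ Finset.range (2 * N), HH k i) * ENNReal.ofReal (C * ((2 * N : ℕ) / UU (2 * N)))) =
        (ENNReal.ofReal 2 * ENNReal.ofReal (C * ((2 * N : ℕ) / UU (2 * N)))) * ∑ i ∈ Finset.range (2 * N), HH k i := by
      ring
    rw [e2, ← mul_assoc, ← ENNReal.ofReal_mul (by norm_num), ← ENNReal.ofReal_mul (Nat.cast_nonneg N)]
    congr 2
    push_cast
    ring
  have hN0 : (N : ℝ≥0∞) ≠ 0 := by
    exact_mod_cast (by omega : N ≠ 0)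
  have hNt : (N : ℝ≥0∞) ≠ ∞ := ENNReal.natCast_ne_top N
  have h5 := (ENNReal.mul_le_mul_iff_right hN0 hNt).1 h4
  unfold Lam
  calc ENNReal.ofReal (UU (2 ^ k)) * th (2 ^ k)
      ≤ ENNReal.ofReal (UU (2 ^ k)) * (ENNReal.ofReal (4 * C / UU (2 * N)) * ∑ i ∈ Finset.range (2 * N), HH k i) :=
        mul_le_mul_right h5 _
    _ = ENNReal.ofReal (4 * C) * ∑ i ∈ Finset.range (2 ^ k), HH k i := by
        rw [← mul_assoc, hNk, ← ENNReal.ofReal_mul hU.le]
        congr 2
        field_simp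
    _ ≤ _ := mul_le_mul_right (sum_HH hk) _

end HexObs
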