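import Pool.Agent.PHW5.Basic5
import Pool.Agent.PHW.FirstCut
import Pool.Agent.PHW.IrrDec

/-!
PHW5, S5c: the number of the viable cuts in a block is at most Lam.
-/

set_option autoImplicit false

namespace HexObs

open Complex Finset ENNReal

namespace Base5

lemma mono_c {A : Set (List Bool)} (F : List Bool → ℝ≥0∞) (c : ℝ≥0∞) :
    gfF A (fun t => F t * c) = gfF A F * c := by
  rw [mul_comm, ← gfF_mul]
  unfold gfF
  exact tsum_congr fun t => by simp only [mul_comm c]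

/-- stopping the left walk -/
lemma stop_left {M c b b' : ℕ} (h : M ≤ c) {t1 t2 : List Bool} (ht1 : t1 ∈ Brd b) (ht2 : t2 ∈ Brd b') :
    gf {s | s ∈ LG c ∧ V2 s (t1 ++ t2)} ≤ gf {s | s ∈ LG M ∧ V2 s t1} := by
  rw [← gfF_one]
  refine (gfF_dec (A := {s | s ∈ LG M ∧ V2 s t1}) (B := fun s1 => {y | ∃ c', s1 ∈ FC M c' ∧ y ∈ LG (c - c')}) _ ?_).trans ?_
  · rintro s ⟨hs, hv⟩
    obtain ⟨d, s1, s2, h1, h2, rfl⟩ := LG_dec h hs
    obtain ⟨m', hm'⟩ := h2
    exact ⟨s1, s2, ⟨⟨d, h1⟩, V2_prefix h1.1 hm'.1 ht1 ht2 hv⟩, ⟨d, h1, ⟨m', hm'⟩⟩, rfl⟩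
  · rw [← one_mul (gf {s | s ∈ LG M ∧ V2 s t1})]
    refine gfF_le _ fun y1 _ => ?_
    rw [gfF_one]
    exact gf_rest_le M c y1

/-- stopping the right walk -/
lemma stop_right {M c b b' : ℕ} (h : M ≤ c) {s1 s2 : List Bool} (hs1 : s1 ∈ Brd b) (hs2 : s2 ∈ Brd b') :
    gf {t | t ∈ LG c ∧ V2 (s1 ++ s2) t} ≤ gf {t | t ∈ LG M ∧ V2 s1 t} := by
  rw [← gfF_one]
  refine (gfF_dec (A := {t | t ∈ LG M ∧ V2 s1 t}) (B := fun t1 => {y | ∃ c', t1 ∈ FC M c' ∧ y ∈ LG (c - c')}) _ ?_).trans ?_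
  · rintro t ⟨ht, hv⟩
    obtain ⟨d, t1, t2, h1, h2, rfl⟩ := LG_dec h ht
    obtain ⟨m', hm'⟩ := h2
    exact ⟨t1, t2, ⟨⟨d, h1⟩, V2_prefix hs1 hs2 h1.1 hm'.1 hv⟩, ⟨d, h1, ⟨m', hm'⟩⟩, rfl⟩
  · rw [← one_mul (gf {t | t ∈ LG M ∧ V2 s1 t})]
    refine gfF_le _ fun y1 _ => ?_
    rw [gfF_one]
    exact gf_rest_le M c y1

lemma blk_eq' {i : ℕ} (hi : 1 ≤ i) : blk i = Finset.Ico (2 ^ (i - 1)) (2 * 2 ^ (i - 1)) := by
  obtain ⟨m, rfl⟩ : ∃ m, i = m + 1 := ⟨i - 1, by omega⟩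
  unfold blk
  rw [Nat.add_sub_cancel, pow_succ, Nat.mul_div_cancel _ (by norm_num), mul_comm]

/-- the bridges behind the first cut, all heights of a block -/
lemma sum_rest_le {M : ℕ} (t1 : List Bool) :
    ∑ c ∈ Finset.Ico M (2 * M), gf {t2 | ∃ d, t1 ∈ FC M d ∧ d ≤ c ∧ t2 ∈ Brd (c - d)} ≤ ENNReal.ofReal (UU M) := by
  classical
  by_cases h : ∃ d, t1 ∈ FC M d
  · obtain ⟨d, hd⟩ := h
    have hdM := hd.2.1
    have h1 : ∀ c, gf {t2 | ∃ d, t1 ∈ FC M d ∧ d ≤ c ∧ t2 ∈ Brd (c - d)} ≤ if d ≤ c then BT (c - d) else 0 := by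
      intro c
      split_ifs with hc
      · rw [← gf_Brd]
        apply gf_mono
        rintro t2 ⟨d', hd', _, h2⟩
        rw [Brd_height hd.1 hd'.1]
        exact h2
      · have e : {t2 : List Bool | ∃ d, t1 ∈ FC M d ∧ d ≤ c ∧ t2 ∈ Brd (c - d)} = ∅ := by
          ext t2
          rw [Set.mem_empty_iff_false, iff_false]
          rintro ⟨d', hd', h2, _⟩
          rw [Brd_height hd.1 hd'.1] at hc
          exact hc h2
        rw [e]
        unfold gf
        simp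
    calc ∑ c ∈ Finset.Ico M (2 * M), gf {t2 | ∃ d, t1 ∈ FC M d ∧ d ≤ c ∧ t2 ∈ Brd (c - d)}
        ≤ ∑ c ∈ Finset.Ico M (2 * M), if d ≤ c then BT (c - d) else 0 := Finset.sum_le_sum fun c _ => h1 c
      _ = ∑ c ∈ (Finset.Ico M (2 * M)).filter (fun c => d ≤ c), BT (c - d) := by
          rw [Finset.sum_filter]
      _ = ∑ h ∈ ((Finset.Ico M (2 * M)).filter (fun c => d ≤ c)).image (fun c => c - d), BT h := by
          rw [Finset.sum_image]
          intro x hx y hy hxy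
          rw [Finset.mem_coe, Finset.mem_filter] at hx hy
          have : x - d = y - d := hxy
          omega
      _ ≤ ∑ h ∈ Finset.range (M + 1), BT h := by
          apply Finset.sum_le_sum_of_subset
          intro h hh
          rw [Finset.mem_image] at hh
          obtain ⟨c, hc, rfl⟩ := hh
          rw [Finset.mem_filter, Finset.mem_Ico] at hc
          rw [Finset.mem_range]
          omega
      _ = ENNReal.ofReal (UU M) := by
          unfold UU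
          rw [ENNReal.ofReal_sum_of_nonneg fun j _ => (uu_pos j).le]
          exact Finset.sum_congr rfl fun j _ => BT_eq_uu j
  · refine le_trans (le_of_eq ?_) (zero_le)
    apply Finset.sum_eq_zero
    intro c _
    have e : {t2 : List Bool | ∃ d, t1 ∈ FC M d ∧ d ≤ c ∧ t2 ∈ Brd (c - d)} = ∅ := by
      ext t2
      rw [Set.mem_empty_iff_false, iff_false]
      rintro ⟨d', hd', _⟩
      exact h ⟨d', hd'⟩
    rw [e]
    unfold gf
    simp

/-- bridges of height c ≥ M are cut at the first cut at or above M -/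
lemma brd_stop {M c : ℕ} (h : M ≤ c) (F G : List Bool → ℝ≥0∞)
    (hFG : ∀ (b b' : ℕ) (t1 t2 : List Bool), t1 ∈ Brd b → t2 ∈ Brd b' → F (t1 ++ t2) ≤ G t1) :
    gfF (Brd c) F ≤ gfF (LG M) (fun t1 => G t1 * gf {t2 | ∃ d, t1 ∈ FC M d ∧ d ≤ c ∧ t2 ∈ Brd (c - d)}) := by
  refine (gfF_dec (A := LG M) (B := fun t1 => {t2 | ∃ d, t1 ∈ FC M d ∧ d ≤ c ∧ t2 ∈ Brd (c - d)}) F ?_).trans ?_
  · intro t ht
    obtain ⟨j, a, u, hj, hjc, ha, hu, rfl⟩ := FC_dec h ht
    exact ⟨a, u, ⟨j, ha⟩, ⟨j, ha, hjc, hu⟩, rfl⟩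
  · refine gfF_mono le_rfl fun t1 _ => ?_
    refine gfF_le _ ?_
    rintro t2 ⟨d, hd, _, h2⟩
    exact hFG d (c - d) t1 t2 hd.1 h2

lemma sum_gfF {ι : Type} (I : Finset ι) (A : Set (List Bool)) (F : ι → List Bool → ℝ≥0∞) :
    ∑ i ∈ I, gfF A (F i) = gfF A (fun t => ∑ i ∈ I, F i t) := by
  classical
  induction I using Finset.induction_on with
  | empty =>
    simp only [Finset.sum_empty]
    unfold gfF
    simp
  | insert a I ha ih =>
    rw [Finset.sum_insert ha, ih, ← gfF_add]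
    congr 1
    funext t
    rw [Finset.sum_insert ha]

lemma gfF_comm (A B : Set (List Bool)) (F : List Bool → List Bool → ℝ≥0∞) :
    gfF A (fun s => gfF B (fun t => F s t)) = gfF B (fun t => gfF A (fun s => F s t)) := by
  unfold gfF
  simp_rw [← ENNReal.tsum_mul_left]
  rw [ENNReal.tsum_comm]
  refine tsum_congr fun t => tsum_congr fun s => ?_
  ring

lemma block_le {M : ℕ} (F : ℕ → List Bool → ℝ≥0∞) (G : List Bool → ℝ≥0∞)
    (hFG : ∀ (c b b' : ℕ) (t1 t2 : List Bool), M ≤ c → t1 ∈ Brd b → t2 ∈ Brd b' → F c (t1 ++ t2) ≤ G t1) :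
    ∑ c ∈ Finset.Ico M (2 * M), gfF (Brd c) (F c) ≤ ENNReal.ofReal (UU M) * gfF (LG M) G := by
  calc ∑ c ∈ Finset.Ico M (2 * M), gfF (Brd c) (F c)
      ≤ ∑ c ∈ Finset.Ico M (2 * M),
          gfF (LG M) (fun t1 => G t1 * gf {t2 | ∃ d, t1 ∈ FC M d ∧ d ≤ c ∧ t2 ∈ Brd (c - d)}) := by
        apply Finset.sum_le_sum
        intro c hc
        rw [Finset.mem_Ico] at hc
        exact brd_stop hc.1 (F c) G fun b b' t1 t2 h1 h2 => hFG c b b' t1 t2 hc.1 h1 h2
    _ = gfF (LG M) (fun t1 => ∑ c ∈ Finset.Ico M (2 * M),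
          G t1 * gf {t2 | ∃ d, t1 ∈ FC M d ∧ d ≤ c ∧ t2 ∈ Brd (c - d)}) := sum_gfF _ _ _
    _ ≤ gfF (LG M) (fun t1 => ENNReal.ofReal (UU M) * G t1) := by
        refine gfF_mono le_rfl fun t1 _ => ?_
        rw [← Finset.mul_sum, mul_comm]
        exact mul_le_mul_left (sum_rest_le t1) _
    _ = _ := gfF_mul _ _ _

end Base5

open Base5

/-- cuts c of the right walk in the block i such that the left walk is viable up to its first cut at or above c -/
theorem st_le {i : ℕ} (hi : 1 ≤ i) :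
    ∑ c ∈ blk i, g2 (LG c) (Brd c) V2 ≤ Lam (i - 1) := by
  rw [blk_eq' hi]
  unfold Lam th
  rw [g2_gfF' (LG (2 ^ (i - 1)))]
  simp_rw [g2_gfF']
  exact block_le (fun c t => gf {s | s ∈ LG c ∧ V2 s t}) _ fun c b b' t1 t2 hc h1 h2 => stop_left hc h1 h2

theorem st_zero : ∑ c ∈ blk 0, g2 (LG c) (Brd c) V2 ≤ 1 := by
  rw [blk_zero, Finset.sum_singleton]
  refine (g2_le_mul _ _ _).trans ?_
  rw [gf_Brd]
  calc gf (LG 0) * BT 0 ≤ 1 * 1 := mul_le_mul' (gf_LG_le 0) (ViaEaux.BT_le_one0 0)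
    _ = 1 := one_mul 1

namespace Base5

/-- the last piece: uniqueness. Q is a set of pairs (c, r) with c ≤ a < c + r -/
theorem piece_sum_le {a : ℕ} (Q : Finset (ℕ × ℕ)) (hQ : ∀ q ∈ Q, q.1 ≤ a ∧ a < q.1 + q.2) (s : List Bool) :
    ∑ q ∈ Q, g2 (Brd q.1) (Irr q.2) (fun t P => V2 s (t ++ P)) ≤
      gf {w | (∃ q ∈ Q, w ∈ FC (a + 1) (q.1 + q.2)) ∧ V2 s w} := by
  classical
  set C : ℕ × ℕ → Set (List Bool) := fun q => {w | (∃ t P, t ∈ Brd q.1 ∧ P ∈ Irr q.2 ∧ w = t ++ P) ∧ V2 s w} with hC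
  have h1 : ∀ q ∈ Q, g2 (Brd q.1) (Irr q.2) (fun t P => V2 s (t ++ P)) ≤ gf (C q) := by
    intro q _
    rw [g2_gfF, ← gfF_one (C q)]
    have h2 : ∀ t : List Bool, gf {P | P ∈ Irr q.2 ∧ V2 s (t ++ P)} = gfF {P | P ∈ Irr q.2 ∧ V2 s (t ++ P)} (fun _ => 1) :=
      fun t => (gfF_one _).symm
    simp_rw [h2]
    refine gfF_dec_ge (T := C q) (A := Brd q.1) (B := fun t => {P | P ∈ Irr q.2 ∧ V2 s (t ++ P)}) (fun _ => 1) ?_ ?_
    · rintro t ht P ⟨hP, hv⟩
      exact ⟨⟨t, P, ht, hP, rfl⟩, hv⟩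
    · rintro t ht P ⟨hP, _⟩ t' ht' P' ⟨hP', _⟩ he
      exact cut_unique ht ht' hP.1 hP'.1 he
  refine (Finset.sum_le_sum h1).trans ?_
  rw [← gf_biUnion]
  · apply gf_mono
    intro w hw
    simp only [Set.mem_iUnion] at hw
    obtain ⟨q, hq, ⟨t, P, ht, hP, rfl⟩, hv⟩ := hw
    exact ⟨⟨q, hq, LG_of_piece (hQ q hq).1 (hQ q hq).2 ht hP⟩, hv⟩
  · rintro ⟨c, r⟩ hq ⟨c', r'⟩ hq' hne
    have b1 := hQ _ hq
    have b2 := hQ _ hq'
    simp only at b1 b2
    rw [Set.disjoint_left]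
    rintro w ⟨⟨t, P, ht, hP, rfl⟩, _⟩ ⟨⟨t', P', ht', hP', h⟩, _⟩
    simp only at ht hP ht' hP'
    have h3 := jump_unique (s := a) (b := 0) (b' := 0) (u := []) (u' := []) b1.1 b1.2 b2.1
          b2.2 ht hP nil_mem_Brd ht' hP' nil_mem_Brd (by rw [List.append_nil, List.append_nil]; exact h)
    apply hne
    rw [h3.1] at ht
    rw [h3.2.1] at hP
    rw [Brd_height ht ht', Brd_height hP.1 hP'.1]

/-- the states in terms of the short walk -/
theorem SW_eq (j n : ℕ) : SW (fun _ => 1) j n = ∑ a ∈ blk j, gfF (Brd a) (fun s => ∑ c ∈ Finset.range (a + 1),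
    ∑ r ∈ (Finset.range (2 ^ n)).filter (fun r => a < c + r ∧ c + r ∈ blk n),
      g2 (Brd c) (Irr r) (fun t P => V2 s (t ++ P))) := by
  unfold SW
  refine Finset.sum_congr rfl fun a _ => ?_
  have h1 : ∀ c r : ℕ, gfF (Irr r) (fun P => 1 * g2 (Brd a) (Brd c) (fun s t => V2 s (t ++ P))) =
      gfF (Brd a) (fun s => g2 (Brd c) (Irr r) (fun t P => V2 s (t ++ P))) := by
    intro c r
    simp_rw [g2_gfF' (Brd c) (Irr r), g2_gfF (Brd a), one_mul]
    exact gfF_comm _ _ _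
  simp_rw [h1, sum_gfF]

end Base5

/-- all states with the short walk s fixed -/
theorem last_sum_le (a N : ℕ) (s : List Bool) :
    ∑ n ∈ Finset.range N, ∑ c ∈ Finset.range (a + 1),
      ∑ r ∈ (Finset.range (2 ^ n)).filter (fun r => a < c + r ∧ c + r ∈ blk n),
        g2 (Brd c) (Irr r) (fun t P => V2 s (t ++ P)) ≤ gf {t | t ∈ LG (a + 1) ∧ V2 s t} := by
  classical
  set X : ℕ → ℕ → ℝ≥0∞ := fun c r => g2 (Brd c) (Irr r) (fun t P => V2 s (t ++ P)) with hX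
  set C : ℕ × ℕ → Set (List Bool) := fun q => {w | (∃ t P, t ∈ Brd q.1 ∧ P ∈ Irr q.2 ∧ w = t ++ P) ∧ V2 s w} with hC
  have h1 : ∀ c r, X c r ≤ gf (C (c, r)) := by
    intro c r
    rw [hX]
    simp only
    rw [g2_gfF, ← gfF_one (C (c, r))]
    have h2 : ∀ t : List Bool, gf {P | P ∈ Irr r ∧ V2 s (t ++ P)} = gfF {P | P ∈ Irr r ∧ V2 s (t ++ P)} (fun _ => 1) :=
      fun t => (gfF_one _).symm
    simp_rw [h2]
    refine gfF_dec_ge (T := C (c, r)) (A := Brd c) (B := fun t => {P | P ∈ Irr r ∧ V2 s (t ++ P)}) (fun _ => 1) ?_ ?_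
    · rintro t ht P ⟨hP, hv⟩
      exact ⟨⟨t, P, ht, hP, rfl⟩, hv⟩
    · rintro t ht P ⟨hP, _⟩ t' ht' P' ⟨hP', _⟩ he
      exact cut_unique ht ht' hP.1 hP'.1 he
  have h2 : ∑ n ∈ Finset.range N, ∑ c ∈ Finset.range (a + 1),
      ∑ r ∈ (Finset.range (2 ^ n)).filter (fun r => a < c + r ∧ c + r ∈ blk n), X c r ≤
      ∑ q ∈ (Finset.range (a + 1) ×ˢ Finset.range (2 ^ N)).filter (fun q => a < q.1 + q.2), X q.1 q.2 := by
    calc ∑ n ∈ Finset.range N, ∑ c ∈ Finset.range (a + 1),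
          ∑ r ∈ (Finset.range (2 ^ n)).filter (fun r => a < c + r ∧ c + r ∈ blk n), X c r
        ≤ ∑ n ∈ Finset.range N, ∑ c ∈ Finset.range (a + 1),
          ∑ r ∈ Finset.range (2 ^ N), if a < c + r ∧ c + r ∈ blk n then X c r else 0 := by
          refine Finset.sum_le_sum fun n hn => Finset.sum_le_sum fun c _ => ?_
          rw [Finset.mem_range] at hn
          rw [← Finset.sum_filter]
          apply Finset.sum_le_sum_of_subset
          intro r hr
          rw [Finset.mem_filter, Finset.mem_range] at hr ⊢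
          exact ⟨lt_of_lt_of_le hr.1 (Nat.pow_le_pow_right (by norm_num) hn.le), hr.2⟩
      _ = ∑ c ∈ Finset.range (a + 1), ∑ r ∈ Finset.range (2 ^ N), ∑ n ∈ Finset.range N,
            if a < c + r ∧ c + r ∈ blk n then X c r else 0 := by
          rw [Finset.sum_comm]
          refine Finset.sum_congr rfl fun c _ => ?_
          rw [Finset.sum_comm]
      _ ≤ ∑ c ∈ Finset.range (a + 1), ∑ r ∈ Finset.range (2 ^ N), if a < c + r then X c r else 0 := by
          refine Finset.sum_le_sum fun c _ => Finset.sum_le_sum fun r _ => ?_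
          by_cases h : a < c + r
          · simp only [h, true_and, if_true, mem_blk]
            rw [Finset.sum_ite_eq]
            split_ifs
            · exact le_rfl
            · exact zero_le
          · simp [h]
      _ = _ := by
          rw [Finset.sum_filter, Finset.sum_product]
  refine h2.trans ((Finset.sum_le_sum fun q _ => h1 q.1 q.2).trans ?_)
  rw [← gf_biUnion]
  · apply gf_mono
    intro w hw
    simp only [Set.mem_iUnion] at hw
    obtain ⟨⟨c, r⟩, hq, ⟨t, P, ht, hP, rfl⟩, hv⟩ := hw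
    rw [Finset.mem_filter, Finset.mem_product, Finset.mem_range, Finset.mem_range] at hq
    simp only at hq ht hP
    exact ⟨⟨c + r, LG_of_piece (by omega) hq.2 ht hP⟩, hv⟩
  · rintro ⟨c, r⟩ hq ⟨c', r'⟩ hq' hne
    rw [Finset.mem_filter, Finset.mem_product, Finset.mem_range, Finset.mem_range] at hq hq'
    simp only at hq hq'
    rw [Set.disjoint_left]
    rintro w ⟨⟨t, P, ht, hP, rfl⟩, _⟩ ⟨⟨t', P', ht', hP', h⟩, _⟩
    simp only at ht hP ht' hP'
    have h3 := jump_unique (s := a) (b := 0) (b' := 0) (u := []) (u' := []) (by omega) (by omega) (by omega)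
          (by omega) ht hP nil_mem_Brd ht' hP' nil_mem_Brd (by rw [List.append_nil, List.append_nil]; exact h)
    apply hne
    rw [h3.1] at ht
    rw [h3.2.1] at hP
    rw [Brd_height ht ht', Brd_height hP.1 hP'.1]

/-- the states with short walk in the block j; uses the uniqueness of the last piece (jump_unique) -/
theorem SW_one_le {j : ℕ} (hj : 1 ≤ j) (N : ℕ) :
    ∑ n ∈ Finset.range N, SW (fun _ => 1) j n ≤ ENNReal.ofReal (UU (2 ^ (j - 1))) * th (2 ^ (j - 1)) := by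
  unfold SW th
  rw [Finset.sum_comm, blk_eq' hj, g2_gfF (LG (2 ^ (j - 1)))]
  refine le_trans (Finset.sum_le_sum fun a _ => ?_) (block_le (M := 2 ^ (j - 1))
    (fun a s => gf {t | t ∈ LG (a + 1) ∧ V2 s t}) _ fun a b b' t1 t2 hc h1 h2 => stop_right (hc.trans (Nat.le_succ _)) h1 h2)
  have h1 : ∀ c r : ℕ, gfF (Irr r) (fun P => 1 * g2 (Brd a) (Brd c) (fun s t => V2 s (t ++ P))) =
      gfF (Brd a) (fun s => g2 (Brd c) (Irr r) (fun t P => V2 s (t ++ P))) := by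
    intro c r
    simp_rw [g2_gfF' (Brd c) (Irr r), g2_gfF (Brd a), one_mul]
    exact gfF_comm _ _ _
  simp_rw [h1, sum_gfF]
  exact gfF_mono le_rfl fun s _ => last_sum_le a N s

/-- the states with short walk in the block j, all n -/
theorem VS_le_Lam {j : ℕ} (hj : 1 ≤ j) : VS j ≤ Lam (j - 1) := by
  unfold VS Lam th
  rw [blk_eq' hj, g2_gfF (LG (2 ^ (j - 1)))]
  simp_rw [g2_gfF]
  exact block_le (M := 2 ^ (j - 1)) (fun a s => gf {t | t ∈ LG (a + 1) ∧ V2 s t}) _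
    fun a b b' t1 t2 hc h1 h2 => stop_right (hc.trans (Nat.le_succ _)) h1 h2

theorem VS_triv (j : ℕ) : VS j ≤ ENNReal.ofReal (UU (2 ^ j)) := by
  unfold VS UU
  rw [ENNReal.ofReal_sum_of_nonneg fun j _ => (uu_pos j).le]
  calc ∑ a ∈ blk j, g2 (Brd a) (LG (a + 1)) V2 ≤ ∑ a ∈ blk j, ENNReal.ofReal (uu a) := by
        refine Finset.sum_le_sum fun a _ => ?_
        refine (g2_le_mul _ _ _).trans ?_
        rw [gf_Brd, BT_eq_uu]
        exact (mul_le_mul_right (gf_LG_le _) _).trans (le_of_eq (mul_one _))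
    _ ≤ ∑ a ∈ Finset.range (2 ^ j + 1), ENNReal.ofReal (uu a) := by
        apply Finset.sum_le_sum_of_subset
        intro a ha
        unfold blk at ha
        rw [Finset.mem_Ico] at ha
        rw [Finset.mem_range]
        omega

theorem Lam_zero : Lam 0 ≤ ENNReal.ofReal (UU 1) := by
  unfold Lam
  rw [pow_zero]
  exact (mul_le_mul_right (th_le_one 1) _).trans (le_of_eq (mul_one _))

end HexObs
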