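import Pool.Agent.PHW5.Defs5
import Pool.Agent.PHW.FirstCut

/-!
PHW5, S5a: elementary tools.
-/

set_option autoImplicit false

namespace HexObs

open Complex Finset ENNReal

/-! words -/

/-- beginnings at cuts. Dj_prefix; Via: a cut of s1 is a cut of s1 ++ s2, the vertices of t1 are vertices of t1 ++ t2 -/
theorem V2_prefix {a b a' b' : ℕ} {s1 s2 t1 t2 : List Bool} (hs1 : s1 ∈ Brd a) (hs2 : s2 ∈ Brd a')
    (ht1 : t1 ∈ Brd b) (ht2 : t2 ∈ Brd b') (h : V2 (s1 ++ s2) (t1 ++ t2)) : V2 s1 t1 := by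
  obtain ⟨h1, h2, h3⟩ := h
  have key : ∀ {a' b b' : ℕ} {s1 s2 t1 t2 : List Bool}, s2 ∈ Brd a' → t1 ∈ Brd b → t2 ∈ Brd b' →
      Via (s1 ++ s2) (t1 ++ t2) → Via s1 t1 := by
    intro a' b b' s1 s2 t1 t2 hs2 _ _ h c n p q hp hq hpq i hi
    have h4 := h c (n + a') p (q ++ s2) hp (Brd_append hq hs2) (by rw [hpq, List.append_assoc]) i
    obtain ⟨hi1, hi2⟩ := hi
    rw [lat_append (by omega)] at h4
    apply h4
    refine ⟨by rw [List.length_append]; omega, ?_⟩
    rw [lev_append (by omega)]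
    exact hi2
  refine ⟨Dj_prefix h1, key hs2 ht1 ht2 h2, ?_⟩
  rw [List.map_append, List.map_append] at h3
  exact key (Brd_not ht2) (Brd_not hs1) (Brd_not hs2) h3

theorem V2_not {s t : List Bool} (h : V2 s t) : V2 (t.map not) (s.map not) := by
  obtain ⟨h1, h2, h3⟩ := h
  refine ⟨Dj_not h1, h3, ?_⟩
  rw [map_not_not, map_not_not]
  exact h2

/-- at a cut of the left walk the right walk is on the right in the row above -/
theorem V2_gap {a b : ℕ} {s1 s2 t : List Bool} (hs1 : s1 ∈ Brd a) (hs2 : s2 ∈ Brd b) (h : V2 (s1 ++ s2) t) :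
    Gap s1 t a 1 := by
  exact h.2.1 a b s1 s2 hs1 hs2 rfl

/-- at a cut of the right walk the left walk is on the left in the row above -/
theorem V2_gap' {a b : ℕ} {s t1 t2 : List Bool} (ht1 : t1 ∈ Brd a) (ht2 : t2 ∈ Brd b) (h : V2 s (t1 ++ t2)) {i : ℕ}
    (hi : InRow s a i) : lat s i + 1 ≤ latE t1 + 2 := by
  have h1 := h.2.2 a b (t1.map not) (t2.map not) (Brd_not ht1) (Brd_not ht2) List.map_append i
  obtain ⟨hi1, hi2⟩ := hi
  rw [latE_not, lat_not s (by omega)] at h1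
  have h2 : InRow (s.map not) a i := by
    refine ⟨by rw [List.length_map]; exact hi1, ?_⟩
    rw [lev_not s (by omega)]
    exact hi2
  have h3 := h1 h2
  omega

theorem LG_zero : LG 0 = {[]} := by
  ext t
  constructor
  · rintro ⟨j, h1, _, h3⟩
    rcases Nat.eq_zero_or_pos j with h | h
    · rw [h, Brd_zero] at h1
      exact h1
    · exact absurd ⟨[], t, j, nil_mem_Brd, h1, rfl⟩ (h3 0 le_rfl h)
  · intro h
    rw [Set.mem_singleton_iff] at h
    rw [h]
    exact ⟨0, nil_mem_Brd, le_rfl, fun c _ hc => absurd hc (Nat.not_lt_zero c)⟩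

/-- first cut at or above s' of a stopped leg -/
theorem LG_dec {s' s : ℕ} (h : s' ≤ s) {t : List Bool} (ht : t ∈ LG s) :
    ∃ (c : ℕ) (t1 t2 : List Bool), t1 ∈ FC s' c ∧ t2 ∈ LG (s - c) ∧ t = t1 ++ t2 := by
  obtain ⟨j, hj⟩ := ht
  obtain ⟨c, t1, t2, hc, hcj, ht1, ht2, rfl⟩ := FC_dec (h.trans hj.2.1) hj.1
  refine ⟨c, t1, t2, ht1, ⟨j - c, ht2, by have := hj.2.1; omega, ?_⟩, rfl⟩
  intro e he hej hcut
  obtain ⟨p, q, b, hp, hq, rfl⟩ := hcut
  refine hj.2.2 (c + e) (by have := hj.2.1; omega) (by omega) ⟨t1 ++ p, q, b, Brd_append ht1.1 hp, hq, ?_⟩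
  rw [List.append_assoc]

/-- conversely -/
theorem LG_append {s' s c : ℕ} (h : s' ≤ s) {t1 t2 : List Bool} (h1 : t1 ∈ FC s' c) (h2 : t2 ∈ LG (s - c)) :
    t1 ++ t2 ∈ LG s := by
  obtain ⟨m, hm⟩ := h2
  have hh1 := h1.2.1
  have hh2 := hm.2.1
  refine ⟨c + m, Brd_append h1.1 hm.1, by omega, ?_⟩
  rintro e he hem ⟨p, q, b, hp, hq, hpq⟩
  rcases Nat.lt_or_ge e c with hlt | hge
  · obtain ⟨v, hv, e1, e2⟩ := cut_nested hp h1.1 hq hm.1 hlt.le hpq.symm
    exact h1.2.2 e (by omega) hlt ⟨p, v, _, hp, hv, e1⟩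
  · obtain ⟨v, hv, e1, e2⟩ := cut_nested h1.1 hp hm.1 hq hge hpq
    exact hm.2.2 (e - c) (by omega) (by omega) ⟨v, q, b, hv, hq, e2⟩

theorem LG_unique {s' c c' m m' : ℕ} {t1 t2 t1' t2' : List Bool} (h1 : t1 ∈ FC s' c) (h1' : t1' ∈ FC s' c')
    (h2 : t2 ∈ LG m) (h2' : t2' ∈ LG m') (h : t1 ++ t2 = t1' ++ t2') : t1 = t1' ∧ t2 = t2' := by
  obtain ⟨j, hj⟩ := h2
  obtain ⟨j', hj'⟩ := h2'
  exact FC_unique h1 h1' hj.1 hj'.1 h

/-- the last piece of a leg stopped above a covers the level a -/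
theorem LG_last {a : ℕ} {t : List Bool} (ht : t ∈ LG (a + 1)) :
    ∃ (c r : ℕ) (t0 P : List Bool), c ≤ a ∧ a < c + r ∧ t0 ∈ Brd c ∧ P ∈ Irr r ∧ t = t0 ++ P := by
  obtain ⟨d, h1, h2, h3⟩ := ht
  obtain ⟨c, r, t0, P, u, hc, hr, hd, ht0, hP, hu, rfl⟩ := jump_dec (s := a) (n := d) (by omega) h1
  have hcr : c + r = d := by
    by_contra hne
    refine h3 (c + r) (by omega) (by omega) ⟨t0 ++ P, u, _, Brd_append ht0 hP.1, hu, rfl⟩
  have hu0 : u = [] := by
    rw [show d - c - r = 0 by omega, Brd_zero] at hu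
    exact hu
  refine ⟨c, r, t0, P, hc, hr, ht0, hP, ?_⟩
  rw [hu0, List.append_nil]

theorem LG_of_piece {a c r : ℕ} {t0 P : List Bool} (hc : c ≤ a) (hr : a < c + r) (h0 : t0 ∈ Brd c) (hP : P ∈ Irr r) :
    t0 ++ P ∈ FC (a + 1) (c + r) := by
  refine ⟨Brd_append h0 hP.1, by omega, ?_⟩
  rintro e he hec ⟨p, q, b, hp, hq, hpq⟩
  obtain ⟨v, hv, e1, e2⟩ := cut_nested h0 hp hP.1 hq (by omega) hpq
  rcases hP.2.2 _ _ _ _ hv hq e2 with h | h
  · rw [h] at hv
    have := Brd_height hv nil_mem_Brd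
    omega
  · rw [h, List.append_nil] at e2
    rw [e2] at hP
    have := Brd_height hv hP.1
    omega

/-! sums -/

theorem gfF_one (A : Set (List Bool)) : gfF A (fun _ => 1) = gf A := by
  unfold gfF gf
  exact tsum_congr fun t => mul_one _

theorem gfF_mono {A A' : Set (List Bool)} {F F' : List Bool → ℝ≥0∞} (hA : A ⊆ A') (hF : ∀ t ∈ A, F t ≤ F' t) :
    gfF A F ≤ gfF A' F' := by
  unfold gfF
  calc ∑' t : {t : List Bool // t ∈ A}, wE t.1 * F t.1 ≤ ∑' t : {t : List Bool // t ∈ A}, wE t.1 * F' t.1 :=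
        ENNReal.tsum_le_tsum fun t => mul_le_mul_right (hF t.1 t.2) _
    _ ≤ ∑' t : {t : List Bool // t ∈ A'}, wE t.1 * F' t.1 :=
        ENNReal.tsum_mono_subtype (fun t : List Bool => wE t * F' t) hA

theorem gfF_mul (A : Set (List Bool)) (c : ℝ≥0∞) (F : List Bool → ℝ≥0∞) : gfF A (fun t => c * F t) = c * gfF A F := by
  unfold gfF
  rw [← ENNReal.tsum_mul_left]
  exact tsum_congr fun t => by ring

theorem gfF_add (A : Set (List Bool)) (F F' : List Bool → ℝ≥0∞) : gfF A (fun t => F t + F' t) = gfF A F + gfF A F' := by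
  unfold gfF
  rw [← ENNReal.tsum_add]
  exact tsum_congr fun t => by ring

theorem gfF_le (A : Set (List Bool)) {c : ℝ≥0∞} {F : List Bool → ℝ≥0∞} (h : ∀ t ∈ A, F t ≤ c) : gfF A F ≤ c * gf A := by
  refine (gfF_mono (le_refl A) h).trans (le_of_eq ?_)
  have := gfF_mul A c (fun _ => 1)
  rw [gfF_one] at this
  rw [← this]
  simp only [mul_one]

theorem g2_gfF (A B : Set (List Bool)) (R : List Bool → List Bool → Prop) :
    g2 A B R = gfF A (fun s => gf {t | t ∈ B ∧ R s t}) := by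
  exact g2_left A B R

theorem g2_gfF' (A B : Set (List Bool)) (R : List Bool → List Bool → Prop) :
    g2 A B R = gfF B (fun t => gf {s | s ∈ A ∧ R s t}) := by
  exact g2_right A B R

/-- DECOMPOSITION: no uniqueness is needed for the upper bound (choose a decomposition, t = t1 ++ t2 makes the choice
injective) -/
theorem gfF_dec {T A : Set (List Bool)} {B : List Bool → Set (List Bool)} (F : List Bool → ℝ≥0∞)
    (h : ∀ t ∈ T, ∃ t1 t2 : List Bool, t1 ∈ A ∧ t2 ∈ B t1 ∧ t = t1 ++ t2) :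
    gfF T F ≤ gfF A (fun t1 => gfF (B t1) (fun t2 => F (t1 ++ t2))) := by
  classical
  unfold gfF
  choose! f g hf hg hfg using h
  calc ∑' t : {t : List Bool // t ∈ T}, wE t.1 * F t.1
      = ∑' t : {t : List Bool // t ∈ T}, wE (f t.1) * (wE (g t.1) * F (f t.1 ++ g t.1)) := by
        refine tsum_congr fun t => ?_
        rw [← mul_assoc, ← wE_append, ← hfg t.1 t.2]
    _ ≤ ∑' x : (Σ t1 : {t : List Bool // t ∈ A}, {t : List Bool // t ∈ B t1.1}),
          wE x.1.1 * (wE x.2.1 * F (x.1.1 ++ x.2.1)) := by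
        refine ENNReal.tsum_comp_le_tsum_of_injective
          (f := fun t : {t : List Bool // t ∈ T} =>
            (⟨⟨f t.1, hf t.1 t.2⟩, ⟨g t.1, hg t.1 t.2⟩⟩ : (Σ t1 : {t : List Bool // t ∈ A}, {t : List Bool // t ∈ B t1.1})))
          ?_ (fun x => wE x.1.1 * (wE x.2.1 * F (x.1.1 ++ x.2.1)))
        intro t t' htt
        have e1 : f t.1 = f t'.1 := congrArg (fun x => x.1.1) htt
        have e2 : g t.1 = g t'.1 := congrArg (fun x => x.2.1) htt
        apply Subtype.ext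
        rw [hfg t.1 t.2, hfg t'.1 t'.2, e1, e2]
    _ = _ := by
        rw [ENNReal.tsum_sigma']
        refine tsum_congr fun t1 => ?_
        rw [← ENNReal.tsum_mul_left]

/-- the same with a finite number of classes -/
theorem gfF_dec_sum {ι : Type} (I : Finset ι) {T : Set (List Bool)} {A : ι → Set (List Bool)}
    {B : ι → List Bool → Set (List Bool)} (F : List Bool → ℝ≥0∞)
    (h : ∀ t ∈ T, ∃ i ∈ I, ∃ t1 t2 : List Bool, t1 ∈ A i ∧ t2 ∈ B i t1 ∧ t = t1 ++ t2) :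
    gfF T F ≤ ∑ i ∈ I, gfF (A i) (fun t1 => gfF (B i t1) (fun t2 => F (t1 ++ t2))) := by
  classical
  let U : ι → Set (List Bool) := fun i => {t | t ∈ T ∧ ∃ t1 t2 : List Bool, t1 ∈ A i ∧ t2 ∈ B i t1 ∧ t = t1 ++ t2}
  have h1 : T ⊆ ⋃ i ∈ I, U i := by
    intro t ht
    obtain ⟨i, hi, t1, t2, h1, h2, h3⟩ := h t ht
    exact Set.mem_biUnion hi ⟨ht, t1, t2, h1, h2, h3⟩
  refine (gfF_mono h1 (fun t _ => le_refl (F t))).trans ?_
  refine (ENNReal.tsum_biUnion_le (fun t : List Bool => wE t * F t) I U).trans ?_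
  apply Finset.sum_le_sum
  intro i _
  exact gfF_dec F fun t ht => ht.2

/-- with uniqueness: lower bound -/
theorem gfF_dec_ge {T A : Set (List Bool)} {B : List Bool → Set (List Bool)} (F : List Bool → ℝ≥0∞)
    (h : ∀ t1 ∈ A, ∀ t2 ∈ B t1, t1 ++ t2 ∈ T)
    (hu : ∀ t1 ∈ A, ∀ t2 ∈ B t1, ∀ t1' ∈ A, ∀ t2' ∈ B t1', t1 ++ t2 = t1' ++ t2' → t1 = t1' ∧ t2 = t2') :
    gfF A (fun t1 => gfF (B t1) (fun t2 => F (t1 ++ t2))) ≤ gfF T F := by
  classical
  unfold gfF
  calc ∑' t1 : {t : List Bool // t ∈ A}, wE t1.1 * ∑' t2 : {t : List Bool // t ∈ B t1.1}, wE t2.1 * F (t1.1 ++ t2.1)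
      = ∑' x : (Σ t1 : {t : List Bool // t ∈ A}, {t : List Bool // t ∈ B t1.1}),
          wE (x.1.1 ++ x.2.1) * F (x.1.1 ++ x.2.1) := by
        rw [ENNReal.tsum_sigma']
        refine tsum_congr fun t1 => ?_
        rw [← ENNReal.tsum_mul_left]
        refine tsum_congr fun t2 => ?_
        rw [wE_append, mul_assoc]
    _ ≤ ∑' t : {t : List Bool // t ∈ T}, wE t.1 * F t.1 := by
        refine ENNReal.tsum_comp_le_tsum_of_injective
          (f := fun x : (Σ t1 : {t : List Bool // t ∈ A}, {t : List Bool // t ∈ B t1.1}) =>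
            (⟨x.1.1 ++ x.2.1, h x.1.1 x.1.2 x.2.1 x.2.2⟩ : {t : List Bool // t ∈ T})) ?_
          (fun t : {t : List Bool // t ∈ T} => wE t.1 * F t.1)
        rintro ⟨⟨a, ha⟩, ⟨b, hb⟩⟩ ⟨⟨a', ha'⟩, ⟨b', hb'⟩⟩ hab
        have e := congrArg Subtype.val hab
        obtain ⟨e1, e2⟩ := hu a ha b hb a' ha' b' hb' e
        subst e1
        subst e2
        rfl

theorem gf_LG_le (s : ℕ) : gf (LG s) ≤ 1 := by
  have h1 : LG s = ⋃ j, FC s j := by
    ext t
    rw [Set.mem_iUnion]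
    exact Iff.rfl
  rw [h1]
  refine (ENNReal.tsum_iUnion_le_tsum wE (fun j => FC s j)).trans ?_
  exact ENNReal.tsum_le_of_sum_range_le fun n => sum_FC_le s n

lemma wE_not (t : List Bool) : wE (t.map not) = wE t := by
  unfold wE
  rw [List.length_map]

lemma g2_le_mul (A B : Set (List Bool)) (R : List Bool → List Bool → Prop) : g2 A B R ≤ gf A * gf B := by
  rw [g2_gfF, mul_comm]
  exact gfF_le A fun s _ => gf_mono fun t ht => ht.1

/-- the rest of a stopped leg -/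
lemma gf_rest_le (s s' : ℕ) (x : List Bool) : gf {y | ∃ c, x ∈ FC s c ∧ y ∈ LG (s' - c)} ≤ 1 := by
  by_cases h : ∃ c, x ∈ FC s c
  · obtain ⟨c, hc⟩ := h
    refine (gf_mono ?_).trans (gf_LG_le (s' - c))
    rintro y ⟨c', hc', hy⟩
    rw [Brd_height hc.1 hc'.1]
    exact hy
  · have e : {y : List Bool | ∃ c, x ∈ FC s c ∧ y ∈ LG (s' - c)} = ∅ := by
      ext y
      rw [Set.mem_empty_iff_false, iff_false]
      rintro ⟨c, hc, _⟩
      exact h ⟨c, hc⟩
    rw [e]
    unfold gf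
    simp

/-- mirror image -/
theorem g2_mirror (A B : Set (List Bool)) (R : List Bool → List Bool → Prop) :
    g2 A B R = g2 {t | t.map not ∈ B} {t | t.map not ∈ A} (fun s t => R (t.map not) (s.map not)) := by
  let e : (List Bool × List Bool) ≃ (List Bool × List Bool) :=
    { toFun := fun p => (p.2.map not, p.1.map not)
      invFun := fun p => (p.2.map not, p.1.map not)
      left_inv := fun p => by simp only [map_not_not]
      right_inv := fun p => by simp only [map_not_not] }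
  unfold g2
  refine Eq.trans ?_ ((Equiv.subtypeEquiv e (p := fun p : List Bool × List Bool => p.1 ∈ A ∧ p.2 ∈ B ∧ R p.1 p.2)
    (q := fun p : List Bool × List Bool => p.1 ∈ {t : List Bool | t.map not ∈ B} ∧ p.2 ∈ {t : List Bool | t.map not ∈ A} ∧
      R (p.2.map not) (p.1.map not)) ?_).tsum_eq
      (fun p : {p : List Bool × List Bool // p.1 ∈ {t : List Bool | t.map not ∈ B} ∧
        p.2 ∈ {t : List Bool | t.map not ∈ A} ∧ R (p.2.map not) (p.1.map not)} => wE p.1.1 * wE p.1.2))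
  · refine tsum_congr fun p => ?_
    show wE p.1.1 * wE p.1.2 = wE (p.1.2.map not) * wE (p.1.1.map not)
    rw [wE_not, wE_not, mul_comm]
  · rintro ⟨a, b⟩
    show (a ∈ A ∧ b ∈ B ∧ R a b) ↔ ((b.map not).map not ∈ B ∧ (a.map not).map not ∈ A ∧
      R ((a.map not).map not) ((b.map not).map not))
    rw [map_not_not, map_not_not]
    tauto

theorem g2_V2_mirror (A B : Set (List Bool)) : g2 A B V2 = g2 {t | t.map not ∈ B} {t | t.map not ∈ A} V2 := by
  rw [g2_mirror]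
  apply le_antisymm
  · exact g2_mono le_rfl le_rfl fun s t _ _ h => by
      have := V2_not h
      rwa [map_not_not, map_not_not] at this
  · exact g2_mono le_rfl le_rfl fun s t _ _ h => V2_not h

theorem FC_not (s j : ℕ) : {t : List Bool | t.map not ∈ FC s j} = FC s j := by
  ext t
  show (t.map not ∈ Brd j ∧ s ≤ j ∧ ∀ c, s ≤ c → c < j → ¬ Cut (t.map not) c) ↔
    (t ∈ Brd j ∧ s ≤ j ∧ ∀ c, s ≤ c → c < j → ¬ Cut t c)
  simp only [Brd_not_iff, Cut_not_iff]

theorem LG_not (s : ℕ) : {t : List Bool | t.map not ∈ LG s} = LG s := by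
  ext t
  have h : ∀ j, t.map not ∈ FC s j ↔ t ∈ FC s j := by
    intro j
    have h1 := FC_not s j
    constructor
    · intro h2
      rw [← h1]
      exact h2
    · intro h2
      rw [← h1] at h2
      exact h2
  show (∃ j, t.map not ∈ FC s j) ↔ (∃ j, t ∈ FC s j)
  simp only [h]

theorem gfF_Irr_not (r : ℕ) (F : List Bool → ℝ≥0∞) : gfF (Irr r) (fun P => F (P.map not)) = gfF (Irr r) F := by
  let e : List Bool ≃ List Bool :=
    { toFun := fun p => p.map not
      invFun := fun p => p.map not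
      left_inv := fun p => by simp only [map_not_not]
      right_inv := fun p => by simp only [map_not_not] }
  unfold gfF
  refine Eq.trans ?_ ((Equiv.subtypeEquiv e (p := fun p : List Bool => p ∈ Irr r)
    (q := fun p : List Bool => p ∈ Irr r) ?_).tsum_eq (fun p : {p : List Bool // p ∈ Irr r} => wE p.1 * F p.1))
  · refine tsum_congr fun p => ?_
    show wE p.1 * F (p.1.map not) = wE (p.1.map not) * F (p.1.map not)
    rw [wE_not]
  · intro p
    exact Irr_not_iff.symm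

/-! numbers -/

theorem th_le_one (s : ℕ) : th s ≤ 1 := by
  unfold th
  refine (g2_le_mul _ _ _).trans ?_
  calc gf (LG s) * gf (LG s) ≤ 1 * 1 := mul_le_mul' (gf_LG_le s) (gf_LG_le s)
    _ = 1 := one_mul 1

theorem th_anti {s s' : ℕ} (h : s ≤ s') : th s' ≤ th s := by
  unfold th
  rw [g2_gfF, g2_gfF]
  have hdec : ∀ t ∈ LG s', ∃ t1 t2 : List Bool, t1 ∈ LG s ∧ t2 ∈ {y | ∃ c, t1 ∈ FC s c ∧ y ∈ LG (s' - c)} ∧
      t = t1 ++ t2 := by
    intro t ht
    obtain ⟨c, t1, t2, h1, h2, h3⟩ := LG_dec h ht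
    exact ⟨t1, t2, ⟨c, h1⟩, ⟨c, h1, h2⟩, h3⟩
  refine (gfF_dec _ hdec).trans ?_
  apply gfF_mono le_rfl
  intro x1 hx1
  refine (gfF_le _ (c := gf {t | t ∈ LG s ∧ V2 x1 t}) ?_).trans ?_
  · rintro x2 ⟨c, hc, m, hm⟩
    rw [← gfF_one]
    refine (gfF_dec (A := {t | t ∈ LG s ∧ V2 x1 t}) (B := fun t1 => {y | ∃ c, t1 ∈ FC s c ∧ y ∈ LG (s' - c)}) _ ?_).trans ?_
    · rintro y ⟨hy, hv⟩
      obtain ⟨d, y1, y2, h1, h2, rfl⟩ := LG_dec h hy
      obtain ⟨m', hm'⟩ := h2
      exact ⟨y1, y2, ⟨⟨d, h1⟩, V2_prefix hc.1 hm.1 h1.1 hm'.1 hv⟩, ⟨d, h1, ⟨m', hm'⟩⟩, rfl⟩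
    · rw [← one_mul (gf {t | t ∈ LG s ∧ V2 x1 t})]
      refine gfF_le _ fun y1 _ => ?_
      rw [gfF_one]
      exact gf_rest_le s s' y1
  · exact (mul_le_mul_right (gf_rest_le s s' x1) _).trans (le_of_eq (mul_one _))

theorem blk_zero : blk 0 = {0} := by
  decide

theorem mem_blk {k a : ℕ} : a ∈ blk k ↔ Nat.size a = k := by
  unfold blk
  rw [Finset.mem_Ico]
  cases k with
  | zero =>
    rw [pow_zero]
    constructor
    · intro h
      have h0 : a = 0 := by omega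
      rw [h0]
      exact Nat.size_zero
    · intro h
      have h0 : a = 0 := by
        by_contra hne
        have := Nat.size_pos.2 (Nat.pos_of_ne_zero hne)
        omega
      rw [h0]
      decide
  | succ k =>
    have e : 2 ^ (k + 1) / 2 = 2 ^ k := by
      rw [pow_succ]
      omega
    rw [e, ← Nat.lt_size, ← Nat.size_le]
    omega

theorem SW_split (f : ℕ → ℝ≥0∞) (j n : ℕ) : SW f j n = SWA f j n + SWB f j n := by
  unfold SW SWA SWB
  rw [← Finset.sum_add_distrib]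
  refine Finset.sum_congr rfl fun a _ => ?_
  rw [← Finset.sum_filter_add_sum_filter_not (Finset.range (a + 1)) (fun c => 2 ^ j ≤ 4 * c)]
  congr 1
  refine Finset.sum_congr ?_ fun c _ => rfl
  refine Finset.filter_congr fun c _ => ?_
  exact not_le

theorem SW_mono {f g : ℕ → ℝ≥0∞} (h : ∀ x, f x ≤ g x) (j n : ℕ) : SW f j n ≤ SW g j n := by
  unfold SW
  refine Finset.sum_le_sum fun a _ => Finset.sum_le_sum fun c _ => Finset.sum_le_sum fun r _ => ?_
  exact gfF_mono le_rfl fun P _ => mul_le_mul_left (h _) _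

lemma fw_trunc {δ B : ℝ} (hδ : 0 < δ) (hB : 1 ≤ B) (n x : ℕ) :
    fw δ n x ≤ ENNReal.ofReal ((1 + B) ^ δ) * 1 + ENNReal.ofReal (B ^ (-δ)) * fw (2 * δ) n x := by
  unfold fw
  have h0 : (0 : ℝ) ≤ (x : ℝ) / 2 ^ n := by positivity
  rcases le_or_gt ((x : ℝ) / 2 ^ n) B with h | h
  · refine le_trans ?_ le_self_add
    rw [mul_one]
    apply ENNReal.ofReal_le_ofReal
    exact Real.rpow_le_rpow (by linarith) (by linarith) hδ.le
  · refine le_trans ?_ le_add_self
    have hB0 : 0 < B := by linarith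
    rw [← ENNReal.ofReal_mul (Real.rpow_nonneg hB0.le _)]
    apply ENNReal.ofReal_le_ofReal
    have e1 : (1 + (x : ℝ) / 2 ^ n) ^ δ = (1 + (x : ℝ) / 2 ^ n) ^ (-δ) * (1 + (x : ℝ) / 2 ^ n) ^ (2 * δ) := by
      rw [← Real.rpow_add (by linarith)]
      congr 1
      ring
    rw [e1]
    apply mul_le_mul_of_nonneg_right _ (Real.rpow_nonneg (by linarith) _)
    exact Real.rpow_le_rpow_of_nonpos hB0 (by linarith) (by linarith)

/-- splitting of the weight -/
theorem SW_trunc {δ B : ℝ} (hδ : 0 < δ) (hB : 1 ≤ B) (j n : ℕ) :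
    SW (fw δ n) j n ≤ ENNReal.ofReal ((1 + B) ^ δ) * SW (fun _ => 1) j n +
      ENNReal.ofReal (B ^ (-δ)) * SW (fw (2 * δ) n) j n := by
  unfold SW
  simp_rw [Finset.mul_sum]
  rw [← Finset.sum_add_distrib]
  refine Finset.sum_le_sum fun a _ => ?_
  rw [← Finset.sum_add_distrib]
  refine Finset.sum_le_sum fun c _ => ?_
  rw [← Finset.sum_add_distrib]
  refine Finset.sum_le_sum fun r _ => ?_
  rw [← gfF_mul, ← gfF_mul, ← gfF_add]
  refine gfF_mono le_rfl fun P _ => ?_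
  rw [← mul_assoc, ← mul_assoc, ← add_mul]
  exact mul_le_mul_left (fw_trunc hδ hB n _) _

end HexObs
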