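import Pool.Agent.PHW5.LatG
import Pool.Agent.PHW.DefsQ
import Pool.Agent.PHW.WallStrong
import Pool.Agent.PHW.EqTop
import Pool.Agent.PHW.ViaE
import Pool.Agent.PHW.Num2
import Pool.Agent.PHW.Num3
import Pool.Agent.PHW.Mirror
import Pool.Agent.PHW.PairsA
import Pool.Agent.PHW.Cuts
import Pool.Agent.PHW.Jump
import Pool.Agent.PHW.FirstCut
import Pool.Agent.HexWall.FlatD

/-!
PHW5 (doc proof/PHW_S5): definitions for the closing estimate without logarithm.
Left walk from foot 0, right walk from foot 1 (two units to the right).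
-/

set_option autoImplicit false

namespace HexObs

open Complex Finset ENNReal

/-- disjoint pairs that are viable on both sides -/
def V2 (s t : List Bool) : Prop := Dj s t ∧ Via s t ∧ Via (t.map not) (s.map not)

/-- legs stopped at their first cut at or above s -/
def LG (s : ℕ) : Set (List Bool) := {t | ∃ j, t ∈ FC s j}

/-- block 0 is {0}, block k is [2^(k-1), 2^k) -/
def blk (k : ℕ) : Finset ℕ := Finset.Ico (2 ^ k / 2) (2 ^ k)

/-- horizontal distance of the ends of a pair (left walk s, right walk t) -/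
def offs (s t : List Bool) : ℕ := (latE t + 2 - latE s).natAbs

/-- sum with a weight function -/
noncomputable def gfF (A : Set (List Bool)) (F : List Bool → ℝ≥0∞) : ℝ≥0∞ := ∑' t : {t : List Bool // t ∈ A}, wE t.1 * F t.1

/-- weight of the V2 pairs of stopped legs -/
noncomputable def th (s : ℕ) : ℝ≥0∞ := g2 (LG s) (LG s) V2

noncomputable def Lam (k : ℕ) : ℝ≥0∞ := ENNReal.ofReal (UU (2 ^ k)) * th (2 ^ k)

/-- the weight (1 + x / 2 ^ n) ^ e -/
noncomputable def fw (e : ℝ) (n x : ℕ) : ℝ≥0∞ := ENNReal.ofReal ((1 + (x : ℝ) / 2 ^ n) ^ e)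

/-- states with the short (left) walk ending in the block j, right walk stopped at its first cut above -/
noncomputable def VS (j : ℕ) : ℝ≥0∞ := ∑ a ∈ blk j, g2 (Brd a) (LG (a + 1)) V2

/-- the same, right walk ending in the block n -/
noncomputable def VN (j n : ℕ) : ℝ≥0∞ := ∑ a ∈ blk j, ∑ d ∈ blk n, g2 (Brd a) (FC (a + 1) d) V2

/-- states: the left (short) walk s ends at a height a in the block j, the right walk is t ++ P, P irreducible, P covers
the level a and ends in the block n; f is a weight of the extent of P -/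
noncomputable def SW (f : ℕ → ℝ≥0∞) (j n : ℕ) : ℝ≥0∞ :=
  ∑ a ∈ blk j, ∑ c ∈ Finset.range (a + 1), ∑ r ∈ (Finset.range (2 ^ n)).filter (fun r => a < c + r ∧ c + r ∈ blk n),
    gfF (Irr r) fun P => f (extP P) * g2 (Brd a) (Brd c) (fun s t => V2 s (t ++ P))

/-- the part of SW with c below 2 ^ (j - 2) -/
noncomputable def SWB (f : ℕ → ℝ≥0∞) (j n : ℕ) : ℝ≥0∞ :=
  ∑ a ∈ blk j, ∑ c ∈ (Finset.range (a + 1)).filter (fun c => 4 * c < 2 ^ j),
    ∑ r ∈ (Finset.range (2 ^ n)).filter (fun r => a < c + r ∧ c + r ∈ blk n),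
    gfF (Irr r) fun P => f (extP P) * g2 (Brd a) (Brd c) (fun s t => V2 s (t ++ P))

/-- the part of SW with c at least 2 ^ (j - 2) -/
noncomputable def SWA (f : ℕ → ℝ≥0∞) (j n : ℕ) : ℝ≥0∞ :=
  ∑ a ∈ blk j, ∑ c ∈ (Finset.range (a + 1)).filter (fun c => 2 ^ j ≤ 4 * c),
    ∑ r ∈ (Finset.range (2 ^ n)).filter (fun r => a < c + r ∧ c + r ∈ blk n),
    gfF (Irr r) fun P => f (extP P) * g2 (Brd a) (Brd c) (fun s t => V2 s (t ++ P))

/-- the pair (s1, t0) is fixed (heights a' and c); s1 ++ s2 ends in the block j, t0 ++ P in the block n -/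
noncomputable def KS (f : ℕ → ℝ≥0∞) (j n c a' : ℕ) (s1 t0 : List Bool) : ℝ≥0∞ :=
  ∑ a ∈ (blk j).filter (fun a => a' ≤ a), ∑ r ∈ (Finset.range (2 ^ n)).filter (fun r => a < c + r ∧ c + r ∈ blk n),
    gfF (Irr r) fun P => f (extP P) * gf {s2 | s2 ∈ Brd (a - a') ∧ V2 (s1 ++ s2) (t0 ++ P)}

end HexObs
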