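import Pool.Agent.PHW5.LatG
import Pool.Agent.HexWall.FlatE

/-!
PHW5: the continuation of the short leg beside a giant (one-body part of the recursion).
-/

set_option autoImplicit false

namespace HexObs

open Complex Finset ENNReal

/-- the walk P has a vertex in the layer y at a position at most z -/
def KV (P : List Bool) (y : ℕ) (z : ℤ) : Prop :=
  ∃ i, i ≤ P.length ∧ (lev P i = 3 * y - 1 ∨ lev P i = 3 * y) ∧ lat P i ≤ z

/-- weight of the continuations of height b, at the height f and at the position x relative to the start of P, with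
all cut points on the left of P -/
noncomputable def contE (P : List Bool) (f : ℕ) (x : ℤ) (b : ℕ) : ℝ≥0∞ :=
  gf {N | N ∈ Brd b ∧ ¬ Ex.Dead (KV P) f x N}

lemma contE_le (P : List Bool) (f : ℕ) (x : ℤ) (b : ℕ) : contE P f x b ≤ ENNReal.ofReal (uu b) := by
  refine (gf_mono fun N hN => hN.1).trans (le_of_eq ?_)
  rw [gf_Brd, BT_eq_uu]

lemma rows_KV {A : ℕ} {P : List Bool} {k : ℕ} (hk : 1 ≤ k) (h : ¬ Wall.Flat 8 A P k) :
    (1 / 8 : ℝ) * 2 ^ k ≤ (Ex.rowsK (KV P) A (2 ^ k)).card := by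
  classical
  unfold Wall.Flat at h
  push Not at h
  have h1 : Wall.nvis P k (A * 2 ^ k) ≤ (Ex.rowsK (KV P) A (2 ^ k)).card := by
    unfold Wall.nvis Ex.rowsK
    apply Finset.card_le_card
    intro y hy
    rw [Finset.mem_filter, Finset.mem_Ioc] at hy
    obtain ⟨⟨h2, h3⟩, h4⟩ := hy
    rw [Finset.mem_filter, Finset.mem_Icc]
    have e1 : 2 ^ k = 2 * 2 ^ (k - 1) := two_pow_block hk
    refine ⟨⟨by omega, h3⟩, ?_⟩
    unfold Wall.Clr at h4
    push Not at h4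
    obtain ⟨i, hi, hl, hw⟩ := h4
    intro z hz
    push_cast at hz
    exact ⟨i, hi, hl, hw.trans hz⟩
  have h2 : 2 ^ k ≤ 8 * (Ex.rowsK (KV P) A (2 ^ k)).card := h.trans (Nat.mul_le_mul_left 8 h1)
  have h3 : (2 : ℝ) ^ k ≤ 8 * ((Ex.rowsK (KV P) A (2 ^ k)).card : ℝ) := by exact_mod_cast h2
  linarith

/-- KILL beside a giant that is flat at less than half of the scales of (i, k1] -/
theorem kill_one (A : ℕ) : ∃ q C : ℝ, 0 < q ∧ q < 1 ∧ 0 < C ∧ ∀ (P : List Bool) (f : ℕ) (x : ℤ) (i k1 b : ℕ),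
    f ≤ 2 ^ i → x.natAbs ≤ 2 ^ i → i < k1 → 2 ^ k1 ≤ f + b → ¬ (k1 + 1 - (i + 1) ≤ 2 * Wall.nflat A P (i + 1) k1) →
    contE P f x b ≤ ENNReal.ofReal (C * q ^ (k1 - i) * uu b) := by
  classical
  obtain ⟨ε, C, h1, h2, h3, h4⟩ := Ex.kill A (θ := 1 / 8) (by norm_num)
  refine ⟨Real.sqrt (1 - ε), C, Real.sqrt_pos.2 (by linarith), ?_, h3, ?_⟩
  · rw [Real.sqrt_lt' one_pos]
    linarith
  intro P f x i k1 b hf hx hik hb hfl
  set H := (Finset.Icc (i + 1) k1).filter (fun k => ¬ Wall.Flat 8 A P k) with hH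
  have h5 := h4 (KV P) f x i b H hf hx ?_
  · refine h5.trans (ENNReal.ofReal_le_ofReal ?_)
    have hcard : k1 - i ≤ 2 * H.card := by
      have e1 : ((Finset.Icc (i + 1) k1).filter (fun k => Wall.Flat 8 A P k)).card + H.card = k1 + 1 - (i + 1) := by
        rw [hH, Finset.card_filter_add_card_filter_not, Nat.card_Icc]
      have e2 : Wall.nflat A P (i + 1) k1 = ((Finset.Icc (i + 1) k1).filter (fun k => Wall.Flat 8 A P k)).card := by
        unfold Wall.nflat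
        congr
      rw [e2] at hfl
      omega
    have e3 : (1 - ε) ^ H.card ≤ Real.sqrt (1 - ε) ^ (k1 - i) := by
      have e4 : (1 - ε) ^ H.card = Real.sqrt (1 - ε) ^ (2 * H.card) := by
        rw [pow_mul, Real.sq_sqrt (by linarith)]
      rw [e4]
      apply pow_le_pow_of_le_one (Real.sqrt_nonneg _) _ hcard
      rw [Real.sqrt_le_iff]
      exact ⟨by norm_num, by linarith⟩
    have hu := (uu_pos b).le
    gcongr
  · intro k hk
    rw [hH, Finset.mem_filter, Finset.mem_Icc] at hk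
    refine ⟨by omega, ?_, rows_KV (by omega) hk.2⟩
    exact le_trans (Nat.pow_le_pow_right (by norm_num) hk.1.2) hb

/-- the weight of the extent of a giant -/
noncomputable def Fx (β : ℝ) (n : ℕ) (P : List Bool) : ℝ≥0∞ := ENNReal.ofReal ((1 + (extP P : ℝ) / 2 ^ n) ^ β)

lemma base_ge (n : ℕ) (P : List Bool) : (1 : ℝ) ≤ 1 + (extP P : ℝ) / 2 ^ n := by
  have : (0 : ℝ) ≤ (extP P : ℝ) / 2 ^ n := by positivity
  linarith

lemma Fx_le_one {β : ℝ} (hβ : β ≤ 1) (n : ℕ) (P : List Bool) :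
    Fx β n P ≤ ENNReal.ofReal ((1 + (extP P : ℝ) / 2 ^ n) ^ 1) := by
  unfold Fx
  apply ENNReal.ofReal_le_ofReal
  rw [← Real.rpow_natCast _ 1]
  apply Real.rpow_le_rpow_of_exponent_le (base_ge n P)
  simpa using hβ

lemma one_le_Fx {β : ℝ} (hβ : 0 ≤ β) (n : ℕ) (P : List Bool) : 1 ≤ Fx β n P := by
  unfold Fx
  rw [← ENNReal.ofReal_one]
  exact ENNReal.ofReal_le_ofReal (Real.one_le_rpow (base_ge n P) hβ)

/-- Fx β ≤ λ + Fx (2 β) / λ -/
lemma Fx_split {lam : ℝ} (hl : 0 < lam) (β : ℝ) (n : ℕ) (P : List Bool) :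
    Fx β n P ≤ ENNReal.ofReal lam + ENNReal.ofReal (1 / lam) * Fx (2 * β) n P := by
  unfold Fx
  have hb : (0 : ℝ) < 1 + (extP P : ℝ) / 2 ^ n := lt_of_lt_of_le one_pos (base_ge n P)
  rw [← ENNReal.ofReal_mul (by positivity), ← ENNReal.ofReal_add hl.le (by positivity)]
  apply ENNReal.ofReal_le_ofReal
  rw [mul_comm 2 β, Real.rpow_mul hb.le, Real.rpow_two]
  have h1 : (0 : ℝ) < (1 + (extP P : ℝ) / 2 ^ n) ^ β := Real.rpow_pos_of_pos hb _
  set g := (1 + (extP P : ℝ) / 2 ^ n) ^ β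
  have h2 : g * lam ≤ (lam + 1 / lam * g ^ 2) * lam := by
    have e : (lam + 1 / lam * g ^ 2) * lam = lam ^ 2 + g ^ 2 := by
      field_simp
    rw [e]
    nlinarith [sq_nonneg (g - lam), mul_pos h1 hl]
  exact le_of_mul_le_mul_right h2 hl

lemma UU_pow_half {n : ℕ} (hn : 1 ≤ n) : UU (2 ^ n) ≤ 2 * UU (2 ^ (n - 1)) := by
  rw [two_pow_block hn]
  exact UU_double _

/-- all giants of the blocks n - 1 and n -/
theorem giants_all : ∃ C : ℝ, 0 < C ∧ ∀ (n : ℕ) (β : ℝ), 2 ≤ n → β ≤ 1 →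
    ∑ r ∈ Finset.Ico (2 ^ (n - 2)) (2 ^ n), ∑' P : {P : List Bool // P ∈ Irr r}, wE P.1 * Fx β n P.1 ≤
      ENNReal.ofReal (C / UU (2 ^ n)) := by
  obtain ⟨C, hC, h⟩ := latG 1
  refine ⟨3 * C, by positivity, ?_⟩
  intro n β hn hβ
  have e1 : 2 ^ n = 2 * 2 ^ (n - 1) := two_pow_block (by omega)
  have e2 : 2 ^ (n - 1) = 2 * 2 ^ (n - 2) := by
    have := two_pow_block (n := n - 1) (by omega)
    rwa [show n - 1 - 1 = n - 2 by omega] at this
  have hu := Num2Aux.UU_pos (2 ^ n)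
  have hu1 := Num2Aux.UU_pos (2 ^ (n - 1))
  rw [← Finset.sum_Ico_consecutive _ (show 2 ^ (n - 2) ≤ 2 ^ (n - 1) by omega) (show 2 ^ (n - 1) ≤ 2 ^ n by omega)]
  have h1 := h n (by omega)
  have h2 := h (n - 1) (by omega)
  rw [show n - 1 - 1 = n - 2 by omega] at h2
  have h3 : ∑ r ∈ Finset.Ico (2 ^ (n - 2)) (2 ^ (n - 1)), ∑' P : {P : List Bool // P ∈ Irr r}, wE P.1 * Fx β n P.1 ≤
      ENNReal.ofReal (C / UU (2 ^ (n - 1))) := by
    refine le_trans ?_ h2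
    refine Finset.sum_le_sum fun r _ => ENNReal.tsum_le_tsum fun P => mul_le_mul_right ?_ _
    refine (Fx_le_one hβ n P.1).trans (ENNReal.ofReal_le_ofReal ?_)
    rw [pow_one, pow_one]
    have h5 : (2 : ℝ) ^ (n - 1) ≤ 2 ^ n := pow_le_pow_right₀ (by norm_num) (by omega)
    gcongr
  have h4 : ∑ r ∈ Finset.Ico (2 ^ (n - 1)) (2 ^ n), ∑' P : {P : List Bool // P ∈ Irr r}, wE P.1 * Fx β n P.1 ≤
      ENNReal.ofReal (C / UU (2 ^ n)) := by
    refine le_trans ?_ h1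
    exact Finset.sum_le_sum fun r _ => ENNReal.tsum_le_tsum fun P => mul_le_mul_right (Fx_le_one hβ n P.1) _
  refine (add_le_add h3 h4).trans ?_
  rw [← ENNReal.ofReal_add (by positivity) (by positivity)]
  apply ENNReal.ofReal_le_ofReal
  have h6 := UU_pow_half (n := n) (by omega)
  have h7 : C / UU (2 ^ (n - 1)) ≤ 2 * C / UU (2 ^ n) := by
    rw [div_le_div_iff₀ hu1 hu]
    nlinarith
  calc C / UU (2 ^ (n - 1)) + C / UU (2 ^ n) ≤ 2 * C / UU (2 ^ n) + C / UU (2 ^ n) := by linarith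
    _ = 3 * C / UU (2 ^ n) := by ring

/-- giants flat at half of the scales of (m, j - 3] -/
def OBad (A m j : ℕ) (P : List Bool) : Prop := j - 3 + 1 - (m + 1) ≤ 2 * Wall.nflat A P (m + 1) (j - 3)

/-- flat giants of the blocks n - 1 and n -/
theorem giants_bad {ε : ℝ} (hε : 0 < ε) : ∃ (A : ℕ) (C : ℝ), 0 < C ∧ ∀ (m j n : ℕ), m + 4 ≤ j → j ≤ n →
    ∑ r ∈ Finset.Ico (2 ^ (n - 2)) (2 ^ n), gf {P | P ∈ Irr r ∧ OBad A m j P} ≤
      ENNReal.ofReal (C / UU (2 ^ n) * (2 ^ (n - j) * ε ^ (j - 3 - m))) := by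
  obtain ⟨A, C, hC, h⟩ := Wall.flat_tail 2 hε
  refine ⟨A, 8 * C, by positivity, ?_⟩
  intro m j n hmj hjn
  have h1 := h A (m + 1) (j - 3) (2 ^ (n - 3)) (2 ^ n) le_rfl (by omega) (Nat.pow_le_pow_right (by norm_num) (by omega))
  have hsub : Finset.Ico (2 ^ (n - 2)) (2 ^ n) ⊆ Finset.Ioc (2 ^ (n - 3)) (2 ^ n) := by
    intro r hr
    rw [Finset.mem_Ico] at hr
    rw [Finset.mem_Ioc]
    have : 2 ^ (n - 3) < 2 ^ (n - 2) := Nat.pow_lt_pow_right (by norm_num) (by omega)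
    omega
  refine (Finset.sum_le_sum_of_subset hsub).trans (h1.trans (ENNReal.ofReal_le_ofReal ?_))
  have hu := Num2Aux.UU_pos (2 ^ n)
  have hu3 := Num2Aux.UU_pos (2 ^ (n - 3))
  have e1 := UU_pow_half (n := n) (by omega)
  have e2 := UU_pow_half (n := n - 1) (by omega)
  have e3 := UU_pow_half (n := n - 1 - 1) (by omega)
  rw [show n - 1 - 1 - 1 = n - 3 by omega] at e3
  have h2 : C / UU (2 ^ (n - 3)) ≤ 8 * C / UU (2 ^ n) := by
    rw [div_le_div_iff₀ hu3 hu]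
    nlinarith
  have h3 : (((2 ^ (n - 3) : ℕ) : ℝ)) / 2 ^ (j - 3) = 2 ^ (n - j) := by
    push_cast
    rw [div_eq_iff (by positivity), ← pow_add]
    congr 1
    omega
  rw [h3, show j - 3 + 1 - (m + 1) = j - 3 - m by omega, mul_assoc]
  have h4 : (0 : ℝ) ≤ 2 ^ (n - j) * ε ^ (j - 3 - m) := by positivity
  exact mul_le_mul_of_nonneg_right h2 h4

lemma min_rpow {x th : ℝ} (hx : 0 < x) (h0 : 0 ≤ th) (h1 : th ≤ 1) : min 1 x ≤ x ^ th := by
  rcases le_total 1 x with h | h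
  · exact (min_le_left _ _).trans (Real.one_le_rpow h h0)
  · refine (min_le_right _ _).trans ?_
    conv_lhs => rw [← Real.rpow_one x]
    exact Real.rpow_le_rpow_of_exponent_ge hx h h1

open Classical in
/-- flat giants with their extent -/
theorem giants_bad_F {th : ℝ} (h0 : 0 < th) (h1 : th ≤ 1) : ∃ (A : ℕ) (C : ℝ), 0 < C ∧
    ∀ (β : ℝ) (m j n : ℕ), 0 ≤ β → 2 * β ≤ 1 → m + 4 ≤ j → j ≤ n →
    ∑ r ∈ Finset.Ico (2 ^ (n - 2)) (2 ^ n), ∑' P : {P : List Bool // P ∈ Irr r},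
      wE P.1 * (if OBad A m j P.1 then Fx β n P.1 else 0) ≤
      ENNReal.ofReal (C / UU (2 ^ n) * ((2 : ℝ) ^ (th * ((n : ℝ) - j)) * (2 : ℝ) ^ (-(β * ((j : ℝ) - m))))) := by
  obtain ⟨A, C1, hC1, hb⟩ := giants_bad (ε := (2 : ℝ) ^ (-(1 / th))) (Real.rpow_pos_of_pos (by norm_num) _)
  obtain ⟨C2, hC2, ha⟩ := giants_all
  refine ⟨A, 8 * (C1 + C2) + C2, by positivity, ?_⟩
  intro β m j n hβ hβ1 hmj hjn
  have hU := Num2Aux.UU_pos (2 ^ n)
  have hjm : (0 : ℝ) ≤ (j : ℝ) - m := by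
    have : (m : ℝ) ≤ j := by exact_mod_cast (by omega : m ≤ j)
    linarith
  have hnj : (0 : ℝ) ≤ (n : ℝ) - j := by
    have : (j : ℝ) ≤ n := by exact_mod_cast hjn
    linarith
  obtain ⟨lam, hlam⟩ : ∃ lam : ℝ, lam = (2 : ℝ) ^ (β * ((j : ℝ) - m)) := ⟨_, rfl⟩
  have hl0 : 0 < lam := by rw [hlam]; positivity
  have hl1 : 1 / lam = (2 : ℝ) ^ (-(β * ((j : ℝ) - m))) := by
    rw [hlam, Real.rpow_neg (by norm_num), one_div]
  -- mass of the flat giants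
  have hmass : ∑ r ∈ Finset.Ico (2 ^ (n - 2)) (2 ^ n), gf {P | P ∈ Irr r ∧ OBad A m j P} ≤
      ENNReal.ofReal ((C1 + C2) / UU (2 ^ n) * (8 * (2 : ℝ) ^ (th * ((n : ℝ) - j)) * (2 : ℝ) ^ (-(2 * β * ((j : ℝ) - m))))) := by
    have e1 := hb m j n hmj hjn
    have e2 : ∑ r ∈ Finset.Ico (2 ^ (n - 2)) (2 ^ n), gf {P | P ∈ Irr r ∧ OBad A m j P} ≤
        ENNReal.ofReal (C2 / UU (2 ^ n)) := by
      refine le_trans (Finset.sum_le_sum fun r _ => ?_) (ha n 0 (by omega) zero_le_one)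
      refine (gf_mono (fun P hP => hP.1 : {P | P ∈ Irr r ∧ OBad A m j P} ⊆ Irr r)).trans ?_
      unfold gf
      refine ENNReal.tsum_le_tsum fun P => ?_
      calc wE P.1 = wE P.1 * 1 := (mul_one _).symm
        _ ≤ wE P.1 * Fx 0 n P.1 := mul_le_mul_right (one_le_Fx le_rfl n P.1) _
    set X : ℝ := 2 ^ (n - j) * ((2 : ℝ) ^ (-(1 / th))) ^ (j - 3 - m) with hX
    have hX0 : 0 < X := by rw [hX]; positivity
    have e3 : ∑ r ∈ Finset.Ico (2 ^ (n - 2)) (2 ^ n), gf {P | P ∈ Irr r ∧ OBad A m j P} ≤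
        ENNReal.ofReal ((C1 + C2) / UU (2 ^ n) * min 1 X) := by
      rcases le_total 1 X with h | h
      · rw [min_eq_left h, mul_one]
        refine e2.trans (ENNReal.ofReal_le_ofReal ?_)
        gcongr
        linarith
      · rw [min_eq_right h]
        refine e1.trans (ENNReal.ofReal_le_ofReal ?_)
        gcongr
        linarith
    refine e3.trans (ENNReal.ofReal_le_ofReal ?_)
    have e4 : min 1 X ≤ X ^ th := min_rpow hX0 h0.le h1
    have e5 : X ^ th = (2 : ℝ) ^ (th * ((n : ℝ) - j)) * (2 : ℝ) ^ (-(((j : ℝ) - m) - 3)) := by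
      rw [hX, Real.mul_rpow (by positivity) (by positivity)]
      congr 1
      · rw [← Real.rpow_natCast, ← Real.rpow_mul (by norm_num)]
        congr 1
        rw [Nat.cast_sub hjn]
        ring
      · rw [← Real.rpow_natCast, ← Real.rpow_mul (by positivity), ← Real.rpow_mul (by norm_num)]
        congr 1
        rw [Nat.cast_sub (by omega), Nat.cast_sub (by omega)]
        push_cast
        field_simp
        ring
    have e6 : (2 : ℝ) ^ (-(((j : ℝ) - m) - 3)) ≤ 8 * (2 : ℝ) ^ (-(2 * β * ((j : ℝ) - m))) := by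
      have e7 : (8 : ℝ) = (2 : ℝ) ^ (3 : ℝ) := by norm_num
      rw [e7, ← Real.rpow_add (by norm_num)]
      apply Real.rpow_le_rpow_of_exponent_le (by norm_num)
      nlinarith
    have e8 : min 1 X ≤ 8 * (2 : ℝ) ^ (th * ((n : ℝ) - j)) * (2 : ℝ) ^ (-(2 * β * ((j : ℝ) - m))) := by
      refine e4.trans ?_
      rw [e5]
      have : (0 : ℝ) < (2 : ℝ) ^ (th * ((n : ℝ) - j)) := by positivity
      nlinarith
    have : 0 ≤ (C1 + C2) / UU (2 ^ n) := by positivity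
    exact mul_le_mul_of_nonneg_left e8 this
  -- split
  have hsplit : ∀ r : ℕ, ∑' P : {P : List Bool // P ∈ Irr r}, wE P.1 * (if OBad A m j P.1 then Fx β n P.1 else 0) ≤
      ENNReal.ofReal lam * gf {P | P ∈ Irr r ∧ OBad A m j P} +
      ENNReal.ofReal (1 / lam) * ∑' P : {P : List Bool // P ∈ Irr r}, wE P.1 * Fx (2 * β) n P.1 := by
    intro r
    have e1 : gf {P | P ∈ Irr r ∧ OBad A m j P} = ∑' P : {P : List Bool // P ∈ Irr r},
        wE P.1 * (if OBad A m j P.1 then 1 else 0) := by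
      rw [gf_ind, tsum_subtype (Irr r) (fun p => wE p * (if OBad A m j p then (1 : ℝ≥0∞) else 0))]
      refine tsum_congr fun p => ?_
      by_cases hp : p ∈ Irr r
      · rw [Set.indicator_of_mem hp]
        by_cases hq : OBad A m j p
        · have h' : p ∈ {P | P ∈ Irr r ∧ OBad A m j P} := ⟨hp, hq⟩
          rw [if_pos hq, if_pos h', mul_one]
        · have h' : ¬ p ∈ {P | P ∈ Irr r ∧ OBad A m j P} := fun h => hq h.2
          rw [if_neg hq, if_neg h', mul_zero]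
      · have h' : ¬ p ∈ {P | P ∈ Irr r ∧ OBad A m j P} := fun h => hp h.1
        rw [Set.indicator_of_notMem hp, if_neg h']
    rw [e1, ← ENNReal.tsum_mul_left, ← ENNReal.tsum_mul_left, ← ENNReal.tsum_add]
    refine ENNReal.tsum_le_tsum fun P => ?_
    by_cases hq : OBad A m j P.1
    · rw [if_pos hq, if_pos hq, mul_one]
      refine (mul_le_mul_right (Fx_split hl0 β n P.1) _).trans (le_of_eq ?_)
      ring
    · rw [if_neg hq, mul_zero]
      exact zero_le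
  refine (Finset.sum_le_sum fun r _ => hsplit r).trans ?_
  rw [Finset.sum_add_distrib, ← Finset.mul_sum, ← Finset.mul_sum]
  refine (add_le_add (mul_le_mul_right hmass _) (mul_le_mul_right (ha n (2 * β) (by omega) hβ1) _)).trans ?_
  rw [← ENNReal.ofReal_mul hl0.le, ← ENNReal.ofReal_mul (by positivity), ← ENNReal.ofReal_add (by positivity) (by positivity)]
  apply ENNReal.ofReal_le_ofReal
  obtain ⟨a, ha'⟩ : ∃ a : ℝ, a = (2 : ℝ) ^ (th * ((n : ℝ) - j)) := ⟨_, rfl⟩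
  have ha1 : 1 ≤ a := by
    rw [ha']
    exact Real.one_le_rpow (by norm_num) (by positivity)
  have e9 : (2 : ℝ) ^ (-(2 * β * ((j : ℝ) - m))) = 1 / lam * (1 / lam) := by
    rw [hl1, ← Real.rpow_add (by norm_num)]
    congr 1
    ring
  rw [e9, ← ha', ← hl1]
  have e10 : lam * ((C1 + C2) / UU (2 ^ n) * (8 * a * (1 / lam * (1 / lam)))) =
      8 * (C1 + C2) / UU (2 ^ n) * (a * (1 / lam)) := by
    field_simp
  have e11 : 1 / lam * (C2 / UU (2 ^ n)) ≤ C2 / UU (2 ^ n) * (a * (1 / lam)) := by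
    have h3 : 0 < 1 / lam := by positivity
    have h4 : 0 < C2 / UU (2 ^ n) := by positivity
    calc 1 / lam * (C2 / UU (2 ^ n)) = C2 / UU (2 ^ n) * (1 * (1 / lam)) := by ring
      _ ≤ C2 / UU (2 ^ n) * (a * (1 / lam)) := by gcongr
  rw [e10]
  calc 8 * (C1 + C2) / UU (2 ^ n) * (a * (1 / lam)) + 1 / lam * (C2 / UU (2 ^ n)) ≤
      8 * (C1 + C2) / UU (2 ^ n) * (a * (1 / lam)) + C2 / UU (2 ^ n) * (a * (1 / lam)) := by linarith
    _ = _ := by ring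

lemma sum_uu_le {B : Finset ℕ} {N : ℕ} (h : ∀ b ∈ B, b ≤ N) : ∑ b ∈ B, uu b ≤ UU N := by
  unfold UU
  apply Finset.sum_le_sum_of_subset_of_nonneg
  · intro b hb
    rw [Finset.mem_range]
    have := h b hb
    omega
  · intro b _ _
    exact (uu_pos b).le

/-- the trivial bound for the continuations -/
lemma cont_triv (P : List Bool) (f : ℕ) (x : ℤ) {B : Finset ℕ} {N : ℕ} (h : ∀ b ∈ B, b ≤ N) :
    ∑ b ∈ B, contE P f x b ≤ ENNReal.ofReal (UU N) := by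
  refine (Finset.sum_le_sum fun b _ => contE_le P f x b).trans ?_
  rw [← ENNReal.ofReal_sum_of_nonneg (fun b _ => (uu_pos b).le)]
  exact ENNReal.ofReal_le_ofReal (sum_uu_le h)

open Classical in
/-- giants and continuations, with gain -/
theorem giant_cont {th : ℝ} (h0 : 0 < th) (h1 : th ≤ 1) : ∃ β C : ℝ, 0 < β ∧ 2 * β ≤ 1 ∧ 0 < C ∧
    ∀ (m j n f : ℕ) (x : ℤ) (B : Finset ℕ), m + 4 ≤ j → j ≤ n → f ≤ 2 ^ m → x.natAbs ≤ 2 ^ m →
    (∀ b ∈ B, 2 ^ (j - 3) ≤ f + b ∧ b ≤ 2 ^ j) →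
    ∑ r ∈ Finset.Ico (2 ^ (n - 2)) (2 ^ n), ∑' P : {P : List Bool // P ∈ Irr r},
      wE P.1 * Fx β n P.1 * ∑ b ∈ B, contE P.1 f x b ≤
      ENNReal.ofReal (C * (UU (2 ^ j) / UU (2 ^ n)) * ((2 : ℝ) ^ (th * ((n : ℝ) - j)) * (2 : ℝ) ^ (-(β * ((j : ℝ) - m))))) := by
  obtain ⟨A, C1, hC1, hb⟩ := giants_bad_F h0 h1
  obtain ⟨C2, hC2, ha⟩ := giants_all
  obtain ⟨q, C3, hq0, hq1, hC3, hk⟩ := kill_one A
  obtain ⟨β, hβ⟩ : ∃ β : ℝ, β = min (1 / 2) (-Real.logb 2 q) := ⟨_, rfl⟩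
  have hlog : 0 < -Real.logb 2 q := by
    have := Real.logb_neg (b := 2) (by norm_num) hq0 hq1
    linarith
  have hβ0 : 0 < β := by
    rw [hβ]
    exact lt_min (by norm_num) hlog
  have hβ1 : 2 * β ≤ 1 := by
    have : β ≤ 1 / 2 := by rw [hβ]; exact min_le_left _ _
    linarith
  have hqβ : q ≤ (2 : ℝ) ^ (-β) := by
    have h2 : β ≤ -Real.logb 2 q := by rw [hβ]; exact min_le_right _ _
    calc q = (2 : ℝ) ^ (Real.logb 2 q) := (Real.rpow_logb (by norm_num) (by norm_num) hq0).symm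
      _ ≤ (2 : ℝ) ^ (-β) := Real.rpow_le_rpow_of_exponent_le (by norm_num) (by linarith)
  refine ⟨β, C1 + 8 * C3 * C2, hβ0, hβ1, by positivity, ?_⟩
  intro m j n f x B hmj hjn hf hx hB
  have hU := Num2Aux.UU_pos (2 ^ n)
  have hUj := Num2Aux.UU_pos (2 ^ j)
  have hnj : (0 : ℝ) ≤ (n : ℝ) - j := by
    have : (j : ℝ) ≤ n := by exact_mod_cast hjn
    linarith
  -- one giant
  have hone : ∀ P : List Bool, ∑ b ∈ B, contE P f x b ≤ ENNReal.ofReal (UU (2 ^ j)) * (if OBad A m j P then 1 else 0) +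
      ENNReal.ofReal (C3 * q ^ (j - 3 - m) * UU (2 ^ j)) := by
    intro P
    by_cases hP : OBad A m j P
    · rw [if_pos hP, mul_one]
      exact (cont_triv P f x (fun b hb => (hB b hb).2)).trans le_self_add
    · rw [if_neg hP, mul_zero, zero_add]
      have e1 : ∀ b ∈ B, contE P f x b ≤ ENNReal.ofReal (C3 * q ^ (j - 3 - m) * uu b) := fun b hb =>
        hk P f x m (j - 3) b hf hx (by omega) (hB b hb).1 hP
      refine (Finset.sum_le_sum e1).trans ?_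
      rw [← ENNReal.ofReal_sum_of_nonneg (fun b _ => by have := (uu_pos b).le; positivity), ← Finset.mul_sum]
      apply ENNReal.ofReal_le_ofReal
      have := sum_uu_le (fun b hb => (hB b hb).2)
      gcongr
  have hsplit : ∀ r : ℕ, ∑' P : {P : List Bool // P ∈ Irr r}, wE P.1 * Fx β n P.1 * ∑ b ∈ B, contE P.1 f x b ≤
      ENNReal.ofReal (UU (2 ^ j)) * ∑' P : {P : List Bool // P ∈ Irr r}, wE P.1 * (if OBad A m j P.1 then Fx β n P.1 else 0) +
      ENNReal.ofReal (C3 * q ^ (j - 3 - m) * UU (2 ^ j)) * ∑' P : {P : List Bool // P ∈ Irr r}, wE P.1 * Fx β n P.1 := by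
    intro r
    rw [← ENNReal.tsum_mul_left, ← ENNReal.tsum_mul_left, ← ENNReal.tsum_add]
    refine ENNReal.tsum_le_tsum fun P => ?_
    refine (mul_le_mul_right (hone P.1) _).trans (le_of_eq ?_)
    by_cases hP : OBad A m j P.1
    · rw [if_pos hP, if_pos hP]
      ring
    · rw [if_neg hP, if_neg hP]
      ring
  refine (Finset.sum_le_sum fun r _ => hsplit r).trans ?_
  rw [Finset.sum_add_distrib, ← Finset.mul_sum, ← Finset.mul_sum]
  refine (add_le_add (mul_le_mul_right (hb β m j n hβ0.le hβ1 hmj hjn) _)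
    (mul_le_mul_right (ha n β (by omega) (by linarith)) _)).trans ?_
  rw [← ENNReal.ofReal_mul hUj.le, ← ENNReal.ofReal_mul (by positivity), ← ENNReal.ofReal_add (by positivity) (by positivity)]
  apply ENNReal.ofReal_le_ofReal
  obtain ⟨a, ha'⟩ : ∃ a : ℝ, a = (2 : ℝ) ^ (th * ((n : ℝ) - j)) := ⟨_, rfl⟩
  obtain ⟨g, hg⟩ : ∃ g : ℝ, g = (2 : ℝ) ^ (-(β * ((j : ℝ) - m))) := ⟨_, rfl⟩
  have ha1 : 1 ≤ a := by
    rw [ha']
    exact Real.one_le_rpow (by norm_num) (by positivity)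
  have hg0 : 0 < g := by rw [hg]; positivity
  have hqg : q ^ (j - 3 - m) ≤ 8 * g := by
    calc q ^ (j - 3 - m) ≤ ((2 : ℝ) ^ (-β)) ^ (j - 3 - m) := pow_le_pow_left₀ hq0.le hqβ _
      _ = (2 : ℝ) ^ (-(β * (((j : ℝ) - m) - 3))) := by
        rw [← Real.rpow_natCast, ← Real.rpow_mul (by norm_num)]
        congr 1
        rw [Nat.cast_sub (by omega), Nat.cast_sub (by omega)]
        push_cast
        ring
      _ ≤ 8 * g := by
        have e7 : (8 : ℝ) = (2 : ℝ) ^ (3 : ℝ) := by norm_num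
        rw [e7, hg, ← Real.rpow_add (by norm_num)]
        apply Real.rpow_le_rpow_of_exponent_le (by norm_num)
        nlinarith
  rw [← ha', ← hg]
  have e1 : C3 * q ^ (j - 3 - m) * UU (2 ^ j) * (C2 / UU (2 ^ n)) ≤ 8 * C3 * C2 * (UU (2 ^ j) / UU (2 ^ n)) * (a * g) := by
    have e2 : q ^ (j - 3 - m) ≤ 8 * (a * g) := by
      refine hqg.trans ?_
      nlinarith
    calc C3 * q ^ (j - 3 - m) * UU (2 ^ j) * (C2 / UU (2 ^ n)) ≤
        C3 * (8 * (a * g)) * UU (2 ^ j) * (C2 / UU (2 ^ n)) := by gcongr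
      _ = _ := by ring
  calc UU (2 ^ j) * (C1 / UU (2 ^ n) * (a * g)) + C3 * q ^ (j - 3 - m) * UU (2 ^ j) * (C2 / UU (2 ^ n)) ≤
      UU (2 ^ j) * (C1 / UU (2 ^ n) * (a * g)) + 8 * C3 * C2 * (UU (2 ^ j) / UU (2 ^ n)) * (a * g) := by linarith
    _ = _ := by ring

/-- giants and continuations, without gain -/
theorem giant_cont_triv : ∃ C : ℝ, 0 < C ∧ ∀ (β : ℝ) (j n f : ℕ) (x : ℤ) (B : Finset ℕ), β ≤ 1 → 2 ≤ n →
    (∀ b ∈ B, b ≤ 2 ^ j) →
    ∑ r ∈ Finset.Ico (2 ^ (n - 2)) (2 ^ n), ∑' P : {P : List Bool // P ∈ Irr r},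
      wE P.1 * Fx β n P.1 * ∑ b ∈ B, contE P.1 f x b ≤ ENNReal.ofReal (C * (UU (2 ^ j) / UU (2 ^ n))) := by
  obtain ⟨C2, hC2, ha⟩ := giants_all
  refine ⟨C2, hC2, ?_⟩
  intro β j n f x B hβ hn hB
  have hUj := Num2Aux.UU_pos (2 ^ j)
  have h1 : ∀ r : ℕ, ∑' P : {P : List Bool // P ∈ Irr r}, wE P.1 * Fx β n P.1 * ∑ b ∈ B, contE P.1 f x b ≤
      ENNReal.ofReal (UU (2 ^ j)) * ∑' P : {P : List Bool // P ∈ Irr r}, wE P.1 * Fx β n P.1 := by
    intro r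
    rw [← ENNReal.tsum_mul_left]
    refine ENNReal.tsum_le_tsum fun P => ?_
    rw [mul_comm (ENNReal.ofReal (UU (2 ^ j)))]
    exact mul_le_mul_right (cont_triv P.1 f x hB) _
  refine (Finset.sum_le_sum fun r _ => h1 r).trans ?_
  rw [← Finset.mul_sum]
  refine (mul_le_mul_right (ha n β hn hβ) _).trans (le_of_eq ?_)
  rw [← ENNReal.ofReal_mul hUj.le]
  congr 1
  ring

lemma scale_le {dl : ℝ} (h0 : 0 ≤ dl) (h1 : dl ≤ 1) {i m : ℕ} (j : ℝ) {y : ℝ} (hy : 0 ≤ y)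
    (h : (2 : ℝ) ^ m ≤ 2 * (2 ^ i * (1 + y))) :
    (2 : ℝ) ^ (-(dl * (j - m))) ≤ 2 * ((2 : ℝ) ^ (-(dl * (j - i))) * (1 + y) ^ dl) := by
  have e1 : (2 : ℝ) ^ (-(dl * (j - m))) = (2 : ℝ) ^ (-(dl * (j - i))) * ((2 : ℝ) ^ ((m : ℝ) - i)) ^ dl := by
    rw [← Real.rpow_mul (by norm_num), ← Real.rpow_add (by norm_num)]
    congr 1
    ring
  have e2 : (2 : ℝ) ^ ((m : ℝ) - i) ≤ 2 * (1 + y) := by
    rw [Real.rpow_sub (by norm_num), Real.rpow_natCast, Real.rpow_natCast, div_le_iff₀ (by positivity)]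
    linarith
  have e3 : ((2 : ℝ) ^ ((m : ℝ) - i)) ^ dl ≤ (2 * (1 + y)) ^ dl :=
    Real.rpow_le_rpow (by positivity) e2 h0
  have e4 : (2 * (1 + y)) ^ dl ≤ 2 * (1 + y) ^ dl := by
    rw [Real.mul_rpow (by norm_num) (by linarith)]
    have e5 : (2 : ℝ) ^ dl ≤ 2 := by
      calc (2 : ℝ) ^ dl ≤ (2 : ℝ) ^ (1 : ℝ) := Real.rpow_le_rpow_of_exponent_le (by norm_num) h1
        _ = 2 := Real.rpow_one _
    exact mul_le_mul_of_nonneg_right e5 (Real.rpow_nonneg (by linarith) _)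
  rw [e1]
  have e6 : (0 : ℝ) ≤ (2 : ℝ) ^ (-(dl * (j - i))) := by positivity
  calc (2 : ℝ) ^ (-(dl * (j - i))) * ((2 : ℝ) ^ ((m : ℝ) - i)) ^ dl ≤
      (2 : ℝ) ^ (-(dl * (j - i))) * (2 * (1 + y) ^ dl) := mul_le_mul_of_nonneg_left (e3.trans e4) e6
    _ = _ := by ring

lemma UU_ratio5 {j n : ℕ} (h : j ≤ n) :
    UU (2 ^ j) / UU (2 ^ n) ≤ 2 * (2 : ℝ) ^ (-(1 / (6 + CW) * ((n : ℝ) - j))) := by
  have hU := Num2Aux.UU_pos (2 ^ n)
  have h1 := UU_growth (s := 2 ^ j) (T := 2 ^ n) Nat.one_le_two_pow (Nat.pow_le_pow_right (by norm_num) h)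
  have e1 : ((2 ^ n : ℕ) : ℝ) / ((2 ^ j : ℕ) : ℝ) = (2 : ℝ) ^ ((n : ℝ) - j) := by
    push_cast
    rw [Real.rpow_sub (by norm_num), Real.rpow_natCast, Real.rpow_natCast]
  rw [e1, ← Real.rpow_mul (by norm_num)] at h1
  rw [mul_comm ((n : ℝ) - j)] at h1
  have hCW := Num2Aux.CW_pos
  have h2 : (0 : ℝ) < (2 : ℝ) ^ (1 / (6 + CW) * ((n : ℝ) - j)) := Real.rpow_pos_of_pos (by norm_num) _
  rw [div_le_iff₀ hU, Real.rpow_neg (by norm_num)]
  generalize (2 : ℝ) ^ (1 / (6 + CW) * ((n : ℝ) - j)) = g at h1 h2 ⊢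
  calc UU (2 ^ j) = UU (2 ^ j) * g * g⁻¹ := by field_simp
    _ ≤ 2 * UU (2 ^ n) * g⁻¹ := by gcongr
    _ = 2 * g⁻¹ * UU (2 ^ n) := by ring

open Classical in
/-- the one-body part of the recursion -/
theorem one_body : ∃ dl kp C : ℝ, 0 < dl ∧ 4 * dl ≤ 1 ∧ 0 < kp ∧ 0 < C ∧ ∀ (c0 a' j n : ℕ) (x : ℤ),
    2 ≤ j → j ≤ n → c0 < 2 ^ (j - 2) → c0 ≤ a' → Nat.size a' ≤ j →
    ∑ r ∈ Finset.Ico (2 ^ (n - 2)) (2 ^ n), ∑' P : {P : List Bool // P ∈ Irr r},
      wE P.1 * Fx (2 * dl) n P.1 * ∑ a ∈ (Finset.Ico (2 ^ (j - 1)) (2 ^ j)).filter (fun a => a' ≤ a),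
        contE P.1 (a' - c0) x (a - a') ≤
      ENNReal.ofReal (C * (2 : ℝ) ^ (-(kp * ((n : ℝ) - j))) *
        ((2 : ℝ) ^ (-(dl * ((j : ℝ) - Nat.size a'))) * (1 + (x.natAbs : ℝ) / 2 ^ Nat.size a') ^ dl)) := by
  have hCW := Num2Aux.CW_pos
  obtain ⟨κ, hκ⟩ : ∃ κ : ℝ, κ = 1 / (6 + CW) := ⟨_, rfl⟩
  have hκ0 : 0 < κ := by rw [hκ]; positivity
  have hκ1 : κ ≤ 1 := by
    rw [hκ, div_le_one (by positivity)]
    linarith
  obtain ⟨β, C1, hβ0, hβ1, hC1, hgain⟩ := giant_cont (th := κ / 2) (by positivity) (by linarith)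
  obtain ⟨C2, hC2, htriv⟩ := giant_cont_triv
  refine ⟨β / 2, κ / 2, 4 * C1 + 64 * C2, by positivity, by linarith, by positivity, by positivity, ?_⟩
  intro c0 a' j n x hj hjn hc hca hsz
  obtain ⟨i, hi⟩ : ∃ i, i = Nat.size a' := ⟨_, rfl⟩
  rw [← hi] at hsz ⊢
  have hai : a' < 2 ^ i := by rw [hi]; exact Nat.lt_size_self a'
  obtain ⟨m, hm⟩ : ∃ m, m = max i (Nat.size x.natAbs) := ⟨_, rfl⟩
  have hxm : x.natAbs ≤ 2 ^ m := by
    have h1 : x.natAbs < 2 ^ (Nat.size x.natAbs) := Nat.lt_size_self _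
    have h2 : 2 ^ (Nat.size x.natAbs) ≤ 2 ^ m := Nat.pow_le_pow_right (by norm_num) (by rw [hm]; exact le_max_right _ _)
    omega
  have hfm : a' - c0 ≤ 2 ^ m := by
    have h2 : 2 ^ i ≤ 2 ^ m := Nat.pow_le_pow_right (by norm_num) (by rw [hm]; exact le_max_left _ _)
    omega
  have hm2 : (2 : ℝ) ^ m ≤ 2 * (2 ^ i * (1 + (x.natAbs : ℝ) / 2 ^ i)) := by
    have e1 : (2 : ℝ) ^ i * (1 + (x.natAbs : ℝ) / 2 ^ i) = 2 ^ i + x.natAbs := by
      field_simp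
    rw [e1]
    rcases le_total i (Nat.size x.natAbs) with h | h
    · rw [max_eq_right h] at hm
      rcases Nat.eq_zero_or_pos (Nat.size x.natAbs) with h0 | h0
      · rw [hm, h0]
        have : (1 : ℝ) ≤ 2 ^ i := one_le_pow₀ (by norm_num)
        have h3 : (0 : ℝ) ≤ x.natAbs := by positivity
        rw [pow_zero]
        linarith
      · have h1 : 2 ^ (m - 1) ≤ x.natAbs := Nat.lt_size.1 (by omega)
        have h2 : (2 : ℝ) ^ (m - 1) ≤ x.natAbs := by exact_mod_cast h1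
        have h3 : (2 : ℝ) ^ m = 2 * 2 ^ (m - 1) := by
          rw [← pow_succ']
          congr 1
          omega
        have h4 : (0 : ℝ) < 2 ^ i := by positivity
        rw [h3]
        linarith
    · rw [max_eq_left h] at hm
      rw [hm]
      have h3 : (0 : ℝ) ≤ x.natAbs := by positivity
      have h4 : (0 : ℝ) < 2 ^ i := by positivity
      linarith
  have hscale := scale_le (dl := β / 2) (by positivity) (by linarith) (j : ℝ) (y := (x.natAbs : ℝ) / 2 ^ i)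
    (by positivity) hm2
  obtain ⟨g, hg⟩ : ∃ g : ℝ, g = (2 : ℝ) ^ (-(β / 2 * ((j : ℝ) - i))) * (1 + (x.natAbs : ℝ) / 2 ^ i) ^ (β / 2) :=
    ⟨_, rfl⟩
  rw [← hg] at hscale ⊢
  -- the sum over the heights
  set B := ((Finset.Ico (2 ^ (j - 1)) (2 ^ j)).filter (fun a => a' ≤ a)).image (fun a => a - a') with hB
  have hsum : ∀ P : List Bool, ∑ a ∈ (Finset.Ico (2 ^ (j - 1)) (2 ^ j)).filter (fun a => a' ≤ a),
      contE P (a' - c0) x (a - a') = ∑ b ∈ B, contE P (a' - c0) x b := by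
    intro P
    rw [hB, Finset.sum_image]
    intro a ha b hb hab
    rw [Finset.mem_coe, Finset.mem_filter] at ha hb
    simp only at hab
    omega
  have hBp : ∀ b ∈ B, 2 ^ (j - 3) ≤ a' - c0 + b ∧ b ≤ 2 ^ j := by
    intro b hb
    rw [hB, Finset.mem_image] at hb
    obtain ⟨a, ha, rfl⟩ := hb
    rw [Finset.mem_filter, Finset.mem_Ico] at ha
    have h1 : 2 ^ (j - 1) = 2 * 2 ^ (j - 2) := by
      have := two_pow_block (n := j - 1) (by omega)
      rwa [show j - 1 - 1 = j - 2 by omega] at this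
    have h2 : 2 ^ (j - 3) ≤ 2 ^ (j - 2) := Nat.pow_le_pow_right (by norm_num) (by omega)
    omega
  simp_rw [hsum]
  have hU := Num2Aux.UU_pos (2 ^ n)
  have hUj := Num2Aux.UU_pos (2 ^ j)
  have hrat := UU_ratio5 hjn
  rw [← hκ] at hrat
  have hnj : (0 : ℝ) ≤ (n : ℝ) - j := by
    have : (j : ℝ) ≤ n := by exact_mod_cast hjn
    linarith
  have hg0 : 0 ≤ g := by rw [hg]; positivity
  obtain ⟨h, hh⟩ : ∃ h : ℝ, h = (2 : ℝ) ^ (-(κ / 2 * ((n : ℝ) - j))) := ⟨_, rfl⟩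
  have hh0 : 0 < h := by rw [hh]; positivity
  have hh2 : (2 : ℝ) ^ (-(κ * ((n : ℝ) - j))) = h * h := by
    rw [hh, ← Real.rpow_add (by norm_num)]
    congr 1
    ring
  have hh1 : h ≤ 1 := by
    rw [hh]
    apply Real.rpow_le_one_of_one_le_of_nonpos (by norm_num)
    have : 0 ≤ κ / 2 * ((n : ℝ) - j) := by positivity
    linarith
  rw [hh2] at hrat
  rw [← hh]
  rcases Nat.lt_or_ge j (m + 4) with hc4 | hc4
  · refine (htriv (2 * (β / 2)) j n (a' - c0) x B (by linarith) (by omega) (fun b hb => (hBp b hb).2)).trans ?_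
    apply ENNReal.ofReal_le_ofReal
    have e1 : (1 : ℝ) ≤ 16 * (2 : ℝ) ^ (-(β / 2 * ((j : ℝ) - m))) := by
      have e2 : (16 : ℝ) = (2 : ℝ) ^ (4 : ℝ) := by norm_num
      rw [e2, ← Real.rpow_add (by norm_num)]
      apply Real.one_le_rpow (by norm_num)
      have e3 : (j : ℝ) - m ≤ 4 := by
        have : (j : ℝ) ≤ m + 4 := by exact_mod_cast hc4.le
        linarith
      nlinarith
    have e4 : 1 ≤ 32 * g := by linarith
    calc C2 * (UU (2 ^ j) / UU (2 ^ n)) ≤ C2 * (2 * (h * h)) := by gcongr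
      _ ≤ C2 * (2 * (h * 1)) := by gcongr
      _ = 2 * C2 * h * 1 := by ring
      _ ≤ 2 * C2 * h * (32 * g) := by gcongr
      _ ≤ (4 * C1 + 64 * C2) * h * g := by nlinarith [mul_nonneg (mul_nonneg hC1.le hh0.le) hg0]
  · have h5 := hgain m j n (a' - c0) x B hc4 hjn hfm hxm hBp
    rw [show 2 * (β / 2) = β by ring]
    refine h5.trans (ENNReal.ofReal_le_ofReal ?_)
    have e1 : (2 : ℝ) ^ (κ / 2 * ((n : ℝ) - j)) = 1 / h := by
      rw [hh, Real.rpow_neg (by norm_num), one_div, inv_inv]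
    have e2 : (2 : ℝ) ^ (-(β * ((j : ℝ) - m))) ≤ 2 * g := by
      refine le_trans ?_ hscale
      apply Real.rpow_le_rpow_of_exponent_le (by norm_num)
      have : (0 : ℝ) ≤ (j : ℝ) - m := by
        have : (m : ℝ) ≤ j := by exact_mod_cast (by omega : m ≤ j)
        linarith
      nlinarith
    rw [e1]
    calc C1 * (UU (2 ^ j) / UU (2 ^ n)) * (1 / h * (2 : ℝ) ^ (-(β * ((j : ℝ) - m)))) ≤
        C1 * (2 * (h * h)) * (1 / h * (2 * g)) := by gcongr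
      _ = 4 * C1 * h * g := by
        field_simp
        ring
      _ ≤ (4 * C1 + 64 * C2) * h * g := by nlinarith [mul_nonneg (mul_nonneg hC2.le hh0.le) hg0]

end HexObs
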