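import Pool.Agent.PHW5.Base5
import Pool.Agent.PHW.Jump

/-!
PHW5, S5d: the states in the two forms.
-/

set_option autoImplicit false

namespace HexObs

open Complex Finset ENNReal

open Base5

namespace SWOne

lemma gf_biUnion_le' (I : Finset ℕ) (P : ℕ → Set (List Bool)) : gf (⋃ i ∈ I, P i) ≤ ∑ i ∈ I, gf (P i) :=
  ENNReal.tsum_biUnion_le wE I P

/-- pairs (c, r) of the block n as a set of pairs -/
lemma sum_pairs (a n : ℕ) (X : ℕ → ℕ → ℝ≥0∞) :
    ∑ c ∈ Finset.range (a + 1), ∑ r ∈ (Finset.range (2 ^ n)).filter (fun r => a < c + r ∧ c + r ∈ blk n), X c r =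
      ∑ q ∈ (Finset.range (a + 1) ×ˢ Finset.range (2 ^ n)).filter (fun q => a < q.1 + q.2 ∧ q.1 + q.2 ∈ blk n), X q.1 q.2 := by
  rw [Finset.sum_filter, Finset.sum_product]
  refine Finset.sum_congr rfl fun c _ => ?_
  rw [Finset.sum_filter]

end SWOne

open SWOne

/-- uniqueness of the last piece (jump_unique with s = a): LG_of_piece -/
theorem SW_le_VN (j n : ℕ) : SW (fun _ => 1) j n ≤ VN j n := by
  classical
  rw [SW_eq]
  unfold VN
  refine Finset.sum_le_sum fun a _ => ?_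
  simp_rw [g2_gfF (Brd a), sum_gfF]
  refine gfF_mono le_rfl fun s _ => ?_
  rw [sum_pairs a n (fun c r => g2 (Brd c) (Irr r) (fun t P => V2 s (t ++ P)))]
  refine (piece_sum_le (a := a) _ ?_ s).trans ?_
  · intro q hq
    rw [Finset.mem_filter, Finset.mem_product, Finset.mem_range] at hq
    exact ⟨by omega, hq.2.1⟩
  · refine (gf_mono ?_).trans (gf_biUnion_le' (blk n) (fun d => {t | t ∈ FC (a + 1) d ∧ V2 s t}))
    rintro w ⟨⟨q, hq, hw⟩, hv⟩
    rw [Finset.mem_filter] at hq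
    exact Set.mem_biUnion hq.2.2 ⟨hw, hv⟩

/-- existence: LG_last -/
theorem VN_le (j n : ℕ) : VN j n ≤ SW (fun _ => 1) j n := by
  classical
  rw [SW_eq]
  unfold VN
  refine Finset.sum_le_sum fun a _ => ?_
  simp_rw [g2_gfF (Brd a), sum_gfF]
  refine gfF_mono le_rfl fun s _ => ?_
  rw [sum_pairs a n (fun c r => g2 (Brd c) (Irr r) (fun t P => V2 s (t ++ P)))]
  have h1 : ∀ d ∈ blk n, gf {t | t ∈ FC (a + 1) d ∧ V2 s t} ≤
      ∑ q ∈ ((Finset.range (a + 1) ×ˢ Finset.range (2 ^ n)).filter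
        (fun q => a < q.1 + q.2 ∧ q.1 + q.2 ∈ blk n)).filter (fun q => q.1 + q.2 = d),
        g2 (Brd q.1) (Irr q.2) (fun t P => V2 s (t ++ P)) := by
    intro d hd
    rw [← gfF_one]
    refine (gfF_dec_sum (((Finset.range (a + 1) ×ˢ Finset.range (2 ^ n)).filter
        (fun q => a < q.1 + q.2 ∧ q.1 + q.2 ∈ blk n)).filter (fun q => q.1 + q.2 = d)) (A := fun q => Brd q.1)
        (B := fun q t => {P | P ∈ Irr q.2 ∧ V2 s (t ++ P)}) (fun _ => 1) ?_).trans ?_
    · rintro t ⟨ht, hv⟩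
      obtain ⟨c, r, t0, P, hc, hr, ht0, hP, rfl⟩ := LG_last ⟨d, ht⟩
      have hcr : c + r = d := Brd_height (Brd_append ht0 hP.1) ht.1
      have hd2 : d < 2 ^ n := by
        unfold blk at hd
        exact (Finset.mem_Ico.1 hd).2
      refine ⟨(c, r), ?_, t0, P, ht0, ⟨hP, hv⟩, rfl⟩
      rw [Finset.mem_filter, Finset.mem_filter, Finset.mem_product, Finset.mem_range, Finset.mem_range]
      simp only
      refine ⟨⟨⟨by omega, by omega⟩, hr, ?_⟩, hcr⟩
      rw [hcr]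
      exact hd
    · refine Finset.sum_le_sum fun q _ => ?_
      rw [g2_gfF]
      refine gfF_mono le_rfl fun t _ => ?_
      rw [gfF_one]
  refine (Finset.sum_le_sum h1).trans ?_
  rw [← Finset.sum_fiberwise_of_maps_to (s := (Finset.range (a + 1) ×ˢ Finset.range (2 ^ n)).filter
        (fun q => a < q.1 + q.2 ∧ q.1 + q.2 ∈ blk n)) (t := blk n) (g := fun q => q.1 + q.2)]
  intro q hq
  rw [Finset.mem_filter] at hq
  exact hq.2.2

/-- the sets FC (a + 1) d, d in blk n, are disjoint and contained in LG (a + 1) -/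
theorem VN_le_VS (j n : ℕ) : VN j n ≤ VS j := by
  classical
  unfold VN VS
  refine Finset.sum_le_sum fun a _ => ?_
  simp_rw [g2_gfF (Brd a), sum_gfF]
  refine gfF_mono le_rfl fun s _ => ?_
  rw [← gf_biUnion (blk n) (fun d => {t | t ∈ FC (a + 1) d ∧ V2 s t})]
  · apply gf_mono
    intro w hw
    simp only [Set.mem_iUnion] at hw
    obtain ⟨d, _, hw, hv⟩ := hw
    exact ⟨⟨d, hw⟩, hv⟩
  · intro d _ d' _ hne
    rw [Set.disjoint_left]
    rintro w ⟨hw, _⟩ ⟨hw', _⟩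
    exact hne (Brd_height hw.1 hw'.1)

theorem SW_le_VS (j n : ℕ) : SW (fun _ => 1) j n ≤ VS j := (SW_le_VN j n).trans (VN_le_VS j n)

/-- LG (a + 1) is the union of the FC (a + 1) d, d > a, so size d ≥ size a -/
theorem VS_le_tsum (j : ℕ) : VS j ≤ ∑' n : ℕ, VN j (j + n) := by
  classical
  unfold VN VS
  rw [Summable.tsum_finsetSum (fun _ _ => ENNReal.summable)]
  refine Finset.sum_le_sum fun a ha => ?_
  simp_rw [g2_gfF (Brd a), sum_gfF]
  have e1 : ∑' n : ℕ, gfF (Brd a) (fun s => ∑ d ∈ blk (j + n), gf {t | t ∈ FC (a + 1) d ∧ V2 s t}) =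
      gfF (Brd a) (fun s => ∑' n : ℕ, ∑ d ∈ blk (j + n), gf {t | t ∈ FC (a + 1) d ∧ V2 s t}) := by
    unfold gfF
    rw [ENNReal.tsum_comm]
    refine tsum_congr fun s => ?_
    rw [ENNReal.tsum_mul_left]
  rw [e1]
  refine gfF_mono le_rfl fun s _ => ?_
  have h1 : {t | t ∈ LG (a + 1) ∧ V2 s t} ⊆ ⋃ n : ℕ, ⋃ d ∈ blk (j + n), {t | t ∈ FC (a + 1) d ∧ V2 s t} := by
    rintro t ⟨⟨d, hd⟩, hv⟩
    have hda := hd.2.1
    have hsz : j ≤ Nat.size d := by
      rw [← mem_blk.1 ha]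
      exact Nat.size_le_size (by omega)
    refine Set.mem_iUnion.2 ⟨Nat.size d - j, Set.mem_biUnion (?_ : d ∈ blk (j + (Nat.size d - j))) ⟨hd, hv⟩⟩
    rw [mem_blk]
    omega
  refine (gf_mono h1).trans ?_
  refine (ENNReal.tsum_iUnion_le_tsum wE (fun n => ⋃ d ∈ blk (j + n), {t | t ∈ FC (a + 1) d ∧ V2 s t})).trans ?_
  exact ENNReal.tsum_le_tsum fun n => gf_biUnion_le' _ _

end HexObs
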