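import Pool.Agent.PHW5.RecStep
import Pool.Agent.PHW5.SWOne
import Pool.Agent.PHW5.OneBody

/-!
PHW5, S5g: recursion, states whose giant starts in the block j or j - 1.
-/

set_option autoImplicit false

namespace HexObs

open Complex Finset ENNReal

namespace RecA

open Base5 RecStep Num2Aux

/-- weight of the pieces of height r, f is a weight of the extent -/
noncomputable def Fr (f : ℕ → ℝ≥0∞) (r : ℕ) : ℝ≥0∞ := gfF (Irr r) fun P => f (extP P)

lemma sum_gfF_disj {ι : Type} (S : Finset ι) (A : ι → Set (List Bool)) (B : Set (List Bool)) (G : List Bool → ℝ≥0∞)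
    (hA : ∀ i ∈ S, A i ⊆ B) (hd : ∀ i ∈ S, ∀ j ∈ S, ∀ t, t ∈ A i → t ∈ A j → i = j) :
    ∑ i ∈ S, gfF (A i) G ≤ gfF B G := by
  classical
  have e : ∀ X : Set (List Bool), gfF X G = ∑' t, X.indicator (fun t => wE t * G t) t :=
    fun X => tsum_subtype X (fun t => wE t * G t)
  rw [e B, Finset.sum_congr rfl fun i _ => e (A i), ← Summable.tsum_finsetSum (fun _ _ => ENNReal.summable)]
  refine ENNReal.tsum_le_tsum fun t => ?_
  by_cases hB : ∃ i ∈ S, t ∈ A i
  · obtain ⟨i, hi, hti⟩ := hB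
    rw [Finset.sum_eq_single_of_mem i hi ?_, Set.indicator_of_mem hti, Set.indicator_of_mem (hA i hi hti)]
    intro j hj hji
    exact Set.indicator_of_notMem (fun htj => hji (hd j hj i hi t htj hti)) _
  · rw [Finset.sum_eq_zero fun i hi => Set.indicator_of_notMem (fun h => hB ⟨i, hi, h⟩) _]
    exact zero_le

lemma sum_FC (S : Finset ℕ) (c : ℕ) (B : Set (List Bool)) : ∑ a' ∈ S, g2 (FC c a') B V2 ≤ g2 (LG c) B V2 := by
  simp_rw [g2_gfF]
  refine sum_gfF_disj S (fun a' => FC c a') (LG c) _ (fun a' _ t ht => ⟨a', ht⟩) ?_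
  intro i _ j _ t hi hj
  exact Brd_height hi.1 hj.1

/-- forget everything but V2 s1 t0 -/
lemma inner_le {a c r : ℕ} (hc : c ≤ a) {P : List Bool} (hP : P ∈ Brd r) :
    g2 (Brd a) (Brd c) (fun s t => V2 s (t ++ P)) ≤
      ∑ a' ∈ Finset.Icc c a, g2 (FC c a') (Brd c) V2 * ENNReal.ofReal (uu (a - a')) := by
  refine (cut_left hc hP).trans (Finset.sum_le_sum fun a' _ => ?_)
  rw [g2_gfF, mul_comm, ← gfF_mul]
  refine gfF_mono le_rfl fun s1 _ => ?_
  refine gfF_le _ (c := ENNReal.ofReal (uu (a - a'))) fun t0 _ => ?_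
  refine (gf_mono fun s2 h => h.1).trans (le_of_eq ?_)
  rw [gf_Brd, BT_eq_uu]

lemma piece_le (f : ℕ → ℝ≥0∞) {a c r : ℕ} (hc : c ≤ a) :
    gfF (Irr r) (fun P => f (extP P) * g2 (Brd a) (Brd c) (fun s t => V2 s (t ++ P))) ≤
      ∑ a' ∈ Finset.Icc c a, g2 (FC c a') (Brd c) V2 * (ENNReal.ofReal (uu (a - a')) * Fr f r) := by
  calc gfF (Irr r) (fun P => f (extP P) * g2 (Brd a) (Brd c) (fun s t => V2 s (t ++ P)))
      ≤ gfF (Irr r) (fun P =>
        (∑ a' ∈ Finset.Icc c a, g2 (FC c a') (Brd c) V2 * ENNReal.ofReal (uu (a - a'))) * f (extP P)) := by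
        refine gfF_mono le_rfl fun P hP => ?_
        rw [mul_comm]
        exact mul_le_mul' (inner_le hc hP.1) le_rfl
    _ = _ := by
        rw [gfF_mul, Finset.sum_mul]
        refine Finset.sum_congr rfl fun a' _ => ?_
        rw [mul_assoc]
        rfl

/-- sum over the heights -/
lemma K_le (G : ℕ → ℝ≥0∞) {j n c a' : ℕ} (hc : c ≤ a') :
    ∑ a ∈ (blk j).filter (fun a => a' ≤ a), ∑ r ∈ (Finset.range (2 ^ n)).filter (fun r => a < c + r ∧ c + r ∈ blk n),
      ENNReal.ofReal (uu (a - a')) * G r ≤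
    ∑ r ∈ (Finset.range (2 ^ n)).filter (fun r => c + r ∈ blk n), ENNReal.ofReal (UU (min r (2 ^ j))) * G r := by
  classical
  calc ∑ a ∈ (blk j).filter (fun a => a' ≤ a), ∑ r ∈ (Finset.range (2 ^ n)).filter (fun r => a < c + r ∧ c + r ∈ blk n),
      ENNReal.ofReal (uu (a - a')) * G r
      = ∑ r ∈ (Finset.range (2 ^ n)).filter (fun r => c + r ∈ blk n),
        ∑ a ∈ (blk j).filter (fun a => a' ≤ a ∧ a < c + r), ENNReal.ofReal (uu (a - a')) * G r := by
        apply Finset.sum_comm'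
        intro a r
        simp only [Finset.mem_filter]
        tauto
    _ ≤ _ := by
        refine Finset.sum_le_sum fun r _ => ?_
        rw [← Finset.sum_mul]
        refine mul_le_mul' ?_ le_rfl
        rw [← ENNReal.ofReal_sum_of_nonneg (fun _ _ => (uu_pos _).le)]
        apply ENNReal.ofReal_le_ofReal
        rw [← Finset.sum_image (f := uu) (g := fun a => a - a')]
        · apply sum_uu_le
          intro b hb
          rw [Finset.mem_image] at hb
          obtain ⟨a, ha, rfl⟩ := hb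
          rw [Finset.mem_filter] at ha
          have h1 := ha.1
          unfold blk at h1
          rw [Finset.mem_Ico] at h1
          rw [le_min_iff]
          omega
        · intro x hx y hy hxy
          rw [Finset.mem_coe, Finset.mem_filter] at hx hy
          have : x - a' = y - a' := hxy
          omega

/-- SWA with a bound for the sum over the giants -/
lemma SWA_le (f : ℕ → ℝ≥0∞) {j n : ℕ} (hj : 2 ≤ j) {X : ℝ≥0∞}
    (hX : ∀ c : ℕ, c < 2 ^ j → ∑ r ∈ (Finset.range (2 ^ n)).filter (fun r => c + r ∈ blk n),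
      ENNReal.ofReal (UU (min r (2 ^ j))) * Fr f r ≤ X) :
    SWA f j n ≤ X * (Lam (j - 1) + Lam (j - 2)) := by
  classical
  set T : ℕ → ℕ → ℕ → ℕ → ℝ≥0∞ := fun a c r a' =>
    g2 (FC c a') (Brd c) V2 * (ENNReal.ofReal (uu (a - a')) * Fr f r) with hT
  have h2 : SWA f j n ≤ ∑ a ∈ blk j, ∑ c ∈ (Finset.range (a + 1)).filter (fun c => 2 ^ j ≤ 4 * c),
      ∑ r ∈ (Finset.range (2 ^ n)).filter (fun r => a < c + r ∧ c + r ∈ blk n), ∑ a' ∈ Finset.Icc c a, T a c r a' := by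
    unfold SWA
    refine Finset.sum_le_sum fun a _ => Finset.sum_le_sum fun c hc => Finset.sum_le_sum fun r _ => piece_le f ?_
    rw [Finset.mem_filter, Finset.mem_range] at hc
    omega
  have h3 : SWA f j n ≤ ∑ c ∈ (Finset.range (2 ^ j)).filter (fun c => 2 ^ j ≤ 4 * c), ∑ a' ∈ Finset.Ico c (2 ^ j),
      ∑ a ∈ (blk j).filter (fun a => a' ≤ a),
        ∑ r ∈ (Finset.range (2 ^ n)).filter (fun r => a < c + r ∧ c + r ∈ blk n), T a c r a' := by
    refine h2.trans ?_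
    calc ∑ a ∈ blk j, ∑ c ∈ (Finset.range (a + 1)).filter (fun c => 2 ^ j ≤ 4 * c),
          ∑ r ∈ (Finset.range (2 ^ n)).filter (fun r => a < c + r ∧ c + r ∈ blk n), ∑ a' ∈ Finset.Icc c a, T a c r a'
        ≤ ∑ a ∈ blk j, ∑ c ∈ (Finset.range (2 ^ j)).filter (fun c => 2 ^ j ≤ 4 * c), ∑ a' ∈ Finset.Ico c (2 ^ j),
          if a' ≤ a then ∑ r ∈ (Finset.range (2 ^ n)).filter (fun r => a < c + r ∧ c + r ∈ blk n), T a c r a' else 0 := by
          refine Finset.sum_le_sum fun a ha => ?_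
          have ha2 : a < 2 ^ j := by
            unfold blk at ha
            exact (Finset.mem_Ico.1 ha).2
          have e1 : ∀ c : ℕ, ∑ r ∈ (Finset.range (2 ^ n)).filter (fun r => a < c + r ∧ c + r ∈ blk n),
              ∑ a' ∈ Finset.Icc c a, T a c r a' ≤ ∑ a' ∈ Finset.Ico c (2 ^ j),
              if a' ≤ a then ∑ r ∈ (Finset.range (2 ^ n)).filter (fun r => a < c + r ∧ c + r ∈ blk n), T a c r a' else 0 := by
            intro c
            rw [Finset.sum_comm, ← Finset.sum_filter]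
            apply Finset.sum_le_sum_of_subset
            intro a' ha'
            rw [Finset.mem_Icc] at ha'
            rw [Finset.mem_filter, Finset.mem_Ico]
            omega
          refine (Finset.sum_le_sum fun c _ => e1 c).trans ?_
          apply Finset.sum_le_sum_of_subset
          intro c hc
          rw [Finset.mem_filter, Finset.mem_range] at hc ⊢
          omega
      _ = _ := by
          rw [Finset.sum_comm]
          refine Finset.sum_congr rfl fun c _ => ?_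
          rw [Finset.sum_comm]
          refine Finset.sum_congr rfl fun a' _ => ?_
          rw [← Finset.sum_filter]
  have h4 : ∀ c ∈ (Finset.range (2 ^ j)).filter (fun c => 2 ^ j ≤ 4 * c), ∑ a' ∈ Finset.Ico c (2 ^ j),
      ∑ a ∈ (blk j).filter (fun a => a' ≤ a),
        ∑ r ∈ (Finset.range (2 ^ n)).filter (fun r => a < c + r ∧ c + r ∈ blk n), T a c r a' ≤
      X * g2 (LG c) (Brd c) V2 := by
    intro c hc
    rw [Finset.mem_filter, Finset.mem_range] at hc
    calc ∑ a' ∈ Finset.Ico c (2 ^ j), ∑ a ∈ (blk j).filter (fun a => a' ≤ a),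
          ∑ r ∈ (Finset.range (2 ^ n)).filter (fun r => a < c + r ∧ c + r ∈ blk n), T a c r a'
        ≤ ∑ a' ∈ Finset.Ico c (2 ^ j), X * g2 (FC c a') (Brd c) V2 := by
          refine Finset.sum_le_sum fun a' ha' => ?_
          rw [Finset.mem_Ico] at ha'
          calc ∑ a ∈ (blk j).filter (fun a => a' ≤ a),
                ∑ r ∈ (Finset.range (2 ^ n)).filter (fun r => a < c + r ∧ c + r ∈ blk n), T a c r a'
              = g2 (FC c a') (Brd c) V2 * ∑ a ∈ (blk j).filter (fun a => a' ≤ a),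
                ∑ r ∈ (Finset.range (2 ^ n)).filter (fun r => a < c + r ∧ c + r ∈ blk n),
                  ENNReal.ofReal (uu (a - a')) * Fr f r := by
                simp only [hT, Finset.mul_sum]
            _ ≤ X * g2 (FC c a') (Brd c) V2 := by
                rw [mul_comm]
                exact mul_le_mul' ((K_le _ ha'.1).trans (hX c hc.1)) le_rfl
      _ = X * ∑ a' ∈ Finset.Ico c (2 ^ j), g2 (FC c a') (Brd c) V2 := (Finset.mul_sum _ _ _).symm
      _ ≤ X * g2 (LG c) (Brd c) V2 := mul_le_mul' le_rfl (sum_FC _ _ _)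
  refine h3.trans ((Finset.sum_le_sum h4).trans ?_)
  rw [← Finset.mul_sum]
  refine mul_le_mul' le_rfl ?_
  obtain ⟨m, rfl⟩ : ∃ m, j = m + 2 := ⟨j - 2, by omega⟩
  have e1 : 2 ^ (m + 2) = 4 * 2 ^ m := by rw [pow_add]; ring
  have e2 : 2 ^ (m + 1) = 2 * 2 ^ m := by rw [pow_succ]; ring
  have hsub : (Finset.range (2 ^ (m + 2))).filter (fun c => 2 ^ (m + 2) ≤ 4 * c) ⊆ blk (m + 2) ∪ blk (m + 1) := by
    intro c hc
    rw [Finset.mem_filter, Finset.mem_range] at hc
    unfold blk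
    rw [Finset.mem_union, Finset.mem_Ico, Finset.mem_Ico]
    omega
  refine (Finset.sum_le_sum_of_subset hsub).trans ?_
  refine le_self_add.trans ((le_of_eq (Finset.sum_union_inter (f := fun c => g2 (LG c) (Brd c) V2))).trans ?_)
  exact add_le_add (st_le (by omega)) (st_le (by omega))

/-! the giants -/

lemma Fr_fw_le {e : ℝ} (he : e ≤ 1) (n r : ℕ) : Fr (fw e n) r ≤ ∑' p : {p : List Bool // p ∈ Irr r},
    wE p.1 * ENNReal.ofReal ((1 + (extP p.1 : ℝ) / 2 ^ n) ^ 1) :=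
  ENNReal.tsum_le_tsum fun P => mul_le_mul' le_rfl (Fx_le_one he n P.1)

lemma giants : ∃ C : ℝ, 0 < C ∧ ∀ (n : ℕ) (e : ℝ), 1 ≤ n → e ≤ 1 →
    ∑ r ∈ Finset.Ico (2 ^ (n - 2)) (2 ^ n), Fr (fw e n) r ≤ ENNReal.ofReal (C / UU (2 ^ n)) := by
  obtain ⟨C1, hC1, h1⟩ := giants_all
  obtain ⟨C2, hC2, h2⟩ := latG 1
  refine ⟨C1 + C2, by positivity, ?_⟩
  intro n e hn he
  have hU := UU_pos (2 ^ n)
  rcases Nat.lt_or_ge n 2 with h | h
  · obtain rfl : n = 1 := by omega
    refine (Finset.sum_le_sum fun r _ => Fr_fw_le he 1 r).trans ((h2 1 le_rfl).trans ?_)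
    apply ENNReal.ofReal_le_ofReal
    exact div_le_div_of_nonneg_right (by linarith) hU.le
  · refine (h1 n e h he).trans ?_
    apply ENNReal.ofReal_le_ofReal
    exact div_le_div_of_nonneg_right (by linarith) hU.le

lemma giants_blk : ∃ C : ℝ, 0 < C ∧ ∀ (l : ℕ) (e : ℝ), e ≤ 1 →
    ∑ r ∈ blk l, Fr (fw e l) r ≤ ENNReal.ofReal (C / UU (2 ^ l)) := by
  obtain ⟨C2, hC2, h2⟩ := latG 1
  refine ⟨C2, hC2, ?_⟩
  intro l e he
  rcases Nat.eq_zero_or_pos l with h | h
  · subst h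
    rw [blk_zero, Finset.sum_singleton]
    unfold Fr
    have e0 : Irr 0 = ∅ := by
      ext t
      rw [Set.mem_empty_iff_false, iff_false]
      rintro ⟨h1, h2, _⟩
      rw [Brd_zero] at h1
      exact h2 h1
    rw [e0]
    unfold gfF
    simp
  · rw [blk_eq' h, ← two_pow_block h]
    exact (Finset.sum_le_sum fun r _ => Fr_fw_le he l r).trans (h2 l h)

lemma sum_range_blk (F : ℕ → ℝ≥0∞) (n : ℕ) :
    ∑ r ∈ Finset.range (2 ^ n), F r = ∑ l ∈ Finset.range (n + 1), ∑ r ∈ blk l, F r := by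
  induction n with
  | zero =>
    rw [Finset.sum_range_one, blk_zero]
    simp
  | succ n ih =>
    rw [Finset.sum_range_succ, ← ih]
    unfold blk
    have e1 : 2 ^ (n + 1) / 2 = 2 ^ n := by rw [pow_succ]; omega
    rw [e1, Finset.range_eq_Ico, Finset.range_eq_Ico]
    exact (Finset.sum_Ico_consecutive F (Nat.zero_le _) (Nat.pow_le_pow_right (by norm_num) (Nat.le_succ n))).symm

lemma geo_le {q : ℝ} (h0 : 0 < q) (h1 : q < 1) (n : ℕ) :
    ∑ l ∈ Finset.range (n + 1), q ^ (n - l) ≤ 1 / (1 - q) := by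
  have h2 : 0 < 1 - q := by linarith
  induction n with
  | zero =>
    rw [Finset.sum_range_one, Nat.sub_zero, pow_zero, le_div_iff₀ h2]
    linarith
  | succ n ih =>
    rw [Finset.sum_range_succ, Nat.sub_self, pow_zero]
    have e1 : ∑ l ∈ Finset.range (n + 1), q ^ (n + 1 - l) = q * ∑ l ∈ Finset.range (n + 1), q ^ (n - l) := by
      rw [Finset.mul_sum]
      refine Finset.sum_congr rfl fun l hl => ?_
      rw [Finset.mem_range] at hl
      rw [show n + 1 - l = (n - l) + 1 by omega, pow_succ, mul_comm]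
    rw [e1]
    have e2 : q * ∑ l ∈ Finset.range (n + 1), q ^ (n - l) ≤ q * (1 / (1 - q)) := mul_le_mul_of_nonneg_left ih h0.le
    have e3 : q * (1 / (1 - q)) + 1 = 1 / (1 - q) := by
      field_simp
      ring
    linarith

/-- the power weight -/
noncomputable def pw (e : ℝ) (n x : ℕ) : ℝ≥0∞ := ENNReal.ofReal (((x : ℝ) / 2 ^ n) ^ e)

lemma fw_le_pw {e : ℝ} (h0 : 0 ≤ e) (h1 : e ≤ 1) (n x : ℕ) : fw e n x ≤ 1 + pw e n x := by
  unfold fw pw
  have hx : (0 : ℝ) ≤ (x : ℝ) / 2 ^ n := by positivity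
  rw [← ENNReal.ofReal_one, ← ENNReal.ofReal_add zero_le_one (Real.rpow_nonneg hx _)]
  apply ENNReal.ofReal_le_ofReal
  have h2 := Real.rpow_add_le_add_rpow (zero_le_one (α := ℝ)) hx h0 h1
  rwa [Real.one_rpow] at h2

lemma pw_le_fw {e : ℝ} (h0 : 0 ≤ e) {l n : ℕ} (h : l ≤ n) (x : ℕ) :
    pw e n x ≤ ENNReal.ofReal (((2 : ℝ) ^ (-e)) ^ (n - l)) * fw e l x := by
  unfold fw pw
  have hx : (0 : ℝ) ≤ (x : ℝ) / 2 ^ l := by positivity
  rw [← ENNReal.ofReal_mul (by positivity)]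
  apply ENNReal.ofReal_le_ofReal
  have e1 : (x : ℝ) / 2 ^ n = (1 / 2) ^ (n - l) * ((x : ℝ) / 2 ^ l) := by
    obtain ⟨m, rfl⟩ := Nat.exists_eq_add_of_le h
    rw [Nat.add_sub_cancel_left, pow_add, one_div, inv_pow]
    field_simp
  have e2 : ((1 / 2 : ℝ) ^ (n - l)) ^ e = ((2 : ℝ) ^ (-e)) ^ (n - l) := by
    rw [← Real.rpow_natCast, ← Real.rpow_natCast, ← Real.rpow_mul (by norm_num), ← Real.rpow_mul (by norm_num),
      one_div, Real.inv_rpow (by norm_num), ← Real.rpow_neg (by norm_num)]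
    congr 1
    ring
  rw [e1, Real.mul_rpow (by positivity) hx, e2]
  exact mul_le_mul_of_nonneg_left (Real.rpow_le_rpow hx (by linarith) h0) (by positivity)

lemma Fr_pw_le {e : ℝ} (h0 : 0 ≤ e) {l n : ℕ} (h : l ≤ n) (r : ℕ) :
    Fr (pw e n) r ≤ ENNReal.ofReal (((2 : ℝ) ^ (-e)) ^ (n - l)) * Fr (fw e l) r := by
  unfold Fr
  rw [← gfF_mul]
  exact gfF_mono le_rfl fun P _ => pw_le_fw h0 h _

/-- the sum over the giants with the power weight -/
lemma pw_sum {e : ℝ} (h0 : 0 < e) (h1 : e ≤ 1) : ∃ C : ℝ, 0 < C ∧ ∀ n j c : ℕ,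
    ∑ r ∈ (Finset.range (2 ^ n)).filter (fun r => c + r ∈ blk n),
      ENNReal.ofReal (UU (min r (2 ^ j))) * Fr (pw e n) r ≤ ENNReal.ofReal C := by
  obtain ⟨C, hC, h⟩ := giants_blk
  have hq0 : (0 : ℝ) < (2 : ℝ) ^ (-e) := Real.rpow_pos_of_pos (by norm_num) _
  have hq1 : (2 : ℝ) ^ (-e) < 1 := Real.rpow_lt_one_of_one_lt_of_neg (by norm_num) (by linarith)
  refine ⟨C * (1 / (1 - (2 : ℝ) ^ (-e))), mul_pos hC (one_div_pos.2 (by linarith)), ?_⟩
  intro n j c
  calc ∑ r ∈ (Finset.range (2 ^ n)).filter (fun r => c + r ∈ blk n), ENNReal.ofReal (UU (min r (2 ^ j))) * Fr (pw e n) r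
      ≤ ∑ r ∈ Finset.range (2 ^ n), ENNReal.ofReal (UU r) * Fr (pw e n) r := by
        refine (Finset.sum_le_sum_of_subset (Finset.filter_subset _ _)).trans (Finset.sum_le_sum fun r _ => ?_)
        exact mul_le_mul' (ENNReal.ofReal_le_ofReal (UU_mono (min_le_left _ _))) le_rfl
    _ = ∑ l ∈ Finset.range (n + 1), ∑ r ∈ blk l, ENNReal.ofReal (UU r) * Fr (pw e n) r := sum_range_blk _ n
    _ ≤ ∑ l ∈ Finset.range (n + 1), ENNReal.ofReal (C * ((2 : ℝ) ^ (-e)) ^ (n - l)) := by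
        refine Finset.sum_le_sum fun l hl => ?_
        rw [Finset.mem_range] at hl
        calc ∑ r ∈ blk l, ENNReal.ofReal (UU r) * Fr (pw e n) r
            ≤ ∑ r ∈ blk l, ENNReal.ofReal (UU (2 ^ l)) * (ENNReal.ofReal (((2 : ℝ) ^ (-e)) ^ (n - l)) * Fr (fw e l) r) := by
              refine Finset.sum_le_sum fun r hr => ?_
              unfold blk at hr
              rw [Finset.mem_Ico] at hr
              exact mul_le_mul' (ENNReal.ofReal_le_ofReal (UU_mono hr.2.le)) (Fr_pw_le h0.le (by omega) r)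
          _ = ENNReal.ofReal (UU (2 ^ l)) * (ENNReal.ofReal (((2 : ℝ) ^ (-e)) ^ (n - l)) * ∑ r ∈ blk l, Fr (fw e l) r) := by
              rw [Finset.mul_sum, Finset.mul_sum]
          _ ≤ ENNReal.ofReal (UU (2 ^ l)) * (ENNReal.ofReal (((2 : ℝ) ^ (-e)) ^ (n - l)) * ENNReal.ofReal (C / UU (2 ^ l))) :=
              mul_le_mul' le_rfl (mul_le_mul' le_rfl (h l e h1))
          _ = ENNReal.ofReal (C * ((2 : ℝ) ^ (-e)) ^ (n - l)) := by
              have hU := UU_pos (2 ^ l)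
              rw [← ENNReal.ofReal_mul (by positivity), ← ENNReal.ofReal_mul hU.le]
              congr 1
              field_simp
    _ = ENNReal.ofReal (C * ∑ l ∈ Finset.range (n + 1), ((2 : ℝ) ^ (-e)) ^ (n - l)) := by
        rw [← ENNReal.ofReal_sum_of_nonneg (fun _ _ => by positivity), Finset.mul_sum]
    _ ≤ _ := ENNReal.ofReal_le_ofReal (mul_le_mul_of_nonneg_left (geo_le hq0 hq1 n) hC.le)

lemma SWA_add_le {f f1 f2 : ℕ → ℝ≥0∞} (h : ∀ x, f x ≤ f1 x + f2 x) (j n : ℕ) : SWA f j n ≤ SWA f1 j n + SWA f2 j n := by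
  unfold SWA
  simp_rw [← Finset.sum_add_distrib, ← gfF_add, ← add_mul]
  exact Finset.sum_le_sum fun a _ => Finset.sum_le_sum fun c _ => Finset.sum_le_sum fun r _ =>
    gfF_mono le_rfl fun P _ => mul_le_mul' (h _) le_rfl

/-- growth of UU -/
lemma UU_quot : ∃ κ : ℝ, 0 < κ ∧ ∀ j n : ℕ, j ≤ n → UU (2 ^ j) / UU (2 ^ n) ≤ 2 * (2 : ℝ) ^ (-(κ * ((n : ℝ) - j))) := by
  refine ⟨1 / (6 + CW), by have := CW_pos; positivity, ?_⟩
  intro j n h
  have h1 := UU_growth (s := 2 ^ j) (T := 2 ^ n) Nat.one_le_two_pow (Nat.pow_le_pow_right (by norm_num) h)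
  have e1 : ((2 ^ n : ℕ) : ℝ) / ((2 ^ j : ℕ) : ℝ) = (2 : ℝ) ^ ((n : ℝ) - j) := by
    push_cast
    rw [Real.rpow_sub (by norm_num), Real.rpow_natCast, Real.rpow_natCast]
  rw [e1, ← Real.rpow_mul (by norm_num)] at h1
  rw [div_le_iff₀ (UU_pos _)]
  have h2 : (0 : ℝ) < (2 : ℝ) ^ (((n : ℝ) - j) * (1 / (6 + CW))) := Real.rpow_pos_of_pos (by norm_num) _
  rw [show -(1 / (6 + CW) * ((n : ℝ) - j)) = -(((n : ℝ) - j) * (1 / (6 + CW))) by ring, Real.rpow_neg (by norm_num)]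
  rw [show 2 * ((2 : ℝ) ^ (((n : ℝ) - j) * (1 / (6 + CW))))⁻¹ * UU (2 ^ n) =
    (2 * UU (2 ^ n)) / (2 : ℝ) ^ (((n : ℝ) - j) * (1 / (6 + CW))) by field_simp, le_div_iff₀ h2]
  exact h1

end RecA

open RecA Num2Aux

/-- n ≥ 2: the giant has height in blk (n - 1) or blk n, latG -/
theorem rec0 {δ : ℝ} (hδ : 0 < δ) (hδ' : δ ≤ 1 / 4) : ∃ C κ : ℝ, 0 < C ∧ 0 < κ ∧ ∀ j n : ℕ, j ≤ 1 → j ≤ n →
    SW (fw (2 * δ) n) j n ≤ ENNReal.ofReal (C * (2 : ℝ) ^ (-(κ * n))) := by
  classical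
  obtain ⟨C, hC, h⟩ := giants
  obtain ⟨κ, hκ, hr⟩ := UU_quot
  refine ⟨2 * (2 * C), κ, by positivity, hκ, ?_⟩
  intro j n hj hjn
  -- one pair of heights
  have h1 : ∀ a c : ℕ, a ≤ 1 → c ≤ a → ∑ r ∈ (Finset.range (2 ^ n)).filter (fun r => a < c + r ∧ c + r ∈ blk n),
      gfF (Irr r) (fun P => fw (2 * δ) n (extP P) * g2 (Brd a) (Brd c) (fun s t => V2 s (t ++ P))) ≤
      ENNReal.ofReal (2 * C * (2 : ℝ) ^ (-(κ * n))) := by
    intro a c ha hc
    have e1 : ∀ r : ℕ, gfF (Irr r) (fun P => fw (2 * δ) n (extP P) * g2 (Brd a) (Brd c) (fun s t => V2 s (t ++ P))) ≤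
        Fr (fw (2 * δ) n) r := by
      intro r
      refine gfF_mono le_rfl fun P _ => ?_
      refine (mul_le_mul' le_rfl ((g2_le_mul _ _ _).trans ?_)).trans (le_of_eq (mul_one _))
      rw [gf_Brd, gf_Brd]
      calc BT a * BT c ≤ 1 * 1 := mul_le_mul' (ViaEaux.BT_le_one0 a) (ViaEaux.BT_le_one0 c)
        _ = 1 := one_mul 1
    refine (Finset.sum_le_sum fun r _ => e1 r).trans ?_
    rcases Nat.eq_zero_or_pos n with hn | hn
    · subst hn
      have e2 : (Finset.range (2 ^ 0)).filter (fun r => a < c + r ∧ c + r ∈ blk 0) = ∅ := by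
        apply Finset.filter_eq_empty_iff.2
        intro r hr2
        rw [Finset.mem_range] at hr2
        rw [blk_zero, Finset.mem_singleton]
        omega
      rw [e2, Finset.sum_empty]
      exact zero_le
    · have hsub : (Finset.range (2 ^ n)).filter (fun r => a < c + r ∧ c + r ∈ blk n) ⊆
          Finset.Ico (2 ^ (n - 2)) (2 ^ n) := by
        intro r hr2
        rw [Finset.mem_filter, Finset.mem_range] at hr2
        obtain ⟨h3, h4, h5⟩ := hr2
        unfold blk at h5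
        rw [Finset.mem_Ico] at h5 ⊢
        refine ⟨?_, h3⟩
        rcases Nat.lt_or_ge n 2 with h6 | h6
        · obtain rfl : n = 1 := by omega
          norm_num
          omega
        · obtain ⟨m, rfl⟩ : ∃ m, n = m + 2 := ⟨n - 2, by omega⟩
          have e3 : 2 ^ (m + 2) = 4 * 2 ^ m := by rw [pow_add]; ring
          have e4 : 1 ≤ 2 ^ m := Nat.one_le_two_pow
          rw [Nat.add_sub_cancel]
          omega
      refine (Finset.sum_le_sum_of_subset hsub).trans ((h n (2 * δ) hn (by linarith)).trans ?_)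
      apply ENNReal.ofReal_le_ofReal
      have h6 := hr 0 n (Nat.zero_le n)
      have h7 : (1 : ℝ) ≤ UU (2 ^ 0) := by
        have := UU_mono (a := 0) (b := 2 ^ 0) (Nat.zero_le _)
        have h8 : UU 0 = 1 := by
          unfold UU
          rw [Finset.sum_range_one]
          exact uu_zero
        linarith
      have hU := UU_pos (2 ^ n)
      have h9 : 1 / UU (2 ^ n) ≤ UU (2 ^ 0) / UU (2 ^ n) := div_le_div_of_nonneg_right h7 hU.le
      rw [Nat.cast_zero, sub_zero] at h6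
      calc C / UU (2 ^ n) = C * (1 / UU (2 ^ n)) := by ring
        _ ≤ C * (2 * (2 : ℝ) ^ (-(κ * n))) := mul_le_mul_of_nonneg_left (h9.trans h6) hC.le
        _ = _ := by ring
  unfold SW
  interval_cases j
  · rw [blk_zero, Finset.sum_singleton, zero_add, Finset.sum_range_one]
    refine (h1 0 0 (by omega) le_rfl).trans ?_
    apply ENNReal.ofReal_le_ofReal
    have : 0 < (2 : ℝ) ^ (-(κ * n)) := Real.rpow_pos_of_pos (by norm_num) _
    nlinarith
  · have e5 : blk 1 = {1} := by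
      unfold blk
      rfl
    rw [e5, Finset.sum_singleton, Finset.sum_range_succ, Finset.sum_range_one]
    refine (add_le_add (h1 1 0 le_rfl (by omega)) (h1 1 1 le_rfl le_rfl)).trans ?_
    rw [← ENNReal.ofReal_add (by positivity) (by positivity)]
    apply ENNReal.ofReal_le_ofReal
    linarith

/-- doc section 4 (A). s = s1 ++ s2, s1 in FC c a'. n ≥ j + 2: the giant has height in blk (n - 1) or blk n, latG and sum of uu (a - a')
≤ UU (2 ^ j). n ≤ j + 1: fw (2 δ) n x ≤ 1 + (x / 2 ^ n) ^ (2 δ), first part: SW_one_le, VN_le_VS; second part: r in blk l, latG gives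
2 ^ (-2 δ (n - l)) C / UU (2 ^ l), and a - a' < r gives UU (2 ^ l). Sum over (c, s1, t0): st_le for c in blk (j - 1), blk j. -/
theorem recA {δ : ℝ} (hδ : 0 < δ) (hδ' : δ ≤ 1 / 4) : ∃ C κ : ℝ, 0 < C ∧ 0 < κ ∧ ∀ j n : ℕ, 2 ≤ j → j ≤ n →
    SWA (fw (2 * δ) n) j n ≤ ENNReal.ofReal (C * (2 : ℝ) ^ (-(κ * (n - j : ℝ)))) * (1 + Lam (j - 1) + Lam (j - 2)) +
      ENNReal.ofReal C * (if n ≤ j + 1 then VS j else 0) := by
  classical
  obtain ⟨C1, hC1, h1⟩ := giants
  obtain ⟨C2, hC2, h2⟩ := pw_sum (e := 2 * δ) (by linarith) (by linarith)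
  obtain ⟨κ, hκ, hr⟩ := UU_quot
  refine ⟨max (2 * C1) (max 1 (C2 * (2 : ℝ) ^ κ)), κ, by positivity, hκ, ?_⟩
  intro j n hj hjn
  obtain ⟨C, hC⟩ : ∃ C, C = max (2 * C1) (max 1 (C2 * (2 : ℝ) ^ κ)) := ⟨_, rfl⟩
  rw [← hC]
  have hCa : 2 * C1 ≤ C := hC ▸ le_max_left _ _
  have hCb : 1 ≤ C := hC ▸ (le_max_left _ _).trans (le_max_right _ _)
  have hCc : C2 * (2 : ℝ) ^ κ ≤ C := hC ▸ (le_max_right _ _).trans (le_max_right _ _)
  have hLam : Lam (j - 1) + Lam (j - 2) ≤ 1 + Lam (j - 1) + Lam (j - 2) := by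
    rw [add_assoc]
    exact le_add_self
  have hp : 0 < (2 : ℝ) ^ (-(κ * (n - j : ℝ))) := Real.rpow_pos_of_pos (by norm_num) _
  rcases Nat.lt_or_ge (j + 1) n with h | h
  · -- high giants
    rw [if_neg (by omega), mul_zero, add_zero]
    refine (SWA_le _ hj (X := ENNReal.ofReal (C * (2 : ℝ) ^ (-(κ * (n - j : ℝ))))) ?_).trans (mul_le_mul' le_rfl hLam)
    intro c hc
    have hsub : (Finset.range (2 ^ n)).filter (fun r => c + r ∈ blk n) ⊆ Finset.Ico (2 ^ (n - 2)) (2 ^ n) := by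
      intro r hr2
      rw [Finset.mem_filter, Finset.mem_range] at hr2
      obtain ⟨h3, h5⟩ := hr2
      unfold blk at h5
      rw [Finset.mem_Ico] at h5 ⊢
      refine ⟨?_, h3⟩
      obtain ⟨m, rfl⟩ : ∃ m, n = m + 2 := ⟨n - 2, by omega⟩
      have e3 : 2 ^ (m + 2) = 4 * 2 ^ m := by rw [pow_add]; ring
      have e4 : 2 ^ j ≤ 2 ^ m := Nat.pow_le_pow_right (by norm_num) (by omega)
      rw [Nat.add_sub_cancel]
      omega
    have hU := UU_pos (2 ^ n)
    have hUj := UU_pos (2 ^ j)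
    calc ∑ r ∈ (Finset.range (2 ^ n)).filter (fun r => c + r ∈ blk n),
          ENNReal.ofReal (UU (min r (2 ^ j))) * Fr (fw (2 * δ) n) r
        ≤ ∑ r ∈ Finset.Ico (2 ^ (n - 2)) (2 ^ n), ENNReal.ofReal (UU (2 ^ j)) * Fr (fw (2 * δ) n) r := by
          refine (Finset.sum_le_sum_of_subset hsub).trans (Finset.sum_le_sum fun r _ => ?_)
          exact mul_le_mul' (ENNReal.ofReal_le_ofReal (UU_mono (min_le_right _ _))) le_rfl
      _ = ENNReal.ofReal (UU (2 ^ j)) * ∑ r ∈ Finset.Ico (2 ^ (n - 2)) (2 ^ n), Fr (fw (2 * δ) n) r :=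
          (Finset.mul_sum _ _ _).symm
      _ ≤ ENNReal.ofReal (UU (2 ^ j)) * ENNReal.ofReal (C1 / UU (2 ^ n)) :=
          mul_le_mul' le_rfl (h1 n (2 * δ) (by omega) (by linarith))
      _ = ENNReal.ofReal (C1 * (UU (2 ^ j) / UU (2 ^ n))) := by
          rw [← ENNReal.ofReal_mul hUj.le]
          congr 1
          ring
      _ ≤ _ := by
          apply ENNReal.ofReal_le_ofReal
          have h6 := hr j n hjn
          calc C1 * (UU (2 ^ j) / UU (2 ^ n)) ≤ C1 * (2 * (2 : ℝ) ^ (-(κ * ((n : ℝ) - j)))) :=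
                mul_le_mul_of_nonneg_left h6 hC1.le
            _ = (2 * C1) * (2 : ℝ) ^ (-(κ * (n - j : ℝ))) := by ring
            _ ≤ _ := mul_le_mul_of_nonneg_right hCa hp.le
  · -- low giants
    rw [if_pos h]
    refine (SWA_add_le (fw_le_pw (by linarith) (by linarith) n) j n).trans ?_
    rw [add_comm]
    refine add_le_add ?_ ?_
    · refine (SWA_le _ hj (X := ENNReal.ofReal (C * (2 : ℝ) ^ (-(κ * (n - j : ℝ))))) ?_).trans (mul_le_mul' le_rfl hLam)
      intro c _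
      refine (h2 n j c).trans ?_
      apply ENNReal.ofReal_le_ofReal
      have h7 : (2 : ℝ) ^ (-κ) ≤ (2 : ℝ) ^ (-(κ * (n - j : ℝ))) := by
        apply Real.rpow_le_rpow_of_exponent_le (by norm_num)
        have h8 : (n : ℝ) - j ≤ 1 := by
          have : (n : ℝ) ≤ (j : ℝ) + 1 := by exact_mod_cast h
          linarith
        nlinarith
      have h9 : (2 : ℝ) ^ κ * (2 : ℝ) ^ (-κ) = 1 := by
        rw [← Real.rpow_add (by norm_num), add_neg_cancel, Real.rpow_zero]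
      have h10 : (0 : ℝ) < (2 : ℝ) ^ (-κ) := Real.rpow_pos_of_pos (by norm_num) _
      calc C2 = (C2 * (2 : ℝ) ^ κ) * (2 : ℝ) ^ (-κ) := by rw [mul_assoc, h9, mul_one]
        _ ≤ C * (2 : ℝ) ^ (-(κ * (n - j : ℝ))) := mul_le_mul hCc h7 h10.le (by linarith)
    · refine le_trans ?_ (mul_le_mul' (ENNReal.one_le_ofReal.2 hCb) le_rfl)
      rw [one_mul]
      refine le_trans ?_ (SW_le_VS j n)
      rw [SW_split]
      exact le_self_add

end HexObs
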