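import Pool.Agent.PHW5.OffA

/-!
PHW5, S5i2: the offset of the states of the recursion.
-/

set_option autoImplicit false

namespace HexObs

open Complex Finset ENNReal

lemma fw_le_one {δ : ℝ} (hδ' : δ ≤ 1) (n x : ℕ) : fw δ n x ≤ fw 1 n x := by
  unfold fw
  apply ENNReal.ofReal_le_ofReal
  apply Real.rpow_le_rpow_of_exponent_le _ hδ'
  have : (0 : ℝ) ≤ (x : ℝ) / 2 ^ n := by positivity
  linarith

/-- mirror image, and the two cases for the height of the long leg -/
lemma off_term {δ : ℝ} (n c a' : ℕ) :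
    gfF (FC c a') (fun s1 => gfF {t | t ∈ Brd c ∧ V2 s1 t} (fun t0 => fw δ n (offs s1 t0))) ≤
      (if a' = c then g2F (Brd c) (Brd c) V2 (fun s t => fw δ n (offs s t)) else 0) +
      g2F (Brd c) (FC (c + 1) a') V2 (fun s t => fw δ n (offs s t)) := by
  classical
  change g2F (FC c a') (Brd c) V2 (fun s t => fw δ n (offs s t)) ≤ _
  rw [g2F_mirror]
  by_cases h : a' = c
  · rw [if_pos h]
    refine le_trans ?_ le_self_add
    refine g2F_mono ?_ ?_ ?_ ?_
    · intro t ht
      have := Brd_not ht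
      rwa [map_not_not] at this
    · intro t ht
      have h1 : t ∈ FC c a' := by
        rw [← FC_not]
        exact ht
      rw [← h]
      exact h1.1
    · intro s t _ _ hV
      have := V2_not hV
      rwa [map_not_not, map_not_not] at this
    · intro s t _ _ _
      rw [offs_not]
  · rw [if_neg h, zero_add]
    refine g2F_mono ?_ ?_ ?_ ?_
    · intro t ht
      have := Brd_not ht
      rwa [map_not_not] at this
    · intro t ht
      have h1 : t ∈ FC c a' := by
        rw [← FC_not]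
        exact ht
      obtain ⟨h2, h3, h4⟩ := h1
      exact ⟨h2, by omega, fun e he he' => h4 e (by omega) he'⟩
    · intro s t _ _ hV
      have := V2_not hV
      rwa [map_not_not, map_not_not] at this
    · intro s t _ _ _
      rw [offs_not]

/-- mirror image of off_eq (a' = c) and off_state (a' > c, FC c a' is contained in FC (c + 1) a'); c = 0: a' = 0 -/
theorem offset_sum {δ : ℝ} (hδ : 0 < δ) (hδ' : δ ≤ 1) : ∃ C : ℝ, 0 < C ∧ ∀ i i' : ℕ, i ≤ i' →
    ∑ c ∈ blk i, ∑ a' ∈ (blk i').filter (fun a' => c ≤ a'),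
      gfF (FC c a') (fun s1 => gfF {t | t ∈ Brd c ∧ V2 s1 t} (fun t0 => fw δ i' (offs s1 t0))) ≤
      ENNReal.ofReal C * (SW (fw δ i') i i' + ENNReal.ofReal ((2 : ℝ) ^ (-(i' - i : ℝ)))) := by
  classical
  obtain ⟨C1, hC1, h1⟩ := off_eq
  obtain ⟨C2, hC2, h2⟩ := off_state hδ hδ'
  refine ⟨C1 + C2, by positivity, ?_⟩
  intro i i' hii
  have h3 : ∑ c ∈ blk i, ∑ a' ∈ (blk i').filter (fun a' => c ≤ a'),
      gfF (FC c a') (fun s1 => gfF {t | t ∈ Brd c ∧ V2 s1 t} (fun t0 => fw δ i' (offs s1 t0))) ≤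
      ∑ c ∈ blk i, (∑ a' ∈ blk i', (if a' = c then g2F (Brd c) (Brd c) V2 (fun s t => fw δ i' (offs s t)) else 0) +
        ∑ a' ∈ blk i', g2F (Brd c) (FC (c + 1) a') V2 (fun s t => fw δ i' (offs s t))) := by
    refine Finset.sum_le_sum fun c _ => ?_
    rw [← Finset.sum_add_distrib]
    refine (Finset.sum_le_sum_of_subset (Finset.filter_subset _ _)).trans ?_
    exact Finset.sum_le_sum fun a' _ => off_term i' c a'
  refine h3.trans ?_
  rw [Finset.sum_add_distrib]
  have h4 : ∑ c ∈ blk i, ∑ a' ∈ blk i', (if a' = c then g2F (Brd c) (Brd c) V2 (fun s t => fw δ i' (offs s t)) else 0) ≤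
      ENNReal.ofReal C1 * ENNReal.ofReal ((2 : ℝ) ^ (-(i' - i : ℝ))) := by
    by_cases h : i = i'
    · subst h
      rw [sub_self, neg_zero, Real.rpow_zero, ENNReal.ofReal_one, mul_one]
      refine le_trans (Finset.sum_le_sum fun c hc => ?_) (h1 i)
      rw [Finset.sum_ite_eq' (blk i) c, if_pos hc]
      exact g2F_mono (subset_refl _) (subset_refl _) (fun _ _ _ _ h => h) fun s t _ _ _ => fw_le_one hδ' i _
    · refine le_trans (le_of_eq ?_) zero_le
      refine Finset.sum_eq_zero fun c hc => Finset.sum_eq_zero fun a' ha' => ?_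
      rw [if_neg]
      rintro rfl
      rw [mem_blk] at hc ha'
      exact h (hc.symm.trans ha')
  have h5 := h2 i i' hii
  change ∑ c ∈ blk i, ∑ a' ∈ blk i', g2F (Brd c) (FC (c + 1) a') V2 (fun s t => fw δ i' (offs s t)) ≤ _ at h5
  refine (add_le_add h4 h5).trans ?_
  rw [ENNReal.ofReal_add hC1.le hC2.le, add_mul]
  gcongr
  exact le_add_self

end HexObs
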