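import Pool.Agent.PHW5.Base5
import Pool.Agent.PHW.FirstCut

/-!
PHW5, S5h1: recursion, decomposition of the states.
-/

set_option autoImplicit false

namespace HexObs

open Complex Finset ENNReal

namespace RecStep

open Base5

lemma gfF_supp {A A' : Set (List Bool)} (F : List Bool → ℝ≥0∞) (h : ∀ t ∈ A, t ∉ A' → F t = 0) :
    gfF A F ≤ gfF A' F := by
  classical
  unfold gfF
  have e1 := tsum_subtype A (fun t : List Bool => wE t * F t)
  have e2 := tsum_subtype A' (fun t : List Bool => wE t * F t)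
  refine (le_of_eq e1).trans (le_trans ?_ (ge_of_eq e2))
  refine ENNReal.tsum_le_tsum fun t => ?_
  by_cases hA : t ∈ A
  · by_cases hA' : t ∈ A'
    · rw [Set.indicator_of_mem hA, Set.indicator_of_mem hA']
    · rw [Set.indicator_of_mem hA, h t hA hA', mul_zero]
      exact zero_le
  · rw [Set.indicator_of_notMem hA]
    exact zero_le

/-- the left walk is cut at its first cut at or above c -/
lemma cut_left {a c r : ℕ} (hc : c ≤ a) {P : List Bool} (hP : P ∈ Brd r) :
    g2 (Brd a) (Brd c) (fun s t => V2 s (t ++ P)) ≤ ∑ a' ∈ Finset.Icc c a, gfF (FC c a') fun s1 =>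
      gfF {t | t ∈ Brd c ∧ V2 s1 t} fun t0 => gf {s2 | s2 ∈ Brd (a - a') ∧ V2 (s1 ++ s2) (t0 ++ P)} := by
  rw [g2_gfF]
  refine (gfF_dec_sum (Finset.Icc c a) (A := fun a' => FC c a') (B := fun a' _ => Brd (a - a')) _ ?_).trans ?_
  · intro s hs
    obtain ⟨j, s1, s2, hj, hja, h1, h2, rfl⟩ := FC_dec hc hs
    exact ⟨j, Finset.mem_Icc.2 ⟨hj, hja⟩, s1, s2, h1, h2, rfl⟩
  · refine Finset.sum_le_sum fun a' _ => gfF_mono le_rfl fun s1 hs1 => ?_
    have e : gfF (Brd (a - a')) (fun s2 => gf {t | t ∈ Brd c ∧ V2 (s1 ++ s2) (t ++ P)}) =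
        gfF (Brd c) (fun t0 => gf {s2 | s2 ∈ Brd (a - a') ∧ V2 (s1 ++ s2) (t0 ++ P)}) := by
      rw [← g2_gfF (Brd (a - a')) (Brd c) (fun s2 t => V2 (s1 ++ s2) (t ++ P)),
        ← g2_gfF' (Brd (a - a')) (Brd c) (fun s2 t => V2 (s1 ++ s2) (t ++ P))]
    rw [e]
    refine gfF_supp _ ?_
    intro t0 ht0 hn
    have e2 : {s2 : List Bool | s2 ∈ Brd (a - a') ∧ V2 (s1 ++ s2) (t0 ++ P)} = ∅ := by
      ext s2
      rw [Set.mem_empty_iff_false, iff_false]
      rintro ⟨h2, hv⟩
      exact hn ⟨ht0, V2_prefix hs1.1 h2 ht0 hP hv⟩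
    rw [e2]
    unfold gf
    simp

end RecStep

open Base5 RecStep

/-- s = s1 ++ s2, s1 up to the first cut at or above c (FC_dec, gfF_dec_sum) -/
theorem SWB_step (f : ℕ → ℝ≥0∞) (j n : ℕ) :
    SWB f j n ≤ ∑ c ∈ (Finset.range (2 ^ j)).filter (fun c => 4 * c < 2 ^ j), ∑ a' ∈ Finset.Ico c (2 ^ j),
      gfF (FC c a') fun s1 => gfF {t | t ∈ Brd c ∧ V2 s1 t} fun t0 => KS f j n c a' s1 t0 := by
  classical
  -- the terms
  set T : ℕ → ℕ → ℕ → ℕ → ℝ≥0∞ := fun a c r a' => gfF (FC c a') fun s1 => gfF {t | t ∈ Brd c ∧ V2 s1 t} fun t0 =>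
    gfF (Irr r) fun P => f (extP P) * gf {s2 | s2 ∈ Brd (a - a') ∧ V2 (s1 ++ s2) (t0 ++ P)} with hT
  have h1 : ∀ a c r : ℕ, c ≤ a → gfF (Irr r) (fun P => f (extP P) * g2 (Brd a) (Brd c) (fun s t => V2 s (t ++ P))) ≤
      ∑ a' ∈ Finset.Icc c a, T a c r a' := by
    intro a c r hc
    calc gfF (Irr r) (fun P => f (extP P) * g2 (Brd a) (Brd c) (fun s t => V2 s (t ++ P)))
        ≤ gfF (Irr r) (fun P => ∑ a' ∈ Finset.Icc c a, gfF (FC c a') fun s1 => gfF {t | t ∈ Brd c ∧ V2 s1 t} fun t0 =>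
            f (extP P) * gf {s2 | s2 ∈ Brd (a - a') ∧ V2 (s1 ++ s2) (t0 ++ P)}) := by
          refine gfF_mono le_rfl fun P hP => ?_
          refine (mul_le_mul_right (cut_left hc hP.1) _).trans (le_of_eq ?_)
          rw [Finset.mul_sum]
          refine Finset.sum_congr rfl fun a' _ => ?_
          rw [← gfF_mul]
          congr 1
          funext s1
          rw [← gfF_mul]
      _ = ∑ a' ∈ Finset.Icc c a, gfF (Irr r) (fun P => gfF (FC c a') fun s1 => gfF {t | t ∈ Brd c ∧ V2 s1 t} fun t0 =>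
            f (extP P) * gf {s2 | s2 ∈ Brd (a - a') ∧ V2 (s1 ++ s2) (t0 ++ P)}) := (sum_gfF _ _ _).symm
      _ = _ := by
          refine Finset.sum_congr rfl fun a' _ => ?_
          rw [gfF_comm, hT]
          simp only
          congr 1
          funext s1
          rw [gfF_comm]
  have h2 : SWB f j n ≤ ∑ a ∈ blk j, ∑ c ∈ (Finset.range (a + 1)).filter (fun c => 4 * c < 2 ^ j),
      ∑ r ∈ (Finset.range (2 ^ n)).filter (fun r => a < c + r ∧ c + r ∈ blk n), ∑ a' ∈ Finset.Icc c a, T a c r a' := by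
    unfold SWB
    refine Finset.sum_le_sum fun a _ => Finset.sum_le_sum fun c hc => Finset.sum_le_sum fun r _ => h1 a c r ?_
    rw [Finset.mem_filter, Finset.mem_range] at hc
    omega
  have h3 : ∀ c a' : ℕ, (gfF (FC c a') fun s1 => gfF {t | t ∈ Brd c ∧ V2 s1 t} fun t0 => KS f j n c a' s1 t0) =
      ∑ a ∈ (blk j).filter (fun a => a' ≤ a),
        ∑ r ∈ (Finset.range (2 ^ n)).filter (fun r => a < c + r ∧ c + r ∈ blk n), T a c r a' := by
    intro c a'
    unfold KS
    simp_rw [← sum_gfF]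
    rfl
  refine h2.trans ?_
  simp_rw [h3]
  -- reorder
  calc ∑ a ∈ blk j, ∑ c ∈ (Finset.range (a + 1)).filter (fun c => 4 * c < 2 ^ j),
        ∑ r ∈ (Finset.range (2 ^ n)).filter (fun r => a < c + r ∧ c + r ∈ blk n), ∑ a' ∈ Finset.Icc c a, T a c r a'
      ≤ ∑ a ∈ blk j, ∑ c ∈ (Finset.range (2 ^ j)).filter (fun c => 4 * c < 2 ^ j), ∑ a' ∈ Finset.Ico c (2 ^ j),
        if a' ≤ a then ∑ r ∈ (Finset.range (2 ^ n)).filter (fun r => a < c + r ∧ c + r ∈ blk n), T a c r a' else 0 := by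
        refine Finset.sum_le_sum fun a ha => ?_
        have ha2 : a < 2 ^ j := by
          unfold blk at ha
          exact (Finset.mem_Ico.1 ha).2
        have e1 : ∀ c : ℕ, ∑ r ∈ (Finset.range (2 ^ n)).filter (fun r => a < c + r ∧ c + r ∈ blk n),
            ∑ a' ∈ Finset.Icc c a, T a c r a' ≤ ∑ a' ∈ Finset.Ico c (2 ^ j),
            if a' ≤ a then ∑ r ∈ (Finset.range (2 ^ n)).filter (fun r => a < c + r ∧ c + r ∈ blk n), T a c r a' else 0 := by
          intro c
          rw [Finset.sum_comm, ← Finset.sum_filter]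
          apply Finset.sum_le_sum_of_subset
          intro a' ha'
          rw [Finset.mem_Icc] at ha'
          rw [Finset.mem_filter, Finset.mem_Ico]
          omega
        refine (Finset.sum_le_sum fun c _ => e1 c).trans ?_
        apply Finset.sum_le_sum_of_subset
        intro c hc
        rw [Finset.mem_filter, Finset.mem_range] at hc ⊢
        omega
    _ = _ := by
        rw [Finset.sum_comm]
        refine Finset.sum_congr rfl fun c _ => ?_
        rw [Finset.sum_comm]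
        refine Finset.sum_congr rfl fun a' _ => ?_
        rw [Finset.sum_filter]

end HexObs
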