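import Pool.Agent.PHW5.KillSum
import Pool.Agent.PHW5.Offset
import Pool.Agent.PHW5.RecStep

/-!
PHW5, S5j: recursion, states whose giant starts below the block j - 1.
-/

set_option autoImplicit false

namespace HexObs

open Complex Finset ENNReal

/-- one pair of heights -/
lemma recB_term {δ C κ : ℝ} (hC : 0 < C) (h4 : ∀ (j n c a' : ℕ) (s1 t0 : List Bool), 2 ≤ j → j ≤ n →
    s1 ∈ Brd a' → t0 ∈ Brd c → c ≤ a' → 4 * c < 2 ^ j → a' < 2 ^ j →
    KS (fw (2 * δ) n) j n c a' s1 t0 ≤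
      ENNReal.ofReal (C * (2 : ℝ) ^ (-(κ * (n - j : ℝ))) * (2 : ℝ) ^ (-(δ * (j - Nat.size a' : ℝ)))) *
        fw δ (Nat.size a') (offs s1 t0)) {j n c a' : ℕ} (hj : 2 ≤ j) (hjn : j ≤ n) (hc : 4 * c < 2 ^ j) (hca : c ≤ a')
    (ha : a' < 2 ^ j) {i' : ℕ} (hi' : Nat.size a' = i') :
    gfF (FC c a') (fun s1 => gfF {t | t ∈ Brd c ∧ V2 s1 t} fun t0 => KS (fw (2 * δ) n) j n c a' s1 t0) ≤
      ENNReal.ofReal (C * (2 : ℝ) ^ (-(κ * (n - j : ℝ)))) * ENNReal.ofReal ((2 : ℝ) ^ (-(δ * (j - i' : ℝ)))) *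
        gfF (FC c a') (fun s1 => gfF {t | t ∈ Brd c ∧ V2 s1 t} (fun t0 => fw δ i' (offs s1 t0))) := by
  have _ := hC
  change _ ≤ _ * g2F (FC c a') (Brd c) V2 (fun s1 t0 => fw δ i' (offs s1 t0))
  rw [← g2F_mul]
  refine gfF_mono (subset_refl _) fun s1 hs1 => gfF_mono (subset_refl _) fun t0 ht0 => ?_
  refine (h4 j n c a' s1 t0 hj hjn hs1.1 ht0.1 hca hc ha).trans (le_of_eq ?_)
  rw [hi', ENNReal.ofReal_mul (by positivity)]

/-- SWB_step, KS_le, offset_sum -/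
theorem recB : ∃ δ C κ : ℝ, 0 < δ ∧ δ ≤ 1 / 4 ∧ 0 < C ∧ 0 < κ ∧ ∀ j n : ℕ, 2 ≤ j → j ≤ n →
    SWB (fw (2 * δ) n) j n ≤ ENNReal.ofReal (C * (2 : ℝ) ^ (-(κ * (n - j : ℝ)))) *
      ∑ i ∈ Finset.range (j - 1), ∑ i' ∈ Finset.Icc i j,
        (SW (fw δ i') i i' + ENNReal.ofReal ((2 : ℝ) ^ (-(i' - i : ℝ)))) * ENNReal.ofReal ((2 : ℝ) ^ (-(δ * (j - i' : ℝ)))) := by
  classical
  obtain ⟨δ, C, κ, h1, h2, hC, h3, h4⟩ := KS_le
  obtain ⟨C', hC', h5⟩ := offset_sum h1 (by linarith)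
  refine ⟨δ, C * C', κ, h1, h2, by positivity, h3, ?_⟩
  intro j n hj hjn
  refine (SWB_step (fw (2 * δ) n) j n).trans ?_
  set G : ℕ → ℕ → ℝ≥0∞ := fun c a' =>
    gfF (FC c a') (fun s1 => gfF {t | t ∈ Brd c ∧ V2 s1 t} fun t0 => KS (fw (2 * δ) n) j n c a' s1 t0) with hG
  set H : ℕ → ℕ → ℕ → ℝ≥0∞ := fun i' c a' =>
    gfF (FC c a') (fun s1 => gfF {t | t ∈ Brd c ∧ V2 s1 t} (fun t0 => fw δ i' (offs s1 t0))) with hH
  set K : ℝ≥0∞ := ENNReal.ofReal (C * (2 : ℝ) ^ (-(κ * (n - j : ℝ)))) with hK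
  -- the sum over a'
  have h6 : ∀ c : ℕ, 4 * c < 2 ^ j → ∑ a' ∈ Finset.Ico c (2 ^ j), G c a' ≤
      ∑ i' ∈ Finset.Icc (Nat.size c) j, K * ENNReal.ofReal ((2 : ℝ) ^ (-(δ * (j - i' : ℝ)))) *
        ∑ a' ∈ (blk i').filter (fun a' => c ≤ a'), H i' c a' := by
    intro c hc
    have hmaps : ∀ a' ∈ Finset.Ico c (2 ^ j), Nat.size a' ∈ Finset.Icc (Nat.size c) j := by
      intro a' ha'
      rw [Finset.mem_Ico] at ha'
      rw [Finset.mem_Icc]
      exact ⟨Nat.size_le_size ha'.1, Nat.size_le.2 ha'.2⟩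
    rw [← Finset.sum_fiberwise_of_maps_to hmaps]
    refine Finset.sum_le_sum fun i' _ => ?_
    rw [Finset.mul_sum]
    calc ∑ a' ∈ (Finset.Ico c (2 ^ j)).filter (fun a' => Nat.size a' = i'), G c a'
        ≤ ∑ a' ∈ (Finset.Ico c (2 ^ j)).filter (fun a' => Nat.size a' = i'),
          K * ENNReal.ofReal ((2 : ℝ) ^ (-(δ * (j - i' : ℝ)))) * H i' c a' := by
          refine Finset.sum_le_sum fun a' ha' => ?_
          rw [Finset.mem_filter, Finset.mem_Ico] at ha'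
          exact recB_term hC h4 hj hjn hc ha'.1.1 ha'.1.2 ha'.2
      _ ≤ _ := by
          apply Finset.sum_le_sum_of_subset
          intro a' ha'
          rw [Finset.mem_filter, Finset.mem_Ico] at ha'
          rw [Finset.mem_filter, mem_blk]
          exact ⟨ha'.2, ha'.1.1⟩
  have e2 : 2 ^ j = 2 * 2 ^ (j - 1) := two_pow_block (by omega)
  have e3 : 2 ^ (j - 1) = 2 * 2 ^ (j - 2) := by
    have := two_pow_block (n := j - 1) (by omega)
    rwa [show j - 1 - 1 = j - 2 by omega] at this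
  have hmaps2 : ∀ c ∈ (Finset.range (2 ^ j)).filter (fun c => 4 * c < 2 ^ j), Nat.size c ∈ Finset.range (j - 1) := by
    intro c hc
    rw [Finset.mem_filter, Finset.mem_range] at hc
    rw [Finset.mem_range]
    have : Nat.size c ≤ j - 2 := Nat.size_le.2 (by omega)
    omega
  change ∑ c ∈ (Finset.range (2 ^ j)).filter (fun c => 4 * c < 2 ^ j), ∑ a' ∈ Finset.Ico c (2 ^ j), G c a' ≤ _
  rw [← Finset.sum_fiberwise_of_maps_to hmaps2, Finset.mul_sum]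
  refine Finset.sum_le_sum fun i hi => ?_
  rw [Finset.mem_range] at hi
  have h7 : ∑ c ∈ ((Finset.range (2 ^ j)).filter (fun c => 4 * c < 2 ^ j)).filter (fun c => Nat.size c = i),
      ∑ a' ∈ Finset.Ico c (2 ^ j), G c a' ≤
      ∑ c ∈ blk i, ∑ i' ∈ Finset.Icc i j, K * ENNReal.ofReal ((2 : ℝ) ^ (-(δ * (j - i' : ℝ)))) *
        ∑ a' ∈ (blk i').filter (fun a' => c ≤ a'), H i' c a' := by
    calc _ ≤ ∑ c ∈ ((Finset.range (2 ^ j)).filter (fun c => 4 * c < 2 ^ j)).filter (fun c => Nat.size c = i),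
          ∑ i' ∈ Finset.Icc i j, K * ENNReal.ofReal ((2 : ℝ) ^ (-(δ * (j - i' : ℝ)))) *
            ∑ a' ∈ (blk i').filter (fun a' => c ≤ a'), H i' c a' := by
          refine Finset.sum_le_sum fun c hc => ?_
          rw [Finset.mem_filter, Finset.mem_filter] at hc
          have := h6 c hc.1.2
          rwa [hc.2] at this
      _ ≤ _ := by
          apply Finset.sum_le_sum_of_subset
          intro c hc
          rw [Finset.mem_filter] at hc
          rw [mem_blk]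
          exact hc.2
  refine h7.trans ?_
  rw [Finset.sum_comm, Finset.mul_sum]
  refine Finset.sum_le_sum fun i' hi' => ?_
  rw [Finset.mem_Icc] at hi'
  rw [← Finset.mul_sum]
  refine (mul_le_mul_right (h5 i i' hi'.1) _).trans (le_of_eq ?_)
  have e4 : ENNReal.ofReal (C * C' * (2 : ℝ) ^ (-(κ * (n - j : ℝ)))) = K * ENNReal.ofReal C' := by
    rw [hK, ← ENNReal.ofReal_mul (by positivity)]
    congr 1
    ring
  rw [e4]
  ring

end HexObs
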