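import Mathlib

/-!
PHW5, S5k: solution of the recursion (pure numbers).
-/

set_option autoImplicit false

namespace HexObs

open ENNReal

namespace Solve5

/-- geometric sum -/
lemma geo {q : ℝ} (h0 : 0 < q) (h1 : q < 1) : ∑' n : ℕ, ENNReal.ofReal (q ^ n) = ENNReal.ofReal (1 - q)⁻¹ := by
  rw [← ENNReal.ofReal_tsum_of_nonneg (fun n => by positivity) (summable_geometric_of_lt_one h0.le h1),
    tsum_geometric_of_lt_one h0.le h1]

/-- finite sums of powers with different exponents -/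
lemma geo_fin {q : ℝ} (h0 : 0 < q) (h1 : q < 1) (S : Finset ℕ) (j : ℕ) (h : ∀ i ∈ S, i ≤ j) :
    ∑ i ∈ S, ENNReal.ofReal (q ^ (j - i)) ≤ ENNReal.ofReal (1 - q)⁻¹ := by
  classical
  rw [← geo h0 h1]
  have h2 : ∑ i ∈ S, ENNReal.ofReal (q ^ (j - i)) = ∑ m ∈ S.image (fun i => j - i), ENNReal.ofReal (q ^ m) := by
    rw [Finset.sum_image]
    intro a ha b hb hab
    have e : j - a = j - b := hab
    have := h a ha
    have := h b hb
    omega
  rw [h2]
  exact ENNReal.sum_le_tsum _

lemma rp {γ : ℝ} {i n : ℕ} (h : i ≤ n) : (2 : ℝ) ^ (-(γ * (n - i : ℝ))) = ((2 : ℝ) ^ (-γ)) ^ (n - i) := by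
  rw [← Real.rpow_natCast, ← Real.rpow_mul (by norm_num), Nat.cast_sub h]
  congr 1
  ring

variable {δ κ C γ q G K : ℝ} {V lam : ℕ → ℝ≥0∞} {VN W W2 : ℕ → ℕ → ℝ≥0∞}

/-- V below j -/
lemma V_le (hq0 : 0 < q) (hq1 : q < 1) (hG : G = (1 - q)⁻¹) (hK : 0 ≤ K)
    (hV : ∀ j, V j ≤ ∑' n : ℕ, VN j (j + n)) (hVW : ∀ j n, VN j n ≤ W j n) {j : ℕ}
    (ih : ∀ i < j, ∀ n, i ≤ n → W i n ≤ ENNReal.ofReal (K * q ^ (n - i))) {i : ℕ} (hi : i < j) :
    V i ≤ ENNReal.ofReal (K * G) := by
  refine (hV i).trans ?_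
  calc ∑' n : ℕ, VN i (i + n) ≤ ∑' n : ℕ, ENNReal.ofReal K * ENNReal.ofReal (q ^ n) := by
        refine ENNReal.tsum_le_tsum fun n => ?_
        rw [← ENNReal.ofReal_mul hK]
        have := ih i hi (i + n) (Nat.le_add_right _ _)
        rw [Nat.add_sub_cancel_left] at this
        exact (hVW i (i + n)).trans this
    _ = ENNReal.ofReal (K * G) := by
        rw [ENNReal.tsum_mul_left, geo hq0 hq1, ← hG, ENNReal.ofReal_mul hK]

/-- lam below j -/
lemma lam_le (hC : 0 < C) (hq0 : 0 < q) (hq1 : q < 1) (hG : G = (1 - q)⁻¹) (hK : 1 ≤ K)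
    (hV : ∀ j, V j ≤ ∑' n : ℕ, VN j (j + n)) (hVW : ∀ j n, VN j n ≤ W j n)
    (hB0 : lam 0 ≤ ENNReal.ofReal C)
    (hB : ∀ k, 1 ≤ k → lam k ≤ ENNReal.ofReal C * (V (k - 1) + V k + ∑ j ∈ Finset.range (k - 1), ∑' n : ℕ, VN j (k + n)))
    {j : ℕ} (ih : ∀ i < j, ∀ n, i ≤ n → W i n ≤ ENNReal.ofReal (K * q ^ (n - i))) {k : ℕ} (hk : k < j) :
    lam k ≤ ENNReal.ofReal (K * (C * (2 * G + G * G) + C)) := by
  have hK0 : 0 ≤ K := by linarith
  have hG0 : 0 < G := by
    rw [hG]
    exact inv_pos.2 (by linarith)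
  rcases Nat.eq_zero_or_pos k with h0 | h0
  · rw [h0]
    refine hB0.trans (ENNReal.ofReal_le_ofReal ?_)
    have h1 : 0 ≤ C * (2 * G + G * G) := by positivity
    nlinarith
  · refine (hB k h0).trans ?_
    have h1 : V (k - 1) ≤ ENNReal.ofReal (K * G) := V_le hq0 hq1 hG hK0 hV hVW ih (by omega)
    have h2 : V k ≤ ENNReal.ofReal (K * G) := V_le hq0 hq1 hG hK0 hV hVW ih hk
    have h3 : ∑ i ∈ Finset.range (k - 1), ∑' n : ℕ, VN i (k + n) ≤ ENNReal.ofReal (K * (G * G)) := by
      calc ∑ i ∈ Finset.range (k - 1), ∑' n : ℕ, VN i (k + n)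
          ≤ ∑ i ∈ Finset.range (k - 1), ENNReal.ofReal (K * G) * ENNReal.ofReal (q ^ (k - i)) := by
            refine Finset.sum_le_sum fun i hi => ?_
            rw [Finset.mem_range] at hi
            calc ∑' n : ℕ, VN i (k + n) ≤ ∑' n : ℕ, ENNReal.ofReal (K * q ^ (k - i)) * ENNReal.ofReal (q ^ n) := by
                  refine ENNReal.tsum_le_tsum fun n => ?_
                  rw [← ENNReal.ofReal_mul (by positivity)]
                  have := ih i (by omega) (k + n) (by omega)
                  rw [show k + n - i = (k - i) + n by omega, pow_add, ← mul_assoc] at this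
                  exact (hVW i (k + n)).trans this
              _ = ENNReal.ofReal (K * G) * ENNReal.ofReal (q ^ (k - i)) := by
                  rw [ENNReal.tsum_mul_left, geo hq0 hq1, ← hG, ← ENNReal.ofReal_mul (by positivity),
                    ← ENNReal.ofReal_mul (by positivity)]
                  congr 1
                  ring
        _ ≤ ENNReal.ofReal (K * G) * ENNReal.ofReal G := by
            rw [← Finset.mul_sum]
            gcongr
            rw [hG]
            exact geo_fin hq0 hq1 _ _ fun i hi => by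
              rw [Finset.mem_range] at hi
              omega
        _ = ENNReal.ofReal (K * (G * G)) := by
            rw [← ENNReal.ofReal_mul (by positivity)]
            congr 1
            ring
    calc ENNReal.ofReal C * (V (k - 1) + V k + ∑ j ∈ Finset.range (k - 1), ∑' n : ℕ, VN j (k + n))
        ≤ ENNReal.ofReal C * (ENNReal.ofReal (K * G) + ENNReal.ofReal (K * G) + ENNReal.ofReal (K * (G * G))) := by
          gcongr
      _ = ENNReal.ofReal (K * (C * (2 * G + G * G))) := by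
          rw [← ENNReal.ofReal_add (by positivity) (by positivity), ← ENNReal.ofReal_add (by positivity) (by positivity),
            ← ENNReal.ofReal_mul hC.le]
          congr 1
          ring
      _ ≤ ENNReal.ofReal (K * (C * (2 * G + G * G) + C)) := by
          apply ENNReal.ofReal_le_ofReal
          gcongr
          linarith

/-- the double sum -/
lemma dsum_le (hγ1 : γ ≤ 1) (hγδ : 2 * γ ≤ δ) (hq : q = (2 : ℝ) ^ (-γ)) (hq0 : 0 < q) (hq1 : q < 1)
    (hG : G = (1 - q)⁻¹) (hK : 1 ≤ K) {j : ℕ}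
    (ih : ∀ i < j, ∀ n, i ≤ n → W i n ≤ ENNReal.ofReal (K * q ^ (n - i))) :
    ∑ i ∈ Finset.range (j - 1), ∑ i' ∈ Finset.Icc i j,
        (W i i' + ENNReal.ofReal ((2 : ℝ) ^ (-(i' - i : ℝ)))) * ENNReal.ofReal ((2 : ℝ) ^ (-(δ * (j - i' : ℝ)))) ≤
      ENNReal.ofReal (K * (2 * G * G)) := by
  have hK0 : 0 ≤ K := by linarith
  have hG0 : 0 < G := by
    rw [hG]
    exact inv_pos.2 (by linarith)
  have h1 : ∀ i ∈ Finset.range (j - 1), ∀ i' ∈ Finset.Icc i j,
      (W i i' + ENNReal.ofReal ((2 : ℝ) ^ (-(i' - i : ℝ)))) * ENNReal.ofReal ((2 : ℝ) ^ (-(δ * (j - i' : ℝ)))) ≤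
      ENNReal.ofReal (2 * K) * ENNReal.ofReal (q ^ (j - i)) * ENNReal.ofReal (q ^ (j - i')) := by
    intro i hi i' hi'
    rw [Finset.mem_range] at hi
    rw [Finset.mem_Icc] at hi'
    have e1 := ih i (by omega) i' hi'.1
    have hx : (0 : ℝ) ≤ (i' : ℝ) - i := by
      have : (i : ℝ) ≤ i' := by exact_mod_cast hi'.1
      linarith
    have hy : (0 : ℝ) ≤ (j : ℝ) - i' := by
      have : (i' : ℝ) ≤ j := by exact_mod_cast hi'.2
      linarith
    have e2 : (2 : ℝ) ^ (-(i' - i : ℝ)) ≤ K * q ^ (i' - i) := by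
      rw [hq, ← rp hi'.1]
      have h3 : (2 : ℝ) ^ (-(i' - i : ℝ)) ≤ (2 : ℝ) ^ (-(γ * (i' - i : ℝ))) := by
        apply Real.rpow_le_rpow_of_exponent_le (by norm_num)
        nlinarith
      have h4 : (0 : ℝ) < (2 : ℝ) ^ (-(γ * (i' - i : ℝ))) := by positivity
      nlinarith
    have e3 : (2 : ℝ) ^ (-(δ * (j - i' : ℝ))) ≤ q ^ (j - i') * q ^ (j - i') := by
      rw [hq, ← rp hi'.2, ← Real.rpow_add (by norm_num)]
      apply Real.rpow_le_rpow_of_exponent_le (by norm_num)
      nlinarith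
    calc (W i i' + ENNReal.ofReal ((2 : ℝ) ^ (-(i' - i : ℝ)))) * ENNReal.ofReal ((2 : ℝ) ^ (-(δ * (j - i' : ℝ))))
        ≤ (ENNReal.ofReal (K * q ^ (i' - i)) + ENNReal.ofReal (K * q ^ (i' - i))) *
          ENNReal.ofReal (q ^ (j - i') * q ^ (j - i')) := by
          gcongr
      _ = ENNReal.ofReal (2 * K) * ENNReal.ofReal (q ^ (j - i)) * ENNReal.ofReal (q ^ (j - i')) := by
          rw [← ENNReal.ofReal_add (by positivity) (by positivity), ← ENNReal.ofReal_mul (by positivity),
            ← ENNReal.ofReal_mul (by positivity), ← ENNReal.ofReal_mul (by positivity)]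
          congr 1
          rw [show j - i = (i' - i) + (j - i') by omega, pow_add]
          ring
  calc _ ≤ ∑ i ∈ Finset.range (j - 1), ∑ i' ∈ Finset.Icc i j,
        ENNReal.ofReal (2 * K) * ENNReal.ofReal (q ^ (j - i)) * ENNReal.ofReal (q ^ (j - i')) :=
        Finset.sum_le_sum fun i hi => Finset.sum_le_sum fun i' hi' => h1 i hi i' hi'
    _ ≤ ∑ i ∈ Finset.range (j - 1), ENNReal.ofReal (2 * K) * ENNReal.ofReal (q ^ (j - i)) * ENNReal.ofReal G := by
        refine Finset.sum_le_sum fun i _ => ?_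
        rw [← Finset.mul_sum]
        gcongr
        rw [hG]
        exact geo_fin hq0 hq1 _ _ fun i' hi' => (Finset.mem_Icc.1 hi').2
    _ = ENNReal.ofReal (2 * K) * ENNReal.ofReal G * ∑ i ∈ Finset.range (j - 1), ENNReal.ofReal (q ^ (j - i)) := by
        rw [Finset.mul_sum]
        refine Finset.sum_congr rfl fun i _ => ?_
        ring
    _ ≤ ENNReal.ofReal (2 * K) * ENNReal.ofReal G * ENNReal.ofReal G := by
        gcongr
        rw [hG]
        exact geo_fin hq0 hq1 _ _ fun i hi => by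
          rw [Finset.mem_range] at hi
          omega
    _ = ENNReal.ofReal (K * (2 * G * G)) := by
        rw [← ENNReal.ofReal_mul (by positivity), ← ENNReal.ofReal_mul (by positivity)]
        congr 1
        ring

end Solve5

open Solve5

/-- γ = min κ δ / 2, Q j := 1 + sup of W i n 2 ^ (γ (n - i)), i ≤ j, n ≥ i. Then lam (j - 1), lam (j - 2) ≤ C Q (j - 1), the double sum is
≤ C Q (j - 1), so W2 j n ≤ C1 2 ^ (-κ (n - j)) Q (j - 1) (+ C V j for n ≤ j + 1); V j ≤ C' + ε C Q (j - 1). n - j ≥ m1: W ≤ W2 ≤ Q/2 ·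
2 ^ (-γ (n - j)); n - j < m1: htr with B large, then ε small. So Q j ≤ max (Q (j - 1)) (C'' + Q (j - 1) / 2). -/
theorem solve5 {δ κ C : ℝ} (hδ : 0 < δ) (hκ : 0 < κ) (hC : 0 < C) (V lam : ℕ → ℝ≥0∞) (VN W W2 : ℕ → ℕ → ℝ≥0∞)
    (hV : ∀ j, V j ≤ ∑' n : ℕ, VN j (j + n)) (hVW : ∀ j n, VN j n ≤ W j n)
    (hWW : ∀ j n, W j n ≤ W2 j n)
    (htr : ∀ j n, ∀ B : ℝ, 1 ≤ B → W j n ≤ ENNReal.ofReal ((1 + B) ^ δ) * V j + ENNReal.ofReal (B ^ (-δ)) * W2 j n)
    (hA : ∀ ε : ℝ, 0 < ε → ∃ C' : ℝ, 0 < C' ∧ ∀ j, V j ≤ ENNReal.ofReal C' + ENNReal.ofReal ε * lam (j - 3))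
    (hB0 : lam 0 ≤ ENNReal.ofReal C)
    (hB : ∀ k, 1 ≤ k → lam k ≤ ENNReal.ofReal C * (V (k - 1) + V k + ∑ j ∈ Finset.range (k - 1), ∑' n : ℕ, VN j (k + n)))
    (h0 : ∀ j n : ℕ, j ≤ 1 → j ≤ n → W2 j n ≤ ENNReal.ofReal (C * (2 : ℝ) ^ (-(κ * n))))
    (hrec : ∀ j n : ℕ, 2 ≤ j → j ≤ n → W2 j n ≤ ENNReal.ofReal (C * (2 : ℝ) ^ (-(κ * (n - j : ℝ)))) *
      (1 + lam (j - 1) + lam (j - 2) + ∑ i ∈ Finset.range (j - 1), ∑ i' ∈ Finset.Icc i j,
        (W i i' + ENNReal.ofReal ((2 : ℝ) ^ (-(i' - i : ℝ)))) * ENNReal.ofReal ((2 : ℝ) ^ (-(δ * (j - i' : ℝ))))) +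
      ENNReal.ofReal C * (if n ≤ j + 1 then V j else 0)) :
    ∃ K γ : ℝ, 0 < K ∧ 0 < γ ∧ (∀ j n : ℕ, j ≤ n → W j n ≤ ENNReal.ofReal (K * (2 : ℝ) ^ (-(γ * (n - j : ℝ))))) ∧
      ∀ k, lam k ≤ ENNReal.ofReal K := by
  obtain ⟨γ, hγd⟩ : ∃ γ, γ = min (min κ δ) 1 / 2 := ⟨_, rfl⟩
  have hγ : 0 < γ := by
    rw [hγd]
    have : 0 < min (min κ δ) 1 := lt_min (lt_min hκ hδ) one_pos
    linarith
  have hγκ : 2 * γ ≤ κ := by
    have : min (min κ δ) 1 ≤ κ := (min_le_left _ _).trans (min_le_left _ _)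
    linarith
  have hγδ : 2 * γ ≤ δ := by
    have : min (min κ δ) 1 ≤ δ := (min_le_left _ _).trans (min_le_right _ _)
    linarith
  have hγ1 : γ ≤ 1 := by
    have : min (min κ δ) 1 ≤ 1 := min_le_right _ _
    linarith
  obtain ⟨q, hq⟩ : ∃ q, q = (2 : ℝ) ^ (-γ) := ⟨_, rfl⟩
  have hq0 : 0 < q := by rw [hq]; positivity
  have hq1 : q < 1 := by
    rw [hq]
    exact Real.rpow_lt_one_of_one_lt_of_neg (by norm_num) (by linarith)
  obtain ⟨G, hG⟩ : ∃ G, G = (1 - q)⁻¹ := ⟨_, rfl⟩
  have hG0 : 0 < G := by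
    rw [hG]
    exact inv_pos.2 (by linarith)
  obtain ⟨L, hL⟩ : ∃ L, L = C * (2 * G + G * G) + C := ⟨_, rfl⟩
  have hL0 : 0 < L := by rw [hL]; positivity
  obtain ⟨c1, hc1⟩ : ∃ c1, c1 = C * (1 + 2 * L + 2 * G * G) := ⟨_, rfl⟩
  have hc10 : 0 < c1 := by rw [hc1]; positivity
  obtain ⟨m, hm⟩ : ∃ m : ℕ, q ^ m < 1 / c1 := exists_pow_lt_of_lt_one (by positivity) hq1
  obtain ⟨p, hp⟩ : ∃ p, p = q ^ (m + 2) := ⟨_, rfl⟩
  have hp0 : 0 < p := by rw [hp]; positivity
  have hp1 : p ≤ 1 := by rw [hp]; exact pow_le_one₀ hq0.le hq1.le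
  have hpc : c1 * p ≤ 1 := by
    have h1 : p ≤ q ^ m := by
      rw [hp]
      exact pow_le_pow_of_le_one hq0.le hq1.le (by omega)
    have h2 : p * c1 ≤ 1 := by
      have := h1.trans hm.le
      rwa [le_div_iff₀ hc10] at this
    linarith
  -- B
  obtain ⟨B, hB1, hBc⟩ : ∃ B : ℝ, 1 ≤ B ∧ B ^ (-δ) * c1 ≤ p / 4 := by
    refine ⟨max 1 ((4 * c1 / p) ^ (1 / δ)), le_max_left _ _, ?_⟩
    have h1 : (max 1 ((4 * c1 / p) ^ (1 / δ))) ^ (-δ) ≤ ((4 * c1 / p) ^ (1 / δ)) ^ (-δ) :=
      Real.rpow_le_rpow_of_nonpos (by positivity) (le_max_right _ _) (by linarith)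
    have h2 : ((4 * c1 / p) ^ (1 / δ)) ^ (-δ) = p / (4 * c1) := by
      rw [← Real.rpow_mul (by positivity), show 1 / δ * -δ = -1 by field_simp, Real.rpow_neg_one, inv_div]
    calc (max 1 ((4 * c1 / p) ^ (1 / δ))) ^ (-δ) * c1 ≤ p / (4 * c1) * c1 := by
          rw [← h2]
          gcongr
      _ = p / 4 := by field_simp
  obtain ⟨D, hD⟩ : ∃ D, D = (1 + B) ^ δ + C := ⟨_, rfl⟩
  have hD0 : 0 < D := by
    rw [hD]
    have : 0 < (1 + B) ^ δ := Real.rpow_pos_of_pos (by linarith) _
    linarith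
  obtain ⟨C', hC', hVA⟩ := hA (p / (4 * D * L)) (by positivity)
  obtain ⟨K, hK⟩ : ∃ K, K = max (max 1 C) (2 * D * C' / p) := ⟨_, rfl⟩
  have hK1 : 1 ≤ K := by rw [hK]; exact (le_max_left _ _).trans (le_max_left _ _)
  have hKC : C ≤ K := by rw [hK]; exact (le_max_right _ _).trans (le_max_left _ _)
  have hKD : D * C' ≤ K * p / 2 := by
    have h1 : 2 * D * C' / p ≤ K := by rw [hK]; exact le_max_right _ _
    rw [div_le_iff₀ hp0] at h1
    linarith
  have hK0 : 0 ≤ K := by linarith
  -- main induction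
  have main : ∀ j, ∀ n, j ≤ n → W j n ≤ ENNReal.ofReal (K * q ^ (n - j)) := by
    intro j
    induction j using Nat.strong_induction_on with
    | _ j ih =>
      intro n hjn
      rcases Nat.lt_or_ge j 2 with hj | hj
      · refine (hWW j n).trans ((h0 j n (by omega) hjn).trans (ENNReal.ofReal_le_ofReal ?_))
        rw [hq, ← rp hjn]
        have h1 : (2 : ℝ) ^ (-(κ * n)) ≤ (2 : ℝ) ^ (-(γ * (n - j : ℝ))) := by
          apply Real.rpow_le_rpow_of_exponent_le (by norm_num)
          have hj0 : (0 : ℝ) ≤ j := Nat.cast_nonneg j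
          have hn0 : (0 : ℝ) ≤ n := Nat.cast_nonneg n
          nlinarith
        exact mul_le_mul hKC h1 (by positivity) hK0
      · have hlam : ∀ k < j, lam k ≤ ENNReal.ofReal (K * L) := by
          intro k hk
          rw [hL]
          exact lam_le hC hq0 hq1 hG hK1 hV hVW hB0 hB ih hk
        have hds := dsum_le hγ1 hγδ hq hq0 hq1 hG hK1 ih
        have hx : (0 : ℝ) ≤ (n : ℝ) - j := by
          have : (j : ℝ) ≤ n := by exact_mod_cast hjn
          linarith
        have hκq : (2 : ℝ) ^ (-(κ * (n - j : ℝ))) ≤ q ^ (n - j) * q ^ (n - j) := by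
          rw [hq, ← rp hjn, ← Real.rpow_add (by norm_num)]
          apply Real.rpow_le_rpow_of_exponent_le (by norm_num)
          nlinarith
        -- W2
        have hW2 : W2 j n ≤ ENNReal.ofReal (c1 * K * (q ^ (n - j) * q ^ (n - j))) +
            ENNReal.ofReal C * (if n ≤ j + 1 then V j else 0) := by
          refine (hrec j n hj hjn).trans (add_le_add ?_ le_rfl)
          calc ENNReal.ofReal (C * (2 : ℝ) ^ (-(κ * (n - j : ℝ)))) *
              (1 + lam (j - 1) + lam (j - 2) + ∑ i ∈ Finset.range (j - 1), ∑ i' ∈ Finset.Icc i j,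
                (W i i' + ENNReal.ofReal ((2 : ℝ) ^ (-(i' - i : ℝ)))) *
                  ENNReal.ofReal ((2 : ℝ) ^ (-(δ * (j - i' : ℝ)))))
              ≤ ENNReal.ofReal (C * (q ^ (n - j) * q ^ (n - j))) *
                (ENNReal.ofReal K + ENNReal.ofReal (K * L) + ENNReal.ofReal (K * L) +
                  ENNReal.ofReal (K * (2 * G * G))) := by
                gcongr
                · rw [← ENNReal.ofReal_one]
                  exact ENNReal.ofReal_le_ofReal hK1
                · exact hlam (j - 1) (by omega)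
                · exact hlam (j - 2) (by omega)
            _ = ENNReal.ofReal (c1 * K * (q ^ (n - j) * q ^ (n - j))) := by
                rw [← ENNReal.ofReal_add (by positivity) (by positivity),
                  ← ENNReal.ofReal_add (by positivity) (by positivity),
                  ← ENNReal.ofReal_add (by positivity) (by positivity), ← ENNReal.ofReal_mul (by positivity)]
                congr 1
                rw [hc1]
                ring
        rcases Nat.lt_or_ge (n - j) (m + 2) with hnm | hnm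
        · -- n - j small
          have hqp : p ≤ q ^ (n - j) := by
            rw [hp]
            exact pow_le_pow_of_le_one hq0.le hq1.le (by omega)
          have hq2 : q ^ (n - j) * q ^ (n - j) ≤ 1 := by
            have h1 : q ^ (n - j) ≤ 1 := pow_le_one₀ hq0.le hq1.le
            have h2 : 0 < q ^ (n - j) := by positivity
            nlinarith
          have hVj : V j ≤ ENNReal.ofReal (C' + p / (4 * D * L) * (K * L)) := by
            refine (hVA j).trans ?_
            rw [ENNReal.ofReal_add hC'.le (by positivity), ENNReal.ofReal_mul (by positivity)]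
            gcongr
            exact hlam (j - 3) (by omega)
          have hW2' : W2 j n ≤ ENNReal.ofReal (c1 * K) + ENNReal.ofReal C * V j := by
            refine hW2.trans (add_le_add (ENNReal.ofReal_le_ofReal ?_) ?_)
            · have : 0 ≤ c1 * K := by positivity
              nlinarith
            · gcongr
              split_ifs
              · exact le_rfl
              · exact zero_le
          have hB0' : 0 ≤ B ^ (-δ) := by
            have : 0 < B := by linarith
            positivity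
          have hB1' : B ^ (-δ) ≤ 1 := Real.rpow_le_one_of_one_le_of_nonpos hB1 (by linarith)
          have hBK : B ^ (-δ) * (c1 * K) ≤ K * p / 4 := by
            have := mul_le_mul_of_nonneg_right hBc hK0
            calc B ^ (-δ) * (c1 * K) = B ^ (-δ) * c1 * K := by ring
              _ ≤ p / 4 * K := this
              _ = K * p / 4 := by ring
          have hBC : B ^ (-δ) * C ≤ C := mul_le_of_le_one_left hC.le hB1'
          calc W j n ≤ ENNReal.ofReal ((1 + B) ^ δ) * V j + ENNReal.ofReal (B ^ (-δ)) * W2 j n := htr j n B hB1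
            _ ≤ ENNReal.ofReal ((1 + B) ^ δ) * V j + ENNReal.ofReal (B ^ (-δ)) *
                (ENNReal.ofReal (c1 * K) + ENNReal.ofReal C * V j) := by
                gcongr
            _ = ENNReal.ofReal ((1 + B) ^ δ) * V j + (ENNReal.ofReal (B ^ (-δ) * (c1 * K)) +
                ENNReal.ofReal (B ^ (-δ) * C) * V j) := by
                rw [mul_add, ← mul_assoc, ← ENNReal.ofReal_mul hB0', ← ENNReal.ofReal_mul hB0']
            _ ≤ ENNReal.ofReal ((1 + B) ^ δ) * V j + (ENNReal.ofReal (K * p / 4) + ENNReal.ofReal C * V j) := by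
                exact add_le_add le_rfl (add_le_add (ENNReal.ofReal_le_ofReal hBK)
                  (mul_le_mul_left (ENNReal.ofReal_le_ofReal hBC) _))
            _ = ENNReal.ofReal D * V j + ENNReal.ofReal (K * p / 4) := by
                rw [hD, ENNReal.ofReal_add (Real.rpow_nonneg (by linarith) _) hC.le]
                ring
            _ ≤ ENNReal.ofReal D * ENNReal.ofReal (C' + p / (4 * D * L) * (K * L)) + ENNReal.ofReal (K * p / 4) := by
                gcongr
            _ ≤ ENNReal.ofReal (K * q ^ (n - j)) := by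
                rw [← ENNReal.ofReal_mul hD0.le, ← ENNReal.ofReal_add (by positivity) (by positivity)]
                apply ENNReal.ofReal_le_ofReal
                have e : D * (C' + p / (4 * D * L) * (K * L)) = D * C' + K * p / 4 := by
                  field_simp
                rw [e]
                have : K * p ≤ K * q ^ (n - j) := by gcongr
                linarith
        · -- n - j large
          have hn1 : ¬ n ≤ j + 1 := by omega
          rw [if_neg hn1, mul_zero, add_zero] at hW2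
          refine (hWW j n).trans (hW2.trans (ENNReal.ofReal_le_ofReal ?_))
          have h1 : q ^ (n - j) ≤ p := by
            rw [hp]
            exact pow_le_pow_of_le_one hq0.le hq1.le hnm
          have h2 : 0 < q ^ (n - j) := by positivity
          calc c1 * K * (q ^ (n - j) * q ^ (n - j)) = (c1 * q ^ (n - j)) * (K * q ^ (n - j)) := by ring
            _ ≤ 1 * (K * q ^ (n - j)) := by
                apply mul_le_mul_of_nonneg_right _ (by positivity)
                nlinarith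
            _ = K * q ^ (n - j) := one_mul _
  refine ⟨K * (L + 1), γ, by positivity, hγ, fun j n hjn => ?_, fun k => ?_⟩
  · rw [rp hjn, ← hq]
    refine (main j n hjn).trans (ENNReal.ofReal_le_ofReal ?_)
    have h2 : 0 < q ^ (n - j) := by positivity
    have h3 : 0 ≤ K * q ^ (n - j) * L := by positivity
    nlinarith
  · have h1 : lam k ≤ ENNReal.ofReal (K * L) := by
      rw [hL]
      exact lam_le hC hq0 hq1 hG hK1 hV hVW hB0 hB (j := k + 1) (fun i _ n hin => main i n hin) (Nat.lt_succ_self k)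
    refine h1.trans (ENNReal.ofReal_le_ofReal ?_)
    nlinarith

end HexObs
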