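import Pool.Agent.PHW5.NearA
import Pool.Agent.PHW5.AvgB
import Pool.Agent.PHW5.RecA
import Pool.Agent.PHW5.RecB
import Pool.Agent.PHW5.Solve5

/-!
PHW5, S5l: the closing estimate.
-/

set_option autoImplicit false

namespace HexObs

open Complex Finset ENNReal

namespace Fin5

lemma one_le_fw {δ : ℝ} (hδ : 0 ≤ δ) (n x : ℕ) : 1 ≤ fw δ n x := by
  unfold fw
  rw [← ENNReal.ofReal_one]
  apply ENNReal.ofReal_le_ofReal
  apply Real.one_le_rpow _ hδ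
  have : (0 : ℝ) ≤ (x : ℝ) / 2 ^ n := by positivity
  linarith

lemma fw_mono {δ δ' : ℝ} (h : δ ≤ δ') (n x : ℕ) : fw δ n x ≤ fw δ' n x := by
  unfold fw
  apply ENNReal.ofReal_le_ofReal
  apply Real.rpow_le_rpow_of_exponent_le _ h
  have : (0 : ℝ) ≤ (x : ℝ) / 2 ^ n := by positivity
  linarith

lemma pow_le {C C' κ κ' x : ℝ} (hC : C ≤ C') (hC0 : 0 ≤ C) (hκ : κ' ≤ κ) (hx : 0 ≤ x) :
    ENNReal.ofReal (C * (2 : ℝ) ^ (-(κ * x))) ≤ ENNReal.ofReal (C' * (2 : ℝ) ^ (-(κ' * x))) := by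
  apply ENNReal.ofReal_le_ofReal
  have h1 : (2 : ℝ) ^ (-(κ * x)) ≤ (2 : ℝ) ^ (-(κ' * x)) := by
    apply Real.rpow_le_rpow_of_exponent_le (by norm_num)
    have := mul_le_mul_of_nonneg_right hκ hx
    linarith
  have h2 : (0 : ℝ) < (2 : ℝ) ^ (-(κ' * x)) := by positivity
  exact mul_le_mul hC h1 (by positivity) (hC0.trans hC)

end Fin5

open Fin5

/-- rec0, recA, recB (common constants), SW_split, SW_trunc, SWOne, nearA, avgB, solve5 -/
theorem SW_bound : ∃ δ K γ : ℝ, 0 < δ ∧ δ ≤ 1 / 4 ∧ 0 < K ∧ 0 < γ ∧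
    (∀ j n : ℕ, j ≤ n → SW (fw δ n) j n ≤ ENNReal.ofReal (K * (2 : ℝ) ^ (-(γ * (n - j : ℝ))))) ∧
    ∀ k, Lam k ≤ ENNReal.ofReal K := by
  obtain ⟨δ, C1, κ1, hδ, hδ', hC1, hκ1, h1⟩ := recB
  obtain ⟨C2, κ2, hC2, hκ2, h2⟩ := recA hδ hδ'
  obtain ⟨C3, κ3, hC3, hκ3, h3⟩ := rec0 hδ hδ'
  obtain ⟨C4, hC4, h4⟩ := avgB
  have hU : 0 < UU 1 := Num2Aux.UU_pos 1
  obtain ⟨κ, hκ⟩ : ∃ κ, κ = min κ1 (min κ2 κ3) := ⟨_, rfl⟩
  have e1 : κ ≤ κ1 := by rw [hκ]; exact min_le_left _ _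
  have e2 : κ ≤ κ2 := by rw [hκ]; exact (min_le_right _ _).trans (min_le_left _ _)
  have e3 : κ ≤ κ3 := by rw [hκ]; exact (min_le_right _ _).trans (min_le_right _ _)
  have hκ0 : 0 < κ := by rw [hκ]; exact lt_min hκ1 (lt_min hκ2 hκ3)
  obtain ⟨C, hC⟩ : ∃ C, C = C1 + C2 + C3 + C4 + UU 1 := ⟨_, rfl⟩
  have hC0 : 0 < C := by rw [hC]; positivity
  obtain ⟨K, γ, hK, hγ, hW, hL⟩ := solve5 hδ hκ0 hC0 VS Lam VN (fun j n => SW (fw δ n) j n)
    (fun j n => SW (fw (2 * δ) n) j n) VS_le_tsum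
    (fun j n => (VN_le j n).trans (SW_mono (fun x => one_le_fw hδ.le n x) j n))
    (fun j n => SW_mono (fun x => fw_mono (by linarith) n x) j n)
    (fun j n B hB => by
      refine (SW_trunc hδ hB j n).trans ?_
      gcongr
      exact SW_le_VS j n)
    (fun ε hε => nearA hε)
    (Lam_zero.trans (ENNReal.ofReal_le_ofReal (by rw [hC]; linarith)))
    (fun k hk => (h4 k hk).trans (by
      gcongr
      rw [hC]; linarith))
    (fun j n hj hjn => (h3 j n hj hjn).trans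
      (pow_le (by rw [hC]; linarith) hC3.le e3 (Nat.cast_nonneg n)))
    (fun j n hj hjn => by
      have hx : (0 : ℝ) ≤ (n : ℝ) - j := by
        have : (j : ℝ) ≤ n := by exact_mod_cast hjn
        linarith
      rw [SW_split]
      refine (add_le_add (h2 j n hj hjn) (h1 j n hj hjn)).trans ?_
      rw [mul_add _ (1 + Lam (j - 1) + Lam (j - 2)), add_right_comm]
      refine add_le_add (add_le_add ?_ ?_) ?_
      · gcongr ?_ * _
        exact pow_le (by rw [hC]; linarith) hC2.le e2 hx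
      · gcongr ?_ * _
        exact pow_le (by rw [hC]; linarith) hC1.le e1 hx
      · gcongr ?_ * _
        exact ENNReal.ofReal_le_ofReal (by rw [hC]; linarith))
  exact ⟨δ, K, γ, hδ, hδ', hK, hγ, hW, hL⟩

/-- TH: two stopped legs are viable with probability at most C / UU s -/
theorem th_bound : ∃ C : ℝ, 0 < C ∧ ∀ s : ℕ, 1 ≤ s → th s ≤ ENNReal.ofReal (C / UU s) := by
  obtain ⟨δ, K, γ, hδ, hδ', hK, hγ, hW, hL⟩ := SW_bound
  refine ⟨2 * K, by positivity, fun s hs => ?_⟩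
  obtain ⟨k, hk⟩ : ∃ k, k = Nat.log 2 s := ⟨_, rfl⟩
  have h1 : 2 ^ k ≤ s := by rw [hk]; exact Nat.pow_log_le_self 2 (by omega)
  have h2 : s < 2 ^ (k + 1) := by rw [hk]; exact Nat.lt_pow_succ_log_self (by norm_num) s
  have hU1 : 0 < UU (2 ^ k) := Num2Aux.UU_pos _
  have hU2 : 0 < UU s := Num2Aux.UU_pos _
  have h3 : UU s ≤ 2 * UU (2 ^ k) := by
    refine (Num2Aux.UU_mono (b := 2 * 2 ^ k) (by rw [pow_succ] at h2; omega)).trans (UU_double _)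
  have h4 := hL k
  have h5 : th (2 ^ k) ≤ ENNReal.ofReal (K / UU (2 ^ k)) := by
    unfold Lam at h4
    rw [ENNReal.ofReal_div_of_pos hU1, ENNReal.le_div_iff_mul_le (Or.inl (by simpa using hU1))
      (Or.inl ENNReal.ofReal_ne_top), mul_comm]
    exact h4
  refine (th_anti h1).trans (h5.trans (ENNReal.ofReal_le_ofReal ?_))
  rw [div_le_div_iff₀ hU1 hU2]
  nlinarith

/-- S5H: states with offset -/
theorem S5H : ∃ δ C γ : ℝ, 0 < δ ∧ δ ≤ 1 / 4 ∧ 0 < C ∧ 0 < γ ∧ ∀ j n : ℕ, j ≤ n →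
    ∑ a ∈ blk j, ∑ d ∈ blk n, gfF (Brd a) (fun s => gfF {t | t ∈ FC (a + 1) d ∧ V2 s t} (fun t => fw δ n (offs s t))) ≤
      ENNReal.ofReal (C * (2 : ℝ) ^ (-(γ * (n - j : ℝ)))) := by
  obtain ⟨δ, K, γ, hδ, hδ', hK, hγ, hW, hL⟩ := SW_bound
  obtain ⟨C, hC, h⟩ := off_state (δ := δ) hδ (by linarith)
  refine ⟨δ, C * (K + 1), min γ 1, hδ, hδ', by positivity, lt_min hγ one_pos, fun j n hjn => ?_⟩
  have hx : (0 : ℝ) ≤ (n : ℝ) - j := by
    have : (j : ℝ) ≤ n := by exact_mod_cast hjn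
    linarith
  refine (h j n hjn).trans ?_
  have h1 := (hW j n hjn).trans (pow_le le_rfl hK.le (min_le_left γ 1) hx)
  have h2 : ENNReal.ofReal ((2 : ℝ) ^ (-(n - j : ℝ))) ≤ ENNReal.ofReal (1 * (2 : ℝ) ^ (-(min γ 1 * (n - j : ℝ)))) := by
    have := pow_le (C := 1) (C' := 1) le_rfl zero_le_one (min_le_right γ 1) hx
    rwa [one_mul, one_mul] at this
  calc ENNReal.ofReal C * (SW (fw δ n) j n + ENNReal.ofReal ((2 : ℝ) ^ (-(n - j : ℝ))))
      ≤ ENNReal.ofReal C * (ENNReal.ofReal (K * (2 : ℝ) ^ (-(min γ 1 * (n - j : ℝ)))) +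
        ENNReal.ofReal (1 * (2 : ℝ) ^ (-(min γ 1 * (n - j : ℝ))))) := by
        gcongr
    _ = ENNReal.ofReal (C * (K + 1) * (2 : ℝ) ^ (-(min γ 1 * (n - j : ℝ)))) := by
        rw [← ENNReal.ofReal_add (by positivity) (by positivity), ← ENNReal.ofReal_mul hC.le]
        congr 1
        ring

end HexObs
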