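import Pool.Agent.PHW5.Basic5
import Pool.Agent.PHW.WallStrong
import Pool.Agent.PHW.EqTop

/-!
PHW5, S5b: the wall inequality for stopped legs and for equal heights.
-/

set_option autoImplicit false

namespace HexObs

open Complex Finset ENNReal

/-- a union of classes on the right side -/
lemma g2_iUnion_le (A : Set (List Bool)) (B : ℕ → Set (List Bool)) (R : List Bool → List Bool → Prop) :
    g2 A {t | ∃ j, t ∈ B j} R ≤ ∑' j : ℕ, g2 A (B j) R := by
  classical
  simp_rw [g2_ind]
  rw [ENNReal.tsum_comm (α := ℕ) (β := List Bool)]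
  refine ENNReal.tsum_le_tsum fun s => ?_
  rw [ENNReal.tsum_comm (α := ℕ) (β := List Bool)]
  refine ENNReal.tsum_le_tsum fun t => ?_
  by_cases h : s ∈ A ∧ t ∈ {t | ∃ j, t ∈ B j} ∧ R s t
  · rw [if_pos h]
    obtain ⟨h1, ⟨j, hj⟩, h2⟩ := h
    refine le_trans ?_ (ENNReal.le_tsum j)
    rw [if_pos ⟨h1, hj, h2⟩]
  · rw [if_neg h]
    exact zero_le

lemma le_ofReal_div {x : ℝ≥0∞} {G : ℕ} (hG : 1 ≤ G) {c : ℝ} (hc : 0 ≤ c) (h : (G : ℝ≥0∞) * x ≤ ENNReal.ofReal c) :
    x ≤ ENNReal.ofReal (c / G) := by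
  have hG' : (0 : ℝ) < G := by exact_mod_cast hG
  have _ := hc
  rw [ENNReal.ofReal_div_of_pos hG', ENNReal.le_div_iff_mul_le]
  · rw [ENNReal.ofReal_natCast, mul_comm]
    exact h
  · left
    rw [Ne, ENNReal.ofReal_eq_zero]
    exact not_le.2 hG'
  · left
    exact ENNReal.ofReal_ne_top

/-- For every T: sum over d ≤ T of uu (T - d) * g2 (Brd a) (FC s d) (V2, Gap) ≤ 2/G uu T (append a bridge of height T - d to
the right walk: Dj_beyond, the visits of the row above a do not change because a < s ≤ d; WI); uu (T - d) ≥ uu T. -/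
theorem GapK {a s : ℕ} (h : a < s) {G : ℕ} (hG : 1 ≤ G) :
    g2 (Brd a) (LG s) (fun x y => V2 x y ∧ Gap x y a G) ≤ ENNReal.ofReal (2 / G) := by
  apply le_ofReal_div hG (by norm_num)
  have h1 : (2 : ℝ≥0∞) = ENNReal.ofReal 2 := by simp
  rw [← h1]
  refine le_trans ?_ (WI_stopG h G)
  apply mul_le_mul_right
  refine (g2_iUnion_le (Brd a) (FC s) _).trans (ENNReal.tsum_le_tsum fun d => ?_)
  exact g2_mono (subset_refl _) (subset_refl _) fun x y _ _ hxy => ⟨hxy.1.1, hxy.2⟩

/-- equal heights: append one step to the right (weight xc ^ 2 ≥ 1/4) to the right walk and use WI -/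
theorem GapE {a G : ℕ} (hG : 1 ≤ G) :
    g2 (Brd a) (Brd a) (fun x y => Dj x y ∧ latE x + G ≤ latE y + 2) ≤ ENNReal.ofReal (8 / G * uu a) := by
  rcases Nat.eq_zero_or_pos a with ha | ha
  · subst ha
    rcases Nat.lt_or_ge 2 G with h3 | h3
    · have e : g2 (Brd 0) (Brd 0) (fun x y => Dj x y ∧ latE x + G ≤ latE y + 2) = 0 := by
        unfold g2
        rw [ENNReal.tsum_eq_zero]
        rintro ⟨⟨x, y⟩, hx, hy, _, h4⟩
        exfalso
        rw [Brd_zero, Set.mem_singleton_iff] at hx hy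
        subst hx hy
        have : (3 : ℤ) ≤ G := by exact_mod_cast h3
        have h5 : latE [] = 0 := by decide
        rw [h5] at h4
        omega
      rw [e]
      exact zero_le
    · have h1 : g2 (Brd 0) (Brd 0) (fun x y => Dj x y ∧ latE x + G ≤ latE y + 2) ≤ gf (Brd 0) * gf (Brd 0) :=
        g2_le_mul _ _ _
      refine h1.trans ?_
      rw [gf_Brd, BT_eq_uu, uu_zero, ← ENNReal.ofReal_mul zero_le_one]
      apply ENNReal.ofReal_le_ofReal
      have hG' : (0 : ℝ) < G := by exact_mod_cast hG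
      have hG2 : (G : ℝ) ≤ 2 := by exact_mod_cast h3
      rw [mul_one, mul_one, le_div_iff₀ hG']
      linarith
  · have h1 : (G : ℝ≥0∞) * g2 (Brd a) (Brd a) (fun x y => Dj x y ∧ latE x + G ≤ latE y + 2) ≤ ENNReal.ofReal (8 * uu a) := by
      have h2 : (G : ℝ≥0∞) * g2 (Brd a) (Brd a) (fun x y => Dj x y ∧ latE x + G ≤ latE y + 2) ≤ 2 * BT a := by
        refine le_trans ?_ (EQ_strong ha)
        refine le_trans ?_ (ENNReal.sum_le_tsum (Finset.range G))
        rw [← Finset.card_range G, ← nsmul_eq_mul, ← Finset.sum_const, Finset.card_range]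
        apply Finset.sum_le_sum
        intro k hk
        rw [Finset.mem_range] at hk
        apply g2_mono (subset_refl _) (subset_refl _)
        rintro x y _ _ ⟨h3, h4⟩
        exact ⟨h3, by omega⟩
      refine h2.trans ?_
      have e : (2 : ℝ≥0∞) = ENNReal.ofReal 2 := by simp
      rw [BT_eq_uu, e, ← ENNReal.ofReal_mul (by norm_num)]
      apply ENNReal.ofReal_le_ofReal
      have := (uu_pos a).le
      linarith
    have h3 := le_ofReal_div hG (by have := (uu_pos a).le; positivity) h1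
    refine h3.trans (le_of_eq ?_)
    congr 1
    ring

end HexObs
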