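import Pool.Agent.PHW5.Basic5
import Pool.Agent.HexObs.NI

/-!
PHW5, S5d part 1: lower tail of the number of the cuts.
-/

set_option autoImplicit false

namespace HexObs

open Complex Finset ENNReal

/-- number of the cuts in (0, L] -/
noncomputable def ncut (v : List Bool) (L : ℕ) : ℕ := by
  classical exact ((Finset.Ioc 0 L).filter (fun h => Cut v h)).card

/-- number of the cuts h in (0, L] of v such that y keeps the distance G from the cut point of x1 ++ v (x1 has height a1) -/
noncomputable def ngood (x1 v y : List Bool) (a1 L G : ℕ) : ℕ := by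
  classical exact ((Finset.Ioc 0 L).filter (fun h => ∃ (v1 v2 : List Bool) (b : ℕ), v1 ∈ Brd h ∧ v2 ∈ Brd b ∧ v = v1 ++ v2 ∧
    Gap (x1 ++ v1) y (a1 + h) G)).card

namespace FewCuts

lemma FC_one_sub (r : ℕ) : FC 1 r ⊆ Irr r := by
  rintro t ⟨h1, h2, h3⟩
  refine ⟨h1, ?_, ?_⟩
  · rintro rfl
    have := Brd_height h1 nil_mem_Brd
    omega
  · intro a b s u hs hu he
    have h4 : r = a + b := Brd_height h1 (he ▸ Brd_append hs hu)
    by_contra hcon
    push Not at hcon
    have ha : a ≠ 0 := by
      rintro rfl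
      rw [Brd_zero] at hs
      exact hcon.1 hs
    have hb : b ≠ 0 := by
      rintro rfl
      rw [Brd_zero] at hu
      exact hcon.2 hu
    exact h3 a (by omega) (by omega) ⟨s, u, b, hs, hu, he⟩

/-- the first piece ends at a cut; the cuts of the rest are cuts -/
lemma ncut_step {r m L b : ℕ} {P u : List Bool} (hP : P ∈ Brd r) (hu : u ∈ Brd b) (h1 : 1 ≤ r) (hr : r ≤ L)
    (hn : ncut (P ++ u) L < m + 1) : ncut u (L - r) < m := by
  classical
  have key : ncut u (L - r) + 1 ≤ ncut (P ++ u) L := by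
    unfold ncut
    have hinj : Set.InjOn (fun h : ℕ => r + h) ((Finset.Ioc 0 (L - r)).filter (fun h => Cut u h) : Finset ℕ) := by
      intro x _ y _ hxy
      exact Nat.add_left_cancel hxy
    have hnot : r ∉ ((Finset.Ioc 0 (L - r)).filter (fun h => Cut u h)).image (fun h => r + h) := by
      intro hmem
      rw [Finset.mem_image] at hmem
      obtain ⟨h, hh, he⟩ := hmem
      rw [Finset.mem_filter, Finset.mem_Ioc] at hh
      omega
    rw [← Finset.card_image_of_injOn hinj, ← Finset.card_insert_of_notMem hnot]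
    apply Finset.card_le_card
    intro x hx
    rw [Finset.mem_insert] at hx
    rw [Finset.mem_filter, Finset.mem_Ioc]
    rcases hx with rfl | hx
    · exact ⟨⟨by omega, hr⟩, P, u, b, hP, hu, rfl⟩
    · rw [Finset.mem_image] at hx
      obtain ⟨h, hh, rfl⟩ := hx
      rw [Finset.mem_filter, Finset.mem_Ioc] at hh
      obtain ⟨⟨h2, h3⟩, s, w, c, hs, hw, he⟩ := hh
      refine ⟨⟨by omega, by omega⟩, P ++ s, w, c, Brd_append hP hs, hw, ?_⟩
      rw [he, List.append_assoc]
  omega

lemma ncut_zero (v : List Bool) : ncut v 0 = 0 := by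
  classical
  unfold ncut
  simp

/-- the bound for the tail sums -/
lemma sum_kk_tail (L N : ℕ) : ∑ i ∈ Finset.range N, kk (L + 1 + i) ≤ KK' (L + 1) := by
  have h1 := Finset.sum_range_add kk (L + 1) N
  have h2 := sum_kk_le (L + 1 + N)
  unfold KK'
  linarith

lemma kap'_eq (r : ℕ) : kap' r = ENNReal.ofReal (kk r) := by
  unfold kk
  rw [ENNReal.ofReal_toReal]
  refine ne_top_of_le_ne_top (b := BT r) ?_ ?_
  · rcases Nat.eq_zero_or_pos r with rfl | h
    · rw [← gf_Brd, Brd_zero]
      unfold gf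
      rw [tsum_singleton (f := wE)]
      unfold wE
      simp
    · exact ne_top_of_le_ne_top ENNReal.one_ne_top (BT_le_one h)
  · rw [← gf_Brd]
    exact gf_mono (fun t ht => ht.1)

/-- S_n > L - x: Markov for the pieces of height at most L -/
lemma tail (L : ℕ) (hL : 1 ≤ L) : ∀ n x s : ℕ, x ≤ L → L - x ≤ s →
    gf {v | v ∈ LG s ∧ ncut v (L - x) < n} ≤
      ENNReal.ofReal (n * KK' (L + 1) + (x + n * ∑ r ∈ Finset.range (L + 1), r * kk r) / L) := by
  intro n
  have hLp : (0 : ℝ) < L := by exact_mod_cast hL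
  have hE : 0 ≤ ∑ r ∈ Finset.range (L + 1), (r : ℝ) * kk r :=
    Finset.sum_nonneg fun r _ => mul_nonneg (Nat.cast_nonneg r) (kk_nonneg r)
  have hK := KK_nonneg (L + 1)
  set E := ∑ r ∈ Finset.range (L + 1), (r : ℝ) * kk r with hEdef
  set K := KK' (L + 1) with hKdef
  induction n with
  | zero =>
    intro x s _ _
    have h0 : {v | v ∈ LG s ∧ ncut v (L - x) < 0} = ∅ := by
      ext v
      simp
    rw [h0]
    unfold gf
    simp
  | succ n ih =>
    intro x s hx hs
    rcases Nat.eq_or_lt_of_le hx with rfl | hlt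
    · -- trivial bound
      refine le_trans (gf_mono fun v hv => hv.1) (le_trans (gf_LG_le s) ?_)
      rw [← ENNReal.ofReal_one]
      apply ENNReal.ofReal_le_ofReal
      have h1 : (1 : ℝ) = x / x := (div_self hLp.ne').symm
      have h2 : (x : ℝ) / x ≤ (x + ((n + 1 : ℕ) : ℝ) * E) / x := by
        apply div_le_div_of_nonneg_right _ hLp.le
        have : 0 ≤ ((n + 1 : ℕ) : ℝ) * E := mul_nonneg (Nat.cast_nonneg _) hE
        linarith
      have h3 : 0 ≤ ((n + 1 : ℕ) : ℝ) * K := mul_nonneg (Nat.cast_nonneg _) hK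
      linarith
    · -- first piece
      let y : ℕ → ℝ := fun r => if r ≤ L then n * K + (x + r + n * E) / L else 1
      have hy0 : ∀ r, 0 ≤ y r := by
        intro r
        simp only [y]
        split_ifs
        · positivity
        · exact zero_le_one
      let B : ℕ → Set (List Bool) := fun r => {u | u ∈ LG (s - r) ∧ (r ≤ L - x → ncut u (L - x - r) < n)}
      have hcov : {v | v ∈ LG s ∧ ncut v (L - x) < n + 1} ⊆
          ⋃ r : ℕ, {v | ∃ P ∈ Irr r, ∃ u ∈ B r, v = P ++ u} := by
        rintro v ⟨hv, hc⟩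
        obtain ⟨r, P, u, hP, hu, he⟩ := LG_dec (s' := 1) (s := s) (by omega) hv
        rw [Set.mem_iUnion]
        refine ⟨r, P, FC_one_sub r hP, u, ⟨hu, ?_⟩, he⟩
        intro hr
        obtain ⟨b, hb⟩ := hu
        rw [he] at hc
        exact ncut_step hP.1 hb.1 hP.2.1 hr hc
      have hB : ∀ r, gf (B r) ≤ ENNReal.ofReal (y r) := by
        intro r
        simp only [y]
        by_cases h1 : r ≤ L - x
        · rw [if_pos (by omega)]
          have h2 := ih (x + r) (s - r) (by omega) (by omega)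
          have h3 : L - (x + r) = L - x - r := by omega
          rw [h3] at h2
          push_cast at h2
          refine le_trans (gf_mono ?_) h2
          rintro u ⟨hu1, hu2⟩
          exact ⟨hu1, hu2 h1⟩
        · refine le_trans (gf_mono fun v hv => hv.1) (le_trans (gf_LG_le _) ?_)
          rw [← ENNReal.ofReal_one]
          apply ENNReal.ofReal_le_ofReal
          split_ifs with h2
          · have h3 : (L : ℝ) ≤ x + r := by
              have : L ≤ x + r := by omega
              exact_mod_cast this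
            have h4 : (1 : ℝ) ≤ (x + r + n * E) / L := by
              rw [le_div_iff₀ hLp]
              have : 0 ≤ (n : ℝ) * E := mul_nonneg (Nat.cast_nonneg _) hE
              linarith
            have h5 : 0 ≤ (n : ℝ) * K := mul_nonneg (Nat.cast_nonneg _) hK
            linarith
          · exact le_rfl
      have hstep : gf {v | v ∈ LG s ∧ ncut v (L - x) < n + 1} ≤ ∑' r : ℕ, ENNReal.ofReal (kk r * y r) := by
        refine le_trans (gf_mono hcov) ?_
        refine le_trans (ENNReal.tsum_iUnion_le_tsum wE _) ?_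
        refine ENNReal.tsum_le_tsum fun r => ?_
        rw [ENNReal.ofReal_mul (kk_nonneg r), ← kap'_eq]
        refine le_trans (gf_le_mul (P := {v | ∃ P ∈ Irr r, ∃ u ∈ B r, v = P ++ u}) (Q := Irr r) (R := B r)
          fun t ht => ht) ?_
        exact mul_le_mul' le_rfl (hB r)
      refine le_trans hstep ?_
      apply ENNReal.tsum_le_of_sum_range_le
      intro N
      rw [← ENNReal.ofReal_sum_of_nonneg fun r _ => mul_nonneg (kk_nonneg r) (hy0 r)]
      apply ENNReal.ofReal_le_ofReal
      have h1 : ∑ r ∈ Finset.range N, kk r * y r ≤ ∑ r ∈ Finset.range (L + 1 + N), kk r * y r := by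
        apply Finset.sum_le_sum_of_subset_of_nonneg
        · intro r hr
          rw [Finset.mem_range] at hr ⊢
          omega
        · intro r _ _
          exact mul_nonneg (kk_nonneg r) (hy0 r)
      refine le_trans h1 ?_
      rw [Finset.sum_range_add]
      have h2 : ∑ i ∈ Finset.range N, kk (L + 1 + i) * y (L + 1 + i) ≤ K := by
        refine le_trans (le_of_eq ?_) (sum_kk_tail L N)
        apply Finset.sum_congr rfl
        intro i _
        simp only [y]
        rw [if_neg (by omega), mul_one]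
      have h3 : ∑ r ∈ Finset.range (L + 1), kk r * y r =
          (n * K + (x + n * E) / L) * (∑ r ∈ Finset.range (L + 1), kk r) + E / L := by
        rw [hEdef, Finset.sum_div, Finset.mul_sum, ← Finset.sum_add_distrib]
        apply Finset.sum_congr rfl
        intro r hr
        rw [Finset.mem_range] at hr
        simp only [y]
        rw [if_pos (by omega), hEdef]
        ring
      have h4 : (n * K + (x + n * E) / L) * (∑ r ∈ Finset.range (L + 1), kk r) ≤ n * K + (x + n * E) / L := by
        have h5 : 0 ≤ n * K + (x + n * E) / L := by positivity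
        have h6 := sum_kk_le (L + 1)
        nlinarith
      have h5 : ((n + 1 : ℕ) : ℝ) * K + (x + ((n + 1 : ℕ) : ℝ) * E) / L =
          n * K + (x + n * E) / L + (K + E / L) := by
        push_cast
        ring
      rw [h5, h3]
      linarith

end FewCuts

/-- lower tail of the number of cuts: P(H_1 + .. + H_n > L) ≤ n P(H > L) + n E min(H, L) / L, n ≤ 2 η UU L + 1 (sum_mul_kk,
UU_mul_KK). Induction on n: P(fewer than n cuts in (0, L]) by the first piece. -/
theorem few_cuts : ∃ C : ℝ, 0 < C ∧ ∀ (L s : ℕ) (η : ℝ), 1 ≤ L → L ≤ s → 0 < η →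
    gf {v | v ∈ LG s ∧ (ncut v L : ℝ) < 2 * η * UU L} ≤ ENNReal.ofReal (C * (η + 1 / UU L)) := by
  refine ⟨8, by norm_num, ?_⟩
  intro L s η hL hs hη
  have hLp : (0 : ℝ) < L := by exact_mod_cast hL
  have hU : 0 < UU L := by
    unfold UU
    exact Finset.sum_pos (fun t _ => uu_pos t) ⟨0, by simp⟩
  have h1 := FewCuts.tail L hL ⌈2 * η * UU L⌉₊ 0 s (Nat.zero_le _) (by omega)
  rw [Nat.sub_zero] at h1
  refine le_trans (gf_mono ?_) (le_trans h1 (ENNReal.ofReal_le_ofReal ?_))
  · rintro v ⟨hv, hc⟩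
    exact ⟨hv, Nat.lt_ceil.2 hc⟩
  · have hn : (⌈2 * η * UU L⌉₊ : ℝ) ≤ 2 * η * UU L + 1 := (Nat.ceil_lt_add_one (by positivity)).le
    have hn0 : (0 : ℝ) ≤ (⌈2 * η * UU L⌉₊ : ℝ) := Nat.cast_nonneg _
    have hE := sum_mul_kk hL
    have hK : KK' (L + 1) ≤ 1 / UU L := by
      rw [le_div_iff₀ hU, mul_comm]
      exact UU_mul_KK L
    have hE2 : (∑ r ∈ Finset.range (L + 1), (r : ℝ) * kk r) / L ≤ 3 * (1 / UU L) := by
      rw [div_le_iff₀ hLp]
      refine le_trans hE (le_of_eq ?_)
      ring
    have h2 : (⌈2 * η * UU L⌉₊ : ℝ) * KK' (L + 1) +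
        (((0 : ℕ) : ℝ) + (⌈2 * η * UU L⌉₊ : ℝ) * ∑ r ∈ Finset.range (L + 1), (r : ℝ) * kk r) / L =
        (⌈2 * η * UU L⌉₊ : ℝ) * (KK' (L + 1) + (∑ r ∈ Finset.range (L + 1), (r : ℝ) * kk r) / L) := by
      push_cast
      ring
    rw [h2]
    have h3 : KK' (L + 1) + (∑ r ∈ Finset.range (L + 1), (r : ℝ) * kk r) / L ≤ 4 * (1 / UU L) := by linarith
    have h4 : 0 ≤ 4 * (1 / UU L) := by positivity
    calc (⌈2 * η * UU L⌉₊ : ℝ) * (KK' (L + 1) + (∑ r ∈ Finset.range (L + 1), (r : ℝ) * kk r) / L)
        ≤ (⌈2 * η * UU L⌉₊ : ℝ) * (4 * (1 / UU L)) := mul_le_mul_of_nonneg_left h3 hn0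
      _ ≤ (2 * η * UU L + 1) * (4 * (1 / UU L)) := mul_le_mul_of_nonneg_right hn h4
      _ = 8 * η + 4 * (1 / UU L) := by
        field_simp
        ring
      _ ≤ 8 * (η + 1 / UU L) := by
        have : 0 < 1 / UU L := by positivity
        linarith

end HexObs
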