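import Pool.Agent.PHW5.Basic5
import Pool.Agent.PHW5.OneBody

/-!
PHW5, S5h2: recursion, the killing estimate for a fixed pair (s1, t0).
-/

set_option autoImplicit false

namespace HexObs

open Complex Finset ENNReal

/-- V2 at the cuts of s2: s2 is not dead beside P -/
lemma V2_not_dead {a' c b : ℕ} {s1 s2 t0 P : List Bool} (hs1 : s1 ∈ Brd a') (hs2 : s2 ∈ Brd b) (ht0 : t0 ∈ Brd c)
    (hc : c ≤ a') (h : V2 (s1 ++ s2) (t0 ++ P)) : ¬ Ex.Dead (KV P) (a' - c) (latE s1 - latE t0 - 2) s2 := by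
  rintro ⟨c2, b2, s', u, hs', hu, e, i, hi, hl, hz⟩
  have _ := hs2
  have h1 : s1 ++ s' ∈ Brd (a' + c2) := Brd_append hs1 hs'
  have h2 : [true, false] ++ u ∈ Brd (1 + b2) := Brd_append Ex.tf_mem hu
  have h3 := h.2.1 (a' + c2) (1 + b2) (s1 ++ s') ([true, false] ++ u) h1 h2 (by
    rw [e]
    simp only [List.append_assoc])
  have h4 := h3 (t0.length + i) ⟨by rw [List.length_append]; omega, by
    rw [lev_cat (mem_Brd.1 ht0).2.2.1, (mem_Brd.1 ht0).2.2.2]
    push_cast [Nat.cast_sub hc] at hl ⊢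
    omega⟩
  rw [latE_cat (mem_Brd.1 hs1).2.2.1, lat_cat (mem_Brd.1 ht0).2.2.1] at h4
  change latE s1 + latE s' + 1 ≤ latE t0 + lat P i + 2 at h4
  omega

lemma fw_eq_Fx (e : ℝ) (n : ℕ) (P : List Bool) : fw e n (extP P) = Fx e n P := rfl

/-- the killing estimate with giants, and the offset of the fixed pair -/
theorem KS_le : ∃ δ C κ : ℝ, 0 < δ ∧ δ ≤ 1 / 4 ∧ 0 < C ∧ 0 < κ ∧ ∀ (j n c a' : ℕ) (s1 t0 : List Bool), 2 ≤ j → j ≤ n →
    s1 ∈ Brd a' → t0 ∈ Brd c → c ≤ a' → 4 * c < 2 ^ j → a' < 2 ^ j →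
    KS (fw (2 * δ) n) j n c a' s1 t0 ≤
      ENNReal.ofReal (C * (2 : ℝ) ^ (-(κ * (n - j : ℝ))) * (2 : ℝ) ^ (-(δ * (j - Nat.size a' : ℝ)))) *
        fw δ (Nat.size a') (offs s1 t0) := by
  classical
  obtain ⟨δ, κ, C, h1, h2, h3, h4, h5⟩ := one_body
  refine ⟨δ, C, κ, h1, by linarith, h4, h3, ?_⟩
  intro j n c a' s1 t0 hj hjn hs1 ht0 hc hcj haj
  have e2 : 2 ^ j = 2 * 2 ^ (j - 1) := two_pow_block (by omega)
  have e3 : 2 ^ (j - 1) = 2 * 2 ^ (j - 2) := by
    have := two_pow_block (n := j - 1) (by omega)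
    rwa [show j - 1 - 1 = j - 2 by omega] at this
  have e4 : 2 ^ n = 2 * 2 ^ (n - 1) := two_pow_block (by omega)
  have e5 : 2 ^ (n - 1) = 2 * 2 ^ (n - 2) := by
    have := two_pow_block (n := n - 1) (by omega)
    rwa [show n - 1 - 1 = n - 2 by omega] at this
  have e6 : 2 ^ (j - 2) ≤ 2 ^ (n - 2) := Nat.pow_le_pow_right (by norm_num) (by omega)
  have hsz : Nat.size a' ≤ j := Nat.size_le.2 haj
  have h6 := h5 c a' j n (latE s1 - latE t0 - 2) hj hjn (by omega) hc hsz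
  have hoff : (latE s1 - latE t0 - 2).natAbs = offs s1 t0 := by
    unfold offs
    rw [← Int.natAbs_neg]
    congr 1
    ring
  rw [hoff] at h6
  have h7 : KS (fw (2 * δ) n) j n c a' s1 t0 ≤ ∑ r ∈ Finset.Ico (2 ^ (n - 2)) (2 ^ n), ∑' P : {P : List Bool // P ∈ Irr r},
      wE P.1 * Fx (2 * δ) n P.1 * ∑ a ∈ (Finset.Ico (2 ^ (j - 1)) (2 ^ j)).filter (fun a => a' ≤ a),
        contE P.1 (a' - c) (latE s1 - latE t0 - 2) (a - a') := by
    have hblk : blk j = Finset.Ico (2 ^ (j - 1)) (2 ^ j) := by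
      unfold blk
      congr 1
      omega
    unfold KS
    rw [hblk]
    have h8 : ∀ a ∈ (Finset.Ico (2 ^ (j - 1)) (2 ^ j)).filter (fun a => a' ≤ a),
        ∑ r ∈ (Finset.range (2 ^ n)).filter (fun r => a < c + r ∧ c + r ∈ blk n),
          gfF (Irr r) (fun P => fw (2 * δ) n (extP P) * gf {s2 | s2 ∈ Brd (a - a') ∧ V2 (s1 ++ s2) (t0 ++ P)}) ≤
        ∑ r ∈ Finset.Ico (2 ^ (n - 2)) (2 ^ n), ∑' P : {P : List Bool // P ∈ Irr r},
          wE P.1 * Fx (2 * δ) n P.1 * contE P.1 (a' - c) (latE s1 - latE t0 - 2) (a - a') := by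
      intro a ha
      refine (Finset.sum_le_sum_of_subset (t := Finset.Ico (2 ^ (n - 2)) (2 ^ n)) ?_).trans ?_
      · intro r hr
        rw [Finset.mem_filter, Finset.mem_range] at hr
        obtain ⟨hr1, hr2, hr3⟩ := hr
        unfold blk at hr3
        rw [Finset.mem_Ico] at hr3 ⊢
        omega
      · refine Finset.sum_le_sum fun r _ => ?_
        unfold gfF
        refine ENNReal.tsum_le_tsum fun P => ?_
        beta_reduce
        rw [fw_eq_Fx, mul_assoc]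
        refine mul_le_mul_right (mul_le_mul_right ?_ _) _
        unfold contE
        apply gf_mono
        rintro s2 ⟨hs2, hV⟩
        exact ⟨hs2, V2_not_dead hs1 hs2 ht0 hc hV⟩
    refine (Finset.sum_le_sum h8).trans (le_of_eq ?_)
    rw [Finset.sum_comm]
    refine Finset.sum_congr rfl fun r _ => ?_
    rw [← Summable.tsum_finsetSum (fun _ _ => ENNReal.summable)]
    refine tsum_congr fun P => ?_
    rw [Finset.mul_sum]
  refine h7.trans (h6.trans (le_of_eq ?_))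
  unfold fw
  rw [← ENNReal.ofReal_mul (by positivity)]
  congr 1
  ring

end HexObs
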