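import Pool.Agent.HexSPR.Final
import Pool.Agent.PHW.Jump
import Pool.Agent.PHW.Mirror
import Pool.Agent.PHW.IrrDec
import Pool.Agent.PHW.Num2
import Pool.Agent.PHW.ViaE

/-!
PHW5, S5i: the lateral extent of the irreducible bridges (giants), tail and moments, summed over a block of heights.
-/

set_option autoImplicit false

namespace HexObs

open Complex Finset ENNReal

/-- lateral extent of a word -/
def extP (t : List Bool) : ℕ := (Finset.range (t.length + 1)).sup (fun i => (lat t i).natAbs)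

lemma le_extP {t : List Bool} {i : ℕ} (h : i ≤ t.length) : (lat t i).natAbs ≤ extP t :=
  Finset.le_sup (f := fun i => (lat t i).natAbs) (Finset.mem_range.2 (by omega))

lemma abs_le_extP {t : List Bool} {i : ℕ} (h : i ≤ t.length) : |lat t i| ≤ (extP t : ℤ) := by
  rw [Int.abs_eq_natAbs]
  exact_mod_cast le_extP h

lemma abs_latE_le (t : List Bool) : |latE t| ≤ (extP t : ℤ) := abs_le_extP le_rfl

lemma extP_le {t : List Bool} {m : ℕ} (h : ∀ i, i ≤ t.length → (lat t i).natAbs ≤ m) : extP t ≤ m :=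
  Finset.sup_le fun i hi => h i (by rw [Finset.mem_range] at hi; omega)

lemma lt_extP {t : List Bool} {m : ℕ} (h : m < extP t) : ∃ i, i ≤ t.length ∧ m < (lat t i).natAbs := by
  unfold extP at h
  rw [Finset.lt_sup_iff] at h
  obtain ⟨i, hi, h⟩ := h
  exact ⟨i, by rw [Finset.mem_range] at hi; omega, h⟩

lemma extP_not (t : List Bool) : extP (t.map not) = extP t := by
  apply le_antisymm
  · apply extP_le
    intro i hi
    rw [List.length_map] at hi
    rw [lat_not t (by omega), Int.natAbs_neg]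
    exact le_extP hi
  · apply extP_le
    intro i hi
    have h1 := lat_not t (i := i) (by omega)
    have h2 := le_extP (t := t.map not) (i := i) (by rw [List.length_map]; exact hi)
    rw [h1, Int.natAbs_neg] at h2
    exact h2

/-- a prefix has a smaller extent -/
lemma extP_append_le (s u : List Bool) : extP s ≤ extP (s ++ u) := by
  apply extP_le
  intro i hi
  have := le_extP (t := s ++ u) (i := i) (by rw [List.length_append]; omega)
  rwa [lat_append (by omega)] at this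

/-- the extent of a part behind a bridge -/
lemma extP_right_le {j : ℕ} {s u : List Bool} (hs : s ∈ Brd j) : extP u ≤ 2 * extP (s ++ u) := by
  apply extP_le
  intro i hi
  have h1 := abs_le_extP (t := s ++ u) (i := s.length + i) (by rw [List.length_append]; omega)
  have h2 := abs_le_extP (t := s ++ u) (i := s.length) (by rw [List.length_append]; omega)
  rw [lat_cat (mem_Brd.1 hs).2.2.1] at h1
  rw [lat_append (by omega)] at h2
  change |latE s| ≤ _ at h2
  rw [abs_le] at h1 h2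
  omega

/-- the extent of a concatenation -/
lemma extP_cat_le {j : ℕ} {s u : List Bool} (hs : s ∈ Brd j) : extP (s ++ u) ≤ extP s + extP u := by
  apply extP_le
  intro i hi
  rw [List.length_append] at hi
  by_cases h : i ≤ s.length
  · rw [lat_append (by omega)]
    have := le_extP h
    omega
  · obtain ⟨k, rfl⟩ : ∃ k, i = s.length + k := ⟨i - s.length, by omega⟩
    rw [lat_cat (mem_Brd.1 hs).2.2.1]
    have h1 := abs_latE_le s
    have h2 := abs_le_extP (t := u) (i := k) (by omega)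
    rw [abs_le] at h1 h2
    omega

/-- the middle part -/
lemma extP_mid_le {j : ℕ} {s p u : List Bool} (hs : s ∈ Brd j) : extP p ≤ 2 * extP (s ++ p ++ u) := by
  have h1 := extP_right_le (u := p) hs
  have h2 := extP_append_le (s ++ p) u
  omega

/-- translation: from the bridges of height N to the irreducible bridges of a block of heights -/
theorem irr_transl {t N : ℕ} (ht : 1 ≤ t) (hN : 3 * t ≤ N) (Q R : List Bool → Prop)
    (h : ∀ (j r : ℕ) (s p u : List Bool), j < t → t ≤ r → r < 2 * t → s ∈ Brd j → p ∈ Irr r →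
      u ∈ Brd (N - j - r) → Q p → R (s ++ p ++ u)) :
    ENNReal.ofReal (UU (t - 1) * uu N) * ∑ r ∈ Finset.Ico t (2 * t), gf {p | p ∈ Irr r ∧ Q p} ≤
      gf {w | w ∈ Brd N ∧ R w} := by
  classical
  set C : ℕ × ℕ → Set (List Bool) := fun q => {w | ∃ s p u, s ∈ Brd q.1 ∧ (p ∈ Irr q.2 ∧ Q p) ∧
    u ∈ Brd (N - q.1 - q.2) ∧ w = s ++ p ++ u} with hC
  have h1 : ∀ q ∈ Finset.range t ×ˢ Finset.Ico t (2 * t),
      gf (Brd q.1) * gf {p | p ∈ Irr q.2 ∧ Q p} * gf (Brd (N - q.1 - q.2)) ≤ gf (C q) := by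
    rintro ⟨j, r⟩ hq
    rw [Finset.mem_product, Finset.mem_range, Finset.mem_Ico] at hq
    simp only at hq ⊢
    have e1 : gf (Brd j) * gf {p | p ∈ Irr r ∧ Q p} ≤
        gf {w | ∃ s p, s ∈ Brd j ∧ (p ∈ Irr r ∧ Q p) ∧ w = s ++ p} := by
      apply mul_le_gf
      · intro s hs p hp
        exact ⟨s, p, hs, hp, rfl⟩
      · intro s hs p hp s' hs' p' hp' h
        have := jump_unique (s := t - 1) (b := 0) (b' := 0) (u := []) (u' := []) (by omega) (by omega) (by omega)
          (by omega) hs hp.1 nil_mem_Brd hs' hp'.1 nil_mem_Brd (by rw [List.append_nil, List.append_nil]; exact h)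
        exact this.1
    refine (mul_le_mul_left e1 _).trans ?_
    apply mul_le_gf
    · rintro w ⟨s, p, hs, hp, rfl⟩ u hu
      exact ⟨s, p, u, hs, hp, hu, rfl⟩
    · rintro w ⟨s, p, hs, hp, rfl⟩ u hu w' ⟨s', p', hs', hp', rfl⟩ u' hu' h
      have := jump_unique (s := t - 1) (by omega) (by omega) (by omega) (by omega)
          hs hp.1 hu hs' hp'.1 hu' h
      rw [this.1, this.2.1]
  have h2 : ∑ q ∈ Finset.range t ×ˢ Finset.Ico t (2 * t), gf (C q) ≤ gf {w | w ∈ Brd N ∧ R w} := by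
    rw [← gf_biUnion]
    · apply gf_mono
      intro w hw
      simp only [Set.mem_iUnion] at hw
      obtain ⟨⟨j, r⟩, hq, s, p, u, hs, hp, hu, rfl⟩ := hw
      rw [Finset.mem_product, Finset.mem_range, Finset.mem_Ico] at hq
      simp only at hq hs hp hu
      have h2 := Brd_append (Brd_append hs hp.1.1) hu
      rw [show j + r + (N - j - r) = N by omega] at h2
      exact ⟨h2, h j r s p u (by omega) (by omega) (by omega) hs hp.1 hu hp.2⟩
    · rintro ⟨j, r⟩ hq ⟨j', r'⟩ hq' hne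
      rw [Finset.mem_product, Finset.mem_range, Finset.mem_Ico] at hq hq'
      simp only at hq hq'
      rw [Set.disjoint_left]
      rintro w ⟨s, p, u, hs, hp, hu, rfl⟩ ⟨s', p', u', hs', hp', hu', h⟩
      simp only at hs hp hu hs' hp' hu'
      have h3 := jump_unique (s := t - 1) (by omega) (by omega) (by omega) (by omega)
            hs hp.1 hu hs' hp'.1 hu' h
      apply hne
      rw [h3.1] at hs
      rw [h3.2.1] at hp
      rw [Brd_height hs hs', Brd_height hp.1.1 hp'.1.1]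
  refine le_trans ?_ ((Finset.sum_le_sum h1).trans h2)
  rw [Finset.sum_product, ENNReal.ofReal_mul (Num2Aux.UU_pos _).le]
  have e1 : ENNReal.ofReal (UU (t - 1)) = ∑ j ∈ Finset.range t, gf (Brd j) := by
    unfold UU
    rw [show t - 1 + 1 = t by omega, ENNReal.ofReal_sum_of_nonneg (fun j _ => (uu_pos j).le)]
    refine Finset.sum_congr rfl fun j _ => ?_
    rw [gf_Brd, BT_eq_uu]
  rw [e1, Finset.sum_mul, Finset.sum_mul]
  apply Finset.sum_le_sum
  intro j hj
  rw [Finset.mul_sum]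
  apply Finset.sum_le_sum
  intro r hr
  rw [Finset.mem_range] at hj
  rw [Finset.mem_Ico] at hr
  rw [mul_assoc, mul_assoc, mul_comm (gf {p | p ∈ Irr r ∧ Q p})]
  gcongr
  rw [gf_Brd, BT_eq_uu]
  exact ENNReal.ofReal_le_ofReal (uu_anti (by omega))

lemma UU_two_le {t : ℕ} (ht : 1 ≤ t) : UU (2 * t) ≤ 4 * UU (t - 1) := by
  have e1 := UU_double t
  have e2 : UU t = UU (t - 1) + uu t := by
    have := Num2Aux.UU_succ (t - 1)
    rwa [show t - 1 + 1 = t by omega] at this
  have e3 : uu t ≤ UU (t - 1) := by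
    have e4 : UU 0 ≤ UU (t - 1) := Num2Aux.UU_mono (Nat.zero_le _)
    have e5 : UU 0 = 1 := by
      unfold UU
      rw [Finset.sum_range_one, uu_zero]
    have := uu_le_one t
    linarith
  linarith

/-- translation, with numbers -/
theorem irr_transl' {t : ℕ} (ht : 1 ≤ t) (Q R : List Bool → Prop)
    (h : ∀ (j r : ℕ) (s p u : List Bool), j < t → t ≤ r → r < 2 * t → s ∈ Brd j → p ∈ Irr r →
      u ∈ Brd (4 * t - j - r) → Q p → R (s ++ p ++ u)) {b : ℝ} (hb : 0 ≤ b)
    (hR : gf {w | w ∈ Brd (4 * t) ∧ R w} ≤ ENNReal.ofReal (b * uu (4 * t))) :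
    ∑ r ∈ Finset.Ico t (2 * t), gf {p | p ∈ Irr r ∧ Q p} ≤ ENNReal.ofReal (4 * b / UU (2 * t)) := by
  have h4 := (irr_transl (t := t) (N := 4 * t) ht (by omega) Q R h).trans hR
  have hU1 := Num2Aux.UU_pos (t - 1)
  have hU2 := Num2Aux.UU_pos (2 * t)
  have hu := uu_pos (4 * t)
  have hpos : 0 < UU (t - 1) * uu (4 * t) := by positivity
  have h5 : ∑ r ∈ Finset.Ico t (2 * t), gf {p | p ∈ Irr r ∧ Q p} ≤
      ENNReal.ofReal (b * uu (4 * t)) / ENNReal.ofReal (UU (t - 1) * uu (4 * t)) := by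
    rw [ENNReal.le_div_iff_mul_le]
    · rw [mul_comm]
      exact h4
    · left
      rw [Ne, ENNReal.ofReal_eq_zero]
      exact not_le.2 hpos
    · left
      exact ENNReal.ofReal_ne_top
  rw [← ENNReal.ofReal_div_of_pos hpos] at h5
  refine h5.trans (ENNReal.ofReal_le_ofReal ?_)
  have h6 : b * uu (4 * t) / (UU (t - 1) * uu (4 * t)) = 4 * b / (4 * UU (t - 1)) := by
    field_simp
  rw [h6]
  have h8 := UU_two_le ht
  gcongr

lemma two_pow_block {n : ℕ} (hn : 1 ≤ n) : 2 ^ n = 2 * 2 ^ (n - 1) := by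
  obtain ⟨m, rfl⟩ : ∃ m, n = m + 1 := ⟨n - 1, by omega⟩
  rw [Nat.add_sub_cancel, pow_succ, mul_comm]

/-- the trivial bound for the giants of a block -/
theorem irr_block {n : ℕ} (hn : 1 ≤ n) :
    ∑ r ∈ Finset.Ico (2 ^ (n - 1)) (2 ^ n), gf (Irr r) ≤ ENNReal.ofReal (4 / UU (2 ^ n)) := by
  have h := irr_transl' (t := 2 ^ (n - 1)) Nat.one_le_two_pow (fun _ => True) (fun _ => True)
    (fun _ _ _ _ _ _ _ _ _ _ _ _ => trivial) (b := 1) zero_le_one ?_
  · rw [← two_pow_block hn, mul_one] at h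
    refine le_trans (le_of_eq ?_) h
    refine Finset.sum_congr rfl fun r _ => ?_
    congr 1
    ext p
    simp
  · rw [one_mul, ← BT_eq_uu, ← gf_Brd]
    exact gf_mono fun w hw => hw.1

/-- tail of the lateral extent of the giants -/
theorem latT : ∃ C q : ℝ, 0 < C ∧ 0 < q ∧ q < 1 ∧ ∀ M n : ℕ, 1 ≤ n →
    ∑ r ∈ Finset.Ico (2 ^ (n - 1)) (2 ^ n), gf {p | p ∈ Irr r ∧ M * 2 ^ n < extP p} ≤
      ENNReal.ofReal (C * q ^ M / UU (2 ^ n)) := by
  obtain ⟨C0, q0, h0, h1, h2, hL⟩ := Ex.latR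
  obtain ⟨q, hq⟩ : ∃ q : ℝ, q = Real.sqrt (Real.sqrt q0) := ⟨_, rfl⟩
  have hs0 : 0 < Real.sqrt q0 := Real.sqrt_pos.2 h1
  have hs1 : Real.sqrt q0 < 1 := by
    rw [Real.sqrt_lt' one_pos]
    linarith
  have hq0 : 0 < q := by
    rw [hq]
    exact Real.sqrt_pos.2 hs0
  have hq1 : q < 1 := by
    rw [hq, Real.sqrt_lt' one_pos]
    linarith
  have hq4 : q ^ 4 = q0 := by
    rw [hq, show (4 : ℕ) = 2 * 2 by norm_num, pow_mul, Real.sq_sqrt hs0.le, Real.sq_sqrt h1.le]
  refine ⟨4 * C0 / q ^ 3, q, by positivity, hq0, hq1, ?_⟩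
  intro M n hn
  obtain ⟨t, ht⟩ : ∃ t : ℕ, t = 2 ^ (n - 1) := ⟨_, rfl⟩
  have ht1 : 1 ≤ t := by
    rw [ht]
    exact Nat.one_le_two_pow
  have ht2 : 2 ^ n = 2 * t := by
    rw [ht]
    exact two_pow_block hn
  rw [ht2, ← ht]
  have h3 := irr_transl' (t := t) ht1 (fun p => M * (2 * t) < extP p)
    (fun w => ∃ i, i ≤ w.length ∧ ((M / 4 : ℕ) * (4 * t : ℕ) : ℤ) < |lat w i|) ?_
    (b := C0 * q0 ^ (M / 4)) (by positivity) (hL (M / 4) (4 * t) (by omega))
  · refine h3.trans (ENNReal.ofReal_le_ofReal ?_)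
    have h7 : q0 ^ (M / 4) ≤ q ^ M / q ^ 3 := by
      rw [← hq4, ← pow_mul, le_div_iff₀ (by positivity), ← pow_add]
      exact pow_le_pow_of_le_one hq0.le hq1.le (by omega)
    have hU2 := Num2Aux.UU_pos (2 * t)
    calc 4 * (C0 * q0 ^ (M / 4)) / UU (2 * t) ≤ 4 * (C0 * (q ^ M / q ^ 3)) / UU (2 * t) := by gcongr
      _ = 4 * C0 / q ^ 3 * q ^ M / UU (2 * t) := by ring
  · intro j r s p u _ _ _ hs _ _ hp
    have h5 := extP_mid_le (p := p) (u := u) hs
    have h6 : (M / 4) * (4 * t) < extP (s ++ p ++ u) := by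
      have e1 : M / 4 * 4 ≤ M := Nat.div_mul_le_self M 4
      have e2 : 2 * (M / 4 * (4 * t)) ≤ M * (2 * t) := by
        calc 2 * (M / 4 * (4 * t)) = M / 4 * 4 * (2 * t) := by ring
          _ ≤ M * (2 * t) := Nat.mul_le_mul_right _ e1
      have hp' : M * (2 * t) < extP p := hp
      omega
    obtain ⟨i, hi, h7⟩ := lt_extP h6
    refine ⟨i, hi, ?_⟩
    rw [Int.abs_eq_natAbs]
    exact_mod_cast h7

/-- LATG: the moments of the lateral extent of the giants -/
theorem latG (m : ℕ) : ∃ C : ℝ, 0 < C ∧ ∀ n : ℕ, 1 ≤ n →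
    ∑ r ∈ Finset.Ico (2 ^ (n - 1)) (2 ^ n), ∑' p : {p : List Bool // p ∈ Irr r},
      wE p.1 * ENNReal.ofReal ((1 + (extP p.1 : ℝ) / 2 ^ n) ^ m) ≤ ENNReal.ofReal (C / UU (2 ^ n)) := by
  classical
  obtain ⟨C0, q, h0, h1, h2, hT⟩ := latT
  -- the shells
  have hshell : ∀ (n : ℕ) (p : List Bool), ENNReal.ofReal ((1 + (extP p : ℝ) / 2 ^ n) ^ m) ≤
      ENNReal.ofReal (2 ^ m) + ∑' M : ℕ, ENNReal.ofReal (((M : ℝ) + 3) ^ m) * (if M * 2 ^ n < extP p then 1 else 0) := by
    intro n p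
    have hpos : 0 < 2 ^ n := by positivity
    rcases le_or_gt (extP p) (2 ^ n) with h | h
    · refine le_trans (ENNReal.ofReal_le_ofReal ?_) le_self_add
      apply pow_le_pow_left₀ (by positivity)
      have : (extP p : ℝ) / 2 ^ n ≤ 1 := by
        rw [div_le_one (by positivity)]
        exact_mod_cast h
      linarith
    · -- M 2^n < ext <= (M + 1) 2^n
      obtain ⟨M, hM⟩ : ∃ M, M = (extP p - 1) / 2 ^ n := ⟨_, rfl⟩
      have hM1 : M * 2 ^ n < extP p := by
        have := Nat.div_mul_le_self (extP p - 1) (2 ^ n)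
        rw [← hM] at this
        omega
      have hM2 : extP p ≤ (M + 1) * 2 ^ n := by
        have := Nat.lt_div_mul_add (a := extP p - 1) hpos
        rw [← hM] at this
        have e : (M + 1) * 2 ^ n = M * 2 ^ n + 2 ^ n := by ring
        omega
      refine le_trans ?_ le_add_self
      refine le_trans ?_ (ENNReal.le_tsum M)
      rw [if_pos hM1, mul_one]
      apply ENNReal.ofReal_le_ofReal
      apply pow_le_pow_left₀ (by positivity)
      have : (extP p : ℝ) / 2 ^ n ≤ M + 1 := by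
        rw [div_le_iff₀ (by positivity)]
        exact_mod_cast hM2
      linarith
  -- the series
  have hsum : Summable (fun M : ℕ => ((M : ℝ) + 3) ^ m * (C0 * q ^ M)) := by
    have e1 : Summable (fun M : ℕ => ((M : ℝ)) ^ m * q ^ M) :=
      summable_pow_mul_geometric_of_norm_lt_one m (by rw [Real.norm_eq_abs, abs_of_pos h1]; exact h2)
    have e2 : Summable (fun M : ℕ => (((M + 3 : ℕ) : ℝ)) ^ m * q ^ (M + 3)) :=
      (summable_nat_add_iff 3).2 e1
    have e3 := e2.mul_left (C0 / q ^ 3)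
    refine e3.congr fun M => ?_
    push_cast
    rw [pow_add]
    field_simp
  obtain ⟨S, hS⟩ : ∃ S : ℝ, S = ∑' M : ℕ, ((M : ℝ) + 3) ^ m * (C0 * q ^ M) := ⟨_, rfl⟩
  have hS0 : 0 ≤ S := by
    rw [hS]
    exact tsum_nonneg fun M => by positivity
  refine ⟨2 ^ m * 4 + S, by positivity, ?_⟩
  intro n hn
  have hU := Num2Aux.UU_pos (2 ^ n)
  have e1 : ∑ r ∈ Finset.Ico (2 ^ (n - 1)) (2 ^ n), ∑' p : {p : List Bool // p ∈ Irr r},
      wE p.1 * ENNReal.ofReal ((1 + (extP p.1 : ℝ) / 2 ^ n) ^ m) ≤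
      ENNReal.ofReal (2 ^ m) * ∑ r ∈ Finset.Ico (2 ^ (n - 1)) (2 ^ n), gf (Irr r) +
      ∑' M : ℕ, ENNReal.ofReal (((M : ℝ) + 3) ^ m) *
        ∑ r ∈ Finset.Ico (2 ^ (n - 1)) (2 ^ n), gf {p | p ∈ Irr r ∧ M * 2 ^ n < extP p} := by
    have e2 : ∀ r : ℕ, ∑' p : {p : List Bool // p ∈ Irr r},
        wE p.1 * ENNReal.ofReal ((1 + (extP p.1 : ℝ) / 2 ^ n) ^ m) ≤ ENNReal.ofReal (2 ^ m) * gf (Irr r) +
        ∑' M : ℕ, ENNReal.ofReal (((M : ℝ) + 3) ^ m) * gf {p | p ∈ Irr r ∧ M * 2 ^ n < extP p} := by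
      intro r
      calc ∑' p : {p : List Bool // p ∈ Irr r}, wE p.1 * ENNReal.ofReal ((1 + (extP p.1 : ℝ) / 2 ^ n) ^ m)
          ≤ ∑' p : {p : List Bool // p ∈ Irr r}, wE p.1 * (ENNReal.ofReal (2 ^ m) +
            ∑' M : ℕ, ENNReal.ofReal (((M : ℝ) + 3) ^ m) * (if M * 2 ^ n < extP p.1 then 1 else 0)) :=
            ENNReal.tsum_le_tsum fun p => mul_le_mul_right (hshell n p.1) _
        _ = ENNReal.ofReal (2 ^ m) * gf (Irr r) + ∑' M : ℕ, ∑' p : {p : List Bool // p ∈ Irr r},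
            wE p.1 * (ENNReal.ofReal (((M : ℝ) + 3) ^ m) * (if M * 2 ^ n < extP p.1 then 1 else 0)) := by
            simp_rw [mul_add, ← ENNReal.tsum_mul_left]
            rw [ENNReal.tsum_add, ENNReal.tsum_mul_right, mul_comm]
            congr 1
            exact ENNReal.tsum_comm
        _ = _ := by
            congr 1
            refine tsum_congr fun M => ?_
            rw [gf_ind, ← ENNReal.tsum_mul_left,
              tsum_subtype (Irr r) (fun p : List Bool => wE p * (ENNReal.ofReal (((M : ℝ) + 3) ^ m) *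
                (if M * 2 ^ n < extP p then 1 else 0)))]
            refine tsum_congr fun p => ?_
            by_cases hp : p ∈ Irr r
            · rw [Set.indicator_of_mem hp]
              by_cases h : M * 2 ^ n < extP p
              · have h' : p ∈ {p | p ∈ Irr r ∧ M * 2 ^ n < extP p} := ⟨hp, h⟩
                rw [if_pos h, if_pos h', mul_one, mul_comm]
              · have h' : ¬ p ∈ {p | p ∈ Irr r ∧ M * 2 ^ n < extP p} := fun h' => h h'.2
                simp only [if_neg h, if_neg h', mul_zero]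
            · have h' : ¬ p ∈ {p | p ∈ Irr r ∧ M * 2 ^ n < extP p} := fun h' => hp h'.1
              rw [Set.indicator_of_notMem hp, if_neg h', mul_zero]
    refine (Finset.sum_le_sum fun r _ => e2 r).trans (le_of_eq ?_)
    rw [Finset.sum_add_distrib, ← Finset.mul_sum]
    congr 1
    rw [← Summable.tsum_finsetSum (fun _ _ => ENNReal.summable)]
    refine tsum_congr fun M => ?_
    rw [Finset.mul_sum]
  refine e1.trans ?_
  have e3 : ∑' M : ℕ, ENNReal.ofReal (((M : ℝ) + 3) ^ m) *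
      ∑ r ∈ Finset.Ico (2 ^ (n - 1)) (2 ^ n), gf {p | p ∈ Irr r ∧ M * 2 ^ n < extP p} ≤
      ENNReal.ofReal (S / UU (2 ^ n)) := by
    calc _ ≤ ∑' M : ℕ, ENNReal.ofReal (((M : ℝ) + 3) ^ m) * ENNReal.ofReal (C0 * q ^ M / UU (2 ^ n)) :=
          ENNReal.tsum_le_tsum fun M => mul_le_mul_right (hT M n hn) _
      _ = ∑' M : ℕ, ENNReal.ofReal (((M : ℝ) + 3) ^ m * (C0 * q ^ M) / UU (2 ^ n)) := by
          refine tsum_congr fun M => ?_
          rw [← ENNReal.ofReal_mul (by positivity)]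
          congr 1
          ring
      _ = ENNReal.ofReal (S / UU (2 ^ n)) := by
          rw [← ENNReal.ofReal_tsum_of_nonneg (fun M => by positivity) (hsum.div_const _), hS, tsum_div_const]
  calc _ ≤ ENNReal.ofReal (2 ^ m) * ENNReal.ofReal (4 / UU (2 ^ n)) + ENNReal.ofReal (S / UU (2 ^ n)) := by
        gcongr
        exact irr_block hn
    _ = ENNReal.ofReal ((2 ^ m * 4 + S) / UU (2 ^ n)) := by
        rw [← ENNReal.ofReal_mul (by positivity), ← ENNReal.ofReal_add (by positivity) (by positivity)]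
        congr 1
        ring

end HexObs
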