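import Pool.Agent.PHW5.Defs5

/-!
PHW5, S5i: the lateral extent of the giants, over the blocks of PHW5.
-/

set_option autoImplicit false

namespace HexObs

open Complex Finset ENNReal

lemma blk_eq {n : ℕ} (hn : 1 ≤ n) : blk n = Finset.Ico (2 ^ (n - 1)) (2 ^ n) := by
  unfold blk
  rw [two_pow_block hn, Nat.mul_div_cancel_left _ (by norm_num)]

lemma Irr_zero : Irr 0 = ∅ := by
  ext t
  rw [Set.mem_empty_iff_false, iff_false]
  rintro ⟨h1, h2, _⟩
  rw [Brd_zero] at h1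
  exact h2 h1

lemma gfF_empty (F : List Bool → ℝ≥0∞) : gfF ∅ F = 0 := by
  unfold gfF
  simp

/-- LATG with any natural exponent, over the blocks of PHW5 -/
theorem latPm (m : ℕ) : ∃ C : ℝ, 0 < C ∧ ∀ n : ℕ,
    ∑ r ∈ blk n, gfF (Irr r) (fun P => ENNReal.ofReal ((1 + (extP P : ℝ) / 2 ^ n) ^ m)) ≤
      ENNReal.ofReal (C / UU (2 ^ n)) := by
  obtain ⟨C, hC, h⟩ := latG m
  refine ⟨C, hC, ?_⟩
  intro n
  rcases Nat.eq_zero_or_pos n with h0 | h0
  · have e : blk n = {0} := by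
      rw [h0]
      decide
    rw [e, Finset.sum_singleton, Irr_zero, gfF_empty]
    exact zero_le
  · rw [blk_eq h0]
    exact h n h0

/-- lateral extent of giants -/
theorem latP : ∃ C : ℝ, 0 < C ∧ ∀ n : ℕ,
    ∑ r ∈ blk n, gfF (Irr r) (fun P => ENNReal.ofReal ((1 + (extP P : ℝ) / 2 ^ n) ^ 2)) ≤
      ENNReal.ofReal (C / UU (2 ^ n)) := latPm 2

end HexObs
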