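import Pool.Agent.PHW5.NearV

/-!
PHW5, S5e: (A'), the states of a block are few compared with Lam three blocks below: choice of the parameters.
-/

set_option autoImplicit false

namespace HexObs

open Complex Finset ENNReal

namespace NearAux5

lemma choose_eta {θ ε : ℝ} (hθ : 0 < θ) (hε : 0 < ε) : ∃ η : ℝ, 0 < η ∧ η ≤ 1 ∧ 2 * (2 * η) ^ θ ≤ ε / 2 := by
  have h4 : 0 < ε / 4 := by linarith
  have hp : 0 < (ε / 4) ^ (1 / θ) := Real.rpow_pos_of_pos h4 _
  refine ⟨min 1 ((ε / 4) ^ (1 / θ) / 2), lt_min one_pos (by linarith), min_le_left _ _, ?_⟩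
  have h1 : 2 * min 1 ((ε / 4) ^ (1 / θ) / 2) ≤ (ε / 4) ^ (1 / θ) := by
    have := min_le_right 1 ((ε / 4) ^ (1 / θ) / 2)
    linarith
  have h0 : 0 ≤ 2 * min 1 ((ε / 4) ^ (1 / θ) / 2) := by
    have : 0 < min 1 ((ε / 4) ^ (1 / θ) / 2) := lt_min one_pos (by linarith)
    linarith
  have h2 := Real.rpow_le_rpow h0 h1 hθ.le
  have h3 : ((ε / 4) ^ (1 / θ)) ^ θ = ε / 4 := by
    rw [← Real.rpow_mul h4.le, one_div, inv_mul_cancel₀ hθ.ne', Real.rpow_one]
  rw [h3] at h2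
  linarith

lemma UU8 (M : ℕ) : UU (8 * M) ≤ 8 * UU M := by
  have h1 := UU_double M
  have h2 := UU_double (2 * M)
  have h3 := UU_double (2 * (2 * M))
  have e : 2 * (2 * (2 * M)) = 8 * M := by ring
  rw [e] at h3
  linarith

lemma blk_Ico {j : ℕ} (h : 3 ≤ j) : blk j = Finset.Ico (4 * 2 ^ (j - 3)) (8 * 2 ^ (j - 3)) := by
  obtain ⟨i, rfl⟩ := Nat.exists_eq_add_of_le h
  unfold blk
  have e : 3 + i - 3 = i := by omega
  rw [e]
  have e2 : 2 ^ (3 + i) = 8 * 2 ^ i := by rw [pow_add]; norm_num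
  rw [e2]
  congr 1
  omega

theorem nearA_of (hn : ∃ C : ℝ, 0 < C ∧ ∀ M G D : ℕ, 1 ≤ M → 1 ≤ G → 1 ≤ D →
    ∑ y ∈ Finset.Ico (4 * M) (8 * M), g2 (Brd y) (LG (y + 1)) V2 ≤ ENNReal.ofReal (8 * M / G) +
      th M * ENNReal.ofReal (C * (G / D) * UU (8 * M) + UU D)) {ε : ℝ} (hε : 0 < ε) :
    ∃ C : ℝ, 0 < C ∧ ∀ j : ℕ, VS j ≤ ENNReal.ofReal C + ENNReal.ofReal ε * Lam (j - 3) := by
  obtain ⟨C, hC, hn⟩ := hn
  have hCW := Num2Aux.CW_pos
  obtain ⟨θ, hθ⟩ : ∃ θ : ℝ, θ = 1 / (6 + CW) := ⟨_, rfl⟩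
  have hθ0 : 0 < θ := by rw [hθ]; positivity
  obtain ⟨η, hη0, hη1, hη2⟩ := choose_eta hθ0 hε
  obtain ⟨δ, hδ0, hδ1, hδ2⟩ : ∃ δ : ℝ, 0 < δ ∧ δ ≤ 1 ∧ 16 * C * δ ≤ ε / 2 := by
    refine ⟨min 1 (ε / (32 * C)), lt_min one_pos (by positivity), min_le_left _ _, ?_⟩
    have h1 := min_le_right 1 (ε / (32 * C))
    calc 16 * C * min 1 (ε / (32 * C)) ≤ 16 * C * (ε / (32 * C)) := by gcongr
      _ = ε / 2 := by field_simp; ring
  have hδη : 0 < δ * η := mul_pos hδ0 hη0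
  obtain ⟨M0, hM0⟩ := exists_nat_ge (1 / (δ * η))
  have hM01 : 1 ≤ M0 := by
    have h1 : (0 : ℝ) < M0 := lt_of_lt_of_le (by positivity) hM0
    exact_mod_cast h1
  have hUU0 := Num2Aux.UU_pos (8 * M0)
  refine ⟨UU (8 * M0) + 8 / (δ * η), by positivity, fun j => ?_⟩
  by_cases hj : 3 ≤ j ∧ M0 ≤ 2 ^ (j - 3)
  · obtain ⟨h3, hM⟩ := hj
    obtain ⟨M, hMd⟩ : ∃ M : ℕ, M = 2 ^ (j - 3) := ⟨_, rfl⟩
    have hM1 : 1 ≤ M := by rw [hMd]; exact Nat.one_le_two_pow
    rw [← hMd] at hM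
    have hMr : (1 : ℝ) ≤ M := by exact_mod_cast hM1
    have hMM : 1 / (δ * η) ≤ M := hM0.trans (by exact_mod_cast hM)
    have hbig : 1 ≤ δ * (η * M) := by
      rw [div_le_iff₀ hδη] at hMM
      linarith
    have hηM : 1 ≤ η * M := by
      have h0 : 0 ≤ η * M := by positivity
      nlinarith
    obtain ⟨D, hD⟩ : ∃ D : ℕ, D = ⌈η * M⌉₊ := ⟨_, rfl⟩
    have hD1 : η * M ≤ D := by rw [hD]; exact Nat.le_ceil _
    have hD2 : (D : ℝ) ≤ 2 * η * M := by
      have := Nat.ceil_lt_add_one (by positivity : 0 ≤ η * M)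
      rw [← hD] at this
      linarith
    have hD3 : D ≤ M := by
      rw [hD, Nat.ceil_le]
      nlinarith
    have hD4 : 1 ≤ D := by
      have : (1 : ℝ) ≤ D := hηM.trans hD1
      exact_mod_cast this
    have hDr : (0 : ℝ) < D := by exact_mod_cast hD4
    have hδD : 1 ≤ δ * D := hbig.trans (mul_le_mul_of_nonneg_left hD1 hδ0.le)
    obtain ⟨G, hG⟩ : ∃ G : ℕ, G = ⌈δ * D⌉₊ := ⟨_, rfl⟩
    have hG1 : δ * D ≤ G := by rw [hG]; exact Nat.le_ceil _
    have hG2 : (G : ℝ) ≤ 2 * δ * D := by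
      have := Nat.ceil_lt_add_one (by positivity : 0 ≤ δ * (D : ℝ))
      rw [← hG] at this
      linarith
    have hG4 : 1 ≤ G := by
      have : (1 : ℝ) ≤ G := hδD.trans hG1
      exact_mod_cast this
    have hGr : (0 : ℝ) < G := by exact_mod_cast hG4
    have key := hn M G D hM1 hG4 hD4
    have hUM := Num2Aux.UU_pos M
    -- first term
    have t1 : 8 * (M : ℝ) / G ≤ UU (8 * M0) + 8 / (δ * η) := by
      have h1 : δ * (η * M) ≤ G := (mul_le_mul_of_nonneg_left hD1 hδ0.le).trans hG1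
      have h2 : 8 * (M : ℝ) / G ≤ 8 / (δ * η) := by
        rw [div_le_div_iff₀ hGr hδη]
        nlinarith
      linarith
    -- second term
    have t2 : C * (G / D) * UU (8 * M) + UU D ≤ ε * UU M := by
      have h1 : (G : ℝ) / D ≤ 2 * δ := by
        rw [div_le_iff₀ hDr]
        exact hG2
      have h2 : C * (G / D) * UU (8 * M) ≤ ε / 2 * UU M := by
        calc C * (G / D) * UU (8 * M) ≤ C * (2 * δ) * (8 * UU M) := by
              have := UU8 M
              gcongr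
              exact (Num2Aux.UU_pos _).le
          _ = 16 * C * δ * UU M := by ring
          _ ≤ ε / 2 * UU M := mul_le_mul_of_nonneg_right hδ2 hUM.le
      have h3 : UU D ≤ ε / 2 * UU M := by
        have g := UU_growth hD4 hD3
        rw [← hθ] at g
        have hq : 0 < (M : ℝ) / D := by positivity
        have hq2 : (1 / (2 * η)) ≤ (M : ℝ) / D := by
          rw [div_le_div_iff₀ (by positivity) hDr]
          linarith
        have hq3 : (1 / (2 * η)) ^ θ ≤ ((M : ℝ) / D) ^ θ := Real.rpow_le_rpow (by positivity) hq2 hθ0.le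
        have hq4 : (1 / (2 * η)) ^ θ = 1 / (2 * η) ^ θ := by
          rw [one_div, Real.inv_rpow (by positivity), one_div]
        rw [hq4] at hq3
        have hp : 0 < (2 * η) ^ θ := Real.rpow_pos_of_pos (by positivity) _
        have hUD := Num2Aux.UU_pos D
        have g2 : UU D * (1 / (2 * η) ^ θ) ≤ 2 * UU M := (mul_le_mul_of_nonneg_left hq3 hUD.le).trans g
        have g3 : UU D ≤ 2 * UU M * (2 * η) ^ θ := by
          rw [mul_one_div, div_le_iff₀ hp] at g2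
          exact g2
        calc UU D ≤ 2 * UU M * (2 * η) ^ θ := g3
          _ = 2 * (2 * η) ^ θ * UU M := by ring
          _ ≤ ε / 2 * UU M := mul_le_mul_of_nonneg_right hη2 hUM.le
      linarith
    have e1 : VS j = ∑ y ∈ Finset.Ico (4 * M) (8 * M), g2 (Brd y) (LG (y + 1)) V2 := by
      unfold VS
      rw [blk_Ico h3, hMd]
    rw [e1]
    refine key.trans (add_le_add (ENNReal.ofReal_le_ofReal t1) ?_)
    unfold Lam
    rw [← hMd]
    calc th M * ENNReal.ofReal (C * (G / D) * UU (8 * M) + UU D) ≤ th M * ENNReal.ofReal (ε * UU M) := by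
          gcongr
      _ = ENNReal.ofReal ε * (ENNReal.ofReal (UU M) * th M) := by
          rw [ENNReal.ofReal_mul hε.le]
          ring
  · have h1 : 2 ^ j ≤ 8 * M0 := by
      by_cases h3 : 3 ≤ j
      · have h4 : 2 ^ (j - 3) < M0 := by
          by_contra h5
          exact hj ⟨h3, not_lt.1 h5⟩
        obtain ⟨i, rfl⟩ := Nat.exists_eq_add_of_le h3
        have e : 3 + i - 3 = i := by omega
        rw [e] at h4
        have e2 : 2 ^ (3 + i) = 8 * 2 ^ i := by rw [pow_add]; norm_num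
        omega
      · have h4 : 2 ^ j ≤ 2 ^ 3 := Nat.pow_le_pow_right (by norm_num) (by omega)
        omega
    calc VS j ≤ ENNReal.ofReal (UU (2 ^ j)) := VS_triv j
      _ ≤ ENNReal.ofReal (UU (8 * M0) + 8 / (δ * η)) := by
          apply ENNReal.ofReal_le_ofReal
          have := Num2Aux.UU_mono h1
          have h2 : 0 < 8 / (δ * η) := by positivity
          linarith
      _ ≤ _ := le_self_add

end NearAux5

/-- choice of D and G -/
theorem nearA {ε : ℝ} (hε : 0 < ε) : ∃ C : ℝ, 0 < C ∧ ∀ j : ℕ, VS j ≤ ENNReal.ofReal C + ENNReal.ofReal ε * Lam (j - 3) :=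
  NearAux5.nearA_of near_VS hε

end HexObs
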