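import Pool.Agent.PHW5.Base5
import Pool.Agent.PHW5.GapK
import Pool.Agent.PHW.NearB
import Pool.Agent.PHW.Near

/-!
PHW5, S5e: one block of heights of (A').
-/

set_option autoImplicit false

namespace HexObs

open Complex Finset ENNReal

open NearBaux Base5

namespace NearV

lemma gf_FC_le' {M y : ℕ} (hM : M ≤ y) (P : Set (List Bool)) :
    gf {s | s ∈ Brd y ∧ s ∈ P} ≤ ∑ j ∈ Finset.Icc M y, gfF (FC M j) (fun a => gf {v | v ∈ Brd (y - j) ∧ a ++ v ∈ P}) :=
  gf_FC_le hM P

/-- the pairs without gap, one height -/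
lemma block_one' {M y : ℕ} (hM : M ≤ y) (G : ℤ) (c : ℕ → ℝ≥0∞)
    (hc : ∀ (h b : ℕ), y < b → ∀ t ∈ Brd b, ∀ x0 : ℤ,
      gf {v | v ∈ Brd h ∧ (∀ i, InRow t y i → x0 + latE v < lat t i + 2) ∧
        ¬ (∀ i, InRow t y i → x0 + latE v + G ≤ lat t i + 2)} ≤ c h) :
    g2 (Brd y) (LG (y + 1)) (fun s t => V2 s t ∧ ¬ Gap s t y G) ≤
      ∑ j ∈ Finset.Icc M y, g2 (FC M j) (LG M) V2 * c (y - j) := by
  classical
  rw [g2_gfF']
  have h1 : ∀ t ∈ LG (y + 1), gf {s | s ∈ Brd y ∧ (V2 s t ∧ ¬ Gap s t y G)} ≤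
      ∑ j ∈ Finset.Icc M y, c (y - j) * gf {a | a ∈ FC M j ∧ V2 a t} := by
    rintro t ⟨b, hb⟩
    refine (gf_FC_le' hM {s | V2 s t ∧ ¬ Gap s t y G}).trans ?_
    refine Finset.sum_le_sum fun j hj => ?_
    rw [Finset.mem_Icc] at hj
    have h2 : gfF (FC M j) (fun a => gf {v | v ∈ Brd (y - j) ∧ a ++ v ∈ {s | V2 s t ∧ ¬ Gap s t y G}}) ≤
        gfF {a | a ∈ FC M j ∧ V2 a t} (fun a => gf {v | v ∈ Brd (y - j) ∧ a ++ v ∈ {s | V2 s t ∧ ¬ Gap s t y G}}) := by
      unfold gfF
      have e1 := tsum_subtype (FC M j) (fun a : List Bool => wE a *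
        gf {v | v ∈ Brd (y - j) ∧ a ++ v ∈ {s | V2 s t ∧ ¬ Gap s t y G}})
      have e2 := tsum_subtype {a | a ∈ FC M j ∧ V2 a t} (fun a : List Bool => wE a *
        gf {v | v ∈ Brd (y - j) ∧ a ++ v ∈ {s | V2 s t ∧ ¬ Gap s t y G}})
      refine (le_of_eq e1).trans (le_trans ?_ (ge_of_eq e2))
      refine ENNReal.tsum_le_tsum fun a => ?_
      by_cases hA : a ∈ FC M j
      · by_cases hA' : V2 a t
        · rw [Set.indicator_of_mem hA, Set.indicator_of_mem (show a ∈ {a | a ∈ FC M j ∧ V2 a t} from ⟨hA, hA'⟩)]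
        · rw [Set.indicator_of_mem hA]
          have h5 : {v | v ∈ Brd (y - j) ∧ a ++ v ∈ {s | V2 s t ∧ ¬ Gap s t y G}} = ∅ := by
            ext v
            rw [Set.mem_empty_iff_false, iff_false]
            rintro ⟨hv, hd, _⟩
            apply hA'
            have h6 : V2 (a ++ v) (t ++ []) := by rw [List.append_nil]; exact hd
            exact V2_prefix hA.1 hv hb.1 nil_mem_Brd h6
          have h6 : gf {v | v ∈ Brd (y - j) ∧ a ++ v ∈ {s | V2 s t ∧ ¬ Gap s t y G}} = 0 := by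
            rw [h5]
            unfold gf
            simp
          rw [h6, mul_zero]
          exact zero_le
      · rw [Set.indicator_of_notMem hA]
        exact zero_le
    refine h2.trans (gfF_le _ ?_)
    rintro a ⟨ha, _⟩
    refine le_trans (gf_mono ?_) (hc (y - j) b (by have := hb.2.1; omega) t hb.1 (latE a))
    rintro v ⟨hv, hv2, hgap⟩
    have e1 : latE (a ++ v) = latE a + latE v := latE_cat (mem_Brd.1 ha.1).2.2.1
    have hy : a ++ v ∈ Brd y := by
      have := Brd_append ha.1 hv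
      rwa [Nat.add_sub_of_le hj.2] at this
    refine ⟨hv, ?_, ?_⟩
    · intro i hi
      have := Via_gap hy hv2.2.1 i hi
      rw [e1] at this
      omega
    · intro hcon
      apply hgap
      intro i hi
      rw [e1]
      exact hcon i hi
  refine (gfF_mono le_rfl h1).trans ?_
  rw [← sum_gfF]
  refine Finset.sum_le_sum fun j _ => ?_
  rw [gfF_mul, mul_comm, ← g2_gfF' (FC M j) (LG (y + 1)) V2]
  apply mul_le_mul_left
  rw [g2_gfF, g2_gfF]
  refine gfF_mono le_rfl fun s hs => ?_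
  have h3 := stop_right (M := M) (c := y + 1) (b := j) (b' := 0) (by omega) (s1 := s) (s2 := []) hs.1 nil_mem_Brd
  rw [List.append_nil] at h3
  exact h3

end NearV

open NearV

/-- one block of heights. FAR: WI_stopG, sum over y: 8 M / G. NEAR: s = s1 ++ v, s1 in FC M i (gf_FC_le in NearB0), the
landed theorem near (t in FC (y + 1) d is in Brd d, y < d) for v (h ≥ D) or the trivial bound uu h (h < D); t in LG (y + 1)
is cut at its first cut at or above M (LG_dec), the rest of t has total weight ≤ 1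
(gf_LG_le): the sum over i of g2 (FC M i) (LG (y + 1)) V2 is at most th M. -/
theorem near_VS : ∃ C : ℝ, 0 < C ∧ ∀ M G D : ℕ, 1 ≤ M → 1 ≤ G → 1 ≤ D →
    ∑ y ∈ Finset.Ico (4 * M) (8 * M), g2 (Brd y) (LG (y + 1)) V2 ≤ ENNReal.ofReal (8 * M / G) +
      th M * ENNReal.ofReal (C * (G / D) * UU (8 * M) + UU D) := by
  classical
  obtain ⟨C, hC, hnear⟩ := near
  refine ⟨C, hC, fun M G D hM hG hD => ?_⟩
  have hGr : (1 : ℝ) ≤ G := by exact_mod_cast hG
  have hDr : (1 : ℝ) ≤ D := by exact_mod_cast hD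
  obtain ⟨cr, hcr⟩ : ∃ cr : ℕ → ℝ, cr = fun h => if h < D then uu h else C * (G * (uu h / h)) := ⟨_, rfl⟩
  have hu0 : ∀ h, 0 ≤ uu h := fun h => (uu_pos h).le
  have hcr0 : ∀ h, 0 ≤ cr h := by
    intro h
    rw [hcr]
    show 0 ≤ (if h < D then uu h else C * (G * (uu h / h)))
    split_ifs
    · exact hu0 h
    · have := hu0 h
      positivity
  have hc : ∀ y : ℕ, ∀ (h b : ℕ), y < b → ∀ t ∈ Brd b, ∀ x0 : ℤ,
      gf {v | v ∈ Brd h ∧ (∀ i, InRow t y i → x0 + latE v < lat t i + 2) ∧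
        ¬ (∀ i, InRow t y i → x0 + latE v + (G : ℤ) ≤ lat t i + 2)} ≤ ENNReal.ofReal (cr h) := by
    intro y h b hy t ht x0
    rw [hcr]
    show _ ≤ ENNReal.ofReal (if h < D then uu h else C * (G * (uu h / h)))
    split_ifs with h1
    · rw [← BT_eq_uu, ← gf_Brd]
      exact gf_mono fun v hv => hv.1
    · exact hnear h (by omega) b y hy t ht x0 G
  -- one height
  have hone : ∀ y ∈ Finset.Ico (4 * M) (8 * M), g2 (Brd y) (LG (y + 1)) V2 ≤ ENNReal.ofReal (2 / G) +
      ∑ j ∈ Finset.Icc M y, g2 (FC M j) (LG M) V2 * ENNReal.ofReal (cr (y - j)) := by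
    intro y hy
    rw [Finset.mem_Ico] at hy
    have h1 := block_one' (M := M) (y := y) (by omega) (G : ℤ) (fun h => ENNReal.ofReal (cr h)) (hc y)
    have h2 : g2 (Brd y) (LG (y + 1)) (fun s t => V2 s t ∧ Gap s t y G) ≤ ENNReal.ofReal (2 / G) :=
      GapK (by omega) hG
    refine le_trans ?_ (add_le_add h2 h1)
    unfold g2
    refine le_trans (ENNReal.tsum_mono_subtype (fun p : List Bool × List Bool => wE p.1 * wE p.2) ?_)
      (ENNReal.tsum_union_le (fun p : List Bool × List Bool => wE p.1 * wE p.2) _ _)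
    rintro p ⟨hp1, hp2, hp3⟩
    by_cases h3 : Gap p.1 p.2 y G
    · exact Or.inl ⟨hp1, hp2, hp3, h3⟩
    · exact Or.inr ⟨hp1, hp2, hp3, h3⟩
  -- the numbers
  have hnum : ∑ h ∈ Finset.range (8 * M), cr h ≤ C * (G / D) * UU (8 * M) + UU D := by
    have h1 : ∀ h ∈ Finset.range (8 * M), cr h ≤ (if h < D then uu h else 0) + C * (G / D) * uu h := by
      intro h _
      rw [hcr]
      show (if h < D then uu h else C * (G * (uu h / h))) ≤ _
      have h0 := hu0 h
      split_ifs with h2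
      · have : 0 ≤ C * (G / D) * uu h := by positivity
        linarith
      · rw [zero_add]
        have h3 : (D : ℝ) ≤ h := by exact_mod_cast (by omega : D ≤ h)
        have h4 : uu h / h ≤ uu h / D := div_le_div_of_nonneg_left h0 (by linarith) h3
        calc C * (G * (uu h / h)) ≤ C * (G * (uu h / D)) := by gcongr
          _ = C * (G / D) * uu h := by ring
    refine (Finset.sum_le_sum h1).trans ?_
    rw [Finset.sum_add_distrib, ← Finset.mul_sum, add_comm]
    have h5 : ∑ h ∈ Finset.range (8 * M), uu h ≤ UU (8 * M) := by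
      unfold UU
      exact Finset.sum_le_sum_of_subset_of_nonneg (Finset.range_subset_range.2 (by omega)) (fun h _ _ => hu0 h)
    have h6 : ∑ h ∈ Finset.range (8 * M), (if h < D then uu h else 0) ≤ UU D := by
      unfold UU
      rw [← Finset.sum_filter]
      refine Finset.sum_le_sum_of_subset_of_nonneg ?_ (fun h _ _ => hu0 h)
      intro h hh
      rw [Finset.mem_filter, Finset.mem_range] at hh
      rw [Finset.mem_range]
      omega
    have h7 : 0 ≤ C * ((G : ℝ) / D) := by positivity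
    exact add_le_add (mul_le_mul_of_nonneg_left h5 h7) h6
  -- the first cuts
  have hth : ∑ j ∈ Finset.Ico M (8 * M), g2 (FC M j) (LG M) V2 ≤ th M := by
    unfold th
    simp_rw [g2_gfF' _ (LG M), sum_gfF]
    refine gfF_mono le_rfl fun t _ => ?_
    rw [← gf_biUnion (Finset.Ico M (8 * M)) (fun j => {s | s ∈ FC M j ∧ V2 s t})]
    · apply gf_mono
      intro w hw
      simp only [Set.mem_iUnion] at hw
      obtain ⟨d, _, hw, hv⟩ := hw
      exact ⟨⟨d, hw⟩, hv⟩
    · intro d _ d' _ hne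
      rw [Set.disjoint_left]
      rintro w ⟨hw, _⟩ ⟨hw', _⟩
      exact hne (Brd_height hw.1 hw'.1)
  calc ∑ y ∈ Finset.Ico (4 * M) (8 * M), g2 (Brd y) (LG (y + 1)) V2
      ≤ ∑ y ∈ Finset.Ico (4 * M) (8 * M), (ENNReal.ofReal (2 / G) +
        ∑ j ∈ Finset.Icc M y, g2 (FC M j) (LG M) V2 * ENNReal.ofReal (cr (y - j))) := Finset.sum_le_sum hone
    _ = (4 * M : ℕ) * ENNReal.ofReal (2 / G) + ∑ y ∈ Finset.Ico (4 * M) (8 * M),
        ∑ j ∈ Finset.Icc M y, g2 (FC M j) (LG M) V2 * ENNReal.ofReal (cr (y - j)) := by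
        rw [Finset.sum_add_distrib, Finset.sum_const, Nat.card_Ico, nsmul_eq_mul,
          show 8 * M - 4 * M = 4 * M by omega]
    _ ≤ ENNReal.ofReal (8 * M / G) + th M * ENNReal.ofReal (C * (G / D) * UU (8 * M) + UU D) := by
        refine add_le_add (le_of_eq ?_) ?_
        · rw [← ENNReal.ofReal_natCast, ← ENNReal.ofReal_mul (Nat.cast_nonneg _)]
          congr 1
          push_cast
          ring
        · refine (block_swap M (fun j => g2 (FC M j) (LG M) V2) (fun h => ENNReal.ofReal (cr h))).trans ?_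
          refine mul_le_mul' hth ?_
          rw [← ENNReal.ofReal_sum_of_nonneg (fun h _ => hcr0 h)]
          exact ENNReal.ofReal_le_ofReal hnum

end HexObs
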