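import Pool.Agent.PHW5.Basic5
import Pool.Agent.PHW.Order
import Pool.Agent.PHW.WallStrong
import Pool.Agent.PHW.EqTop

/-!
PHW5, S5i: the lateral offset of the states.
-/

set_option autoImplicit false

namespace HexObs

open Complex Finset ENNReal

/-- pairs with a weight -/
noncomputable def g2F (A B : Set (List Bool)) (R : List Bool → List Bool → Prop) (F : List Bool → List Bool → ℝ≥0∞) :
    ℝ≥0∞ := gfF A (fun s => gfF {t | t ∈ B ∧ R s t} (fun t => F s t))

open Classical in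
lemma gfF_ind (A : Set (List Bool)) (F : List Bool → ℝ≥0∞) :
    gfF A F = ∑' t : List Bool, if t ∈ A then wE t * F t else 0 := by
  unfold gfF
  rw [tsum_subtype A (fun t => wE t * F t)]
  exact tsum_congr fun t => by simp only [Set.indicator_apply]

open Classical in
lemma g2F_ind (A B : Set (List Bool)) (R : List Bool → List Bool → Prop) (F : List Bool → List Bool → ℝ≥0∞) :
    g2F A B R F = ∑' s : List Bool, ∑' t : List Bool, if s ∈ A ∧ t ∈ B ∧ R s t then wE s * wE t * F s t else 0 := by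
  unfold g2F
  rw [gfF_ind]
  refine tsum_congr fun s => ?_
  by_cases hs : s ∈ A
  · rw [if_pos hs, gfF_ind, ← ENNReal.tsum_mul_left]
    refine tsum_congr fun t => ?_
    by_cases ht : t ∈ B ∧ R s t
    · have h' : t ∈ {t | t ∈ B ∧ R s t} := ht
      rw [if_pos h', if_pos ⟨hs, ht⟩, mul_assoc]
    · have h' : ¬ t ∈ {t | t ∈ B ∧ R s t} := ht
      rw [if_neg h', if_neg (fun h => ht h.2), mul_zero]
  · rw [if_neg hs]
    symm
    rw [ENNReal.tsum_eq_zero]
    intro t
    rw [if_neg (fun h => hs h.1)]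

lemma g2F_one (A B : Set (List Bool)) (R : List Bool → List Bool → Prop) : g2F A B R (fun _ _ => 1) = g2 A B R := by
  classical
  rw [g2F_ind, g2_ind]
  simp only [mul_one]

lemma g2F_mono {A A' B B' : Set (List Bool)} {R R' : List Bool → List Bool → Prop} {F F' : List Bool → List Bool → ℝ≥0∞}
    (hA : A ⊆ A') (hB : B ⊆ B') (hR : ∀ s t, s ∈ A → t ∈ B → R s t → R' s t)
    (hF : ∀ s t, s ∈ A → t ∈ B → R s t → F s t ≤ F' s t) : g2F A B R F ≤ g2F A' B' R' F' := by
  classical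
  rw [g2F_ind, g2F_ind]
  refine ENNReal.tsum_le_tsum fun s => ENNReal.tsum_le_tsum fun t => ?_
  by_cases h : s ∈ A ∧ t ∈ B ∧ R s t
  · rw [if_pos h, if_pos ⟨hA h.1, hB h.2.1, hR s t h.1 h.2.1 h.2.2⟩]
    exact mul_le_mul_right (hF s t h.1 h.2.1 h.2.2) _
  · rw [if_neg h]
    exact zero_le

lemma g2F_add (A B : Set (List Bool)) (R : List Bool → List Bool → Prop) (F F' : List Bool → List Bool → ℝ≥0∞) :
    g2F A B R (fun s t => F s t + F' s t) = g2F A B R F + g2F A B R F' := by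
  unfold g2F
  rw [← gfF_add]
  congr 1
  funext s
  exact gfF_add _ _ _

lemma g2F_mul (A B : Set (List Bool)) (R : List Bool → List Bool → Prop) (c : ℝ≥0∞) (F : List Bool → List Bool → ℝ≥0∞) :
    g2F A B R (fun s t => c * F s t) = c * g2F A B R F := by
  unfold g2F
  rw [← gfF_mul]
  congr 1
  funext s
  exact gfF_mul _ _ _

lemma g2F_tsum (A B : Set (List Bool)) (R : List Bool → List Bool → Prop) (F : ℕ → List Bool → List Bool → ℝ≥0∞) :
    g2F A B R (fun s t => ∑' G : ℕ, F G s t) = ∑' G : ℕ, g2F A B R (F G) := by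
  classical
  simp_rw [g2F_ind]
  rw [ENNReal.tsum_comm (α := ℕ) (β := List Bool)]
  refine tsum_congr fun s => ?_
  rw [ENNReal.tsum_comm (α := ℕ) (β := List Bool)]
  refine tsum_congr fun t => ?_
  by_cases h : s ∈ A ∧ t ∈ B ∧ R s t
  · simp only [if_pos h]
    rw [ENNReal.tsum_mul_left]
  · simp only [if_neg h]
    rw [tsum_zero]

open Classical in
lemma g2F_ite (A B : Set (List Bool)) (R S : List Bool → List Bool → Prop) :
    g2F A B R (fun s t => if S s t then 1 else 0) = g2 A B (fun s t => R s t ∧ S s t) := by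
  rw [g2F_ind, g2_ind]
  refine tsum_congr fun s => tsum_congr fun t => ?_
  by_cases h : s ∈ A ∧ t ∈ B ∧ R s t
  · by_cases hS : S s t
    · rw [if_pos h, if_pos hS, if_pos ⟨h.1, h.2.1, h.2.2, hS⟩, mul_one]
    · rw [if_pos h, if_neg hS, if_neg (fun h' => hS h'.2.2.2), mul_zero]
  · rw [if_neg h, if_neg (fun h' => h ⟨h'.1, h'.2.1, h'.2.2.1⟩)]

/-- mirror image, with weights -/
lemma g2F_mirror (A B : Set (List Bool)) (R : List Bool → List Bool → Prop) (F : List Bool → List Bool → ℝ≥0∞) :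
    g2F A B R F = g2F {t | t.map not ∈ B} {t | t.map not ∈ A} (fun s t => R (t.map not) (s.map not))
      (fun s t => F (t.map not) (s.map not)) := by
  classical
  let e : List Bool ≃ List Bool := ⟨fun t => t.map not, fun t => t.map not, map_not_not, map_not_not⟩
  rw [g2F_ind, g2F_ind, ENNReal.tsum_comm, ← Equiv.tsum_eq e]
  refine tsum_congr fun s => ?_
  rw [← Equiv.tsum_eq e]
  refine tsum_congr fun t => ?_
  show (if t.map not ∈ A ∧ s.map not ∈ B ∧ R (t.map not) (s.map not) then wE (t.map not) * wE (s.map not) *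
    F (t.map not) (s.map not) else 0) = _
  by_cases h : t.map not ∈ A ∧ s.map not ∈ B ∧ R (t.map not) (s.map not)
  · have h' : s ∈ {t : List Bool | t.map not ∈ B} ∧ t ∈ {t : List Bool | t.map not ∈ A} ∧ R (t.map not) (s.map not) :=
      ⟨h.2.1, h.1, h.2.2⟩
    rw [if_pos h, if_pos h', wE_not, wE_not, mul_comm (wE t)]
  · have h' : ¬ (s ∈ {t : List Bool | t.map not ∈ B} ∧ t ∈ {t : List Bool | t.map not ∈ A} ∧ R (t.map not) (s.map not)) :=
      fun h' => h ⟨h'.2.1, h'.1, h'.2.2⟩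
    rw [if_neg h, if_neg h']

lemma offs_not (s t : List Bool) : offs (t.map not) (s.map not) = offs s t := by
  unfold offs
  rw [latE_not, latE_not]
  congr 1
  ring

/-- a triple sum -/
lemma gfF_triple (A B D : Set (List Bool)) (R : List Bool → List Bool → List Bool → Prop) (F : List Bool → ℝ≥0∞) :
    gfF A (fun s => gfF B (fun t => gfF {P | P ∈ D ∧ R s t P} F)) = gfF D (fun P => F P * g2 A B (fun s t => R s t P)) := by
  classical
  have h1 : gfF A (fun s => gfF B (fun t => gfF {P | P ∈ D ∧ R s t P} F)) = ∑' s : List Bool, ∑' t : List Bool,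
      ∑' P : List Bool, if s ∈ A ∧ t ∈ B ∧ P ∈ D ∧ R s t P then wE s * (wE t * (wE P * F P)) else 0 := by
    rw [gfF_ind]
    refine tsum_congr fun s => ?_
    by_cases hs : s ∈ A
    · rw [if_pos hs, gfF_ind, ← ENNReal.tsum_mul_left]
      refine tsum_congr fun t => ?_
      by_cases ht : t ∈ B
      · rw [if_pos ht, gfF_ind, ← ENNReal.tsum_mul_left, ← ENNReal.tsum_mul_left]
        refine tsum_congr fun P => ?_
        by_cases hP : P ∈ D ∧ R s t P
        · have h' : P ∈ {P | P ∈ D ∧ R s t P} := hP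
          rw [if_pos h', if_pos ⟨hs, ht, hP⟩]
        · have h' : ¬ P ∈ {P | P ∈ D ∧ R s t P} := hP
          rw [if_neg h', if_neg (fun h => hP h.2.2), mul_zero, mul_zero]
      · rw [if_neg ht, mul_zero]
        symm
        rw [ENNReal.tsum_eq_zero]
        intro P
        rw [if_neg (fun h => ht h.2.1)]
    · rw [if_neg hs]
      symm
      rw [ENNReal.tsum_eq_zero]
      intro t
      rw [ENNReal.tsum_eq_zero]
      intro P
      rw [if_neg (fun h => hs h.1)]
  rw [h1, gfF_ind]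
  have h2 : ∀ P : List Bool, (if P ∈ D then wE P * (F P * g2 A B (fun s t => R s t P)) else 0) =
      ∑' s : List Bool, ∑' t : List Bool, if s ∈ A ∧ t ∈ B ∧ P ∈ D ∧ R s t P then wE s * (wE t * (wE P * F P)) else 0 := by
    intro P
    by_cases hP : P ∈ D
    · rw [if_pos hP, g2_ind, ← mul_assoc, ← ENNReal.tsum_mul_left]
      refine tsum_congr fun s => ?_
      rw [← ENNReal.tsum_mul_left]
      refine tsum_congr fun t => ?_
      by_cases h : s ∈ A ∧ t ∈ B ∧ R s t P
      · rw [if_pos h, if_pos ⟨h.1, h.2.1, hP, h.2.2⟩]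
        ring
      · rw [if_neg h, if_neg (fun h' => h ⟨h'.1, h'.2.1, h'.2.2.2⟩), mul_zero]
    · rw [if_neg hP]
      symm
      rw [ENNReal.tsum_eq_zero]
      intro s
      rw [ENNReal.tsum_eq_zero]
      intro t
      rw [if_neg (fun h => hP h.2.2.1)]
  simp_rw [h2]
  rw [ENNReal.tsum_comm (α := List Bool) (β := List Bool)
    (f := fun P s => ∑' t : List Bool, if s ∈ A ∧ t ∈ B ∧ P ∈ D ∧ R s t P then wE s * (wE t * (wE P * F P)) else 0)]
  refine tsum_congr fun s => ?_
  rw [ENNReal.tsum_comm]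

/-- number of G with distance at least G + 1 -/
noncomputable def gapN (s t : List Bool) (a : ℕ) : ℝ≥0∞ := by
  classical exact ∑' G : ℕ, if Gap s t a ((G : ℤ) + 1) then 1 else 0

lemma fw_off {δ : ℝ} (hδ : 0 < δ) (hδ' : δ ≤ 1) {n g e o : ℕ} (h : o ≤ g + 2 * e) :
    fw δ n o ≤ 3 * fw δ n e + ENNReal.ofReal (1 / 2 ^ n) * g := by
  unfold fw
  have e3 : (3 : ℝ≥0∞) = ENNReal.ofReal 3 := by simp
  rw [e3, ← ENNReal.ofReal_natCast g, ← ENNReal.ofReal_mul (by norm_num), ← ENNReal.ofReal_mul (by positivity),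
    ← ENNReal.ofReal_add (by positivity) (by positivity)]
  apply ENNReal.ofReal_le_ofReal
  have h' : (o : ℝ) ≤ g + 2 * e := by exact_mod_cast h
  obtain ⟨A, hA⟩ : ∃ A : ℝ, A = 1 + 2 * (e : ℝ) / 2 ^ n := ⟨_, rfl⟩
  obtain ⟨y, hy⟩ : ∃ y : ℝ, y = (g : ℝ) / 2 ^ n := ⟨_, rfl⟩
  have hA1 : 1 ≤ A := by
    rw [hA]
    have : (0 : ℝ) ≤ 2 * (e : ℝ) / 2 ^ n := by positivity
    linarith
  have hy0 : 0 ≤ y := by rw [hy]; positivity
  have h1 : 1 + (o : ℝ) / 2 ^ n ≤ A * (1 + y / A) := by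
    have e1 : A * (1 + y / A) = A + y := by field_simp
    rw [e1, hA, hy]
    have e2 : (o : ℝ) / 2 ^ n ≤ (g + 2 * e) / 2 ^ n := by gcongr
    have e3 : ((g : ℝ) + 2 * e) / 2 ^ n = g / 2 ^ n + 2 * e / 2 ^ n := by ring
    linarith
  have h2 : (1 + (o : ℝ) / 2 ^ n) ^ δ ≤ (A * (1 + y / A)) ^ δ := Real.rpow_le_rpow (by positivity) h1 hδ.le
  have h3 : (A * (1 + y / A)) ^ δ = A ^ δ * (1 + y / A) ^ δ := Real.mul_rpow (by linarith) (by positivity)
  have h4 : (1 + y / A) ^ δ ≤ 1 + y / A := by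
    have hb : 1 ≤ 1 + y / A := by
      have : 0 ≤ y / A := by positivity
      linarith
    conv_rhs => rw [← Real.rpow_one (1 + y / A)]
    exact Real.rpow_le_rpow_of_exponent_le hb hδ'
  have h5 : A ^ δ ≤ A := by
    conv_rhs => rw [← Real.rpow_one A]
    exact Real.rpow_le_rpow_of_exponent_le hA1 hδ'
  have h6 : A ^ δ * (1 + y / A) ^ δ ≤ A ^ δ + y := by
    have hAd : 0 ≤ A ^ δ := by positivity
    calc A ^ δ * (1 + y / A) ^ δ ≤ A ^ δ * (1 + y / A) := by gcongr
      _ = A ^ δ + A ^ δ / A * y := by ring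
      _ ≤ A ^ δ + 1 * y := by
        gcongr
        rw [div_le_one (by linarith)]
        exact h5
      _ = A ^ δ + y := by ring
  have h7 : A ^ δ ≤ 2 * (1 + (e : ℝ) / 2 ^ n) ^ δ := by
    have e1 : A ≤ 2 * (1 + (e : ℝ) / 2 ^ n) := by
      rw [hA]
      have e2 : 2 * (1 + (e : ℝ) / 2 ^ n) = 2 + 2 * (e : ℝ) / 2 ^ n := by ring
      linarith
    calc A ^ δ ≤ (2 * (1 + (e : ℝ) / 2 ^ n)) ^ δ := Real.rpow_le_rpow (by linarith) e1 hδ.le
      _ = 2 ^ δ * (1 + (e : ℝ) / 2 ^ n) ^ δ := Real.mul_rpow (by norm_num) (by positivity)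
      _ ≤ 2 * (1 + (e : ℝ) / 2 ^ n) ^ δ := by
        gcongr
        conv_rhs => rw [← Real.rpow_one (2 : ℝ)]
        exact Real.rpow_le_rpow_of_exponent_le (by norm_num) hδ'
  have h8 : (0 : ℝ) ≤ (1 + (e : ℝ) / 2 ^ n) ^ δ := by positivity
  have e9 : 1 / 2 ^ n * (g : ℝ) = y := by
    rw [hy]
    ring
  rw [e9]
  linarith

/-- the offset of a state: the gap and the extent of the last piece -/
lemma off_point {δ : ℝ} (hδ : 0 < δ) (hδ' : δ ≤ 1) (n : ℕ) {a c r : ℕ} {s t P : List Bool} (hs : s ∈ Brd a)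
    (ht : t ∈ Brd c) (hP : P ∈ Irr r) (hc : c ≤ a) (h : V2 s (t ++ P)) :
    fw δ n (offs s (t ++ P)) ≤ 3 * fw δ n (extP P) + ENNReal.ofReal (1 / 2 ^ n) * gapN s (t ++ P) a := by
  classical
  have _ := hP
  have hε : ENNReal.ofReal (1 / 2 ^ n) ≠ 0 := by
    rw [Ne, ENNReal.ofReal_eq_zero]
    exact not_le.2 (by positivity)
  by_cases hall : ∀ G : ℕ, Gap s (t ++ P) a ((G : ℤ) + 1)
  · have e1 : gapN s (t ++ P) a = ∞ := by
      unfold gapN
      simp only [hall, if_true]
      exact ENNReal.tsum_const_eq_top_of_ne_zero one_ne_zero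
    rw [e1, ENNReal.mul_top hε, add_top]
    exact le_top
  · push Not at hall
    have hex : ∃ G : ℕ, ¬ Gap s (t ++ P) a ((G : ℤ) + 1) := hall
    set G0 := Nat.find hex with hG0
    have h1 : ¬ Gap s (t ++ P) a ((G0 : ℤ) + 1) := Nat.find_spec hex
    have h2 : ∀ G < G0, Gap s (t ++ P) a ((G : ℤ) + 1) := fun G hG => not_not.1 (Nat.find_min hex hG)
    have h3 : Gap s (t ++ P) a 1 := h.2.1 a 0 s [] hs nil_mem_Brd (by rw [List.append_nil])
    unfold Gap at h1
    push Not at h1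
    obtain ⟨i, hi, hlt⟩ := h1
    have h4 := h3 i hi
    obtain ⟨hi1, hi2⟩ := hi
    have hti : t.length < i := by
      by_contra hcon
      push Not at hcon
      rw [lev_append (by omega)] at hi2
      rcases Nat.eq_zero_or_pos i with h0 | h0
      · rw [h0, lev_zero] at hi2
        omega
      · have := ((mem_Brd.1 ht).1 i h0 hcon).2
        omega
    obtain ⟨k, rfl⟩ : ∃ k, i = t.length + k := ⟨i - t.length, by omega⟩
    rw [List.length_append] at hi1
    have e1 : lat (t ++ P) (t.length + k) = latE t + lat P k := by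
      rw [lat_cat (mem_Brd.1 ht).2.2.1, latE]
    have e2 : latE (t ++ P) = latE t + latE P := latE_cat (mem_Brd.1 ht).2.2.1
    have e3 := abs_le_extP (t := P) (i := k) (by omega)
    have e4 := abs_latE_le P
    rw [abs_le] at e3 e4
    have h5 : offs s (t ++ P) ≤ G0 + 2 * extP P := by
      unfold offs
      rw [e1] at hlt h4
      rw [e2]
      omega
    refine (fw_off hδ hδ' h5).trans ?_
    gcongr
    unfold gapN
    refine le_trans ?_ (ENNReal.sum_le_tsum (Finset.range G0))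
    rw [Finset.sum_congr rfl (fun G hG => if_pos (h2 G (Finset.mem_range.1 hG))), Finset.sum_const, Finset.card_range,
      nsmul_eq_mul, mul_one]

lemma g2F_gapN (A B : Set (List Bool)) (a : ℕ) : g2F A B V2 (fun s t => gapN s t a) ≤
    ∑' G : ℕ, g2 A B (fun s t => Dj s t ∧ Gap s t a (G + 1)) := by
  classical
  unfold gapN
  rw [g2F_tsum]
  refine ENNReal.tsum_le_tsum fun G => ?_
  rw [g2F_ite]
  exact g2_mono (subset_refl _) (subset_refl _) fun s t _ _ h => ⟨h.1.1, h.2⟩

lemma sum_gapN (a n : ℕ) : ∑ d ∈ blk n, g2F (Brd a) (FC (a + 1) d) V2 (fun s t => gapN s t a) ≤ 2 := by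
  refine (Finset.sum_le_sum fun d _ => g2F_gapN _ _ a).trans ?_
  exact (ENNReal.sum_le_tsum (blk n)).trans (WI_stop (Nat.lt_succ_self a))

lemma blk_card (j : ℕ) : (blk j).card ≤ 2 ^ j := by
  unfold blk
  rw [Nat.card_Ico]
  exact Nat.sub_le _ _

/-- the offset of the states -/
theorem off_state {δ : ℝ} (hδ : 0 < δ) (hδ' : δ ≤ 1) : ∃ C : ℝ, 0 < C ∧ ∀ j n : ℕ, j ≤ n →
    ∑ a ∈ blk j, ∑ d ∈ blk n, gfF (Brd a) (fun s => gfF {t | t ∈ FC (a + 1) d ∧ V2 s t} (fun t => fw δ n (offs s t))) ≤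
      ENNReal.ofReal C * (SW (fw δ n) j n + ENNReal.ofReal ((2 : ℝ) ^ (-(n - j : ℝ)))) := by
  classical
  refine ⟨3, by norm_num, ?_⟩
  intro j n hjn
  set W : ℕ → List Bool → List Bool → ℝ≥0∞ := fun a s t =>
    fw δ n (offs s t) - ENNReal.ofReal (1 / 2 ^ n) * gapN s t a with hW
  -- splitting
  have h1 : ∀ a d : ℕ, gfF (Brd a) (fun s => gfF {t | t ∈ FC (a + 1) d ∧ V2 s t} (fun t => fw δ n (offs s t))) ≤
      g2F (Brd a) (FC (a + 1) d) V2 (W a) +
        ENNReal.ofReal (1 / 2 ^ n) * g2F (Brd a) (FC (a + 1) d) V2 (fun s t => gapN s t a) := by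
    intro a d
    rw [← g2F_mul, ← g2F_add]
    change g2F (Brd a) (FC (a + 1) d) V2 (fun s t => fw δ n (offs s t)) ≤ _
    exact g2F_mono (subset_refl _) (subset_refl _) (fun _ _ _ _ h => h) fun s t _ _ _ => le_tsub_add
  -- the extent part
  set Y : ℕ → ℕ → ℕ → ℝ≥0∞ := fun a c r =>
    gfF (Irr r) (fun P => 3 * fw δ n (extP P) * g2 (Brd a) (Brd c) (fun s t => V2 s (t ++ P))) with hY
  have h2 : ∀ a d : ℕ, g2F (Brd a) (FC (a + 1) d) V2 (W a) ≤ if a < d then ∑ c ∈ Finset.range (a + 1), Y a c (d - c) else 0 := by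
    intro a d
    by_cases had : a < d
    · rw [if_pos had]
      have h3 : ∀ s ∈ Brd a, gfF {t | t ∈ FC (a + 1) d ∧ V2 s t} (fun t => W a s t) ≤
          ∑ c ∈ Finset.range (a + 1), gfF (Brd c) (fun t0 => gfF {P | P ∈ Irr (d - c) ∧ V2 s (t0 ++ P)}
            (fun P => 3 * fw δ n (extP P))) := by
        intro s hs
        refine (gfF_dec_sum (Finset.range (a + 1)) (A := fun c => Brd c)
          (B := fun c t0 => {P | P ∈ Irr (d - c) ∧ V2 s (t0 ++ P)}) (fun t => W a s t) ?_).trans ?_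
        · rintro t ⟨ht, hV⟩
          obtain ⟨c, r, t0, P, hc, hr, ht0, hP, rfl⟩ := LG_last (a := a) ⟨d, ht⟩
          have e : c + r = d := Brd_height (Brd_append ht0 hP.1) ht.1
          refine ⟨c, Finset.mem_range.2 (by omega), t0, P, ht0, ⟨?_, hV⟩, rfl⟩
          rwa [show d - c = r by omega]
        · refine Finset.sum_le_sum fun c hc => ?_
          rw [Finset.mem_range] at hc
          refine gfF_mono (subset_refl _) fun t0 ht0 => gfF_mono (subset_refl _) fun P hP => ?_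
          rw [hW]
          exact tsub_le_iff_right.2 (off_point hδ hδ' n hs ht0 hP.1 (by omega) hP.2)
      calc g2F (Brd a) (FC (a + 1) d) V2 (W a) ≤ gfF (Brd a) (fun s => ∑ c ∈ Finset.range (a + 1),
            gfF (Brd c) (fun t0 => gfF {P | P ∈ Irr (d - c) ∧ V2 s (t0 ++ P)} (fun P => 3 * fw δ n (extP P)))) :=
            gfF_mono (subset_refl _) h3
        _ = ∑ c ∈ Finset.range (a + 1), gfF (Brd a) (fun s =>
            gfF (Brd c) (fun t0 => gfF {P | P ∈ Irr (d - c) ∧ V2 s (t0 ++ P)} (fun P => 3 * fw δ n (extP P)))) := by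
            unfold gfF
            simp_rw [Finset.mul_sum]
            rw [Summable.tsum_finsetSum (fun _ _ => ENNReal.summable)]
        _ = ∑ c ∈ Finset.range (a + 1), Y a c (d - c) := by
            refine Finset.sum_congr rfl fun c _ => ?_
            rw [hY]
            exact gfF_triple (Brd a) (Brd c) (Irr (d - c)) (fun s t P => V2 s (t ++ P)) (fun P => 3 * fw δ n (extP P))
    · rw [if_neg had]
      have e : FC (a + 1) d = ∅ := by
        ext t
        rw [Set.mem_empty_iff_false, iff_false]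
        rintro ⟨_, h3, _⟩
        omega
      rw [e]
      unfold g2F
      refine le_of_eq ?_
      rw [gfF_ind, ENNReal.tsum_eq_zero]
      intro s
      have e2 : gfF {t | t ∈ (∅ : Set (List Bool)) ∧ V2 s t} (fun t => W a s t) = 0 := by
        rw [gfF_ind, ENNReal.tsum_eq_zero]
        intro t
        rw [if_neg]
        rintro ⟨h, _⟩
        exact h
      rw [e2, mul_zero]
      split_ifs <;> rfl
  have h4 : ∀ a : ℕ, ∑ d ∈ blk n, g2F (Brd a) (FC (a + 1) d) V2 (W a) ≤
      3 * ∑ c ∈ Finset.range (a + 1), ∑ r ∈ (Finset.range (2 ^ n)).filter (fun r => a < c + r ∧ c + r ∈ blk n),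
        gfF (Irr r) (fun P => fw δ n (extP P) * g2 (Brd a) (Brd c) (fun s t => V2 s (t ++ P))) := by
    intro a
    refine (Finset.sum_le_sum fun d _ => h2 a d).trans ?_
    rw [← Finset.sum_filter, Finset.sum_comm, Finset.mul_sum]
    refine Finset.sum_le_sum fun c hc => ?_
    rw [Finset.mem_range] at hc
    have e1 : ∀ r : ℕ, Y a c r = 3 * gfF (Irr r) (fun P => fw δ n (extP P) * g2 (Brd a) (Brd c) (fun s t => V2 s (t ++ P))) := by
      intro r
      rw [hY, ← gfF_mul]
      simp only [mul_assoc]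
    simp_rw [e1]
    rw [← Finset.mul_sum]
    gcongr
    rw [← Finset.sum_image (f := fun r => gfF (Irr r) (fun P => fw δ n (extP P) * g2 (Brd a) (Brd c)
      (fun s t => V2 s (t ++ P)))) (g := fun d => d - c)]
    · apply Finset.sum_le_sum_of_subset
      intro r hr
      rw [Finset.mem_image] at hr
      obtain ⟨d, hd, rfl⟩ := hr
      rw [Finset.mem_filter] at hd
      obtain ⟨hd1, hd2⟩ := hd
      have hd3 := hd1
      unfold blk at hd3
      rw [Finset.mem_Ico] at hd3
      rw [Finset.mem_filter, Finset.mem_range]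
      refine ⟨by omega, by omega, ?_⟩
      rwa [show c + (d - c) = d by omega]
    · intro d hd d' hd' hdd
      rw [Finset.mem_coe, Finset.mem_filter] at hd hd'
      simp only at hdd
      omega
  have h5 : ∑ a ∈ blk j, ∑ d ∈ blk n, gfF (Brd a) (fun s => gfF {t | t ∈ FC (a + 1) d ∧ V2 s t}
      (fun t => fw δ n (offs s t))) ≤ ∑ a ∈ blk j, (3 * ∑ c ∈ Finset.range (a + 1),
        ∑ r ∈ (Finset.range (2 ^ n)).filter (fun r => a < c + r ∧ c + r ∈ blk n),
        gfF (Irr r) (fun P => fw δ n (extP P) * g2 (Brd a) (Brd c) (fun s t => V2 s (t ++ P))) +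
          ENNReal.ofReal (1 / 2 ^ n) * 2) := by
    refine Finset.sum_le_sum fun a _ => ?_
    refine (Finset.sum_le_sum fun d _ => h1 a d).trans ?_
    rw [Finset.sum_add_distrib, ← Finset.mul_sum]
    exact add_le_add (h4 a) (mul_le_mul_right (sum_gapN a n) _)
  refine h5.trans ?_
  rw [Finset.sum_add_distrib, ← Finset.mul_sum, Finset.sum_const, nsmul_eq_mul]
  have e3 : ENNReal.ofReal 3 = 3 := by simp
  rw [e3, mul_add]
  refine add_le_add (le_refl _) ?_
  have hcard : ((blk j).card : ℝ≥0∞) ≤ ENNReal.ofReal (2 ^ j) := by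
    have : ((blk j).card : ℝ) ≤ 2 ^ j := by exact_mod_cast blk_card j
    rw [← ENNReal.ofReal_natCast]
    exact ENNReal.ofReal_le_ofReal this
  have e2 : (2 : ℝ≥0∞) = ENNReal.ofReal 2 := by simp
  refine (mul_le_mul_left hcard _).trans ?_
  rw [e2, ← e3, ← ENNReal.ofReal_mul (by positivity), ← ENNReal.ofReal_mul (by positivity), ← ENNReal.ofReal_mul (by norm_num)]
  apply ENNReal.ofReal_le_ofReal
  have e4 : (2 : ℝ) ^ (-(n - j : ℝ)) = 2 ^ j * (1 / 2 ^ n) := by
    rw [neg_sub, Real.rpow_sub (by norm_num), Real.rpow_natCast, Real.rpow_natCast]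
    ring
  rw [e4]
  have : (0 : ℝ) < 2 ^ j * (1 / 2 ^ n) := by positivity
  nlinarith

/-- equal heights, distance of the ends -/
lemma g2F_offs {a : ℕ} (ha : 1 ≤ a) : g2F (Brd a) (Brd a) V2 (fun s t => (offs s t : ℝ≥0∞)) ≤ 2 * BT a := by
  classical
  refine le_trans ?_ (EQ_strong ha)
  have h1 : g2F (Brd a) (Brd a) V2 (fun s t => (offs s t : ℝ≥0∞)) ≤
      g2F (Brd a) (Brd a) V2 (fun s t => ∑' G : ℕ, if latE s + (G + 1) ≤ latE t + 2 then 1 else 0) := by
    refine g2F_mono (subset_refl _) (subset_refl _) (fun _ _ _ _ h => h) fun s t hs ht hV => ?_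
    have ho := Dj_order ha hs ht hV.1
    refine le_trans ?_ (ENNReal.sum_le_tsum (Finset.range (offs s t)))
    have h2 : ∀ G ∈ Finset.range (offs s t), (if latE s + ((G : ℤ) + 1) ≤ latE t + 2 then (1 : ℝ≥0∞) else 0) = 1 := by
      intro G hG
      rw [Finset.mem_range] at hG
      unfold offs at hG
      rw [if_pos]
      omega
    rw [Finset.sum_congr rfl h2, Finset.sum_const, Finset.card_range, nsmul_eq_mul, mul_one]
  refine h1.trans ?_
  rw [g2F_tsum]
  refine ENNReal.tsum_le_tsum fun G => ?_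
  have e := g2F_ite (Brd a) (Brd a) V2 (fun s t => latE s + ((G : ℤ) + 1) ≤ latE t + 2)
  refine le_trans (le_of_eq ?_) (le_trans (le_of_eq e) ?_)
  · congr 1
    funext s t
    congr
  exact g2_mono (subset_refl _) (subset_refl _) fun s t _ _ h => ⟨h.1.1, h.2⟩

lemma gg_ofReal {a : ℕ} (ha : 1 ≤ a) : g2 (Brd a) (Brd a) V2 ≤
    ENNReal.ofReal (2 * (1 + Real.sqrt 2) ^ 3 * (uu a ^ 2 / UU a)) := by
  have h1 : g2 (Brd a) (Brd a) V2 ≤ gg a a := by
    rw [gg_eq_g2]
    exact g2_mono (subset_refl _) (subset_refl _) fun s t _ _ h => h.1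
  refine h1.trans ?_
  have h2 : gg a a ≠ ∞ := by
    rw [gg_eq_g2]
    refine ne_top_of_le_ne_top ?_ (g2_le_mul (Brd a) (Brd a) Dj)
    rw [gf_Brd, BT_eq_uu]
    exact ENNReal.mul_ne_top ENNReal.ofReal_ne_top ENNReal.ofReal_ne_top
  rw [← ENNReal.ofReal_toReal h2]
  exact ENNReal.ofReal_le_ofReal (gg_top a ha)

/-- equal heights -/
theorem off_eq : ∃ C : ℝ, 0 < C ∧ ∀ j : ℕ,
    ∑ a ∈ blk j, gfF (Brd a) (fun s => gfF {t | t ∈ Brd a ∧ V2 s t} (fun t => fw 1 j (offs s t))) ≤ ENNReal.ofReal C := by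
  classical
  refine ⟨3 + 2 * (1 + Real.sqrt 2) ^ 3, by positivity, ?_⟩
  intro j
  have hfw : ∀ x : ℕ, fw 1 j x = 1 + ENNReal.ofReal (1 / 2 ^ j) * (x : ℝ≥0∞) := by
    intro x
    unfold fw
    rw [Real.rpow_one, ENNReal.ofReal_add (by norm_num) (by positivity), ENNReal.ofReal_one, ← ENNReal.ofReal_natCast x,
      ← ENNReal.ofReal_mul (by positivity)]
    congr 2
    ring
  rcases Nat.eq_zero_or_pos j with hj | hj
  · subst hj
    rw [blk_zero, Finset.sum_singleton]
    have h1 : gfF (Brd 0) (fun s => gfF {t | t ∈ Brd 0 ∧ V2 s t} (fun t => fw 1 0 (offs s t))) ≤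
        gfF (Brd 0) (fun s => gfF (Brd 0) (fun t => 3)) := by
      refine gfF_mono (subset_refl _) fun s hs => gfF_mono (fun t ht => ht.1) fun t ht => ?_
      have hs' : s = [] := by
        rw [Brd_zero] at hs
        exact hs
      have ht' : t = [] := by
        have := ht.1
        rw [Brd_zero] at this
        exact this
      rw [hfw, hs', ht']
      have e : offs [] [] = 2 := by decide
      rw [e]
      norm_num
    refine h1.trans ?_
    have h2 : gfF (Brd 0) (fun _ => (3 : ℝ≥0∞)) = 3 := by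
      have := gfF_mul (Brd 0) 3 (fun _ => 1)
      rw [gfF_one, gf_Brd, BT_eq_uu, uu_zero] at this
      simpa using this
    rw [h2, h2]
    have e3 : (3 : ℝ≥0∞) = ENNReal.ofReal 3 := by simp
    rw [e3]
    apply ENNReal.ofReal_le_ofReal
    have : (0 : ℝ) ≤ 2 * (1 + Real.sqrt 2) ^ 3 := by positivity
    linarith
  · obtain ⟨M, hM⟩ : ∃ M : ℕ, M = 2 ^ (j - 1) := ⟨_, rfl⟩
    have hM1 : 1 ≤ M := by rw [hM]; exact Nat.one_le_two_pow
    have e2 : 2 ^ j = 2 * M := by rw [hM]; exact two_pow_block hj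
    have hblk : blk j = Finset.Ico M (2 * M) := by
      unfold blk
      rw [e2, Nat.mul_div_cancel_left M (by norm_num)]
    have hU := Num2Aux.UU_pos M
    have hu := uu_pos M
    have h1 : ∀ a ∈ blk j, gfF (Brd a) (fun s => gfF {t | t ∈ Brd a ∧ V2 s t} (fun t => fw 1 j (offs s t))) ≤
        ENNReal.ofReal (2 * (1 + Real.sqrt 2) ^ 3 / M + 3 / (2 * M)) := by
      intro a ha
      rw [hblk, Finset.mem_Ico] at ha
      have ha1 : 1 ≤ a := by omega
      have h2 : gfF (Brd a) (fun s => gfF {t | t ∈ Brd a ∧ V2 s t} (fun t => fw 1 j (offs s t))) =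
          g2 (Brd a) (Brd a) V2 + ENNReal.ofReal (1 / 2 ^ j) * g2F (Brd a) (Brd a) V2 (fun s t => (offs s t : ℝ≥0∞)) := by
        rw [← g2F_one, ← g2F_mul, ← g2F_add]
        simp_rw [hfw]
        rfl
      rw [h2]
      have h3 := gg_ofReal ha1
      have h4 := g2F_offs ha1
      have h5 : (2 : ℝ≥0∞) * BT a ≤ ENNReal.ofReal 2 := by
        have e : (2 : ℝ≥0∞) = ENNReal.ofReal 2 := by simp
        rw [BT_eq_uu]
        calc (2 : ℝ≥0∞) * ENNReal.ofReal (uu a) ≤ 2 * ENNReal.ofReal 1 := by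
              gcongr
              exact uu_le_one a
          _ = ENNReal.ofReal 2 := by simp
      refine (add_le_add h3 (mul_le_mul_right (h4.trans h5) _)).trans ?_
      rw [← ENNReal.ofReal_mul (by positivity), ← ENNReal.ofReal_add (by have := Num2Aux.UU_pos a; positivity) (by positivity)]
      apply ENNReal.ofReal_le_ofReal
      have e3 : (2 : ℝ) ^ j = 2 * M := by exact_mod_cast e2
      have hM' : (0 : ℝ) < M := by exact_mod_cast hM1
      have h6 : uu a ^ 2 / UU a ≤ 1 / M := by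
        have hUa := Num2Aux.UU_pos a
        have h7 : uu a ≤ uu M := uu_anti ha.1
        have h8 : UU M ≤ UU a := Num2Aux.UU_mono ha.1
        have h9 := Num2Aux.mul_le_UU M
        have h10 := uu_le_one a
        have h11 := (uu_pos a).le
        rw [div_le_div_iff₀ hUa hM']
        have h12 : uu a ^ 2 ≤ uu M := by nlinarith
        nlinarith
      have h13 : (0 : ℝ) ≤ 2 * (1 + Real.sqrt 2) ^ 3 := by positivity
      have h14 : 2 * (1 + Real.sqrt 2) ^ 3 * (uu a ^ 2 / UU a) ≤ 2 * (1 + Real.sqrt 2) ^ 3 / M := by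
        calc 2 * (1 + Real.sqrt 2) ^ 3 * (uu a ^ 2 / UU a) ≤ 2 * (1 + Real.sqrt 2) ^ 3 * (1 / M) :=
              mul_le_mul_of_nonneg_left h6 h13
          _ = _ := by ring
      rw [e3]
      have h15 : 1 / (2 * (M : ℝ)) * 2 ≤ 3 / (2 * M) := by
        rw [div_mul_eq_mul_div, one_mul]
        gcongr
        norm_num
      linarith
    refine (Finset.sum_le_sum h1).trans ?_
    rw [Finset.sum_const, nsmul_eq_mul, hblk, Nat.card_Ico, show 2 * M - M = M by omega, ← ENNReal.ofReal_natCast,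
      ← ENNReal.ofReal_mul (by positivity)]
    apply ENNReal.ofReal_le_ofReal
    have hM' : (0 : ℝ) < M := by exact_mod_cast hM1
    have e4 : (M : ℝ) * (2 * (1 + Real.sqrt 2) ^ 3 / M + 3 / (2 * M)) = 2 * (1 + Real.sqrt 2) ^ 3 + 3 / 2 := by
      field_simp
    rw [e4]
    linarith

end HexObs
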