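import Mathlib

/-!
PHW5, S5j: solution of the recursion (pure numbers).
-/

set_option autoImplicit false

namespace HexObs

open ENNReal

private lemma geo {a : ℝ} (ha : 0 < a) (j : ℕ) (s : Finset ℕ) (hs : s ⊆ Finset.range (j + 1)) :
    ∑ i ∈ s, (2 : ℝ) ^ (-(a * ((j : ℝ) - i))) ≤ (1 - (2 : ℝ) ^ (-a))⁻¹ := by
  have hr0 : 0 ≤ (2 : ℝ) ^ (-a) := by positivity
  have hr1 : (2 : ℝ) ^ (-a) < 1 := Real.rpow_lt_one_of_one_lt_of_neg (by norm_num) (by linarith)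
  calc ∑ i ∈ s, (2 : ℝ) ^ (-(a * ((j : ℝ) - i))) ≤
      ∑ i ∈ Finset.range (j + 1), (2 : ℝ) ^ (-(a * ((j : ℝ) - i))) :=
        Finset.sum_le_sum_of_subset_of_nonneg hs (fun i _ _ => by positivity)
    _ = ∑ i ∈ Finset.range (j + 1), ((2 : ℝ) ^ (-a)) ^ i := by
        rw [← Finset.sum_range_reflect]
        apply Finset.sum_congr rfl
        intro i hi
        rw [Finset.mem_range] at hi
        have h1 : ((j + 1 - 1 - i : ℕ) : ℝ) = (j : ℝ) - i := by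
          rw [Nat.add_sub_cancel, Nat.cast_sub (by omega)]
        rw [h1, ← Real.rpow_natCast, ← Real.rpow_mul (by norm_num)]
        congr 1
        ring
    _ ≤ ∑' i : ℕ, ((2 : ℝ) ^ (-a)) ^ i :=
        (summable_geometric_of_lt_one hr0 hr1).sum_le_tsum _ (fun i _ => by positivity)
    _ = _ := tsum_geometric_of_lt_one hr0 hr1

private lemma dbl {γ δ : ℝ} (hγ : 0 < γ) (hγδ : γ < δ) (j : ℕ) :
    ∑ i ∈ Finset.range (j - 1), ∑ i' ∈ Finset.Icc i j,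
      (2 : ℝ) ^ (-(γ * ((i' : ℝ) - i))) * (2 : ℝ) ^ (-(δ * ((j : ℝ) - i'))) ≤
        (1 - (2 : ℝ) ^ (-(δ - γ)))⁻¹ * (1 - (2 : ℝ) ^ (-γ))⁻¹ := by
  have hpos : 0 ≤ (1 - (2 : ℝ) ^ (-(δ - γ)))⁻¹ := by
    have : (2 : ℝ) ^ (-(δ - γ)) < 1 := Real.rpow_lt_one_of_one_lt_of_neg (by norm_num) (by linarith)
    rw [inv_nonneg]
    linarith
  calc ∑ i ∈ Finset.range (j - 1), ∑ i' ∈ Finset.Icc i j,
      (2 : ℝ) ^ (-(γ * ((i' : ℝ) - i))) * (2 : ℝ) ^ (-(δ * ((j : ℝ) - i'))) =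
      ∑ i ∈ Finset.range (j - 1), (∑ i' ∈ Finset.Icc i j, (2 : ℝ) ^ (-((δ - γ) * ((j : ℝ) - i')))) *
        (2 : ℝ) ^ (-(γ * ((j : ℝ) - i))) := by
        apply Finset.sum_congr rfl
        intro i _
        rw [Finset.sum_mul]
        apply Finset.sum_congr rfl
        intro i' _
        rw [← Real.rpow_add (by norm_num), ← Real.rpow_add (by norm_num)]
        congr 1
        ring
    _ ≤ ∑ i ∈ Finset.range (j - 1), (1 - (2 : ℝ) ^ (-(δ - γ)))⁻¹ * (2 : ℝ) ^ (-(γ * ((j : ℝ) - i))) := by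
        apply Finset.sum_le_sum
        intro i _
        apply mul_le_mul_of_nonneg_right _ (by positivity)
        apply geo (by linarith)
        intro x hx
        rw [Finset.mem_Icc] at hx
        rw [Finset.mem_range]
        omega
    _ = (1 - (2 : ℝ) ^ (-(δ - γ)))⁻¹ * ∑ i ∈ Finset.range (j - 1), (2 : ℝ) ^ (-(γ * ((j : ℝ) - i))) := by
        rw [Finset.mul_sum]
    _ ≤ _ := by
        apply mul_le_mul_of_nonneg_left _ hpos
        apply geo hγ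
        intro x hx
        rw [Finset.mem_range] at hx ⊢
        omega

/-- one term of the double sum. -/
private lemma one_term {γ δ A l l' x : ℝ} {w : ℝ≥0∞} {y : ℝ} (hγ1 : γ ≤ 1) (hA : 0 ≤ A) (hl : 1 ≤ l)
    (hll : l ≤ l') (hx : 0 ≤ x) (h1 : w ≤ ENNReal.ofReal (A * l * (2 : ℝ) ^ (-(γ * x)))) :
    (w + ENNReal.ofReal ((2 : ℝ) ^ (-x))) * ENNReal.ofReal ((2 : ℝ) ^ (-(δ * y))) ≤
      ENNReal.ofReal ((A + 1) * l' * ((2 : ℝ) ^ (-(γ * x)) * (2 : ℝ) ^ (-(δ * y)))) := by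
  have hl0 : 0 ≤ l := by linarith
  have hl0' : 0 ≤ l' := by linarith
  have h3 : (2 : ℝ) ^ (-x) ≤ (2 : ℝ) ^ (-(γ * x)) := by
    apply Real.rpow_le_rpow_of_exponent_le (by norm_num)
    nlinarith
  have h4 : 0 ≤ (2 : ℝ) ^ (-(γ * x)) := by positivity
  have h2 : w + ENNReal.ofReal ((2 : ℝ) ^ (-x)) ≤ ENNReal.ofReal ((A + 1) * l' * (2 : ℝ) ^ (-(γ * x))) := by
    refine (add_le_add_left h1 _).trans ?_
    rw [← ENNReal.ofReal_add (by positivity) (by positivity)]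
    apply ENNReal.ofReal_le_ofReal
    have h5 : A * l * (2 : ℝ) ^ (-(γ * x)) ≤ A * l' * (2 : ℝ) ^ (-(γ * x)) :=
      mul_le_mul_of_nonneg_right (mul_le_mul_of_nonneg_left hll hA) h4
    have h6 : (2 : ℝ) ^ (-(γ * x)) ≤ l' * (2 : ℝ) ^ (-(γ * x)) :=
      le_mul_of_one_le_left h4 (by linarith)
    calc A * l * (2 : ℝ) ^ (-(γ * x)) + (2 : ℝ) ^ (-x) ≤
        A * l' * (2 : ℝ) ^ (-(γ * x)) + l' * (2 : ℝ) ^ (-(γ * x)) := add_le_add h5 (h3.trans h6)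
      _ = (A + 1) * l' * (2 : ℝ) ^ (-(γ * x)) := by ring
  refine (mul_le_mul_left h2 _).trans (le_of_eq ?_)
  rw [← ENNReal.ofReal_mul (by positivity)]
  congr 1
  ring

/-- the double sum. -/
private lemma dbl_sum {γ δ A : ℝ} (hγ : 0 < γ) (hγδ : γ < δ) (hγ1 : γ ≤ 1) (hA : 0 ≤ A) {L : ℕ → ℝ}
    (hmono : Monotone L) (hL1 : ∀ j, 1 ≤ L j) {W : ℕ → ℕ → ℝ≥0∞} {j : ℕ}
    (ih : ∀ i, i < j → ∀ n, i ≤ n → W i n ≤ ENNReal.ofReal (A * L i * (2 : ℝ) ^ (-(γ * (n - i : ℝ))))) :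
    ∑ i ∈ Finset.range (j - 1), ∑ i' ∈ Finset.Icc i j,
        (W i i' + ENNReal.ofReal ((2 : ℝ) ^ (-(i' - i : ℝ)))) * ENNReal.ofReal ((2 : ℝ) ^ (-(δ * (j - i' : ℝ)))) ≤
      ENNReal.ofReal ((A + 1) * L j * ((1 - (2 : ℝ) ^ (-(δ - γ)))⁻¹ * (1 - (2 : ℝ) ^ (-γ))⁻¹)) := by
  have hL0 : 0 ≤ L j := by linarith [hL1 j]
  calc ∑ i ∈ Finset.range (j - 1), ∑ i' ∈ Finset.Icc i j,
      (W i i' + ENNReal.ofReal ((2 : ℝ) ^ (-(i' - i : ℝ)))) * ENNReal.ofReal ((2 : ℝ) ^ (-(δ * (j - i' : ℝ)))) ≤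
      ∑ i ∈ Finset.range (j - 1), ∑ i' ∈ Finset.Icc i j, ENNReal.ofReal ((A + 1) * L j *
        ((2 : ℝ) ^ (-(γ * ((i' : ℝ) - i))) * (2 : ℝ) ^ (-(δ * ((j : ℝ) - i'))))) := by
        apply Finset.sum_le_sum
        intro i hi
        apply Finset.sum_le_sum
        intro i' hi'
        rw [Finset.mem_range] at hi
        rw [Finset.mem_Icc] at hi'
        have hii' : (0 : ℝ) ≤ (i' : ℝ) - i := by
          have : (i : ℝ) ≤ i' := by exact_mod_cast hi'.1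
          linarith
        exact one_term hγ1 hA (hL1 i) (hmono (by omega)) hii' (ih i (by omega) i' hi'.1)
    _ = ENNReal.ofReal (∑ i ∈ Finset.range (j - 1), ∑ i' ∈ Finset.Icc i j, ((A + 1) * L j *
        ((2 : ℝ) ^ (-(γ * ((i' : ℝ) - i))) * (2 : ℝ) ^ (-(δ * ((j : ℝ) - i')))))) := by
        rw [ENNReal.ofReal_sum_of_nonneg (fun i _ => Finset.sum_nonneg fun i' _ => by positivity)]
        apply Finset.sum_congr rfl
        intro i _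
        rw [ENNReal.ofReal_sum_of_nonneg (fun i' _ => by positivity)]
    _ ≤ _ := by
        apply ENNReal.ofReal_le_ofReal
        simp only [← Finset.mul_sum]
        apply mul_le_mul_of_nonneg_left _ (by positivity)
        exact dbl hγ hγδ j

/-- far blocks. -/
private lemma far {γ κ s C' l x m : ℝ} (hs : 0 ≤ s) (hl : 0 ≤ l) (hγκ : γ < κ)
    (hm1 : 2 * C' ≤ (2 : ℝ) ^ ((κ - γ) * m)) (hmx : m ≤ x) :
    2 * C' * s ^ 2 * l * (2 : ℝ) ^ (-(κ * x)) ≤ s ^ 2 * l * (2 : ℝ) ^ (-(γ * x)) := by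
  have h1 : (2 : ℝ) ^ (-(κ * x)) = (2 : ℝ) ^ (-((κ - γ) * x)) * (2 : ℝ) ^ (-(γ * x)) := by
    rw [← Real.rpow_add (by norm_num)]
    congr 1
    ring
  have h2 : 2 * C' * (2 : ℝ) ^ (-((κ - γ) * x)) ≤ 1 := by
    calc 2 * C' * (2 : ℝ) ^ (-((κ - γ) * x)) ≤ (2 : ℝ) ^ ((κ - γ) * m) * (2 : ℝ) ^ (-((κ - γ) * x)) :=
          mul_le_mul_of_nonneg_right hm1 (by positivity)
      _ = (2 : ℝ) ^ ((κ - γ) * m + -((κ - γ) * x)) := by
          rw [Real.rpow_add (by norm_num)]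
      _ ≤ (2 : ℝ) ^ (0 : ℝ) := by
          apply Real.rpow_le_rpow_of_exponent_le (by norm_num)
          have : (κ - γ) * m ≤ (κ - γ) * x := mul_le_mul_of_nonneg_left hmx (by linarith)
          linarith
      _ = 1 := Real.rpow_zero _
  rw [h1]
  calc 2 * C' * s ^ 2 * l * ((2 : ℝ) ^ (-((κ - γ) * x)) * (2 : ℝ) ^ (-(γ * x))) =
      (2 * C' * (2 : ℝ) ^ (-((κ - γ) * x))) * (s ^ 2 * l * (2 : ℝ) ^ (-(γ * x))) := by ring
    _ ≤ 1 * (s ^ 2 * l * (2 : ℝ) ^ (-(γ * x))) := mul_le_mul_of_nonneg_right h2 (by positivity)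
    _ = s ^ 2 * l * (2 : ℝ) ^ (-(γ * x)) := one_mul _

/-- near blocks. -/
private lemma near {γ δ s C' l x m B : ℝ} (hδ : 0 < δ) (hs : 1 ≤ s) (hl : 0 ≤ l) (hγ : 0 ≤ γ)
    (hsM : ((2 : ℝ) ^ δ + 2 * C') * (2 : ℝ) ^ (γ * m) ≤ s) (hmx : x ≤ m) (hB1 : 1 ≤ B) (hBδ : B ^ δ = s) :
    (1 + B) ^ δ * l + B ^ (-δ) * (2 * C' * s ^ 2 * l) ≤ s ^ 2 * l * (2 : ℝ) ^ (-(γ * x)) := by
  have hs0 : 0 < s := by linarith
  have hBδ' : B ^ (-δ) = s⁻¹ := by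
    rw [Real.rpow_neg (by linarith), hBδ]
  have h1B : (1 + B) ^ δ ≤ (2 : ℝ) ^ δ * s := by
    rw [← hBδ, ← Real.mul_rpow (by norm_num) (by linarith)]
    apply Real.rpow_le_rpow (by linarith) _ hδ.le
    linarith
  have h3 : B ^ (-δ) * (2 * C' * s ^ 2 * l) = 2 * C' * s * l := by
    rw [hBδ']
    field_simp
  have h4 : (2 : ℝ) ^ (-(γ * m)) ≤ (2 : ℝ) ^ (-(γ * x)) := by
    apply Real.rpow_le_rpow_of_exponent_le (by norm_num)
    have : γ * x ≤ γ * m := mul_le_mul_of_nonneg_left hmx hγ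
    linarith
  have h5 : (2 : ℝ) ^ δ + 2 * C' ≤ s * (2 : ℝ) ^ (-(γ * m)) := by
    have h6 : (2 : ℝ) ^ (γ * m) * (2 : ℝ) ^ (-(γ * m)) = 1 := by
      rw [← Real.rpow_add (by norm_num), add_neg_cancel, Real.rpow_zero]
    calc (2 : ℝ) ^ δ + 2 * C' = ((2 : ℝ) ^ δ + 2 * C') * (2 : ℝ) ^ (γ * m) * (2 : ℝ) ^ (-(γ * m)) := by
          rw [mul_assoc, h6, mul_one]
      _ ≤ s * (2 : ℝ) ^ (-(γ * m)) := mul_le_mul_of_nonneg_right hsM (by positivity)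
  rw [h3]
  calc (1 + B) ^ δ * l + 2 * C' * s * l ≤ (2 : ℝ) ^ δ * s * l + 2 * C' * s * l :=
        add_le_add_left (mul_le_mul_of_nonneg_right h1B hl) _
    _ = ((2 : ℝ) ^ δ + 2 * C') * (s * l) := by ring
    _ ≤ (s * (2 : ℝ) ^ (-(γ * m))) * (s * l) := mul_le_mul_of_nonneg_right h5 (by positivity)
    _ = s ^ 2 * l * (2 : ℝ) ^ (-(γ * m)) := by ring
    _ ≤ s ^ 2 * l * (2 : ℝ) ^ (-(γ * x)) := mul_le_mul_of_nonneg_left h4 (by positivity)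

/-- the bound for W2. -/
private lemma w2_num {C S s l e : ℝ} (hC : 0 ≤ C) (hS : 0 ≤ S) (hs : 1 ≤ s) (hl : 0 ≤ l) (he : 0 ≤ e) :
    C * e * l + C * e * ((s ^ 2 + 1) * l * S) ≤ 2 * (C * (1 + S)) * s ^ 2 * l * e := by
  have h1 : C * e * l + C * e * ((s ^ 2 + 1) * l * S) = (C * l * e) * (1 + (s ^ 2 + 1) * S) := by ring
  have h2 : 2 * (C * (1 + S)) * s ^ 2 * l * e = (C * l * e) * (2 * s ^ 2 * (1 + S)) := by ring
  rw [h1, h2]
  apply mul_le_mul_of_nonneg_left _ (by positivity)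
  have h3 : 1 ≤ s ^ 2 := by nlinarith
  nlinarith [mul_nonneg hS (by linarith : (0 : ℝ) ≤ s ^ 2 - 1)]

/-- doc section 5. γ = min κ δ / 2; induction on j with W j n ≤ A L j 2 ^ (-γ (n - j)); for n - j ≥ m1 from W ≤ W2 and the
recursion; for n - j < m1 from htr with B ^ δ = sqrt A. -/
theorem solve_rec {δ κ C : ℝ} (hδ : 0 < δ) (hκ : 0 < κ) (hC : 0 < C) : ∃ A γ : ℝ, 0 < A ∧ 0 < γ ∧
    ∀ (L : ℕ → ℝ) (V W W2 : ℕ → ℕ → ℝ≥0∞), Monotone L → (∀ j, 1 ≤ L j) →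
    (∀ j n, j ≤ n → V j n ≤ ENNReal.ofReal (L j)) →
    (∀ j n, W j n ≤ W2 j n) →
    (∀ j n, ∀ B : ℝ, 1 ≤ B → W j n ≤ ENNReal.ofReal ((1 + B) ^ δ) * V j n + ENNReal.ofReal (B ^ (-δ)) * W2 j n) →
    (∀ j n, j ≤ 1 → j ≤ n → W2 j n ≤ ENNReal.ofReal (C * (2 : ℝ) ^ (-(κ * n)))) →
    (∀ j n, 2 ≤ j → j ≤ n → W2 j n ≤ ENNReal.ofReal (C * (2 : ℝ) ^ (-(κ * (n - j : ℝ))) * L j) +
      ENNReal.ofReal (C * (2 : ℝ) ^ (-(κ * (n - j : ℝ)))) * ∑ i ∈ Finset.range (j - 1), ∑ i' ∈ Finset.Icc i j,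
        (W i i' + ENNReal.ofReal ((2 : ℝ) ^ (-(i' - i : ℝ)))) * ENNReal.ofReal ((2 : ℝ) ^ (-(δ * (j - i' : ℝ))))) →
    ∀ j n, j ≤ n → W j n ≤ ENNReal.ofReal (A * L j * (2 : ℝ) ^ (-(γ * (n - j : ℝ)))) := by
  -- the exponent
  obtain ⟨γ, hγ, hγκ, hγδ, hγ1⟩ : ∃ γ : ℝ, 0 < γ ∧ γ < κ ∧ γ < δ ∧ γ ≤ 1 := by
    have h0 : 0 < min (min κ δ) 1 := lt_min (lt_min hκ hδ) one_pos
    have h1 : min (min κ δ) 1 ≤ κ := (min_le_left _ _).trans (min_le_left _ _)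
    have h2 : min (min κ δ) 1 ≤ δ := (min_le_left _ _).trans (min_le_right _ _)
    have h3 : min (min κ δ) 1 ≤ 1 := min_le_right _ _
    exact ⟨min (min κ δ) 1 / 2, by linarith, by linarith, by linarith, by linarith⟩
  -- the constants
  have hS : 0 ≤ (1 - (2 : ℝ) ^ (-(δ - γ)))⁻¹ * (1 - (2 : ℝ) ^ (-γ))⁻¹ := by
    have h1 : (2 : ℝ) ^ (-(δ - γ)) < 1 := Real.rpow_lt_one_of_one_lt_of_neg (by norm_num) (by linarith)
    have h2 : (2 : ℝ) ^ (-γ) < 1 := Real.rpow_lt_one_of_one_lt_of_neg (by norm_num) (by linarith)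
    apply mul_nonneg
    · rw [inv_nonneg]
      linarith
    · rw [inv_nonneg]
      linarith
  obtain ⟨S, hSdef⟩ : ∃ S : ℝ, S = (1 - (2 : ℝ) ^ (-(δ - γ)))⁻¹ * (1 - (2 : ℝ) ^ (-γ))⁻¹ := ⟨_, rfl⟩
  rw [← hSdef] at hS
  obtain ⟨C', hC'def⟩ : ∃ C' : ℝ, C' = C * (1 + S) := ⟨_, rfl⟩
  have hC' : 0 < C' := by
    rw [hC'def]
    positivity
  obtain ⟨m1, hm1⟩ := pow_unbounded_of_one_lt (2 * C')
    (Real.one_lt_rpow (x := 2) (z := κ - γ) (by norm_num) (by linarith))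
  have hm1' : 2 * C' ≤ (2 : ℝ) ^ ((κ - γ) * m1) := by
    rw [Real.rpow_mul (by norm_num), Real.rpow_natCast]
    exact hm1.le
  obtain ⟨s, hs1, hsC, hsM⟩ : ∃ s : ℝ, 1 ≤ s ∧ C ≤ s ∧ ((2 : ℝ) ^ δ + 2 * C') * (2 : ℝ) ^ (γ * m1) ≤ s := by
    have h0 : 0 ≤ ((2 : ℝ) ^ δ + 2 * C') * (2 : ℝ) ^ (γ * m1) := by positivity
    exact ⟨1 + C + ((2 : ℝ) ^ δ + 2 * C') * (2 : ℝ) ^ (γ * m1), by linarith, by linarith, by linarith⟩
  have hs0 : 0 < s := by linarith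
  have hAs : s ≤ s ^ 2 := by nlinarith
  refine ⟨s ^ 2, γ, by positivity, hγ, ?_⟩
  intro L V W W2 hmono hL1 hV hW hB h01 hrec j
  induction j using Nat.strong_induction_on with
  | _ j ih =>
  intro n hjn
  have hjn' : (0 : ℝ) ≤ (n : ℝ) - j := by
    have : (j : ℝ) ≤ n := by exact_mod_cast hjn
    linarith
  have hLj := hL1 j
  have hL0 : 0 ≤ L j := by linarith
  by_cases hj : j ≤ 1
  · refine (hW j n).trans ((h01 j n hj hjn).trans (ENNReal.ofReal_le_ofReal ?_))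
    have e1 : (2 : ℝ) ^ (-(κ * n)) ≤ (2 : ℝ) ^ (-(γ * (n - j : ℝ))) := by
      apply Real.rpow_le_rpow_of_exponent_le (by norm_num)
      have h1 : γ * (n - j : ℝ) ≤ γ * n := by
        apply mul_le_mul_of_nonneg_left _ hγ.le
        have : (0 : ℝ) ≤ j := Nat.cast_nonneg _
        linarith
      have h2 : γ * n ≤ κ * n := mul_le_mul_of_nonneg_right hγκ.le (Nat.cast_nonneg _)
      linarith
    have e2 : C ≤ s ^ 2 * L j := by
      have h3 : s ^ 2 ≤ s ^ 2 * L j := le_mul_of_one_le_right (by positivity) hLj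
      linarith
    exact (mul_le_mul_of_nonneg_left e1 hC.le).trans (mul_le_mul_of_nonneg_right e2 (by positivity))
  · have hj2 : 2 ≤ j := by omega
    have hds := dbl_sum hγ hγδ hγ1 (by positivity : 0 ≤ s ^ 2) hmono hL1 ih
    rw [← hSdef] at hds
    have hW2 : W2 j n ≤ ENNReal.ofReal (2 * C' * s ^ 2 * L j * (2 : ℝ) ^ (-(κ * (n - j : ℝ)))) := by
      refine (hrec j n hj2 hjn).trans ?_
      refine (add_le_add_right (mul_le_mul_right hds _) _).trans ?_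
      rw [← ENNReal.ofReal_mul (by positivity), ← ENNReal.ofReal_add (by positivity) (by positivity)]
      apply ENNReal.ofReal_le_ofReal
      rw [hC'def]
      exact w2_num hC.le hS hs1 hL0 (by positivity)
    by_cases hm : m1 ≤ n - j
    · have hmn : (m1 : ℝ) ≤ (n : ℝ) - j := by
        have h3 : ((m1 + j : ℕ) : ℝ) ≤ (n : ℝ) := by exact_mod_cast (by omega : m1 + j ≤ n)
        push_cast at h3
        linarith
      exact (hW j n).trans (hW2.trans (ENNReal.ofReal_le_ofReal (far hs0.le hL0 hγκ hm1' hmn)))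
    · have hmn : (n : ℝ) - j ≤ m1 := by
        have h3 : (n : ℝ) ≤ ((m1 + j : ℕ) : ℝ) := by exact_mod_cast (by omega : n ≤ m1 + j)
        push_cast at h3
        linarith
      obtain ⟨B, hB1, hBδ⟩ : ∃ B : ℝ, 1 ≤ B ∧ B ^ δ = s := by
        refine ⟨s ^ (1 / δ), Real.one_le_rpow hs1 (by positivity), ?_⟩
        rw [← Real.rpow_mul hs0.le, one_div, inv_mul_cancel₀ hδ.ne', Real.rpow_one]
      have hB0 : 0 ≤ B := by linarith
      have hW2' : W2 j n ≤ ENNReal.ofReal (2 * C' * s ^ 2 * L j) := by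
        refine hW2.trans (ENNReal.ofReal_le_ofReal ?_)
        apply mul_le_of_le_one_right (by positivity)
        apply Real.rpow_le_one_of_one_le_of_nonpos (by norm_num)
        have : 0 ≤ κ * (n - j : ℝ) := mul_nonneg hκ.le hjn'
        linarith
      refine (hB j n B hB1).trans ?_
      refine (add_le_add (mul_le_mul_right (hV j n hjn) _) (mul_le_mul_right hW2' _)).trans ?_
      rw [← ENNReal.ofReal_mul (by positivity), ← ENNReal.ofReal_mul (by positivity),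
        ← ENNReal.ofReal_add (by positivity) (by positivity)]
      exact ENNReal.ofReal_le_ofReal (near hδ hs1 hL0 hγ.le hsM hmn hB1 hBδ)

end HexObs
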