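import Mathlib

/-!
PHW5, S5j, part 2: boundedness of Lam from the closing inequality (pure numbers).
-/

set_option autoImplicit false

namespace HexObs

/-- real powers of two with a negative slope become small -/
theorem cn_small {γ D : ℝ} (hγ : 0 < γ) (hD : 0 < D) :
    ∃ N : ℕ, ∀ n : ℕ, N ≤ n → (2 : ℝ) ^ (-(γ * n)) ≤ D := by
  obtain ⟨N, hN⟩ := exists_nat_gt (-(Real.logb 2 D) / γ)
  refine ⟨N, fun n hn => ?_⟩
  have h1 : -(Real.logb 2 D) / γ < n := hN.trans_le (by exact_mod_cast hn)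
  rw [div_lt_iff₀ hγ] at h1
  have h2 : -(γ * n) ≤ Real.logb 2 D := by nlinarith
  calc (2 : ℝ) ^ (-(γ * n)) ≤ (2 : ℝ) ^ (Real.logb 2 D) :=
        Real.rpow_le_rpow_of_exponent_le (by norm_num) h2
    _ = D := Real.rpow_logb (by norm_num) (by norm_num) hD

/-- a small positive number with a small power -/
theorem cn_eps {c D : ℝ} (hc : 0 < c) (hD : 0 < D) : ∃ ε : ℝ, 0 < ε ∧ ε ≤ 1 ∧ ε ^ c ≤ D := by
  refine ⟨min 1 (D ^ (1 / c)), lt_min one_pos (Real.rpow_pos_of_pos hD _), min_le_left _ _, ?_⟩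
  have h0 : 0 ≤ min 1 (D ^ (1 / c)) := le_min zero_le_one (Real.rpow_pos_of_pos hD _).le
  calc (min 1 (D ^ (1 / c))) ^ c ≤ (D ^ (1 / c)) ^ c :=
        Real.rpow_le_rpow h0 (min_le_right _ _) hc.le
    _ = D := by rw [← Real.rpow_mul hD.le, one_div, inv_mul_cancel₀ hc.ne', Real.rpow_one]

/-- doc section 7: boundedness of Lam from the closing inequality -/
theorem close_num {C c γ : ℝ} (hC : 0 < C) (hc : 0 < c) (hγ : 0 < γ) (lam L : ℕ → ℝ) (h0 : ∀ k, 0 ≤ lam k)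
    (hL : ∀ (K : ℝ) (n : ℕ), (∀ i ≤ n, lam i ≤ K) → L n ≤ 1 + K)
    (h : ∀ (k m : ℕ) (ε η : ℝ), 2 ≤ m → 0 < ε → ε ≤ 1 → 0 < η → η ≤ 1 →
      lam (k + m) ≤ C * 2 ^ (2 * m) / (ε * η) + C * 2 ^ m * (η + (ε ^ c + (2 : ℝ) ^ (-(c * k))) / η) * lam k +
        C * (2 : ℝ) ^ (-(γ * m)) * L k) :
    ∃ K : ℝ, ∀ k, lam k ≤ K := by
  -- choice of m
  obtain ⟨N, hN⟩ := cn_small hγ (show (0 : ℝ) < 1 / (4 * C) by positivity)
  obtain ⟨m, hm2, hmN⟩ : ∃ m : ℕ, 2 ≤ m ∧ N ≤ m := ⟨max 2 N, le_max_left _ _, le_max_right _ _⟩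
  have hm : C * (2 : ℝ) ^ (-(γ * m)) ≤ 1 / 4 := by
    have := hN m hmN
    calc C * (2 : ℝ) ^ (-(γ * m)) ≤ C * (1 / (4 * C)) := mul_le_mul_of_nonneg_left this hC.le
      _ = 1 / 4 := by field_simp
  -- choice of η
  have hCm : 0 < C * 2 ^ m := by positivity
  obtain ⟨η, hη0, hη1, hη⟩ : ∃ η : ℝ, 0 < η ∧ η ≤ 1 ∧ C * 2 ^ m * η ≤ 1 / 8 := by
    refine ⟨min 1 (1 / (8 * (C * 2 ^ m))), lt_min one_pos (by positivity), min_le_left _ _, ?_⟩
    calc C * 2 ^ m * min 1 (1 / (8 * (C * 2 ^ m)))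
        ≤ C * 2 ^ m * (1 / (8 * (C * 2 ^ m))) := mul_le_mul_of_nonneg_left (min_le_right _ _) hCm.le
      _ = 1 / 8 := by field_simp
  -- choice of ε and of the first scale
  have hD : 0 < η / (16 * (C * 2 ^ m)) := by positivity
  obtain ⟨ε, hε0, hε1, hε⟩ := cn_eps hc hD
  obtain ⟨k0, hk0⟩ := cn_small hc hD
  have key : ∀ k : ℕ, k0 ≤ k → C * 2 ^ m * (η + (ε ^ c + (2 : ℝ) ^ (-(c * k))) / η) ≤ 1 / 4 := by
    intro k hk
    have h1 := hk0 k hk
    have h2 : (ε ^ c + (2 : ℝ) ^ (-(c * k))) / η ≤ (2 * (η / (16 * (C * 2 ^ m)))) / η := by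
      apply div_le_div_of_nonneg_right _ hη0.le
      linarith
    have h3 : C * 2 ^ m * ((2 * (η / (16 * (C * 2 ^ m)))) / η) = 1 / 8 := by
      field_simp
      norm_num
    have h4 : C * 2 ^ m * ((ε ^ c + (2 : ℝ) ^ (-(c * k))) / η) ≤ 1 / 8 := by
      rw [← h3]
      exact mul_le_mul_of_nonneg_left h2 hCm.le
    rw [mul_add]
    linarith
  -- the bound
  obtain ⟨M, hM⟩ : ∃ M : ℝ, ∀ i ∈ Finset.range (k0 + m + 1), lam i ≤ M := by
    obtain ⟨M, hM⟩ := (Finset.image lam (Finset.range (k0 + m + 1))).bddAbove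
    exact ⟨M, fun i hi => hM (Finset.mem_coe.2 (Finset.mem_image_of_mem lam hi))⟩
  set D : ℝ := C * 2 ^ (2 * m) / (ε * η) with hDdef
  have hD0 : 0 ≤ D := by positivity
  refine ⟨max M (2 * D + 1), ?_⟩
  have hK0 : 0 ≤ max M (2 * D + 1) := le_trans (by linarith) (le_max_right _ _)
  intro n
  induction n using Nat.strong_induction_on with
  | _ n ih =>
    by_cases hn : n < k0 + m + 1
    · exact (hM n (Finset.mem_range.2 hn)).trans (le_max_left _ _)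
    · obtain ⟨k, rfl⟩ : ∃ k, n = k + m := ⟨n - m, by omega⟩
      have hk : k0 ≤ k := by omega
      have h1 := h k m ε η hm2 hε0 hε1 hη0 hη1
      have h2 : lam k ≤ max M (2 * D + 1) := ih k (by omega)
      have h3 : L k ≤ 1 + max M (2 * D + 1) := hL _ k (fun i hi => ih i (by omega))
      have h4 : C * 2 ^ m * (η + (ε ^ c + (2 : ℝ) ^ (-(c * k))) / η) * lam k ≤
          1 / 4 * max M (2 * D + 1) :=
        mul_le_mul (key k hk) h2 (h0 k) (by norm_num)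
      have h5 : C * (2 : ℝ) ^ (-(γ * m)) * L k ≤ 1 / 4 * (1 + max M (2 * D + 1)) := by
        have h6 : 0 ≤ C * (2 : ℝ) ^ (-(γ * m)) := by positivity
        calc C * (2 : ℝ) ^ (-(γ * m)) * L k
            ≤ C * (2 : ℝ) ^ (-(γ * m)) * (1 + max M (2 * D + 1)) := mul_le_mul_of_nonneg_left h3 h6
          _ ≤ 1 / 4 * (1 + max M (2 * D + 1)) :=
              mul_le_mul_of_nonneg_right hm (by linarith)
      have h7 : 2 * D + 1 ≤ max M (2 * D + 1) := le_max_right _ _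
      linarith

end HexObs
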